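import Pool.Agent.helper132_ec.E1
import Pool.Agent.helper132_poly.V2

/-! Roots of polynomials modulo prime powers, and stationary phase for complete sums. -/

namespace Pool.Agent.helper132_h

open Finset Polynomial Pool.Agent.helper132_sph Pool.Agent.helper132_poly

/-- separated roots modulo a prime power. -/
lemma sep_roots (p : ℕ) (hp : p.Prime) (t : ℕ) : ∀ (D s : ℕ) (g : ℤ[X]), g.natDegree ≤ D →
    (∃ j, ¬ (p : ℤ) ∣ g.coeff j) → D * (t - 1) < s → ∀ u : Fin (D + 1) → ℤ,
    (∀ i, (p : ℤ) ^ s ∣ g.eval (u i)) → (∀ i j, i ≠ j → ¬ (p : ℤ) ^ t ∣ u i - u j) → False := by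
  have hpp : Prime (p : ℤ) := Nat.prime_iff_prime_int.1 hp
  intro D
  induction D with
  | zero =>
    intro s g hdeg hprim hs u hroot _
    rw [Polynomial.eq_C_of_natDegree_le_zero hdeg] at hroot hprim
    obtain ⟨j, hj⟩ := hprim
    have h0 := hroot 0
    rw [Polynomial.eval_C] at h0
    rw [Polynomial.coeff_C] at hj
    split_ifs at hj with hj0
    · exact hj ((dvd_pow_self _ (by omega)).trans h0)
    · exact hj (dvd_zero _)
  | succ D ih =>
    intro s g hdeg hprim hs u hroot hsep
    have ht : 1 ≤ t := by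
      rcases Nat.eq_zero_or_pos t with h0 | h0
      · exfalso
        refine hsep 0 (Fin.last _) ?_ ?_
        · exact (Fin.last_pos).ne
        · rw [h0, pow_zero]; exact one_dvd _
      · exact h0
    obtain ⟨a, ha⟩ : ∃ a, a = u (Fin.last _) := ⟨_, rfl⟩
    obtain ⟨g1, hg1⟩ := Polynomial.X_sub_C_dvd_sub_C_eval (a := a) (p := g)
    have hs1 : 1 ≤ s := by omega
    have hexp : (D + 1) * (t - 1) = D * (t - 1) + (t - 1) := by ring
    have hga : (p : ℤ) ^ s ∣ g.eval a := by rw [ha]; exact hroot _
    have hdeg1 : g1.natDegree ≤ D := by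
      by_cases h0 : g1 = 0
      · rw [h0]; simp
      have h1 : (g - C (g.eval a)).natDegree ≤ D + 1 := by
        refine (Polynomial.natDegree_sub_le _ _).trans ?_
        rw [Polynomial.natDegree_C]
        exact max_le hdeg (Nat.zero_le _)
      rw [hg1, Polynomial.natDegree_mul (Polynomial.X_sub_C_ne_zero a) h0, Polynomial.natDegree_X_sub_C] at h1
      omega
    have hprim1 : ∃ j, ¬ (p : ℤ) ∣ g1.coeff j := by
      by_contra hcon
      push Not at hcon
      obtain ⟨j, hj⟩ := hprim
      apply hj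
      have h1 : g = (X - C a) * g1 + C (g.eval a) := by rw [← hg1]; ring
      have h2 : g.coeff j = ((X - C a) * g1).coeff j + (C (g.eval a)).coeff j := by
        conv_lhs => rw [h1]
        rw [Polynomial.coeff_add]
      rw [h2]
      refine dvd_add ?_ ?_
      · rw [sub_mul, Polynomial.coeff_sub, Polynomial.coeff_C_mul]
        refine dvd_sub ?_ ((hcon j).mul_left _)
        cases j with
        | zero => rw [Polynomial.mul_coeff_zero, Polynomial.coeff_X_zero, zero_mul]; exact dvd_zero _
        | succ j => rw [Polynomial.coeff_X_mul]; exact hcon j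
      · rw [Polynomial.coeff_C]
        split_ifs
        · exact (dvd_pow_self _ (by omega)).trans hga
        · exact dvd_zero _
    refine ih (s - (t - 1)) g1 hdeg1 hprim1 (by omega) (fun i => u i.castSucc) ?_ ?_
    · intro i
      have h1 : (g - C (g.eval a)).eval (u i.castSucc) = (u i.castSucc - a) * g1.eval (u i.castSucc) := by
        rw [hg1, Polynomial.eval_mul, Polynomial.eval_sub, Polynomial.eval_X, Polynomial.eval_C]
      have h2 : (p : ℤ) ^ s ∣ (u i.castSucc - a) * g1.eval (u i.castSucc) := by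
        rw [← h1, Polynomial.eval_sub, Polynomial.eval_C]
        exact dvd_sub (hroot _) hga
      have h3 : ¬ (p : ℤ) ^ t ∣ u i.castSucc - a := by
        rw [ha]; exact hsep _ _ (Fin.castSucc_lt_last i).ne
      by_contra hcon
      -- p^t does not divide first factor, p^(s-(t-1)) does not divide second
      have key : ∀ (x y : ℤ) (n m : ℕ), ¬ (p : ℤ) ^ (n + 1) ∣ x → (p : ℤ) ^ (n + m) ∣ x * y → (p : ℤ) ^ m ∣ y := by
        intro x y n m hx hxy
        by_cases hx0 : x = 0
        · exact absurd (by rw [hx0]; exact dvd_zero _) hx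
        by_cases hy0 : y = 0
        · rw [hy0]; exact dvd_zero _
        have hfx : FiniteMultiplicity (p : ℤ) x := Int.finiteMultiplicity_iff.2 ⟨by
          rw [Int.natAbs_natCast]; exact hp.ne_one, hx0⟩
        have hfy : FiniteMultiplicity (p : ℤ) y := Int.finiteMultiplicity_iff.2 ⟨by
          rw [Int.natAbs_natCast]; exact hp.ne_one, hy0⟩
        have hxy0 : x * y ≠ 0 := mul_ne_zero hx0 hy0
        have hfxy : FiniteMultiplicity (p : ℤ) (x * y) := Int.finiteMultiplicity_iff.2 ⟨by
          rw [Int.natAbs_natCast]; exact hp.ne_one, hxy0⟩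
        have e1 := multiplicity_mul hpp hfxy
        have e2 : n + m ≤ multiplicity (p : ℤ) (x * y) := hfxy.le_multiplicity_of_pow_dvd hxy
        have e3 : multiplicity (p : ℤ) x ≤ n := by
          by_contra h
          push Not at h
          exact hx (hfx.pow_dvd_iff_le_multiplicity.2 h)
        exact hfy.pow_dvd_iff_le_multiplicity.2 (by omega)
      refine hcon (key (u i.castSucc - a) (g1.eval (u i.castSucc)) (t - 1) (s - (t - 1)) ?_ ?_)
      · rw [Nat.sub_add_cancel ht]; exact h3
      · rw [show t - 1 + (s - (t - 1)) = s by omega]; exact h2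
    · intro i j hij
      exact hsep _ _ (fun h => hij (Fin.castSucc_injective _ h))

/-- the number of roots modulo a prime power. -/
lemma card_roots (p : ℕ) (hp : p.Prime) (D s t i : ℕ) (g : ℤ[X]) (hdeg : g.natDegree ≤ D)
    (hprim : ∃ j, ¬ (p : ℤ) ∣ g.coeff j) (hs : D * (t - 1) < s) (hti : t ≤ i) :
    ((range (p ^ i)).filter (fun u => (p : ℤ) ^ s ∣ g.eval ((u : ℕ) : ℤ))).card ≤ D * p ^ (i - t) := by
  classical
  obtain ⟨Z, hZ⟩ : ∃ Z, Z = (range (p ^ i)).filter (fun u => (p : ℤ) ^ s ∣ g.eval ((u : ℕ) : ℤ)) := ⟨_, rfl⟩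
  rw [← hZ]
  have hpt : 0 < p ^ t := pow_pos hp.pos t
  have himg : (Z.image (fun u => u % p ^ t)).card ≤ D := by
    by_contra hcon
    push Not at hcon
    obtain ⟨S, hS1, hS2⟩ := Finset.exists_subset_card_eq (by omega : D + 1 ≤ (Z.image (fun u => u % p ^ t)).card)
    have hex : ∀ x : S, ∃ u, u ∈ Z ∧ u % p ^ t = x.1 := by
      intro x
      have := hS1 x.2
      rw [Finset.mem_image] at this
      exact this
    choose f hf using hex
    obtain ⟨e⟩ : Nonempty (Fin (D + 1) ≃ S) := ⟨(Fintype.equivFinOfCardEq (by rw [Fintype.card_coe, hS2])).symm⟩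
    refine sep_roots p hp t D s g hdeg hprim hs (fun j => ((f (e j) : ℕ) : ℤ)) ?_ ?_
    · intro j
      have := (hf (e j)).1
      rw [hZ, Finset.mem_filter] at this
      exact this.2
    · intro j j' hjj hdvd
      have h1 := (hf (e j)).2
      have h2 := (hf (e j')).2
      have h3 : f (e j) ≡ f (e j') [MOD p ^ t] := by
        rw [Nat.ModEq.comm, Nat.modEq_iff_dvd]
        push_cast
        exact hdvd
      have h4 : (e j).1 = (e j').1 := by rw [← h1, ← h2]; exact h3
      exact hjj (e.injective (Subtype.ext h4))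
  have hfib : ∀ v ∈ Z.image (fun u => u % p ^ t), (Z.filter (fun u => u % p ^ t = v)).card ≤ p ^ (i - t) := by
    intro v _
    have h1 : (Z.filter (fun u => u % p ^ t = v)).card ≤ (range (p ^ (i - t))).card := by
      refine Finset.card_le_card_of_injOn (fun u => u / p ^ t) ?_ ?_
      · intro u hu
        rw [Finset.mem_coe, Finset.mem_filter, hZ, Finset.mem_filter, Finset.mem_range] at hu
        rw [Finset.mem_coe, Finset.mem_range, Nat.div_lt_iff_lt_mul hpt, ← pow_add, Nat.sub_add_cancel hti]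
        exact hu.1.1
      · intro u hu u' hu' h
        rw [Finset.mem_coe, Finset.mem_filter] at hu hu'
        simp only at h
        rw [← Nat.div_add_mod u (p ^ t), ← Nat.div_add_mod u' (p ^ t), h, hu.2, hu'.2]
    rwa [Finset.card_range] at h1
  have h1 := Finset.card_le_mul_card_image Z (p ^ (i - t)) hfib
  calc Z.card ≤ p ^ (i - t) * (Z.image (fun u => u % p ^ t)).card := h1
    _ ≤ p ^ (i - t) * D := Nat.mul_le_mul_left _ himg
    _ = D * p ^ (i - t) := mul_comm _ _

/-- complete exponential sums. -/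
noncomputable def cs (q : ℕ) (f : ℤ[X]) : ℂ := ∑ n ∈ range q, ec (((f.eval ((n : ℕ) : ℤ) : ℤ) : ℝ) / q)

lemma norm_cs_le (q : ℕ) (f : ℤ[X]) : ‖cs q f‖ ≤ q := by
  unfold cs
  refine (norm_sum_le _ _).trans ?_
  simp [norm_ec]

lemma ec_div_congr (q : ℕ) (hq : 1 ≤ q) (a b : ℤ) (h : (q : ℤ) ∣ a - b) :
    ec ((a : ℝ) / q) = ec ((b : ℝ) / q) := by
  obtain ⟨w, hw⟩ := h
  have hqR : (q : ℝ) ≠ 0 := by exact_mod_cast (by omega : q ≠ 0)
  have h1 : (a : ℝ) = b + q * w := by
    have : a = b + q * w := by linarith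
    exact_mod_cast this
  have h2 : (a : ℝ) / q = b / q + (w : ℤ) := by rw [h1]; field_simp
  rw [h2, ec_add_int]

end Pool.Agent.helper132_h
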