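import Pool.Agent.helper132_quad.Q1
import Pool.Agent.helper132_poly.P4

/-! Duality and kernel sums. -/

namespace Pool.Agent.helper132_h

open Finset Pool.Agent.helper132_sph Pool.Agent.helper132_poly Pool.Agent.helper132_quad

/-- the duality principle. -/
lemma dual_ls {ι τ : Type} (Y : Finset ι) (T : Finset τ) (e : ι → τ → ℂ) (Δ : ℝ) (hΔ0 : 0 ≤ Δ)
    (hΔ : ∀ b : ι → ℂ, ∑ t ∈ T, ‖∑ y ∈ Y, b y * e y t‖ ^ 2 ≤ Δ * ∑ y ∈ Y, ‖b y‖ ^ 2) (a : τ → ℂ) :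
    ∑ y ∈ Y, ‖∑ t ∈ T, a t * e y t‖ ^ 2 ≤ Δ * ∑ t ∈ T, ‖a t‖ ^ 2 := by
  obtain ⟨b, hb⟩ : ∃ b : ι → ℂ, b = fun y => (starRingEnd ℂ) (∑ t ∈ T, a t * e y t) := ⟨_, rfl⟩
  obtain ⟨S, hS⟩ : ∃ S : ℝ, S = ∑ y ∈ Y, ‖∑ t ∈ T, a t * e y t‖ ^ 2 := ⟨_, rfl⟩
  have hS0 : 0 ≤ S := by rw [hS]; exact Finset.sum_nonneg fun _ _ => by positivity
  have hbn : ∑ y ∈ Y, ‖b y‖ ^ 2 = S := by
    rw [hS, hb]
    refine Finset.sum_congr rfl fun y _ => ?_
    rw [Complex.norm_conj]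
  have h1 : ((S : ℝ) : ℂ) = ∑ t ∈ T, a t * ∑ y ∈ Y, b y * e y t := by
    rw [hS]
    push_cast
    have e1 : ∀ y ∈ Y, ((‖∑ t ∈ T, a t * e y t‖ : ℂ)) ^ 2 = ∑ t ∈ T, a t * (b y * e y t) := by
      intro y _
      rw [← Complex.conj_mul', hb, Finset.mul_sum]
      refine Finset.sum_congr rfl fun t _ => ?_
      beta_reduce
      ring
    rw [Finset.sum_congr rfl e1, Finset.sum_comm]
    refine Finset.sum_congr rfl fun t _ => ?_
    rw [Finset.mul_sum]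
  have h2 : S ≤ ∑ t ∈ T, ‖a t‖ * ‖∑ y ∈ Y, b y * e y t‖ := by
    have h3 : S = ‖((S : ℝ) : ℂ)‖ := by rw [Complex.norm_real, Real.norm_eq_abs, abs_of_nonneg hS0]
    rw [h3, h1]
    refine (norm_sum_le _ _).trans (le_of_eq (Finset.sum_congr rfl fun t _ => norm_mul _ _))
  have h3 : S ^ 2 ≤ (∑ t ∈ T, ‖a t‖ ^ 2) * (Δ * S) := by
    calc S ^ 2 ≤ (∑ t ∈ T, ‖a t‖ * ‖∑ y ∈ Y, b y * e y t‖) ^ 2 := pow_le_pow_left₀ hS0 h2 2
      _ ≤ (∑ t ∈ T, ‖a t‖ ^ 2) * ∑ t ∈ T, ‖∑ y ∈ Y, b y * e y t‖ ^ 2 := Finset.sum_mul_sq_le_sq_mul_sq _ _ _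
      _ ≤ (∑ t ∈ T, ‖a t‖ ^ 2) * (Δ * S) := by
          refine mul_le_mul_of_nonneg_left ?_ (Finset.sum_nonneg fun _ _ => by positivity)
          rw [← hbn]; exact hΔ b
  rw [← hS]
  rcases hS0.eq_or_lt with h | h
  · rw [← h]
    exact mul_nonneg hΔ0 (Finset.sum_nonneg fun _ _ => by positivity)
  · have h4 : S * S ≤ S * (Δ * ∑ t ∈ T, ‖a t‖ ^ 2) := by
      calc S * S = S ^ 2 := by ring
        _ ≤ (∑ t ∈ T, ‖a t‖ ^ 2) * (Δ * S) := h3
        _ = _ := by ring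
    exact le_of_mul_le_mul_left h4 h

lemma KX_neg (L : ℕ) (θ : ℝ) : KX L (-θ) = KX L θ := by
  unfold KX
  congr 2
  rw [← Complex.norm_conj, map_sum]
  congr 1
  refine Finset.sum_congr rfl fun a _ => ?_
  rw [conj_ec]
  congr 1
  ring

/-- weighted pair kernel. -/
lemma pair_w {ι : Type} (L : ℕ) (hL : 1 ≤ L) (Y : Finset ι) (b : ι → ℂ) (x : ι → ℝ) (K : ℝ)
    (hK : ∀ y ∈ Y, ∑ y' ∈ Y, KX L (x y - x y') ≤ K) :
    ∑ z ∈ Ioo (-(L : ℤ)) L, ‖∑ y ∈ Y, b y * ec (x y * z)‖ ^ 2 ≤ K * ∑ y ∈ Y, ‖b y‖ ^ 2 := by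
  have hLR : (0 : ℝ) < L := by exact_mod_cast hL
  have h1 := fejer_le L (fun z => ‖∑ y ∈ Y, b y * ec (x y * z)‖ ^ 2) (fun _ => by positivity)
  have h2 : ((∑ a ∈ range (2 * L), ∑ c ∈ range (2 * L), ‖∑ y ∈ Y, b y * ec (x y * (((a : ℤ) - c : ℤ) : ℝ))‖ ^ 2 : ℝ) : ℂ) =
      ∑ y ∈ Y, ∑ y' ∈ Y, b y * (starRingEnd ℂ) (b y') *
        ((‖∑ a ∈ range (2 * L), ec (a * (x y - x y'))‖ ^ 2 : ℝ) : ℂ) := by
    have e1 : ∀ a c : ℕ, ((‖∑ y ∈ Y, b y * ec (x y * (((a : ℤ) - c : ℤ) : ℝ))‖ ^ 2 : ℝ) : ℂ) =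
        ∑ y ∈ Y, ∑ y' ∈ Y, b y * (starRingEnd ℂ) (b y') * (ec (a * (x y - x y')) *
          (starRingEnd ℂ) (ec (c * (x y - x y')))) := by
      intro a c
      push_cast
      rw [← Complex.mul_conj', map_sum, Finset.sum_mul_sum]
      refine Finset.sum_congr rfl fun y _ => Finset.sum_congr rfl fun y' _ => ?_
      rw [map_mul]
      have e2 : ec (x y * ((a : ℝ) - c)) * (starRingEnd ℂ) (ec (x y' * ((a : ℝ) - c))) =
          ec (a * (x y - x y')) * (starRingEnd ℂ) (ec (c * (x y - x y'))) := by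
        rw [← ec_sub, ← ec_sub]
        congr 1; ring
      rw [← e2]
      ring
    rw [Complex.ofReal_sum]
    have e3 : ∀ a ∈ range (2 * L), ((∑ c ∈ range (2 * L), ‖∑ y ∈ Y, b y * ec (x y * (((a : ℤ) - c : ℤ) : ℝ))‖ ^ 2 : ℝ) : ℂ) =
        ∑ y ∈ Y, ∑ y' ∈ Y, ∑ c ∈ range (2 * L), b y * (starRingEnd ℂ) (b y') * (ec (a * (x y - x y')) *
          (starRingEnd ℂ) (ec (c * (x y - x y')))) := by
      intro a _
      rw [Complex.ofReal_sum, Finset.sum_congr rfl (fun c _ => e1 a c), Finset.sum_comm]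
      refine Finset.sum_congr rfl fun y _ => ?_
      rw [Finset.sum_comm]
    rw [Finset.sum_congr rfl e3, Finset.sum_comm]
    refine Finset.sum_congr rfl fun y _ => ?_
    rw [Finset.sum_comm]
    refine Finset.sum_congr rfl fun y' _ => ?_
    push_cast
    rw [← Complex.mul_conj', map_sum, Finset.sum_mul_sum, Finset.mul_sum]
    refine Finset.sum_congr rfl fun a _ => ?_
    rw [Finset.mul_sum]
  have h3 : (∑ a ∈ range (2 * L), ∑ c ∈ range (2 * L), ‖∑ y ∈ Y, b y * ec (x y * (((a : ℤ) - c : ℤ) : ℝ))‖ ^ 2) ≤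
      L * ∑ y ∈ Y, ∑ y' ∈ Y, ‖b y‖ * ‖b y'‖ * KX L (x y - x y') := by
    obtain ⟨Q, hQ⟩ : ∃ Q : ℝ, Q = ∑ a ∈ range (2 * L), ∑ c ∈ range (2 * L), ‖∑ y ∈ Y, b y * ec (x y * (((a : ℤ) - c : ℤ) : ℝ))‖ ^ 2 := ⟨_, rfl⟩
    rw [← hQ] at h2 ⊢
    have hQ0 : 0 ≤ Q := by
      rw [hQ]; exact Finset.sum_nonneg fun _ _ => Finset.sum_nonneg fun _ _ => by positivity
    have h4 : Q = ‖((Q : ℝ) : ℂ)‖ := by rw [Complex.norm_real, Real.norm_eq_abs, abs_of_nonneg hQ0]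
    rw [h4, h2, Finset.mul_sum]
    refine (norm_sum_le _ _).trans (Finset.sum_le_sum fun y _ => ?_)
    rw [Finset.mul_sum]
    refine (norm_sum_le _ _).trans (Finset.sum_le_sum fun y' _ => le_of_eq ?_)
    rw [norm_mul, norm_mul, Complex.norm_conj, Complex.norm_real, Real.norm_eq_abs, abs_of_nonneg (by positivity)]
    unfold KX
    obtain ⟨S, hS⟩ : ∃ S : ℝ, S = ‖∑ a ∈ range (2 * L), ec (a * (x y - x y'))‖ ^ 2 := ⟨_, rfl⟩
    rw [← hS]
    field_simp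
  have h4 : ∑ y ∈ Y, ∑ y' ∈ Y, ‖b y‖ * ‖b y'‖ * KX L (x y - x y') ≤ K * ∑ y ∈ Y, ‖b y‖ ^ 2 := by
    have h5 : ∀ y ∈ Y, ∀ y' ∈ Y, ‖b y‖ * ‖b y'‖ * KX L (x y - x y') ≤
        1 / 2 * (‖b y‖ ^ 2 * KX L (x y - x y')) + 1 / 2 * (‖b y'‖ ^ 2 * KX L (x y' - x y)) := by
      intro y _ y' _
      have e : KX L (x y' - x y) = KX L (x y - x y') := by rw [← KX_neg]; congr 1; ring
      rw [e]
      have h6 := KX_nonneg L (x y - x y')
      have h7 : ‖b y‖ * ‖b y'‖ ≤ 1 / 2 * ‖b y‖ ^ 2 + 1 / 2 * ‖b y'‖ ^ 2 := by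
        have := two_mul_le_add_sq ‖b y‖ ‖b y'‖
        linarith
      calc _ ≤ (1 / 2 * ‖b y‖ ^ 2 + 1 / 2 * ‖b y'‖ ^ 2) * KX L (x y - x y') := mul_le_mul_of_nonneg_right h7 h6
        _ = _ := by ring
    refine (Finset.sum_le_sum fun y hy => Finset.sum_le_sum fun y' hy' => h5 y hy y' hy').trans ?_
    simp only [Finset.sum_add_distrib]
    have h6 : ∑ y ∈ Y, ∑ y' ∈ Y, 1 / 2 * (‖b y'‖ ^ 2 * KX L (x y' - x y)) =
        ∑ y ∈ Y, ∑ y' ∈ Y, 1 / 2 * (‖b y‖ ^ 2 * KX L (x y - x y')) := Finset.sum_comm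
    rw [h6]
    have h7 : ∑ y ∈ Y, ∑ y' ∈ Y, 1 / 2 * (‖b y‖ ^ 2 * KX L (x y - x y')) ≤ 1 / 2 * (K * ∑ y ∈ Y, ‖b y‖ ^ 2) := by
      rw [Finset.mul_sum, Finset.mul_sum]
      refine Finset.sum_le_sum fun y hy => ?_
      rw [← Finset.mul_sum, ← Finset.mul_sum]
      have := mul_le_mul_of_nonneg_left (hK y hy) (show (0 : ℝ) ≤ ‖b y‖ ^ 2 by positivity)
      linarith
    linarith
  have h5 : (L : ℝ) * ∑ z ∈ Ioo (-(L : ℤ)) L, ‖∑ y ∈ Y, b y * ec (x y * z)‖ ^ 2 ≤ L * (K * ∑ y ∈ Y, ‖b y‖ ^ 2) :=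
    h1.trans (h3.trans (mul_le_mul_of_nonneg_left h4 hLR.le))
  exact le_of_mul_le_mul_left h5 hLR

/-- kernel sums over non-multiples, improved. -/
lemma K_nonmult' (X M q : ℕ) (hX : 1 ≤ X) (hq : 1 ≤ q) (a : ℤ) (hcop : IsCoprime a (q : ℤ))
    (θ ω : ℝ) (z : ℤ) (hω : ω = (a : ℝ) / q + θ + z) (hθ : |θ| * M ≤ 1 / (2 * q)) :
    ∑ y ∈ (Icc (-(M : ℤ)) M).filter (fun y => ¬ (q : ℤ) ∣ y), KX X (ω * y) ≤
      (2 * ((M : ℝ) / q) + 2) * (16 * q) := by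
  classical
  have hXR : (0 : ℝ) < X := by exact_mod_cast hX
  have hqR : (0 : ℝ) < q := by exact_mod_cast hq
  have hqz : (0 : ℤ) < q := by exact_mod_cast hq
  obtain ⟨T, hT⟩ : ∃ T : ℤ → ℕ, T = fun y => ((a * y) % (q : ℤ)).toNat := ⟨_, rfl⟩
  have hTz : ∀ y, ((T y : ℕ) : ℤ) = (a * y) % (q : ℤ) := by
    intro y
    rw [hT]
    exact Int.toNat_of_nonneg (Int.emod_nonneg _ hqz.ne')
  have hTlt : ∀ y, T y < q := by
    intro y
    have h1 := Int.emod_lt_of_pos (a * y) hqz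
    rw [← hTz] at h1
    exact_mod_cast h1
  have hTpos : ∀ y, ¬ (q : ℤ) ∣ y → 1 ≤ T y := by
    intro y hy
    by_contra hlt
    have h0 : T y = 0 := by omega
    have h1 := hTz y
    rw [h0, Nat.cast_zero] at h1
    have h2 : (q : ℤ) ∣ a * y := Int.dvd_of_emod_eq_zero h1.symm
    exact hy (hcop.symm.dvd_of_dvd_mul_left h2)
  obtain ⟨c, hc⟩ : ∃ c : ℝ, c = 2 * X / q := ⟨_, rfl⟩
  have hc0 : 0 < c := by rw [hc]; positivity
  obtain ⟨gv, hgv⟩ : ∃ gv : ℕ → ℝ, gv = fun t => 1 / (1 + (c * (t : ℕ)) ^ 2) + 1 / (1 + (c * ((q - t : ℕ) : ℝ)) ^ 2) := ⟨_, rfl⟩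
  have hpt : ∀ y ∈ (Icc (-(M : ℤ)) M).filter (fun y => ¬ (q : ℤ) ∣ y),
      KX X (ω * y) ≤ (8 * X) * gv (T y) := by
    intro y hy
    rw [Finset.mem_filter, Finset.mem_Icc] at hy
    obtain ⟨⟨hy1, hy2⟩, hy3⟩ := hy
    have ht1 := hTpos y hy3
    have ht2 := hTlt y
    obtain ⟨mn, hmn⟩ : ∃ mn : ℕ, mn = min (T y) (q - T y) := ⟨_, rfl⟩
    have hmn1 : 1 ≤ mn := by rw [hmn]; exact le_min ht1 (by omega)
    have hmnR : (1 : ℝ) ≤ mn := by exact_mod_cast hmn1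
    have hyabs : |(y : ℝ)| ≤ M := by
      rw [abs_le]
      constructor
      · have : ((-(M : ℤ) : ℤ) : ℝ) ≤ y := by exact_mod_cast hy1
        push_cast at this; exact this
      · exact_mod_cast hy2
    have h1 : ∀ b : ℤ, (mn : ℝ) / (2 * q) ≤ |ω * y - b| := by
      intro b
      obtain ⟨e, he⟩ : ∃ e : ℤ, e = (a * y) / (q : ℤ) := ⟨_, rfl⟩
      have h2 : a * y = q * e + T y := by
        have := Int.mul_ediv_add_emod (a * y) (q : ℤ)
        rw [← he, ← hTz] at this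
        linarith
      have h2R : (a : ℝ) * y = q * e + T y := by exact_mod_cast h2
      have h3 : ω * y - b = ((T y : ℝ) - q * ((b - e - z * y : ℤ) : ℝ)) / q + θ * y := by
        rw [hω]
        push_cast
        field_simp
        linarith
      have h4 : (mn : ℝ) ≤ |(T y : ℝ) - q * ((b - e - z * y : ℤ) : ℝ)| := by
        obtain ⟨w, hw⟩ : ∃ w : ℤ, w = b - e - z * y := ⟨_, rfl⟩
        rw [← hw]
        have h5 : (mn : ℤ) ≤ |(T y : ℤ) - q * w| := by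
          have hm1 : (mn : ℤ) ≤ T y := by
            have : mn ≤ T y := by rw [hmn]; exact min_le_left _ _
            exact_mod_cast this
          have hm2 : (mn : ℤ) ≤ q - T y := by
            have : mn ≤ q - T y := by rw [hmn]; exact min_le_right _ _
            omega
          rcases le_or_gt w 0 with h | h
          · have : (q : ℤ) * w ≤ 0 := mul_nonpos_of_nonneg_of_nonpos hqz.le h
            refine le_trans ?_ (le_abs_self _)
            linarith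
          · have h6 : (q : ℤ) * 1 ≤ q * w := mul_le_mul_of_nonneg_left (by omega) hqz.le
            refine le_trans ?_ (neg_le_abs _)
            linarith
        exact_mod_cast h5
      have h5 : |θ * y| ≤ 1 / (2 * q) := by
        rw [abs_mul]
        exact (mul_le_mul_of_nonneg_left hyabs (abs_nonneg _)).trans hθ
      rw [h3]
      have h6 : |((T y : ℝ) - q * ((b - e - z * y : ℤ) : ℝ)) / q| - |θ * y| ≤
          |((T y : ℝ) - q * ((b - e - z * y : ℤ) : ℝ)) / q + θ * y| := by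
        have := abs_sub_abs_le_abs_sub (((T y : ℝ) - q * ((b - e - z * y : ℤ) : ℝ)) / q) (-(θ * y))
        rwa [abs_neg, sub_neg_eq_add] at this
      refine le_trans ?_ h6
      rw [abs_div, abs_of_pos hqR]
      have h7 : (mn : ℝ) / q ≤ |(T y : ℝ) - q * ((b - e - z * y : ℤ) : ℝ)| / q :=
        div_le_div_of_nonneg_right h4 hqR.le
      have h8 : (mn : ℝ) / (2 * q) = mn / q - mn / (2 * q) := by field_simp; ring
      have h9 : 1 / (2 * (q : ℝ)) ≤ mn / (2 * q) := div_le_div_of_nonneg_right hmnR (by positivity)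
      linarith
    have hkey : KX X (ω * y) ≤ 8 * X * (1 / (1 + (c * mn) ^ 2)) := by
      rcases le_or_gt (c * mn) 1 with h | h
      · refine (KX_le1 X hX _).trans ?_
        have h1 : (c * mn) ^ 2 ≤ 1 := pow_le_one₀ (by positivity) h
        have h2 : 1 / 2 ≤ 1 / (1 + (c * mn) ^ 2) :=
          one_div_le_one_div_of_le (by positivity) (by linarith)
        calc 4 * (X : ℝ) = 8 * X * (1 / 2) := by ring
          _ ≤ _ := mul_le_mul_of_nonneg_left h2 (by positivity)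
      · refine (KX_le2 X hX (ω * y) ((mn : ℝ) / (2 * q)) (by positivity) h1).trans ?_
        have h1 : 1 ≤ (c * mn) ^ 2 := one_le_pow₀ h.le
        have hmn0 : (mn : ℝ) ≠ 0 := by positivity
        have e2 : 1 / (4 * (X : ℝ) * ((mn : ℝ) / (2 * q)) ^ 2) = 4 * X / (c * mn) ^ 2 := by
          rw [hc]
          field_simp
          norm_num
        rw [e2]
        have e3 : 8 * (X : ℝ) * (1 / (1 + (c * mn) ^ 2)) = 8 * X / (1 + (c * mn) ^ 2) := by ring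
        rw [e3, div_le_div_iff₀ (by positivity) (by positivity)]
        nlinarith
    refine hkey.trans ?_
    refine mul_le_mul_of_nonneg_left ?_ (by positivity)
    rw [hgv]
    beta_reduce
    rcases min_choice (T y) (q - T y) with h | h
    · rw [hmn, h]
      have : 0 ≤ 1 / (1 + (c * ((q - T y : ℕ) : ℝ)) ^ 2) := by positivity
      linarith
    · rw [hmn, h]
      have : 0 ≤ 1 / (1 + (c * ((T y : ℕ) : ℝ)) ^ 2) := by positivity
      linarith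
  refine (Finset.sum_le_sum hpt).trans ?_
  rw [← Finset.mul_sum]
  have hmaps : ∀ y ∈ (Icc (-(M : ℤ)) M).filter (fun y => ¬ (q : ℤ) ∣ y), T y ∈ Ico 1 q := by
    intro y hy
    rw [Finset.mem_Ico]
    exact ⟨hTpos y (Finset.mem_filter.1 hy).2, hTlt y⟩
  rw [← Finset.sum_fiberwise_of_maps_to hmaps]
  have hg0 : ∀ t, 0 ≤ gv t := by intro t; rw [hgv]; positivity
  have hfib : ∀ t ∈ Ico 1 q, ∑ y ∈ ((Icc (-(M : ℤ)) M).filter (fun y => ¬ (q : ℤ) ∣ y)).filter (fun y => T y = t),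
      gv (T y) ≤ (2 * ((M : ℝ) / q) + 2) * gv t := by
    intro t _
    have e1 : ∑ y ∈ ((Icc (-(M : ℤ)) M).filter (fun y => ¬ (q : ℤ) ∣ y)).filter (fun y => T y = t),
        gv (T y) = ((((Icc (-(M : ℤ)) M).filter (fun y => ¬ (q : ℤ) ∣ y)).filter (fun y => T y = t)).card : ℝ) * gv t := by
      rw [← nsmul_eq_mul, ← Finset.sum_const]
      refine Finset.sum_congr rfl fun y hy => ?_
      rw [(Finset.mem_filter.1 hy).2]
    rw [e1]
    refine mul_le_mul_of_nonneg_right ?_ (hg0 t)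
    have h1 : (((Icc (-(M : ℤ)) M).filter (fun y => ¬ (q : ℤ) ∣ y)).filter (fun y => T y = t)).card ≤
        (Icc (-(((M / q : ℕ)) : ℤ) - 1) (((M / q : ℕ)) : ℤ)).card := by
      refine Finset.card_le_card_of_injOn (fun y => y / (q : ℤ)) ?_ ?_
      · intro y hy
        rw [Finset.mem_coe, Finset.mem_filter, Finset.mem_filter, Finset.mem_Icc] at hy
        obtain ⟨⟨⟨hy1, hy2⟩, _⟩, _⟩ := hy
        rw [Finset.mem_coe, Finset.mem_Icc]
        push_cast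
        constructor
        · have h2 : -((M : ℤ) / q) - 1 = -((M : ℤ) / q + 1) := by ring
          rw [h2]
          rw [Int.le_ediv_iff_mul_le hqz]
          have h3 := Int.lt_mul_ediv_self_add (x := (M : ℤ)) hqz
          nlinarith
        · exact Int.ediv_le_ediv hqz hy2
      · intro y hy y' hy' h
        rw [Finset.mem_coe, Finset.mem_filter] at hy hy'
        have h2 : y / (q : ℤ) = y' / q := h
        have h3 : (a * y) % (q : ℤ) = (a * y') % (q : ℤ) := by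
          rw [← hTz, ← hTz, hy.2, hy'.2]
        have h4 : (q : ℤ) ∣ a * y - a * y' := by
          have := Int.ModEq.dvd (show a * y' ≡ a * y [ZMOD (q : ℤ)] from h3.symm)
          exact this
        rw [← mul_sub] at h4
        have h5 := hcop.symm.dvd_of_dvd_mul_left h4
        have h6 := Int.mul_ediv_add_emod y (q : ℤ)
        have h7 := Int.mul_ediv_add_emod y' (q : ℤ)
        have h8 : y % (q : ℤ) = y' % (q : ℤ) := Int.ModEq.symm ((Int.modEq_iff_dvd).2 h5)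
        rw [h2, h8] at h6
        linarith
    rw [Int.card_Icc] at h1
    have h2 : ((((M / q : ℕ)) : ℤ) + 1 - (-(((M / q : ℕ)) : ℤ) - 1)).toNat = 2 * (M / q) + 2 := by omega
    rw [h2] at h1
    have h3 : ((M / q : ℕ) : ℝ) ≤ (M : ℝ) / q := Nat.cast_div_le
    have h4 : ((((Icc (-(M : ℤ)) M).filter (fun y => ¬ (q : ℤ) ∣ y)).filter (fun y => T y = t)).card : ℝ) ≤
        ((2 * (M / q) + 2 : ℕ) : ℝ) := by exact_mod_cast h1
    push_cast at h4
    linarith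
  have h5 := Finset.sum_le_sum hfib
  rw [← Finset.mul_sum] at h5
  have h6 : ∑ t ∈ Ico 1 q, gv t ≤ 4 / c := by
    rw [hgv, Finset.sum_add_distrib]
    have e1 : ∑ t ∈ Ico 1 q, 1 / (1 + (c * ((q - t : ℕ) : ℝ)) ^ 2) = ∑ t ∈ Ico 1 q, 1 / (1 + (c * ((t : ℕ) : ℝ)) ^ 2) := by
      refine Finset.sum_bij' (fun t _ => q - t) (fun t _ => q - t) ?_ ?_ ?_ ?_ ?_
      · intro t ht; rw [Finset.mem_Ico] at ht ⊢; omega
      · intro t ht; rw [Finset.mem_Ico] at ht ⊢; omega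
      · intro t ht; rw [Finset.mem_Ico] at ht; omega
      · intro t ht; rw [Finset.mem_Ico] at ht; omega
      · intro t _; rfl
    rw [e1]
    have h7 := tele c hc0 (q - 1)
    rw [show q - 1 + 1 = q by omega] at h7
    have e4 : 4 / c = 2 / c + 2 / c := by ring
    linarith
  have hpos : 0 ≤ 2 * ((M : ℝ) / q) + 2 := by positivity
  have e5 : 8 * (X : ℝ) * (4 / c) = 16 * q := by rw [hc]; field_simp; norm_num
  calc (8 * (X : ℝ)) * ∑ t ∈ Ico 1 q, ∑ y ∈ ((Icc (-(M : ℤ)) M).filter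
        (fun y => ¬ (q : ℤ) ∣ y)).filter (fun y => T y = t), gv (T y)
      ≤ (8 * X) * ((2 * ((M : ℝ) / q) + 2) * ∑ t ∈ Ico 1 q, gv t) :=
        mul_le_mul_of_nonneg_left h5 (by positivity)
    _ ≤ (8 * X) * ((2 * ((M : ℝ) / q) + 2) * (4 / c)) := by
        refine mul_le_mul_of_nonneg_left (mul_le_mul_of_nonneg_left h6 hpos) (by positivity)
    _ = (2 * ((M : ℝ) / q) + 2) * (8 * X * (4 / c)) := by ring
    _ = _ := by rw [e5]

/-- combined bound, version C. -/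
lemma K_C (X M q : ℕ) (hX : 1 ≤ X) (hq : 1 ≤ q) (a : ℤ) (hcop : IsCoprime a (q : ℤ))
    (θ ω : ℝ) (z : ℤ) (hω : ω = (a : ℝ) / q + θ + z) (hθ : |θ| * M ≤ 1 / (2 * q)) :
    ∑ y ∈ Icc (-(M : ℤ)) M, KX X (ω * y) ≤ 32 * (M + q + M * X / q + X) := by
  rw [← Finset.sum_filter_add_sum_filter_not (Icc (-(M : ℤ)) M) (fun y => (q : ℤ) ∣ y)]
  have h1 := K_nonmult' X M q hX hq a hcop θ ω z hω hθ
  have h2 := K_mult_A X M q hX hq ω
  have hqR : (0 : ℝ) < q := by exact_mod_cast hq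
  have e1 : (2 * ((M : ℝ) / q) + 2) * (16 * q) = 32 * M + 32 * q := by field_simp; ring
  have e2 : (2 * ((M : ℝ) / q) + 1) * (4 * X) = 8 * (M * X / q) + 4 * X := by ring
  have h3 : (0 : ℝ) ≤ M * X / q := by positivity
  have h4 : (0 : ℝ) ≤ X := by positivity
  rw [e1] at h1
  rw [e2] at h2
  linarith

end Pool.Agent.helper132_h
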