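import Pool.Agent.helper132_h.H2

/-! Complete sums modulo primes: Mordell's bound. -/

namespace Pool.Agent.helper132_h

open Finset Polynomial Pool.Agent.helper132_sph Pool.Agent.helper132_poly

lemma geom_mod (N : ℕ) (hN : 1 ≤ N) (w : ℤ) :
    ∑ b ∈ range N, ec ((b : ℝ) / N * (w : ℤ)) = if (N : ℤ) ∣ w then (N : ℂ) else 0 := by
  have hNR : (N : ℝ) ≠ 0 := by exact_mod_cast (by omega : N ≠ 0)
  have h1 : ∀ b ∈ range N, ec ((b : ℝ) / N * (w : ℤ)) = ec ((b : ℝ) * ((w : ℝ) / N)) := by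
    intro b _
    congr 1
    ring
  rw [Finset.sum_congr rfl h1]
  split_ifs with h
  · obtain ⟨v, hv⟩ := h
    have h2 : ∀ b ∈ range N, ec ((b : ℝ) * ((w : ℝ) / N)) = 1 := by
      intro b _
      have : (b : ℝ) * ((w : ℝ) / N) = ((b * v : ℤ) : ℝ) := by
        rw [hv]; push_cast; field_simp
      rw [this, ec_int]
    rw [Finset.sum_congr rfl h2]
    simp
  · exact geom_ndvd N hN w h

lemma orthmod {k : ℕ} (N : ℕ) (hN : 1 ≤ N) (v : Fin k → ℤ) :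
    ∑ a ∈ gr k N, eg N a v = if ∀ j, (N : ℤ) ∣ v j then (N : ℂ) ^ k else 0 := by
  classical
  have h1 : ∑ a ∈ gr k N, eg N a v = ∏ j : Fin k, ∑ b ∈ range N, ec ((b : ℝ) / N * (v j : ℤ)) := by
    unfold gr
    rw [Finset.prod_univ_sum]
    refine Finset.sum_congr rfl fun a _ => ?_
    unfold eg
    rw [sum_ec_prod]
  rw [h1]
  simp only [geom_mod N hN]
  split_ifs with h
  · rw [Finset.prod_congr rfl (fun j _ => if_pos (h j))]
    simp
  · push Not at h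
    obtain ⟨j, hj⟩ := h
    exact Finset.prod_eq_zero (Finset.mem_univ j) (if_neg hj)

lemma moment_mod {k s : ℕ} (N : ℕ) (hN : 1 ≤ N) :
    ∑ a ∈ gr k N, ‖Sg N (Ico (0 : ℤ) N) (mom k) a‖ ^ (2 * s) =
      (N : ℝ) ^ k * (((bx s N ×ˢ bx s N).filter (fun w => ∀ j, (N : ℤ) ∣ psm k w.1 j - psm k w.2 j)).card : ℝ) := by
  classical
  have h1 : ∀ a : Fin k → ℕ, ((‖Sg N (Ico (0 : ℤ) N) (mom k) a‖ ^ (2 * s) : ℝ) : ℂ) =
      ∑ w ∈ bx s N ×ˢ bx s N, eg N a (psm k w.1 + -psm k w.2) := by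
    intro a
    have e1 : ((‖Sg N (Ico (0 : ℤ) N) (mom k) a‖ ^ (2 * s) : ℝ) : ℂ) =
        Sg N (Ico (0 : ℤ) N) (mom k) a ^ s * (starRingEnd ℂ) (Sg N (Ico (0 : ℤ) N) (mom k) a ^ s) := by
      rw [Complex.mul_conj', norm_pow]
      push_cast
      rw [← pow_mul, mul_comm s 2]
    rw [e1, Sg_pow, Sg_conj, Sg_mul]
    rfl
  have h2 : ((∑ a ∈ gr k N, ‖Sg N (Ico (0 : ℤ) N) (mom k) a‖ ^ (2 * s) : ℝ) : ℂ) =
      (((N : ℝ) ^ k * (((bx s N ×ˢ bx s N).filter (fun w => ∀ j, (N : ℤ) ∣ psm k w.1 j - psm k w.2 j)).card : ℝ) : ℝ) : ℂ) := by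
    push_cast
    have h3 : ∀ a ∈ gr k N, (((‖Sg N (Ico (0 : ℤ) N) (mom k) a‖ : ℝ) : ℂ) ^ (2 * s)) =
      ∑ w ∈ bx s N ×ˢ bx s N, eg N a (psm k w.1 + -psm k w.2) := by
      intro a _
      rw [← h1 a]
      push_cast
      rfl
    rw [Finset.sum_congr rfl h3, Finset.sum_comm]
    rw [Finset.sum_congr rfl (fun w _ => orthmod N hN (psm k w.1 + -psm k w.2))]
    rw [← Finset.sum_filter, Finset.sum_const, nsmul_eq_mul, mul_comm]
    rfl
  exact_mod_cast h2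

/-- power sums modulo a prime determine the entries. -/
lemma card_pow_mod (p k : ℕ) (hp : p.Prime) (hpk : k < p) :
    ((bx k p ×ˢ bx k p).filter (fun w => ∀ j, (p : ℤ) ∣ psm k w.1 j - psm k w.2 j)).card ≤ k ^ k * p ^ k := by
  classical
  have : Fact p.Prime := ⟨hp⟩
  obtain ⟨S, hS⟩ : ∃ S, S = (bx k p ×ˢ bx k p).filter (fun w => ∀ j, (p : ℤ) ∣ psm k w.1 j - psm k w.2 j) :=
    ⟨_, rfl⟩
  rw [← hS]
  have hmap : ∀ w ∈ S, w ∈ ((bx k p) ×ˢ (Finset.univ : Finset (Fin k → Fin k))).image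
      (fun v => (v.1, fun i => v.1 (v.2 i))) := by
    intro w hw
    rw [hS, Finset.mem_filter, Finset.mem_product] at hw
    obtain ⟨⟨h1, h2⟩, h3⟩ := hw
    have hu : ∀ j : ℕ, 1 ≤ j → j ≤ k → IsUnit ((j : ℕ) : ZMod p) := by
      intro j hj1 hj2
      rw [ZMod.isUnit_iff_coprime, Nat.coprime_comm, Nat.Prime.coprime_iff_not_dvd hp]
      intro hdvd
      have := Nat.le_of_dvd hj1 hdvd
      omega
    have hs : ∀ j : ℕ, 1 ≤ j → j ≤ k → ∑ i, ((w.1 i : ℤ) : ZMod p) ^ j =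
        ∑ i, ((w.2 i : ℤ) : ZMod p) ^ j := by
      intro j hj1 hj2
      have h4 := h3 ⟨j - 1, by omega⟩
      rw [psm_apply, psm_apply] at h4
      simp only [Nat.sub_add_cancel hj1] at h4
      rw [← ZMod.intCast_zmod_eq_zero_iff_dvd] at h4
      push_cast at h4
      exact sub_eq_zero.1 h4
    have hex : ∀ i : Fin k, ∃ i' : Fin k, w.2 i = w.1 i' := by
      intro i
      have h4 := prod_sub_eq (fun i => ((w.1 i : ℤ) : ZMod p)) (fun i => ((w.2 i : ℤ) : ZMod p))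
        hu hs ((w.2 i : ℤ) : ZMod p)
      have h5 : ∏ i', (((w.2 i : ℤ) : ZMod p) - ((w.2 i' : ℤ) : ZMod p)) = 0 :=
        Finset.prod_eq_zero (Finset.mem_univ i) (sub_self _)
      rw [h5] at h4
      obtain ⟨i', _, hi'⟩ := Finset.prod_eq_zero_iff.1 h4
      refine ⟨i', ?_⟩
      have h6 : ((w.2 i - w.1 i' : ℤ) : ZMod p) = 0 := by push_cast; exact hi'
      rw [ZMod.intCast_zmod_eq_zero_iff_dvd] at h6
      have h7 := (mem_bx.1 h1) i'
      have h8 := (mem_bx.1 h2) i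
      have h9 := Int.eq_zero_of_abs_lt_dvd h6 (by rw [abs_lt]; constructor <;> linarith [h7.1, h7.2, h8.1, h8.2])
      linarith
    choose σ hσ using hex
    rw [Finset.mem_image]
    refine ⟨(w.1, σ), ?_, ?_⟩
    · rw [Finset.mem_product]
      exact ⟨h1, Finset.mem_univ _⟩
    · refine Prod.ext rfl ?_
      funext i
      exact (hσ i).symm
  calc S.card ≤ (((bx k p) ×ˢ (Finset.univ : Finset (Fin k → Fin k))).image
      (fun v => (v.1, fun i => v.1 (v.2 i)))).card := Finset.card_le_card hmap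
    _ ≤ ((bx k p) ×ˢ (Finset.univ : Finset (Fin k → Fin k))).card := Finset.card_image_le
    _ = k ^ k * p ^ k := by
        rw [Finset.card_product, card_bx, Finset.card_univ]
        simp [mul_comm]

/-- coefficient vector modulo `p`. -/
def cf (κ p : ℕ) (f : ℤ[X]) : Fin κ → ℕ := fun j => (f.coeff ((j : ℕ) + 1) % (p : ℤ)).toNat

lemma cf_mem (κ p : ℕ) (hp : 1 ≤ p) (f : ℤ[X]) : cf κ p f ∈ gr κ p := by
  unfold gr cf
  rw [Fintype.mem_piFinset]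
  intro j
  rw [Finset.mem_range]
  have h1 := Int.emod_lt_of_pos (f.coeff ((j : ℕ) + 1)) (by exact_mod_cast hp : (0 : ℤ) < p)
  have h2 := Int.emod_nonneg (f.coeff ((j : ℕ) + 1)) (by omega : (p : ℤ) ≠ 0)
  omega

lemma cf_cast (κ p : ℕ) (hp : 1 ≤ p) (f : ℤ[X]) (j : Fin κ) :
    ((cf κ p f j : ℕ) : ℤ) = f.coeff ((j : ℕ) + 1) % (p : ℤ) := by
  unfold cf
  exact Int.toNat_of_nonneg (Int.emod_nonneg _ (by omega))

lemma eval_eq_range (κ : ℕ) (f : ℤ[X]) (hdeg : f.natDegree ≤ κ) (x : ℤ) :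
    f.eval x = f.coeff 0 + ∑ j : Fin κ, f.coeff ((j : ℕ) + 1) * x ^ ((j : ℕ) + 1) := by
  rw [Polynomial.eval_eq_sum_range' (Nat.lt_succ_of_le hdeg), Finset.sum_range_succ',
    Fin.sum_univ_eq_sum_range (fun j => f.coeff (j + 1) * x ^ (j + 1)) κ]
  ring

lemma norm_cs_eq (κ p : ℕ) (hp : 1 ≤ p) (f : ℤ[X]) (hdeg : f.natDegree ≤ κ) :
    ‖cs p f‖ = ‖Sg p (Ico (0 : ℤ) p) (mom κ) (cf κ p f)‖ := by
  have hpR : (p : ℝ) ≠ 0 := by exact_mod_cast (by omega : p ≠ 0)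
  have h1 : cs p f = ec ((f.coeff 0 : ℝ) / p) * Sg p (Ico (0 : ℤ) p) (mom κ) (cf κ p f) := by
    unfold cs Sg
    rw [Finset.mul_sum]
    refine Finset.sum_bij' (fun n _ => ((n : ℕ) : ℤ)) (fun n _ => n.toNat) ?_ ?_ ?_ ?_ ?_
    · intro n hn; rw [Finset.mem_range] at hn; rw [Finset.mem_Ico]; omega
    · intro n hn; rw [Finset.mem_Ico] at hn; rw [Finset.mem_range]; omega
    · intro n _; simp
    · intro n hn; rw [Finset.mem_Ico] at hn; exact Int.toNat_of_nonneg hn.1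
    · intro n _
      unfold eg mom
      rw [← ec_add]
      rw [eval_eq_range κ f hdeg]
      have e1 : (f.coeff 0 : ℝ) / p + ∑ j : Fin κ, ((cf κ p f j : ℕ) : ℝ) / p * ((((n : ℕ) : ℤ) ^ ((j : ℕ) + 1) : ℤ) : ℝ) =
          ((f.coeff 0 + ∑ j : Fin κ, ((cf κ p f j : ℕ) : ℤ) * ((n : ℕ) : ℤ) ^ ((j : ℕ) + 1) : ℤ) : ℝ) / p := by
        push_cast
        rw [add_div, Finset.sum_div]
        congr 1
        refine Finset.sum_congr rfl fun j _ => by ring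
      rw [e1]
      refine ec_div_congr p hp _ _ ?_
      rw [add_sub_add_left_eq_sub, ← Finset.sum_sub_distrib]
      refine Finset.dvd_sum fun j _ => ?_
      rw [← sub_mul, cf_cast κ p hp]
      exact Dvd.dvd.mul_right Int.dvd_self_sub_emod _
  rw [h1, norm_mul, norm_ec, one_mul]

end Pool.Agent.helper132_h
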