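import Pool.Agent.helper132_h.H10
import Pool.Agent.helper132_h.H3

/-! The differenced mean value: shifts and large sieve. -/

namespace Pool.Agent.helper132_h

open Finset Pool.Agent.helper132_sph Pool.Agent.helper132_poly Pool.Agent.helper132_quad

/-- power sums. -/
def pw {s : ℕ} (j : ℕ) (u : Fin s → ℤ) : ℤ := ∑ i, (u i) ^ j

/-- the grouping key. -/
def gk (κ : ℕ) {s : ℕ} (u : Fin s → ℤ) : (Fin (κ - 2) → ℤ) × ℤ := (psm (κ - 2) u, pw (κ - 1) u)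

/-- the index set. -/
noncomputable def TT (κ s N : ℕ) : Finset ((Fin (κ - 2) → ℤ) × ℤ) :=
  ((bx s N).image (psm (κ - 2))) ×ˢ Ico (0 : ℤ) ((s * N ^ (κ - 1) : ℕ) : ℤ)

/-- the inner sums. -/
noncomputable def Iu (κ s N : ℕ) (ω : ℝ) (t : (Fin (κ - 2) → ℤ) × ℤ) : ℂ :=
  ∑ u ∈ (bx s N).filter (fun u => gk κ u = t), ec (ω * ((pw κ u : ℤ) : ℝ))

/-- the sum of squares. -/
noncomputable def Zs (κ s N : ℕ) (ω : ℝ) : ℝ := ∑ t ∈ TT κ s N, ‖Iu κ s N ω t‖ ^ 2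

lemma Zs_nonneg (κ s N : ℕ) (ω : ℝ) : 0 ≤ Zs κ s N ω := by
  unfold Zs
  exact Finset.sum_nonneg fun _ _ => by positivity

lemma pw_bounds {s N : ℕ} (hs : 1 ≤ s) (j : ℕ) (hj : 1 ≤ j) (u : Fin s → ℤ) (hu : u ∈ bx s N) :
    0 ≤ pw j u ∧ pw j u < ((s * N ^ j : ℕ) : ℤ) := by
  rw [mem_bx] at hu
  unfold pw
  refine ⟨Finset.sum_nonneg fun i _ => pow_nonneg (hu i).1 _, ?_⟩
  push_cast
  calc ∑ i, (u i) ^ j < ∑ _i : Fin s, (N : ℤ) ^ j := by
        refine Finset.sum_lt_sum_of_nonempty ⟨⟨0, by omega⟩, Finset.mem_univ _⟩ fun i _ => ?_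
        exact pow_lt_pow_left₀ (hu i).2 (hu i).1 (by omega)
    _ = s * (N : ℤ) ^ j := by simp

lemma gk_mem {κ s N : ℕ} (hκ : 2 ≤ κ) (hs : 1 ≤ s) (u : Fin s → ℤ) (hu : u ∈ bx s N) : gk κ u ∈ TT κ s N := by
  unfold TT gk
  rw [Finset.mem_product, Finset.mem_Ico]
  have := pw_bounds hs (κ - 1) (by omega) u hu
  exact ⟨Finset.mem_image_of_mem _ hu, this.1, this.2⟩

/-- average over multiples. -/
lemma Zs_avg (κ s N X : ℕ) (hκ : 2 ≤ κ) (hs : 1 ≤ s) (hX : 1 ≤ X) (ω : ℝ) :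
    ∑ h ∈ Ioo (-(X : ℤ)) X, Zs κ s N (ω * h) ≤
      Jm κ s N * ∑ y ∈ Icc (-((s * N ^ κ : ℕ) : ℤ)) ((s * N ^ κ : ℕ) : ℤ), KX X (ω * y) := by
  classical
  have hXR : (0 : ℝ) < X := by exact_mod_cast hX
  unfold Zs
  rw [Finset.sum_comm]
  have e1 : ∀ t ∈ TT κ s N, ∑ h ∈ Ioo (-(X : ℤ)) X, ‖Iu κ s N (ω * h) t‖ ^ 2 ≤
      ∑ u ∈ (bx s N).filter (fun u => gk κ u = t),
        ∑ u' ∈ (bx s N).filter (fun u' => gk κ u' = gk κ u),
          KX X (ω * ((pw κ u - pw κ u' : ℤ) : ℝ)) := by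
    intro t _
    have h1 := fejer_le X (fun h => ‖Iu κ s N (ω * h) t‖ ^ 2) (fun _ => by positivity)
    have h2 := pair_kernel X hX ((bx s N).filter (fun u => gk κ u = t)) (pw κ) ω
    have h3 : ∑ h ∈ Ioo (-(X : ℤ)) X, ‖Iu κ s N (ω * h) t‖ ^ 2 ≤
        (∑ a ∈ range (2 * X), ∑ b ∈ range (2 * X), ‖Iu κ s N (ω * (((a : ℤ) - b : ℤ) : ℝ)) t‖ ^ 2) / X := by
      rw [le_div_iff₀ hXR, mul_comm]
      exact h1
    refine h3.trans ?_
    unfold Iu
    rw [h2]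
    refine le_of_eq (Finset.sum_congr rfl fun u hu => ?_)
    rw [(Finset.mem_filter.1 hu).2]
  refine (Finset.sum_le_sum e1).trans ?_
  rw [Finset.sum_fiberwise_of_maps_to (fun u hu => gk_mem hκ hs u hu)]
  have e2 : ∑ u ∈ bx s N, ∑ u' ∈ (bx s N).filter (fun u' => gk κ u' = gk κ u),
          KX X (ω * ((pw κ u - pw κ u' : ℤ) : ℝ)) =
      ∑ v ∈ (bx s N ×ˢ bx s N).filter (fun v => gk κ v.2 = gk κ v.1),
        KX X (ω * ((pw κ v.1 - pw κ v.2 : ℤ) : ℝ)) := by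
    rw [Finset.sum_filter, Finset.sum_product]
    refine Finset.sum_congr rfl fun u _ => ?_
    rw [Finset.sum_filter]
  rw [e2]
  have hmaps : ∀ v ∈ (bx s N ×ˢ bx s N).filter (fun v => gk κ v.2 = gk κ v.1),
      pw κ v.1 - pw κ v.2 ∈ Icc (-((s * N ^ κ : ℕ) : ℤ)) ((s * N ^ κ : ℕ) : ℤ) := by
    intro v hv
    rw [Finset.mem_filter, Finset.mem_product] at hv
    have h1 := pw_bounds hs κ (by omega) _ hv.1.1
    have h2 := pw_bounds hs κ (by omega) _ hv.1.2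
    rw [Finset.mem_Icc]
    constructor <;> linarith [h1.1, h1.2, h2.1, h2.2]
  rw [← Finset.sum_fiberwise_of_maps_to hmaps, Finset.mul_sum]
  refine Finset.sum_le_sum fun y _ => ?_
  have e3 : ∑ v ∈ ((bx s N ×ˢ bx s N).filter (fun v => gk κ v.2 = gk κ v.1)).filter
      (fun v => pw κ v.1 - pw κ v.2 = y), KX X (ω * ((pw κ v.1 - pw κ v.2 : ℤ) : ℝ)) =
      ((((bx s N ×ˢ bx s N).filter (fun v => gk κ v.2 = gk κ v.1)).filter
      (fun v => pw κ v.1 - pw κ v.2 = y)).card : ℝ) * KX X (ω * y) := by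
    rw [← nsmul_eq_mul, ← Finset.sum_const]
    refine Finset.sum_congr rfl fun v hv => ?_
    rw [(Finset.mem_filter.1 hv).2]
  rw [e3]
  refine mul_le_mul_of_nonneg_right ?_ (KX_nonneg _ _)
  have h4 := Jm_shift κ s N (fun j => if (j : ℕ) = κ - 1 then y else 0)
  refine le_trans ?_ (Nat.cast_le.2 h4)
  refine Nat.cast_le.2 (Finset.card_le_card ?_)
  intro v hv
  rw [Finset.mem_filter, Finset.mem_filter] at hv
  rw [Finset.mem_filter]
  refine ⟨hv.1.1, ?_⟩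
  have hg := hv.1.2
  unfold gk at hg
  rw [Prod.mk.injEq] at hg
  funext j
  rw [Pi.sub_apply, psm_apply, psm_apply]
  split_ifs with hj
  · have h5 := hv.2
    unfold pw at h5
    rw [hj, Nat.sub_add_cancel (by omega)]
    exact h5
  · rcases (show (j : ℕ) = κ - 2 ∨ (j : ℕ) < κ - 2 by omega) with h6 | h6
    · have h5 := hg.2
      unfold pw at h5
      rw [h6, show κ - 2 + 1 = κ - 1 by omega, h5]
      ring
    · have h5 := congrFun hg.1 ⟨(j : ℕ), h6⟩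
      rw [psm_apply, psm_apply] at h5
      simp only at h5
      linarith

/-- average over the frequencies. -/
lemma Zs_freq (κ s N P : ℕ) (hκ : 2 ≤ κ) (hs : 1 ≤ s) (hP : 1 ≤ P) (g : ℤ) (hg : g ≠ 0) (Y : ℕ)
    (hY : |g| * ((s * N ^ κ : ℕ) : ℤ) ≤ Y * P) :
    ∑ a ∈ range P, Zs κ s N ((g : ℝ) / P * a) ≤ Jm κ s N * ((2 * Y + 1) * (4 * P)) := by
  classical
  have hPR : (0 : ℝ) < P := by exact_mod_cast hP
  have hPz : (0 : ℤ) < P := by exact_mod_cast hP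
  have h1 := Zs_avg κ s N P hκ hs hP ((g : ℝ) / P)
  obtain ⟨I, hI⟩ : ∃ I : Finset ℤ, I = Icc (-((s * N ^ κ : ℕ) : ℤ)) ((s * N ^ κ : ℕ) : ℤ) := ⟨_, rfl⟩
  rw [← hI] at h1
  have hK : ∑ y ∈ I, KX P ((g : ℝ) / P * y) ≤ (2 * Y + 1) * (4 * P) := by
    have e1 : ∀ y ∈ I, KX P ((g : ℝ) / P * y) ≤ if (P : ℤ) ∣ g * y then 4 * (P : ℝ) else 0 := by
      intro y _
      have e2 : (g : ℝ) / P * y = ((g * y : ℤ) : ℝ) / P := by push_cast; ring
      rw [e2]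
      split_ifs with h
      · exact KX_le1 P hP _
      · exact (KX_ndvd P hP _ h).le
    refine (Finset.sum_le_sum e1).trans ?_
    rw [← Finset.sum_filter, Finset.sum_const, nsmul_eq_mul]
    refine mul_le_mul_of_nonneg_right ?_ (by positivity)
    have h2 : (I.filter (fun y => (P : ℤ) ∣ g * y)).card ≤ (Icc (-(Y : ℤ)) Y).card := by
      refine Finset.card_le_card_of_injOn (fun y => (g * y) / P) ?_ ?_
      · intro y hy
        rw [Finset.mem_coe, Finset.mem_filter, hI, Finset.mem_Icc] at hy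
        obtain ⟨hy1, w, hw⟩ := hy
        rw [Finset.mem_coe]
        beta_reduce
        rw [hw, Int.mul_ediv_cancel_left _ hPz.ne', Finset.mem_Icc, ← abs_le]
        have h3 : |g * y| ≤ Y * P := by
          rw [abs_mul]
          refine le_trans ?_ hY
          exact mul_le_mul_of_nonneg_left (abs_le.2 hy1) (abs_nonneg _)
        rw [hw, abs_mul, abs_of_pos hPz, mul_comm] at h3
        exact le_of_mul_le_mul_right h3 hPz
      · intro y hy y' hy' hyy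
        rw [Finset.mem_coe, Finset.mem_filter] at hy hy'
        obtain ⟨_, w, hw⟩ := hy
        obtain ⟨_, w', hw'⟩ := hy'
        beta_reduce at hyy
        rw [hw, hw', Int.mul_ediv_cancel_left _ hPz.ne', Int.mul_ediv_cancel_left _ hPz.ne'] at hyy
        rw [hyy, ← hw'] at hw
        exact mul_left_cancel₀ hg hw
    have h3 : (Icc (-(Y : ℤ)) Y).card = 2 * Y + 1 := by
      rw [Int.card_Icc]; omega
    rw [h3] at h2
    exact_mod_cast h2
  refine (sum_range_le_Ioo P (fun a => Zs κ s N ((g : ℝ) / P * a)) (fun a => Zs_nonneg _ _ _ _)).trans ?_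
  exact h1.trans (mul_le_mul_of_nonneg_left hK (Nat.cast_nonneg _))

/-- the shifted mean value. -/
lemma main_shift (κ s N X : ℕ) (hκ : 2 ≤ κ) (hs : 1 ≤ s) (hN : 1 ≤ N) (ω : ℝ) (Ψ : ℤ → ℝ) (hΨ : PP κ ω Ψ) :
    ∑ y ∈ range X, ‖∑ u ∈ Ico (0 : ℤ) N, ec (Ψ (u - y))‖ ^ (2 * s) ≤
      ((s : ℝ) ^ (κ - 2) * (N : ℝ) ^ ((κ - 1) * (κ - 2) / 2)) *
        (∑ z ∈ Icc (-(X : ℤ)) X, KX (s * N ^ (κ - 1)) (κ * ω * z)) * Zs κ s N ω := by
  classical
  obtain ⟨κ', rfl⟩ : ∃ κ', κ = κ' + 2 := ⟨κ - 2, by omega⟩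
  obtain ⟨L, hL⟩ : ∃ L : ℕ, L = s * N ^ (κ' + 2 - 1) := ⟨_, rfl⟩
  have hL1 : 1 ≤ L := by rw [hL]; exact Nat.mul_pos hs (Nat.pow_pos hN)
  obtain ⟨K, hK⟩ : ∃ K : ℝ, K = ∑ z ∈ Icc (-(X : ℤ)) X, KX L (((κ' + 2 : ℕ) : ℝ) * ω * z) := ⟨_, rfl⟩
  have hK0 : 0 ≤ K := by rw [hK]; exact Finset.sum_nonneg fun _ _ => KX_nonneg _ _
  rw [← hL, ← hK]
  obtain ⟨W, hW⟩ : ∃ W, W = (bx s N).image (psm (κ' + 2 - 2)) := ⟨_, rfl⟩
  have hTW : TT (κ' + 2) s N = W ×ˢ Ico (0 : ℤ) (L : ℤ) := by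
    unfold TT; rw [hW, hL]
  have hcardW : (W.card : ℝ) ≤ (s : ℝ) ^ (κ' + 2 - 2) * (N : ℝ) ^ ((κ' + 2 - 1) * (κ' + 2 - 2) / 2) := by
    have h1 := card_psm_image (κ' + 2 - 1) s N hs hN
    rw [hW]
    exact h1
  -- expansions
  obtain ⟨e0, he0⟩ := hΨ
  have hdiff : ∀ y : ℤ, ∃ c : ℕ → ℝ, ∀ n : ℤ, Ψ (n - y) = ω * (n : ℝ) ^ (κ' + 2) +
      (e0 (κ' + 1) - ((κ' + 2 : ℕ) : ℝ) * ω * y) * (n : ℝ) ^ (κ' + 1) + ∑ j ∈ range (κ' + 1), c j * (n : ℝ) ^ j := by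
    intro y
    obtain ⟨c', hc'⟩ := PP.diff (κ := κ' + 1) (show PP (κ' + 1 + 1) ω Ψ from ⟨e0, he0⟩) (-y)
    refine ⟨fun j => e0 j + c' j, fun n => ?_⟩
    have h1 := hc' n
    have h2 := he0 n
    beta_reduce at h1 h2
    rw [Finset.sum_range_succ] at h2
    have h3 : n + -y = n - y := by ring
    rw [h3] at h1
    have h4 : ∑ j ∈ range (κ' + 1), (e0 j + c' j) * (n : ℝ) ^ j =
        ∑ j ∈ range (κ' + 1), e0 j * (n : ℝ) ^ j + ∑ j ∈ range (κ' + 1), c' j * (n : ℝ) ^ j := by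
      rw [← Finset.sum_add_distrib]
      exact Finset.sum_congr rfl fun j _ => by ring
    rw [h4]
    push_cast at h1 ⊢
    linear_combination h1 + h2
  choose c hc using hdiff
  obtain ⟨lamb, hlamb⟩ : ∃ lamb : ℤ → (Fin (κ' + 2 - 2) → ℤ) → ℝ, lamb = fun y v => ∑ j ∈ range (κ' + 1), c y j *
        (if hj : 1 ≤ j ∧ j < κ' + 1 then ((v ⟨j - 1, by omega⟩ : ℤ) : ℝ) else (s : ℝ)) := ⟨_, rfl⟩
  obtain ⟨e, he⟩ : ∃ e : ℕ → ((Fin (κ' + 2 - 2) → ℤ) × ℤ) → ℂ, e = fun (y : ℕ) (t : (Fin (κ' + 2 - 2) → ℤ) × ℤ) => ec (lamb y t.1) *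
    ec ((e0 (κ' + 1) - ((κ' + 2 : ℕ) : ℝ) * ω * ((y : ℤ) : ℝ)) * t.2) := ⟨_, rfl⟩
  have hpow : ∀ y : ℕ, ‖∑ u ∈ Ico (0 : ℤ) N, ec (Ψ (u - y))‖ ^ (2 * s) =
      ‖∑ t ∈ TT (κ' + 2) s N, Iu (κ' + 2) s N ω t * e y t‖ ^ 2 := by
    intro y
    have e1 : (∑ u ∈ Ico (0 : ℤ) N, ec (Ψ (u - y))) ^ s = ∑ u ∈ bx s N, ec (∑ i, Ψ (u i - y)) := by
      have h9 := Finset.prod_univ_sum (fun _ : Fin s => Ico (0 : ℤ) N) (fun _ (m : ℤ) => ec (Ψ (m - y)))
      rw [Finset.prod_const, Finset.card_univ, Fintype.card_fin] at h9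
      rw [h9]
      unfold bx
      refine Finset.sum_congr rfl fun u _ => ?_
      rw [sum_ec_prod]
    have e2 : ∑ u ∈ bx s N, ec (∑ i, Ψ (u i - y)) =
        ∑ t ∈ TT (κ' + 2) s N, ∑ u ∈ (bx s N).filter (fun u => gk (κ' + 2) u = t), ec (∑ i, Ψ (u i - y)) := by
      rw [Finset.sum_fiberwise_of_maps_to (fun u hu => gk_mem hκ hs u hu)]
    have e3 : ∑ t ∈ TT (κ' + 2) s N, ∑ u ∈ (bx s N).filter (fun u => gk (κ' + 2) u = t), ec (∑ i, Ψ (u i - y)) =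
        ∑ t ∈ TT (κ' + 2) s N, Iu (κ' + 2) s N ω t * e y t := by
      refine Finset.sum_congr rfl fun t _ => ?_
      unfold Iu
      rw [Finset.sum_mul]
      refine Finset.sum_congr rfl fun u hu => ?_
      rw [Finset.mem_filter] at hu
      have hg := hu.2
      unfold gk at hg
      rw [he]
      beta_reduce
      rw [← ec_add, ← ec_add]
      congr 1
      simp only [hc]
      rw [Finset.sum_add_distrib, Finset.sum_add_distrib, ← Finset.mul_sum, ← Finset.mul_sum]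
      have f1 : ∑ i, ((u i : ℤ) : ℝ) ^ (κ' + 2) = ((pw (κ' + 2) u : ℤ) : ℝ) := by unfold pw; push_cast; rfl
      have f2 : ∑ i, ((u i : ℤ) : ℝ) ^ (κ' + 1) = ((t.2 : ℤ) : ℝ) := by
        rw [← hg]
        simp only
        unfold pw
        push_cast
        rfl
      have f3 : ∑ i, ∑ j ∈ range (κ' + 1), c y j * ((u i : ℤ) : ℝ) ^ j = lamb y t.1 := by
        rw [Finset.sum_comm, hlamb]
        refine Finset.sum_congr rfl fun j hj => ?_
        rw [Finset.mem_range] at hj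
        rw [← Finset.mul_sum]
        congr 1
        split_ifs with h6
        · rw [← hg]
          simp only
          rw [psm_apply]
          simp only [Nat.sub_add_cancel h6.1]
          push_cast
          rfl
        · have : j = 0 := by omega
          subst this
          simp
      rw [f1, f2, f3]
      ring
    rw [pow_mul' ‖∑ u ∈ Ico (0 : ℤ) N, ec (Ψ (u - y))‖ 2 s, ← norm_pow, e1, e2, e3]
  rw [Finset.sum_congr rfl (fun y _ => hpow y)]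
  have hΔ : ∀ b : ℕ → ℂ, ∑ t ∈ TT (κ' + 2) s N, ‖∑ y ∈ range X, b y * e y t‖ ^ 2 ≤
      (W.card * K) * ∑ y ∈ range X, ‖b y‖ ^ 2 := by
    intro b
    rw [hTW, Finset.sum_product]
    have hone : ∀ v ∈ W, ∑ z ∈ Ico (0 : ℤ) (L : ℤ), ‖∑ y ∈ range X, b y * e y (v, z)‖ ^ 2 ≤ K * ∑ y ∈ range X, ‖b y‖ ^ 2 := by
      intro v _
      have hp := pair_w L hL1 (range X) (fun y => b y * ec (lamb y v))
        (fun y => e0 (κ' + 1) - ((κ' + 2 : ℕ) : ℝ) * ω * ((y : ℤ) : ℝ)) K (by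
          intro y hy
          rw [Finset.mem_range] at hy
          rw [hK]
          have h1 : ∑ y' ∈ range X, KX L (e0 (κ' + 1) - ((κ' + 2 : ℕ) : ℝ) * ω * ((y : ℤ) : ℝ) -
              (e0 (κ' + 1) - ((κ' + 2 : ℕ) : ℝ) * ω * ((y' : ℤ) : ℝ))) =
              ∑ z ∈ (range X).image (fun y' : ℕ => (y' : ℤ) - y), KX L (((κ' + 2 : ℕ) : ℝ) * ω * z) := by
            rw [Finset.sum_image]
            · refine Finset.sum_congr rfl fun y' _ => ?_
              congr 1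
              push_cast
              ring
            · intro a _ b _ hab
              beta_reduce at hab
              omega
          rw [h1]
          refine Finset.sum_le_sum_of_subset_of_nonneg ?_ (fun _ _ _ => KX_nonneg _ _)
          intro z hz
          rw [Finset.mem_image] at hz
          obtain ⟨y', hy', rfl⟩ := hz
          rw [Finset.mem_range] at hy'
          rw [Finset.mem_Icc]
          omega)
      have hn : ∑ y ∈ range X, ‖b y * ec (lamb y v)‖ ^ 2 = ∑ y ∈ range X, ‖b y‖ ^ 2 := by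
        refine Finset.sum_congr rfl fun y _ => ?_
        rw [norm_mul, norm_ec, mul_one]
      rw [hn] at hp
      refine le_trans ?_ hp
      have hsub : Ico (0 : ℤ) (L : ℤ) ⊆ Ioo (-(L : ℤ)) L := by
        intro z hz
        rw [Finset.mem_Ico] at hz
        rw [Finset.mem_Ioo]
        omega
      refine le_trans (le_of_eq ?_) (Finset.sum_le_sum_of_subset_of_nonneg hsub (fun _ _ _ => by positivity))
      refine Finset.sum_congr rfl fun z _ => ?_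
      congr 2
      refine Finset.sum_congr rfl fun y _ => ?_
      rw [he]
      beta_reduce
      ring
    refine (Finset.sum_le_sum hone).trans (le_of_eq ?_)
    rw [Finset.sum_const, nsmul_eq_mul]
    ring
  have hd := dual_ls (range X) (TT (κ' + 2) s N) e (W.card * K) (by positivity) hΔ (Iu (κ' + 2) s N ω)
  refine hd.trans ?_
  refine mul_le_mul_of_nonneg_right ?_ (Zs_nonneg _ _ _ _)
  exact mul_le_mul_of_nonneg_right hcardW hK0

end Pool.Agent.helper132_h
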