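import Pool.Agent.helper132_h.H11

/-! The good shifts. -/

namespace Pool.Agent.helper132_h

open Finset Pool.Agent.helper132_sph Pool.Agent.helper132_poly Pool.Agent.helper132_quad

/-- weights for the completion. -/
noncomputable def bw (N r : ℕ) : ℝ := if r = 0 then 1 else 1 / (r : ℝ) + 1 / ((N - r : ℕ) : ℝ)

lemma bw_nonneg (N r : ℕ) : 0 ≤ bw N r := by
  unfold bw
  split_ifs <;> positivity

lemma bw_sum (N : ℕ) (hN : 1 ≤ N) : ∑ r ∈ range N, bw N r ≤ 3 + 2 * Real.log N := by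
  have h1 : ∑ r ∈ range N, bw N r = bw N 0 + ∑ r ∈ Ico 1 N, bw N r := by
    rw [Finset.range_eq_Ico, Finset.sum_eq_sum_Ico_succ_bot (by omega)]
  have h2 : ∑ r ∈ Ico 1 N, bw N r = ∑ r ∈ Ico 1 N, 1 / (r : ℝ) + ∑ r ∈ Ico 1 N, 1 / ((N - r : ℕ) : ℝ) := by
    rw [← Finset.sum_add_distrib]
    refine Finset.sum_congr rfl fun r hr => ?_
    rw [Finset.mem_Ico] at hr
    unfold bw
    rw [if_neg (by omega)]
  have h3 : ∑ r ∈ Ico 1 N, 1 / ((N - r : ℕ) : ℝ) = ∑ r ∈ Ico 1 N, 1 / (r : ℝ) := by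
    refine Finset.sum_bij' (fun t _ => N - t) (fun t _ => N - t) ?_ ?_ ?_ ?_ ?_
    · intro t ht; rw [Finset.mem_Ico] at ht ⊢; omega
    · intro t ht; rw [Finset.mem_Ico] at ht ⊢; omega
    · intro t ht; rw [Finset.mem_Ico] at ht; omega
    · intro t ht; rw [Finset.mem_Ico] at ht; omega
    · intro t _; rfl
  have h4 : ∑ r ∈ Ico 1 N, 1 / (r : ℝ) ≤ 1 + Real.log N := by
    have h5 := harmonic_le_one_add_log N
    rw [harmonic_eq_sum_Icc] at h5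
    push_cast at h5
    refine le_trans ?_ h5
    refine le_trans (le_of_eq ?_) (Finset.sum_le_sum_of_subset_of_nonneg (s := Ico 1 N) ?_ ?_)
    · exact Finset.sum_congr rfl fun r _ => one_div _
    · intro r hr
      rw [Finset.mem_Ico] at hr
      rw [Finset.mem_Icc]; omega
    · intro r _ _; positivity
  have h5 : bw N 0 = 1 := by unfold bw; simp
  rw [h1, h2, h3, h5]
  linarith

lemma interval_geom (N : ℕ) (hN : 1 ≤ N) (r : ℕ) (hr : r < N) (p q' : ℤ) (hpq : q' - p ≤ N) :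
    ‖∑ v ∈ Ico p q', ec (-((r : ℝ) / N) * (v : ℝ))‖ ≤ N * bw N r := by
  have hNR : (0 : ℝ) < N := by exact_mod_cast hN
  unfold bw
  split_ifs with h0
  · rw [mul_one]
    exact norm_sum_ec_le p q' (fun v => -((r : ℝ) / N) * (v : ℝ)) N hpq
  · have hr1 : (1 : ℝ) ≤ r := by exact_mod_cast (by omega : 1 ≤ r)
    have hrN : ((N - r : ℕ) : ℝ) = N - r := by push_cast [Nat.cast_sub hr.le]; ring
    have hNr1 : (1 : ℝ) ≤ ((N - r : ℕ) : ℝ) := by exact_mod_cast (by omega : 1 ≤ N - r)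
    have hPP : PP 1 (-((r : ℝ) / N)) (fun v : ℤ => -((r : ℝ) / N) * (v : ℝ) ^ 1) := PP.pow 1 _
    obtain ⟨c, hc⟩ := weyl_one N hN (-((r : ℝ) / N)) _ (Ph_of_PP hPP) p q' hpq
    have hS : ∑ n ∈ Ico p q', ec ((fun v : ℤ => -((r : ℝ) / N) * (v : ℝ) ^ 1) n) =
        ∑ v ∈ Ico p q', ec (-((r : ℝ) / N) * (v : ℝ)) := by
      refine Finset.sum_congr rfl fun n _ => ?_
      beta_reduce
      rw [pow_one]
    rw [hS, mul_assoc, div_mul_cancel₀ _ hNR.ne'] at hc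
    obtain ⟨S, hSd⟩ : ∃ S, S = ‖∑ v ∈ Ico p q', ec (-((r : ℝ) / N) * (v : ℝ))‖ := ⟨_, rfl⟩
    rw [← hSd] at hc ⊢
    have hS0 : 0 ≤ S := by rw [hSd]; exact norm_nonneg _
    rcases le_or_gt 0 c with h | h
    · have hc0 : (0 : ℝ) ≤ c := by exact_mod_cast h
      have h1 : (r : ℝ) / N ≤ |-((r : ℝ) / N) - c| := by
        refine le_trans ?_ (neg_le_abs _)
        linarith
      have h2 : (r : ℝ) / N * S ≤ 1 := (mul_le_mul_of_nonneg_right h1 hS0).trans hc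
      have h3 : S ≤ N * (1 / r) := by
        rw [div_mul_eq_mul_div, div_le_one hNR] at h2
        rw [mul_one_div, le_div_iff₀ (by linarith), mul_comm]
        exact h2
      refine h3.trans (mul_le_mul_of_nonneg_left ?_ hNR.le)
      have : 0 ≤ 1 / ((N - r : ℕ) : ℝ) := by positivity
      linarith
    · have hc1 : (c : ℝ) ≤ -1 := by exact_mod_cast (by omega : c ≤ -1)
      have h1 : ((N - r : ℕ) : ℝ) / N ≤ |-((r : ℝ) / N) - c| := by
        refine le_trans ?_ (le_abs_self _)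
        rw [hrN, sub_div, div_self hNR.ne']
        linarith
      have h2 : ((N - r : ℕ) : ℝ) / N * S ≤ 1 := (mul_le_mul_of_nonneg_right h1 hS0).trans hc
      have h3 : S ≤ N * (1 / ((N - r : ℕ) : ℝ)) := by
        rw [div_mul_eq_mul_div, div_le_one hNR] at h2
        rw [mul_one_div, le_div_iff₀ (by linarith), mul_comm]
        exact h2
      refine h3.trans (mul_le_mul_of_nonneg_left ?_ hNR.le)
      have : 0 ≤ 1 / (r : ℝ) := by positivity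
      linarith

/-- completion. -/
lemma window (N : ℕ) (hN : 1 ≤ N) (p q' : ℤ) (hp : 0 ≤ p) (hq : q' ≤ N) (F : ℤ → ℂ) :
    ‖∑ u ∈ Ico p q', F u‖ ≤ ∑ r ∈ range N, bw N r * ‖∑ u ∈ Ico (0 : ℤ) N, F u * ec ((r : ℝ) / N * (u : ℝ))‖ := by
  classical
  have hNR : (0 : ℝ) < N := by exact_mod_cast hN
  have hNC : (N : ℂ) ≠ 0 := by exact_mod_cast (by omega : N ≠ 0)
  have h1 : (N : ℂ) * ∑ u ∈ Ico p q', F u =
      ∑ r ∈ range N, (∑ v ∈ Ico p q', ec (-((r : ℝ) / N) * (v : ℝ))) *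
        ∑ u ∈ Ico (0 : ℤ) N, F u * ec ((r : ℝ) / N * (u : ℝ)) := by
    have e1 : ∀ u ∈ Ico (0 : ℤ) N, ∀ v ∈ Ico p q', ∑ r ∈ range N, ec ((r : ℝ) / N * ((u - v : ℤ) : ℝ)) =
        if u = v then (N : ℂ) else 0 := by
      intro u hu v hv
      rw [Finset.mem_Ico] at hu hv
      rw [geom_mod N hN (u - v)]
      by_cases h : u = v
      · rw [if_pos h, if_pos (by rw [h, sub_self]; exact dvd_zero _)]
      · rw [if_neg h, if_neg]
        intro hd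
        have := Int.eq_zero_of_abs_lt_dvd hd (by rw [abs_lt]; constructor <;> omega)
        omega
    have e2 : ∑ r ∈ range N, (∑ v ∈ Ico p q', ec (-((r : ℝ) / N) * (v : ℝ))) *
        ∑ u ∈ Ico (0 : ℤ) N, F u * ec ((r : ℝ) / N * (u : ℝ)) =
        ∑ u ∈ Ico (0 : ℤ) N, ∑ v ∈ Ico p q', F u * ∑ r ∈ range N, ec ((r : ℝ) / N * ((u - v : ℤ) : ℝ)) := by
      have e3 : ∀ r ∈ range N, (∑ v ∈ Ico p q', ec (-((r : ℝ) / N) * (v : ℝ))) *
          ∑ u ∈ Ico (0 : ℤ) N, F u * ec ((r : ℝ) / N * (u : ℝ)) =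
          ∑ u ∈ Ico (0 : ℤ) N, ∑ v ∈ Ico p q', F u * ec ((r : ℝ) / N * ((u - v : ℤ) : ℝ)) := by
        intro r _
        rw [mul_comm, Finset.sum_mul_sum]
        refine Finset.sum_congr rfl fun u _ => Finset.sum_congr rfl fun v _ => ?_
        rw [mul_assoc, ← ec_add]
        congr 2
        push_cast
        ring
      rw [Finset.sum_congr rfl e3, Finset.sum_comm]
      refine Finset.sum_congr rfl fun u _ => ?_
      rw [Finset.sum_comm]
      refine Finset.sum_congr rfl fun v _ => ?_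
      rw [Finset.mul_sum]
    rw [e2]
    have e4 : ∑ u ∈ Ico (0 : ℤ) N, ∑ v ∈ Ico p q', F u * ∑ r ∈ range N, ec ((r : ℝ) / N * ((u - v : ℤ) : ℝ)) =
        ∑ u ∈ Ico (0 : ℤ) N, ∑ v ∈ Ico p q', if u = v then F v * (N : ℂ) else 0 := by
      refine Finset.sum_congr rfl fun u hu => Finset.sum_congr rfl fun v hv => ?_
      rw [e1 u hu v hv]
      split_ifs with h
      · rw [h]
      · rw [mul_zero]
    rw [e4, Finset.sum_comm, Finset.mul_sum]
    refine Finset.sum_congr rfl fun v hv => ?_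
    rw [Finset.mem_Ico] at hv
    rw [Finset.sum_ite_eq' (Ico (0 : ℤ) N) v (fun _ => F v * (N : ℂ)), if_pos (by rw [Finset.mem_Ico]; omega), mul_comm]
  have h2 : (N : ℝ) * ‖∑ u ∈ Ico p q', F u‖ ≤
      N * ∑ r ∈ range N, bw N r * ‖∑ u ∈ Ico (0 : ℤ) N, F u * ec ((r : ℝ) / N * (u : ℝ))‖ := by
    have h3 : (N : ℝ) * ‖∑ u ∈ Ico p q', F u‖ = ‖(N : ℂ) * ∑ u ∈ Ico p q', F u‖ := by
      rw [norm_mul, Complex.norm_natCast]
    rw [h3, h1, Finset.mul_sum]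
    refine (norm_sum_le _ _).trans (Finset.sum_le_sum fun r hr => ?_)
    rw [norm_mul, ← mul_assoc]
    refine mul_le_mul_of_nonneg_right ?_ (norm_nonneg _)
    exact interval_geom N hN r (Finset.mem_range.1 hr) p q' (by omega)
  exact le_of_mul_le_mul_left h2 hNR

/-- correlations through shifted mean values. -/
lemma Dk_shift (κ s X : ℕ) (hκ : 2 ≤ κ) (hs : 1 ≤ s) (hX : 1 ≤ X) (α : ℝ) (h : ℤ) :
    (X : ℝ) * ‖Dk (κ + 1) X α h‖ ^ (2 * s) ≤ (3 + 2 * Real.log ((2 * X : ℕ) : ℝ)) ^ (2 * s) *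
      (((s : ℝ) ^ (κ - 2) * ((2 * X : ℕ) : ℝ) ^ ((κ - 1) * (κ - 2) / 2)) *
        (∑ z ∈ Icc (-(X : ℤ)) X, KX (s * (2 * X) ^ (κ - 1)) (κ * ((κ + 1) * h * α) * z)) *
        Zs κ s (2 * X) ((κ + 1) * h * α)) := by
  classical
  obtain ⟨N, hN⟩ : ∃ N, N = 2 * X := ⟨_, rfl⟩
  have hN1 : 1 ≤ N := by omega
  rw [← hN]
  obtain ⟨ω, hω⟩ : ∃ ω : ℝ, ω = ((κ : ℝ) + 1) * h * α := ⟨_, rfl⟩
  rw [← hω]
  obtain ⟨Φ, hΦ⟩ : ∃ Φ : ℤ → ℝ, Φ = fun n : ℤ => α * (((n + h : ℤ)) : ℝ) ^ (κ + 1) - α * (n : ℝ) ^ (κ + 1) := ⟨_, rfl⟩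
  have hΦP : PP κ ω Φ := by
    have h1 := PP.diff (PP.pow (κ + 1) α) h
    rw [hΦ, hω]
    exact h1
  obtain ⟨Ψ, hΨ⟩ : ∃ Ψ : ℕ → ℤ → ℝ, Ψ = fun (r : ℕ) (n : ℤ) => Φ n + (r : ℝ) / N * (n : ℝ) := ⟨_, rfl⟩
  have hΨP : ∀ r, PP κ ω (Ψ r) := by
    intro r
    have h1 : PP κ 0 (fun n : ℤ => (r : ℝ) / N * (n : ℝ) ^ 1) := by
      refine Low.congr (Low.pow (show 1 < κ by omega) ((r : ℝ) / N)) fun n => by ring
    have h2 := PP.add hΦP h1
    rw [add_zero] at h2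
    rw [hΨ]
    beta_reduce
    simpa only [pow_one] using h2
  obtain ⟨Bd, hBd⟩ : ∃ Bd : ℝ, Bd = ((s : ℝ) ^ (κ - 2) * (N : ℝ) ^ ((κ - 1) * (κ - 2) / 2)) *
        (∑ z ∈ Icc (-(X : ℤ)) X, KX (s * N ^ (κ - 1)) (κ * ω * z)) * Zs κ s N ω := ⟨_, rfl⟩
  rw [← hBd]
  have hBd0 : 0 ≤ Bd := by
    rw [hBd]
    have h1 := Zs_nonneg κ s N ω
    have h2 : 0 ≤ ∑ z ∈ Icc (-(X : ℤ)) X, KX (s * N ^ (κ - 1)) (κ * ω * z) := Finset.sum_nonneg fun _ _ => KX_nonneg _ _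
    positivity
  have hmean : ∀ r, ∑ y ∈ range X, ‖∑ u ∈ Ico (0 : ℤ) N, ec (Ψ r (u - y))‖ ^ (2 * s) ≤ Bd := by
    intro r
    rw [hBd]
    exact main_shift κ s N X hκ hs hN1 ω (Ψ r) (hΨP r)
  obtain ⟨B, hB⟩ : ∃ B : ℝ, B = ∑ r ∈ range N, bw N r := ⟨_, rfl⟩
  have hB1 : 1 ≤ B := by
    rw [hB]
    have h1 : bw N 0 ≤ ∑ r ∈ range N, bw N r :=
      Finset.single_le_sum (f := fun r => bw N r) (fun r _ => bw_nonneg N r) (Finset.mem_range.2 (by omega))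
    have h2 : bw N 0 = 1 := by unfold bw; simp
    linarith
  have hB0 : 0 < B := by linarith
  have hBlog : B ≤ 3 + 2 * Real.log (N : ℝ) := by rw [hB]; exact bw_sum N hN1
  have hpt : ∀ y ∈ range X, ‖Dk (κ + 1) X α h‖ ^ (2 * s) ≤
      B ^ (2 * s) * ∑ r ∈ range N, (bw N r / B) * ‖∑ u ∈ Ico (0 : ℤ) N, ec (Ψ r (u - y))‖ ^ (2 * s) := by
    intro y hy
    rw [Finset.mem_range] at hy
    have a1 := le_max_left (0 : ℤ) (0 - h)
    have a3 := min_le_left (X : ℤ) (X - h)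
    have hD : Dk (κ + 1) X α h = ∑ u ∈ Ico (max (0 : ℤ) (0 - h) + y) (min (X : ℤ) (X - h) + y), ec (Φ (u - y)) := by
      unfold Dk
      rw [hΦ]
      refine Finset.sum_bij' (fun n _ => n + y) (fun n _ => n - y) ?_ ?_ ?_ ?_ ?_
      · intro n hn; rw [Finset.mem_Ico] at hn ⊢; omega
      · intro n hn; rw [Finset.mem_Ico] at hn ⊢; omega
      · intro n _; ring
      · intro n _; ring
      · intro n _
        beta_reduce
        rw [add_sub_cancel_right]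
    have h1 := window N hN1 (max (0 : ℤ) (0 - h) + y) (min (X : ℤ) (X - h) + y) (by omega) (by omega)
      (fun u => ec (Φ (u - y)))
    rw [← hD] at h1
    have h2 : ∀ r ∈ range N, ‖∑ u ∈ Ico (0 : ℤ) N, ec (Φ (u - y)) * ec ((r : ℝ) / N * (u : ℝ))‖ =
        ‖∑ u ∈ Ico (0 : ℤ) N, ec (Ψ r (u - y))‖ := by
      intro r _
      have h3 : ∑ u ∈ Ico (0 : ℤ) N, ec (Φ (u - y)) * ec ((r : ℝ) / N * (u : ℝ)) =
          ec ((r : ℝ) / N * y) * ∑ u ∈ Ico (0 : ℤ) N, ec (Ψ r (u - y)) := by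
        rw [Finset.mul_sum]
        refine Finset.sum_congr rfl fun u _ => ?_
        rw [← ec_add, ← ec_add, hΨ]
        congr 1
        push_cast
        ring
      rw [h3, norm_mul, norm_ec, one_mul]
    have h4 : ‖Dk (κ + 1) X α h‖ ≤ B * ∑ r ∈ range N, (bw N r / B) * ‖∑ u ∈ Ico (0 : ℤ) N, ec (Ψ r (u - y))‖ := by
      refine h1.trans (le_of_eq ?_)
      rw [Finset.mul_sum]
      refine Finset.sum_congr rfl fun r hr => ?_
      rw [h2 r hr]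
      field_simp
    refine (pow_le_pow_left₀ (norm_nonneg _) h4 _).trans ?_
    rw [mul_pow]
    refine mul_le_mul_of_nonneg_left ?_ (by positivity)
    refine Real.pow_arith_mean_le_arith_mean_pow _ _ _ ?_ ?_ ?_ _
    · intro r _; exact div_nonneg (bw_nonneg _ _) hB0.le
    · rw [← Finset.sum_div, ← hB, div_self hB0.ne']
    · intro r _; exact norm_nonneg _
  have hsum := Finset.sum_le_sum hpt
  rw [Finset.sum_const, Finset.card_range, nsmul_eq_mul] at hsum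
  refine hsum.trans ?_
  rw [← Finset.mul_sum, Finset.sum_comm]
  refine mul_le_mul (pow_le_pow_left₀ hB0.le hBlog _) ?_ ?_ (pow_nonneg (by linarith) _)
  · calc ∑ r ∈ range N, ∑ y ∈ range X, (bw N r / B) * ‖∑ u ∈ Ico (0 : ℤ) N, ec (Ψ r (u - y))‖ ^ (2 * s)
        ≤ ∑ r ∈ range N, (bw N r / B) * Bd := by
          refine Finset.sum_le_sum fun r _ => ?_
          rw [← Finset.mul_sum]
          exact mul_le_mul_of_nonneg_left (hmean r) (div_nonneg (bw_nonneg _ _) hB0.le)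
      _ = Bd := by rw [← Finset.sum_mul, ← Finset.sum_div, ← hB, div_self hB0.ne', one_mul]
  · exact Finset.sum_nonneg fun r _ => Finset.sum_nonneg fun y _ =>
      mul_nonneg (div_nonneg (bw_nonneg _ _) hB0.le) (by positivity)

end Pool.Agent.helper132_h
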