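import Pool.Agent.helper132_h.H12

/-! Bounds for the good shifts. -/

namespace Pool.Agent.helper132_h

open Finset Pool.Agent.helper132_sph Pool.Agent.helper132_poly Pool.Agent.helper132_quad

lemma log_pow_le (n : ℕ) (ε : ℝ) (hε : 0 < ε) : ∃ C : ℝ, 1 ≤ C ∧ ∀ X : ℕ, 1 ≤ X →
    (3 + 2 * Real.log ((2 * X : ℕ) : ℝ)) ^ n ≤ C * (X : ℝ) ^ ε := by
  rcases Nat.eq_zero_or_pos n with h0 | h0
  · refine ⟨1, le_rfl, fun X hX => ?_⟩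
    rw [h0, pow_zero, one_mul]
    exact Real.one_le_rpow (by exact_mod_cast hX) hε.le
  · have hnR : (0 : ℝ) < n := by exact_mod_cast h0
    obtain ⟨c, hc⟩ : ∃ c : ℝ, c = 5 + 2 * (1 / (ε / n)) := ⟨_, rfl⟩
    have hc1 : 1 ≤ c := by
      have : 0 < 1 / (ε / n) := by positivity
      rw [hc]; linarith
    refine ⟨c ^ n, one_le_pow₀ hc1, fun X hX => ?_⟩
    have hXR : (1 : ℝ) ≤ X := by exact_mod_cast hX
    have hX0 : (0 : ℝ) < X := by linarith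
    have h1 : Real.log ((2 * X : ℕ) : ℝ) ≤ 1 + Real.log X := by
      push_cast
      rw [Real.log_mul (by norm_num) hX0.ne']
      have : Real.log 2 ≤ 1 := by
        have := Real.log_two_lt_d9
        linarith
      linarith
    have h2 : Real.log X ≤ (X : ℝ) ^ (ε / n) / (ε / n) := Real.log_le_rpow_div hX0.le (by positivity)
    have h3 : 1 ≤ (X : ℝ) ^ (ε / n) := Real.one_le_rpow hXR (by positivity)
    have h4 : 0 ≤ Real.log ((2 * X : ℕ) : ℝ) := Real.log_nonneg (by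
      push_cast; linarith)
    have h5 : 3 + 2 * Real.log ((2 * X : ℕ) : ℝ) ≤ c * (X : ℝ) ^ (ε / n) := by
      have e1 : c * (X : ℝ) ^ (ε / n) = 5 * (X : ℝ) ^ (ε / n) + 2 * ((X : ℝ) ^ (ε / n) / (ε / n)) := by
        rw [hc]; field_simp
      rw [e1]
      linarith
    calc (3 + 2 * Real.log ((2 * X : ℕ) : ℝ)) ^ n ≤ (c * (X : ℝ) ^ (ε / n)) ^ n :=
          pow_le_pow_left₀ (by linarith) h5 n
      _ = c ^ n * (X : ℝ) ^ ε := by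
          rw [mul_pow, ← Real.rpow_natCast ((X : ℝ) ^ (ε / n)) n, ← Real.rpow_mul hX0.le]
          congr 2
          field_simp

/-- kernel sums for minor frequencies. -/
lemma KX_dioph (W M L : ℕ) (hW : 1 ≤ W) (hL : 1 ≤ L) (β Q T : ℝ) (hQ : 1 ≤ Q) (hT : 0 < T)
    (hmin : ∀ (q : ℕ) (c : ℤ), 1 ≤ q → (q : ℝ) ≤ Q → Q < |q * β - c| * T) :
    ∑ z ∈ Icc (-(M : ℤ)) M, KX L (W * β * z) ≤ 32 * (M + (2 * M + T / Q + 1) + W * M * L / Q + L) := by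
  have hQ0 : 0 < Q := by linarith
  obtain ⟨n, hn⟩ : ∃ n : ℕ, n = 2 * M + ⌈T / Q⌉₊ := ⟨_, rfl⟩
  have hTQ : 0 < T / Q := by positivity
  have hceil : 0 < ⌈T / Q⌉₊ := Nat.ceil_pos.2 hTQ
  have hn1 : 0 < n := by omega
  obtain ⟨r, hr1, hr2⟩ := Real.exists_rat_abs_sub_le_and_den_le (W * β) hn1
  have hq1 : 1 ≤ r.den := r.den_pos
  have hqR : (0 : ℝ) < r.den := by exact_mod_cast r.den_pos
  have hWR : (0 : ℝ) < W := by exact_mod_cast hW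
  obtain ⟨θ, hθ⟩ : ∃ θ : ℝ, θ = W * β - (r.num : ℝ) / r.den := ⟨_, rfl⟩
  have hrcast : (r : ℝ) = (r.num : ℝ) / r.den := by
    have := Rat.num_div_den r
    exact_mod_cast this.symm
  rw [hrcast, ← hθ] at hr1
  have hMn : 2 * (M : ℝ) ≤ (n : ℝ) + 1 := by
    have : 2 * M ≤ n := by omega
    have h1 : ((2 * M : ℕ) : ℝ) ≤ n := by exact_mod_cast this
    push_cast at h1
    linarith
  have hn0 : (0 : ℝ) < (n : ℝ) + 1 := by positivity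
  have hθM : |θ| * M ≤ 1 / (2 * r.den) := by
    calc |θ| * M ≤ 1 / (((n : ℝ) + 1) * r.den) * M := mul_le_mul_of_nonneg_right hr1 (Nat.cast_nonneg _)
      _ ≤ 1 / (2 * r.den) := by
          rw [div_mul_eq_mul_div, one_mul, div_le_div_iff₀ (by positivity) (by positivity), one_mul]
          calc (M : ℝ) * (2 * r.den) = (2 * M) * r.den := by ring
            _ ≤ ((n : ℝ) + 1) * r.den := mul_le_mul_of_nonneg_right hMn hqR.le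
  have hcop : IsCoprime r.num (r.den : ℤ) := by
    rw [Int.isCoprime_iff_gcd_eq_one]
    have := r.reduced
    rw [Int.gcd_eq_natAbs]
    simpa using this
  have hKC := K_C L M r.den hL hq1 r.num hcop θ (W * β) 0 (by rw [hθ]; push_cast; ring) hθM
  refine hKC.trans ?_
  refine mul_le_mul_of_nonneg_left ?_ (by norm_num)
  have hqn : (r.den : ℝ) ≤ 2 * M + T / Q + 1 := by
    have h1 : (r.den : ℝ) ≤ n := by exact_mod_cast hr2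
    have h2 : (⌈T / Q⌉₊ : ℝ) < T / Q + 1 := Nat.ceil_lt_add_one hTQ.le
    rw [hn] at h1
    push_cast at h1
    linarith
  have hqQ : Q < W * r.den := by
    by_contra hcon
    push Not at hcon
    have h1 := hmin (W * r.den) r.num (Nat.mul_pos hW hq1) (by push_cast; exact hcon)
    have h2 : |((W * r.den : ℕ) : ℝ) * β - r.num| = r.den * |θ| := by
      rw [hθ, ← abs_of_pos hqR, ← abs_mul, abs_of_pos hqR]
      congr 1
      push_cast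
      field_simp
    rw [h2] at h1
    have h3 : r.den * |θ| * T ≤ T / (n + 1) := by
      calc (r.den : ℝ) * |θ| * T ≤ r.den * (1 / (((n : ℝ) + 1) * r.den)) * T := by gcongr
        _ = T / (n + 1) := by field_simp
    have h4 : T / Q ≤ n := by
      have h5 : T / Q ≤ (⌈T / Q⌉₊ : ℝ) := Nat.le_ceil _
      have h6 : (⌈T / Q⌉₊ : ℝ) ≤ n := by exact_mod_cast (by omega : ⌈T / Q⌉₊ ≤ n)
      linarith
    have h5 : T / ((n : ℝ) + 1) < Q := by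
      rw [div_lt_iff₀ hn0]
      rw [div_le_iff₀ hQ0] at h4
      linarith
    linarith
  have hML : (M : ℝ) * L / r.den ≤ W * M * L / Q := by
    rw [div_le_div_iff₀ hqR hQ0]
    calc (M : ℝ) * L * Q ≤ M * L * (W * r.den) := mul_le_mul_of_nonneg_left hqQ.le (by positivity)
      _ = W * M * L * r.den := by ring
  linarith

/-- the bound for a good shift. -/
lemma good_pt (κ s : ℕ) (hκ : 2 ≤ κ) (hs : 1 ≤ s) : ∃ C : ℝ, 1 ≤ C ∧ ∀ (X : ℕ) (_ : 1 ≤ X) (α : ℝ) (h : ℤ)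
    (Q : ℝ) (_ : 1 ≤ Q) (_ : Q ≤ X) (_ : Pool.Agent.helper132_poly.Minor κ X (h * α) Q),
    dl (κ + 1) X α h ^ (2 * s) * ((X : ℝ) ^ (2 * s + 1) * Q) ≤ C * (3 + 2 * Real.log ((2 * X : ℕ) : ℝ)) ^ (2 * s) *
      (X : ℝ) ^ ((κ - 1) * (κ - 2) / 2 + κ) * Zs κ s (2 * X) ((κ + 1) * h * α) := by
  have hsR : (1 : ℝ) ≤ s := by exact_mod_cast hs
  obtain ⟨c1, hc1⟩ : ∃ c1 : ℝ, c1 = 32 * (5 + (κ * (κ + 1) + 1) * (s * 2 ^ (κ - 1))) := ⟨_, rfl⟩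
  have hc10 : 1 ≤ c1 := by
    rw [hc1]
    have : (0 : ℝ) ≤ (κ * (κ + 1) + 1) * (s * 2 ^ (κ - 1)) := by positivity
    linarith
  have hs2 : (1 : ℝ) ≤ (s : ℝ) ^ (κ - 2) * 2 ^ ((κ - 1) * (κ - 2) / 2) :=
    one_le_mul_of_one_le_of_one_le (one_le_pow₀ hsR) (one_le_pow₀ (by norm_num))
  refine ⟨((s : ℝ) ^ (κ - 2) * 2 ^ ((κ - 1) * (κ - 2) / 2)) * c1, one_le_mul_of_one_le_of_one_le hs2 hc10, ?_⟩
  intro X hX α h Q hQ1 hQX hmin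
  have hXR : (1 : ℝ) ≤ X := by exact_mod_cast hX
  have hX0 : (0 : ℝ) < X := by linarith
  have hQ0 : 0 < Q := by linarith
  have hsh := Dk_shift κ s X hκ hs hX α h
  have hK := KX_dioph (κ * (κ + 1)) X (s * (2 * X) ^ (κ - 1)) (Nat.mul_pos (by omega) (by omega))
    (Nat.mul_pos hs (Nat.pow_pos (by omega))) (h * α) Q ((X : ℝ) ^ κ) hQ1 (by positivity) hmin
  have e1 : ∑ z ∈ Icc (-(X : ℤ)) X, KX (s * (2 * X) ^ (κ - 1)) (((κ * (κ + 1) : ℕ) : ℝ) * (h * α) * z) =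
      ∑ z ∈ Icc (-(X : ℤ)) X, KX (s * (2 * X) ^ (κ - 1)) (κ * ((κ + 1) * h * α) * z) := by
    refine Finset.sum_congr rfl fun z _ => ?_
    congr 1
    push_cast
    ring
  rw [e1] at hK
  obtain ⟨Kz, hKz⟩ : ∃ Kz, Kz = ∑ z ∈ Icc (-(X : ℤ)) X, KX (s * (2 * X) ^ (κ - 1)) (κ * ((κ + 1) * h * α) * z) := ⟨_, rfl⟩
  rw [← hKz] at hK hsh
  obtain ⟨u, hu⟩ : ∃ u : ℝ, u = (X : ℝ) ^ κ / Q := ⟨_, rfl⟩
  have hκX : (X : ℝ) ^ (κ - 1) * X = (X : ℝ) ^ κ := by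
    rw [← pow_succ]; congr 1; omega
  have hu1 : (X : ℝ) ^ (κ - 1) ≤ u := by
    rw [hu, le_div_iff₀ hQ0, ← hκX]
    exact mul_le_mul_of_nonneg_left hQX (by positivity)
  have hXκ : (X : ℝ) ≤ (X : ℝ) ^ (κ - 1) := le_self_pow₀ hXR (by omega)
  have hu2 : (X : ℝ) ≤ u := hXκ.trans hu1
  have hu3 : 1 ≤ u := hXR.trans hu2
  have hKu : Kz ≤ c1 * u := by
    refine hK.trans ?_
    rw [← hu]
    have e2 : ((κ * (κ + 1) : ℕ) : ℝ) * X * ((s * (2 * X) ^ (κ - 1) : ℕ) : ℝ) / Q =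
        (κ * (κ + 1)) * (s * 2 ^ (κ - 1)) * u := by
      rw [hu, ← hκX]
      push_cast
      rw [mul_pow]
      ring
    have e3 : ((s * (2 * X) ^ (κ - 1) : ℕ) : ℝ) ≤ (s * 2 ^ (κ - 1)) * u := by
      push_cast
      rw [mul_pow]
      calc (s : ℝ) * (2 ^ (κ - 1) * (X : ℝ) ^ (κ - 1)) = (s * 2 ^ (κ - 1)) * (X : ℝ) ^ (κ - 1) := by ring
        _ ≤ _ := mul_le_mul_of_nonneg_left hu1 (by positivity)
    rw [e2]
    have e4 : c1 * u = 32 * (u + (2 * u + u + u) + (κ * (κ + 1)) * (s * 2 ^ (κ - 1)) * u + (s * 2 ^ (κ - 1)) * u) := by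
      rw [hc1]; ring
    rw [e4]
    refine mul_le_mul_of_nonneg_left ?_ (by norm_num)
    linarith
  have hZ0 := Zs_nonneg κ s (2 * X) (((κ : ℝ) + 1) * h * α)
  obtain ⟨Z, hZ⟩ : ∃ Z, Z = Zs κ s (2 * X) (((κ : ℝ) + 1) * h * α) := ⟨_, rfl⟩
  rw [← hZ] at hZ0 hsh ⊢
  obtain ⟨lg, hlg⟩ : ∃ lg, lg = (3 + 2 * Real.log ((2 * X : ℕ) : ℝ)) ^ (2 * s) := ⟨_, rfl⟩
  have hlg0 : 0 ≤ lg := by
    rw [hlg]
    have : 0 ≤ Real.log ((2 * X : ℕ) : ℝ) := Real.log_nonneg (by push_cast; linarith)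
    positivity
  rw [← hlg] at hsh ⊢
  have hdl : dl (κ + 1) X α h ^ (2 * s) * (X : ℝ) ^ (2 * s) = ‖Dk (κ + 1) X α h‖ ^ (2 * s) := by
    unfold dl
    rw [div_pow]
    field_simp
  have h2X : ((2 * X : ℕ) : ℝ) ^ ((κ - 1) * (κ - 2) / 2) = 2 ^ ((κ - 1) * (κ - 2) / 2) * (X : ℝ) ^ ((κ - 1) * (κ - 2) / 2) := by
    push_cast
    rw [mul_pow]
  calc dl (κ + 1) X α h ^ (2 * s) * ((X : ℝ) ^ (2 * s + 1) * Q)
      = (X * ‖Dk (κ + 1) X α h‖ ^ (2 * s)) * Q := by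
        rw [← hdl, pow_succ (X : ℝ) (2 * s)]; ring
    _ ≤ (lg * (((s : ℝ) ^ (κ - 2) * ((2 * X : ℕ) : ℝ) ^ ((κ - 1) * (κ - 2) / 2)) * (c1 * u) * Z)) * Q := by
        refine mul_le_mul_of_nonneg_right (hsh.trans ?_) hQ0.le
        gcongr
    _ = _ := by
        rw [h2X, hu, pow_add]
        field_simp

open Classical in
/-- the good part of the average. -/
noncomputable def Vg (κ m X : ℕ) (α Q : ℝ) : ℝ :=
  (∑ h ∈ Ioo (-(X : ℤ)) X, if Pool.Agent.helper132_poly.Minor κ X (h * α) Q then dl (κ + 1) X α h ^ m else 0) / X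

open Classical in
/-- the bad part of the average. -/
noncomputable def Vb (κ m X : ℕ) (α Q : ℝ) : ℝ :=
  (∑ h ∈ Ioo (-(X : ℤ)) X, if Pool.Agent.helper132_poly.Minor κ X (h * α) Q then 0 else dl (κ + 1) X α h ^ m) / X

lemma Vg_nonneg (κ m X : ℕ) (α Q : ℝ) : 0 ≤ Vg κ m X α Q := by
  classical
  unfold Vg
  refine div_nonneg (Finset.sum_nonneg fun h _ => ?_) (Nat.cast_nonneg _)
  split_ifs
  · exact pow_nonneg (dl_nonneg _ _ _ _) _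
  · exact le_rfl

lemma Vb_nonneg (κ m X : ℕ) (α Q : ℝ) : 0 ≤ Vb κ m X α Q := by
  classical
  unfold Vb
  refine div_nonneg (Finset.sum_nonneg fun h _ => ?_) (Nat.cast_nonneg _)
  split_ifs
  · exact le_rfl
  · exact pow_nonneg (dl_nonneg _ _ _ _) _

lemma Dl_split (κ m X : ℕ) (α Q : ℝ) : Dl (κ + 1) m X α = Vg κ m X α Q + Vb κ m X α Q := by
  classical
  unfold Dl Vg Vb
  rw [← add_div, ← Finset.sum_add_distrib]
  congr 1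
  refine Finset.sum_congr rfl fun h _ => ?_
  split_ifs <;> ring

lemma Jm_2X (κ s : ℕ) (η CJ : ℝ) (hη0 : 0 ≤ η) (hη1 : η ≤ 1) (hCJ : 1 ≤ CJ) (hJ : MVT κ s η CJ) (X : ℕ) (hX : 1 ≤ X) :
    (Jm κ s (2 * X) : ℝ) ≤ (CJ * 2 ^ (2 * (s : ℝ) + 1)) * (X : ℝ) ^ (2 * (s : ℝ) - (κ : ℝ) * (κ + 1) / 2 + η) := by
  have hX0 : (0 : ℝ) < X := by exact_mod_cast hX
  refine (hJ (2 * X) (by omega)).trans ?_
  push_cast
  rw [Real.mul_rpow (by norm_num) hX0.le, mul_assoc]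
  refine mul_le_mul_of_nonneg_left (mul_le_mul_of_nonneg_right ?_ (by positivity)) (by linarith)
  refine Real.rpow_le_rpow_of_exponent_le (by norm_num) ?_
  have : (0 : ℝ) ≤ (κ : ℝ) * (κ + 1) / 2 := by positivity
  linarith

lemma half_cast (κ : ℕ) (hκ : 2 ≤ κ) : ((((κ - 1) * (κ - 2) / 2 : ℕ)) : ℝ) = ((κ : ℝ) - 1) * (κ - 2) / 2 := by
  have h1 : 2 ∣ (κ - 1) * (κ - 2) := by
    have := (Nat.even_mul_pred_self (κ - 1)).two_dvd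
    have e : κ - 1 - 1 = κ - 2 := by omega
    rwa [e] at this
  rw [Nat.cast_div h1 (by norm_num)]
  push_cast [Nat.cast_sub (show 1 ≤ κ by omega), Nat.cast_sub hκ]
  ring

/-- the pointwise bound for the good part. -/
theorem Vg_pt (κ s : ℕ) (hκ : 2 ≤ κ) (hs : 1 ≤ s) (η CJ : ℝ) (hη0 : 0 < η) (hη1 : η ≤ 1) (hCJ : 1 ≤ CJ) (hJ : MVT κ s η CJ) :
    ∃ C : ℝ, 1 ≤ C ∧ ∀ (X : ℕ) (_ : 1 ≤ X) (α Q R : ℝ) (_ : 1 ≤ Q) (_ : Q ≤ X) (_ : 1 ≤ R) (_ : R ≤ X)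
      (_ : Pool.Agent.helper132_poly.Minor (κ + 1) X α R), Vg κ (2 * s) X α Q * (Q * R) ≤ C * (X : ℝ) ^ (2 * η) := by
  classical
  obtain ⟨C1, hC1, hgp⟩ := good_pt κ s hκ hs
  obtain ⟨C2, hC2, hlog⟩ := log_pow_le (2 * s) η hη0
  obtain ⟨c3, hc3⟩ : ∃ c3 : ℝ, c3 = 32 * (3 + (κ + 4) * (s * 2 ^ κ)) := ⟨_, rfl⟩
  have hc31 : 1 ≤ c3 := by
    rw [hc3]
    have : (0 : ℝ) ≤ (κ + 4) * (s * 2 ^ κ) := by positivity
    linarith
  obtain ⟨C4, hC4⟩ : ∃ C4 : ℝ, C4 = CJ * 2 ^ (2 * (s : ℝ) + 1) := ⟨_, rfl⟩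
  have hC41 : 1 ≤ C4 := by
    rw [hC4]
    exact one_le_mul_of_one_le_of_one_le hCJ (Real.one_le_rpow (by norm_num) (by positivity))
  refine ⟨C1 * C2 * C4 * c3, ?_, ?_⟩
  · exact one_le_mul_of_one_le_of_one_le (one_le_mul_of_one_le_of_one_le (one_le_mul_of_one_le_of_one_le hC1 hC2) hC41) hc31
  intro X hX α Q R hQ1 hQX hR1 hRX hmin
  have hXR : (1 : ℝ) ≤ X := by exact_mod_cast hX
  have hX0 : (0 : ℝ) < X := by linarith
  have hQ0 : 0 < Q := by linarith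
  have hR0 : 0 < R := by linarith
  obtain ⟨lg, hlg⟩ : ∃ lg, lg = (3 + 2 * Real.log ((2 * X : ℕ) : ℝ)) ^ (2 * s) := ⟨_, rfl⟩
  have hlg0 : 0 ≤ lg := by
    rw [hlg]
    have : 0 ≤ Real.log ((2 * X : ℕ) : ℝ) := Real.log_nonneg (by push_cast; linarith)
    positivity
  have hlgX : lg ≤ C2 * (X : ℝ) ^ η := by rw [hlg]; exact hlog X hX
  -- sum over the shifts
  have hsum : ∑ h ∈ Ioo (-(X : ℤ)) X, Zs κ s (2 * X) (((κ : ℝ) + 1) * h * α) ≤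
      (Jm κ s (2 * X) : ℝ) * (c3 * ((X : ℝ) ^ (κ + 1) / R)) := by
    have h1 := Zs_avg κ s (2 * X) X hκ hs hX (((κ : ℝ) + 1) * α)
    have e1 : ∑ h ∈ Ioo (-(X : ℤ)) X, Zs κ s (2 * X) (((κ : ℝ) + 1) * α * h) =
        ∑ h ∈ Ioo (-(X : ℤ)) X, Zs κ s (2 * X) (((κ : ℝ) + 1) * h * α) := by
      refine Finset.sum_congr rfl fun h _ => ?_
      congr 1; ring
    rw [e1] at h1
    refine h1.trans (mul_le_mul_of_nonneg_left ?_ (Nat.cast_nonneg _))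
    have hK := KX_dioph (κ + 1) (s * (2 * X) ^ κ) X (by omega) hX α R ((X : ℝ) ^ (κ + 1)) hR1 (by positivity) hmin
    have e2 : ∑ z ∈ Icc (-((s * (2 * X) ^ κ : ℕ) : ℤ)) ((s * (2 * X) ^ κ : ℕ) : ℤ), KX X (((κ + 1 : ℕ) : ℝ) * α * z) =
        ∑ y ∈ Icc (-((s * (2 * X) ^ κ : ℕ) : ℤ)) ((s * (2 * X) ^ κ : ℕ) : ℤ), KX X (((κ : ℝ) + 1) * α * y) := by
      push_cast
      rfl
    rw [e2] at hK
    refine hK.trans ?_
    obtain ⟨u, hu⟩ : ∃ u : ℝ, u = (X : ℝ) ^ (κ + 1) / R := ⟨_, rfl⟩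
    have hu1 : (X : ℝ) ^ κ ≤ u := by
      rw [hu, le_div_iff₀ hR0, pow_succ]
      exact mul_le_mul_of_nonneg_left hRX (by positivity)
    have hXκ : (X : ℝ) ≤ (X : ℝ) ^ κ := le_self_pow₀ hXR (by omega)
    have hu2 : (X : ℝ) ≤ u := hXκ.trans hu1
    have hu3 : 1 ≤ u := hXR.trans hu2
    rw [← hu]
    have e3 : ((s * (2 * X) ^ κ : ℕ) : ℝ) ≤ (s * 2 ^ κ) * u := by
      push_cast
      rw [mul_pow]
      calc (s : ℝ) * (2 ^ κ * (X : ℝ) ^ κ) = (s * 2 ^ κ) * (X : ℝ) ^ κ := by ring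
        _ ≤ _ := mul_le_mul_of_nonneg_left hu1 (by positivity)
    have e4 : ((κ + 1 : ℕ) : ℝ) * ((s * (2 * X) ^ κ : ℕ) : ℝ) * X / R = (κ + 1) * (s * 2 ^ κ) * u := by
      rw [hu, pow_succ]
      push_cast
      rw [mul_pow]
      ring
    rw [e4]
    have e5 : c3 * u = 32 * ((s * 2 ^ κ) * u + (2 * ((s * 2 ^ κ) * u) + u + u) + (κ + 1) * (s * 2 ^ κ) * u + u) := by
      rw [hc3]; ring
    rw [e5]
    refine mul_le_mul_of_nonneg_left ?_ (by norm_num)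
    linarith
  have hJX := Jm_2X κ s η CJ hη0.le hη1 hCJ hJ X hX
  rw [← hC4] at hJX
  -- assemble
  obtain ⟨E, hE⟩ : ∃ E : ℕ, E = (κ - 1) * (κ - 2) / 2 + κ := ⟨_, rfl⟩
  have hVg : Vg κ (2 * s) X α Q * ((X : ℝ) * ((X : ℝ) ^ (2 * s + 1) * Q)) ≤
      C1 * lg * (X : ℝ) ^ E * ((C4 * (X : ℝ) ^ (2 * (s : ℝ) - (κ : ℝ) * (κ + 1) / 2 + η)) * (c3 * ((X : ℝ) ^ (κ + 1) / R))) := by
    have h1 : Vg κ (2 * s) X α Q * ((X : ℝ) * ((X : ℝ) ^ (2 * s + 1) * Q)) =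
        ∑ h ∈ Ioo (-(X : ℤ)) X, (if Pool.Agent.helper132_poly.Minor κ X (h * α) Q then dl (κ + 1) X α h ^ (2 * s) else 0) *
          ((X : ℝ) ^ (2 * s + 1) * Q) := by
      have key : ∀ S A : ℝ, S / X * (X * A) = S * A := by intro S A; field_simp
      unfold Vg
      rw [← Finset.sum_mul, key]
    rw [h1]
    have h2 : ∀ h ∈ Ioo (-(X : ℤ)) X, (if Pool.Agent.helper132_poly.Minor κ X (h * α) Q then dl (κ + 1) X α h ^ (2 * s) else 0) *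
          ((X : ℝ) ^ (2 * s + 1) * Q) ≤ C1 * lg * (X : ℝ) ^ E * Zs κ s (2 * X) (((κ : ℝ) + 1) * h * α) := by
      intro h _
      have hZ0 := Zs_nonneg κ s (2 * X) (((κ : ℝ) + 1) * h * α)
      split_ifs with hm
      · rw [hlg, hE]
        exact hgp X hX α h Q hQ1 hQX hm
      · rw [zero_mul]
        positivity
    refine (Finset.sum_le_sum h2).trans ?_
    rw [← Finset.mul_sum]
    refine mul_le_mul_of_nonneg_left ?_ (by positivity)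
    refine hsum.trans (mul_le_mul_of_nonneg_right hJX (by positivity))
  have hexp : (X : ℝ) ^ E * ((X : ℝ) ^ (2 * (s : ℝ) - (κ : ℝ) * (κ + 1) / 2 + η) * (X : ℝ) ^ (κ + 1)) =
      ((X : ℝ) * (X : ℝ) ^ (2 * s + 1)) * (X : ℝ) ^ η := by
    rw [← Real.rpow_natCast (X : ℝ) E, ← Real.rpow_natCast (X : ℝ) (κ + 1), ← Real.rpow_natCast (X : ℝ) (2 * s + 1),
      ← Real.rpow_add hX0, ← Real.rpow_add hX0]
    conv_rhs => rw [← Real.rpow_one (X : ℝ), ← Real.rpow_mul hX0.le, ← Real.rpow_mul hX0.le, ← Real.rpow_add hX0,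
      ← Real.rpow_add hX0]
    congr 1
    rw [hE]
    push_cast [half_cast κ hκ]
    ring
  have h3 : (Vg κ (2 * s) X α Q * (Q * R)) * ((X : ℝ) * (X : ℝ) ^ (2 * s + 1)) ≤
      (C1 * C2 * C4 * c3 * (X : ℝ) ^ (2 * η)) * ((X : ℝ) * (X : ℝ) ^ (2 * s + 1)) := by
    calc (Vg κ (2 * s) X α Q * (Q * R)) * ((X : ℝ) * (X : ℝ) ^ (2 * s + 1))
        = (Vg κ (2 * s) X α Q * ((X : ℝ) * ((X : ℝ) ^ (2 * s + 1) * Q))) * R := by ring
      _ ≤ (C1 * lg * (X : ℝ) ^ E * ((C4 * (X : ℝ) ^ (2 * (s : ℝ) - (κ : ℝ) * (κ + 1) / 2 + η)) * (c3 * ((X : ℝ) ^ (κ + 1) / R)))) * R :=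
          mul_le_mul_of_nonneg_right hVg hR0.le
      _ = (C1 * lg * C4 * c3) * ((X : ℝ) ^ E * ((X : ℝ) ^ (2 * (s : ℝ) - (κ : ℝ) * (κ + 1) / 2 + η) * (X : ℝ) ^ (κ + 1))) := by
          field_simp
      _ = (C1 * lg * C4 * c3) * (((X : ℝ) * (X : ℝ) ^ (2 * s + 1)) * (X : ℝ) ^ η) := by rw [hexp]
      _ ≤ (C1 * (C2 * (X : ℝ) ^ η) * C4 * c3) * (((X : ℝ) * (X : ℝ) ^ (2 * s + 1)) * (X : ℝ) ^ η) := by gcongr
      _ = _ := by
          rw [two_mul η, Real.rpow_add hX0]; ring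
  exact le_of_mul_le_mul_right h3 (by positivity)

/-- the mean value of the good part. -/
theorem Vg_sum (κ s : ℕ) (hκ : 2 ≤ κ) (hs : 1 ≤ s) (η CJ : ℝ) (hη0 : 0 < η) (hη1 : η ≤ 1) (hCJ : 1 ≤ CJ) (hJ : MVT κ s η CJ) :
    ∃ C : ℝ, 1 ≤ C ∧ ∀ (X : ℕ) (_ : 1 ≤ X) (Q : ℝ) (_ : 1 ≤ Q) (_ : Q ≤ X),
      (∑ a ∈ range (X ^ (κ + 1)), Vg κ (2 * s) X ((a : ℝ) / (X : ℝ) ^ (κ + 1)) Q) * Q ≤ C * (X : ℝ) ^ (1 + 2 * η) := by
  classical
  obtain ⟨C1, hC1, hgp⟩ := good_pt κ s hκ hs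
  obtain ⟨C2, hC2, hlog⟩ := log_pow_le (2 * s) η hη0
  obtain ⟨Y, hY⟩ : ∃ Y : ℕ, Y = (κ + 1) * (s * 2 ^ κ) := ⟨_, rfl⟩
  obtain ⟨c3, hc3⟩ : ∃ c3 : ℝ, c3 = 2 * ((2 * Y + 1) * 4) := ⟨_, rfl⟩
  have hc31 : 1 ≤ c3 := by
    rw [hc3]
    have : (0 : ℝ) ≤ Y := Nat.cast_nonneg _
    linarith
  obtain ⟨C4, hC4⟩ : ∃ C4 : ℝ, C4 = CJ * 2 ^ (2 * (s : ℝ) + 1) := ⟨_, rfl⟩
  have hC41 : 1 ≤ C4 := by
    rw [hC4]
    exact one_le_mul_of_one_le_of_one_le hCJ (Real.one_le_rpow (by norm_num) (by positivity))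
  refine ⟨C1 * C2 * C4 * c3, ?_, ?_⟩
  · exact one_le_mul_of_one_le_of_one_le (one_le_mul_of_one_le_of_one_le (one_le_mul_of_one_le_of_one_le hC1 hC2) hC41) hc31
  intro X hX Q hQ1 hQX
  have hXR : (1 : ℝ) ≤ X := by exact_mod_cast hX
  have hX0 : (0 : ℝ) < X := by linarith
  have hQ0 : 0 < Q := by linarith
  obtain ⟨P, hP⟩ : ∃ P : ℕ, P = X ^ (κ + 1) := ⟨_, rfl⟩
  have hP1 : 1 ≤ P := by rw [hP]; exact Nat.one_le_pow _ _ hX
  have hPR : (P : ℝ) = (X : ℝ) ^ (κ + 1) := by rw [hP]; push_cast; ring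
  rw [← hP]
  obtain ⟨lg, hlg⟩ : ∃ lg, lg = (3 + 2 * Real.log ((2 * X : ℕ) : ℝ)) ^ (2 * s) := ⟨_, rfl⟩
  have hlg0 : 0 ≤ lg := by
    rw [hlg]
    have : 0 ≤ Real.log ((2 * X : ℕ) : ℝ) := Real.log_nonneg (by push_cast; linarith)
    positivity
  have hlgX : lg ≤ C2 * (X : ℝ) ^ η := by rw [hlg]; exact hlog X hX
  have hJX := Jm_2X κ s η CJ hη0.le hη1 hCJ hJ X hX
  rw [← hC4] at hJX
  obtain ⟨E, hE⟩ : ∃ E : ℕ, E = (κ - 1) * (κ - 2) / 2 + κ := ⟨_, rfl⟩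
  obtain ⟨JJ, hJJ⟩ : ∃ JJ : ℝ, JJ = (X : ℝ) ^ (2 * (s : ℝ) - (κ : ℝ) * (κ + 1) / 2 + η) := ⟨_, rfl⟩
  rw [← hJJ] at hJX
  have hJJ0 : 0 ≤ JJ := by rw [hJJ]; positivity
  -- each shift
  have hone : ∀ h ∈ Ioo (-(X : ℤ)) X, ∑ a ∈ range P, (if Pool.Agent.helper132_poly.Minor κ X (h * ((a : ℝ) / (X : ℝ) ^ (κ + 1))) Q
        then dl (κ + 1) X ((a : ℝ) / (X : ℝ) ^ (κ + 1)) h ^ (2 * s) else 0) * ((X : ℝ) ^ (2 * s + 1) * Q) ≤
      C1 * lg * (X : ℝ) ^ E * ((C4 * JJ) * ((2 * Y + 1) * (4 * P))) := by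
    intro h hh
    rw [Finset.mem_Ioo] at hh
    rcases eq_or_ne h 0 with h0 | h0
    · have h1 : ∀ a ∈ range P, (if Pool.Agent.helper132_poly.Minor κ X (h * ((a : ℝ) / (X : ℝ) ^ (κ + 1))) Q
        then dl (κ + 1) X ((a : ℝ) / (X : ℝ) ^ (κ + 1)) h ^ (2 * s) else 0) * ((X : ℝ) ^ (2 * s + 1) * Q) = 0 := by
        intro a _
        rw [if_neg, zero_mul]
        intro hm
        have h2 := hm 1 0 le_rfl (by push_cast; exact hQ1)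
        rw [h0] at h2
        simp at h2
        linarith
      rw [Finset.sum_congr rfl h1, Finset.sum_const_zero]
      positivity
    · have hz := Zs_freq κ s (2 * X) P hκ hs hP1 (((κ : ℤ) + 1) * h) (mul_ne_zero (by omega) h0) Y (by
        rw [abs_mul, abs_of_pos (show (0 : ℤ) < (κ : ℤ) + 1 by omega), hY, hP]
        have h1 : |h| ≤ X := by rw [abs_le]; constructor <;> linarith [hh.1, hh.2]
        push_cast
        calc ((κ : ℤ) + 1) * |h| * ((s : ℤ) * (2 * X) ^ κ) ≤ ((κ : ℤ) + 1) * X * ((s : ℤ) * (2 * X) ^ κ) := by gcongr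
          _ = ((κ : ℤ) + 1) * (s * 2 ^ κ) * X ^ (κ + 1) := by rw [mul_pow, pow_succ]; ring)
      have h2 : ∀ a ∈ range P, (if Pool.Agent.helper132_poly.Minor κ X (h * ((a : ℝ) / (X : ℝ) ^ (κ + 1))) Q
        then dl (κ + 1) X ((a : ℝ) / (X : ℝ) ^ (κ + 1)) h ^ (2 * s) else 0) * ((X : ℝ) ^ (2 * s + 1) * Q) ≤
          C1 * lg * (X : ℝ) ^ E * Zs κ s (2 * X) (((((κ : ℤ) + 1) * h : ℤ) : ℝ) / P * a) := by
        intro a _
        have hZ0 := Zs_nonneg κ s (2 * X) (((((κ : ℤ) + 1) * h : ℤ) : ℝ) / P * a)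
        split_ifs with hm
        · have h3 := hgp X hX ((a : ℝ) / (X : ℝ) ^ (κ + 1)) h Q hQ1 hQX hm
          rw [← hlg, ← hE] at h3
          have e : ((κ : ℝ) + 1) * h * ((a : ℝ) / (X : ℝ) ^ (κ + 1)) = ((((κ : ℤ) + 1) * h : ℤ) : ℝ) / P * a := by
            rw [hPR]; push_cast; ring
          rw [e] at h3
          exact h3
        · rw [zero_mul]
          positivity
      refine (Finset.sum_le_sum h2).trans ?_
      rw [← Finset.mul_sum]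
      refine mul_le_mul_of_nonneg_left ?_ (by positivity)
      exact hz.trans (mul_le_mul_of_nonneg_right hJX (by positivity))
  have hVg : (∑ a ∈ range P, Vg κ (2 * s) X ((a : ℝ) / (X : ℝ) ^ (κ + 1)) Q) * ((X : ℝ) * ((X : ℝ) ^ (2 * s + 1) * Q)) ≤
      (2 * X) * (C1 * lg * (X : ℝ) ^ E * ((C4 * JJ) * ((2 * Y + 1) * (4 * P)))) := by
    have h1 : (∑ a ∈ range P, Vg κ (2 * s) X ((a : ℝ) / (X : ℝ) ^ (κ + 1)) Q) * ((X : ℝ) * ((X : ℝ) ^ (2 * s + 1) * Q)) =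
        ∑ h ∈ Ioo (-(X : ℤ)) X, ∑ a ∈ range P, (if Pool.Agent.helper132_poly.Minor κ X (h * ((a : ℝ) / (X : ℝ) ^ (κ + 1))) Q
        then dl (κ + 1) X ((a : ℝ) / (X : ℝ) ^ (κ + 1)) h ^ (2 * s) else 0) * ((X : ℝ) ^ (2 * s + 1) * Q) := by
      rw [Finset.sum_comm, Finset.sum_mul]
      refine Finset.sum_congr rfl fun a _ => ?_
      have key : ∀ S A : ℝ, S / X * (X * A) = S * A := by intro S A; field_simp
      unfold Vg
      rw [← Finset.sum_mul, key]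
    rw [h1]
    refine (Finset.sum_le_sum hone).trans ?_
    rw [Finset.sum_const, nsmul_eq_mul]
    refine mul_le_mul_of_nonneg_right ?_ (by positivity)
    rw [Int.card_Ioo]
    have : ((X : ℤ) - -(X : ℤ) - 1).toNat ≤ 2 * X := by omega
    exact_mod_cast this
  have hexp : (X : ℝ) * ((X : ℝ) ^ E * (JJ * (P : ℝ))) = ((X : ℝ) * (X : ℝ) ^ (2 * s + 1)) * (X : ℝ) ^ (1 + η) := by
    rw [hPR, hJJ]
    rw [← Real.rpow_natCast (X : ℝ) E, ← Real.rpow_natCast (X : ℝ) (κ + 1), ← Real.rpow_natCast (X : ℝ) (2 * s + 1),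
      ← Real.rpow_add hX0, ← Real.rpow_add hX0]
    conv_lhs => rw [← Real.rpow_one (X : ℝ), ← Real.rpow_mul hX0.le, ← Real.rpow_add hX0]
    conv_rhs => rw [← Real.rpow_one (X : ℝ), ← Real.rpow_mul hX0.le, ← Real.rpow_mul hX0.le, ← Real.rpow_add hX0,
      ← Real.rpow_add hX0]
    congr 1
    rw [hE]
    push_cast [half_cast κ hκ]
    ring
  obtain ⟨SV, hSV⟩ : ∃ SV, SV = ∑ a ∈ range P, Vg κ (2 * s) X ((a : ℝ) / (X : ℝ) ^ (κ + 1)) Q := ⟨_, rfl⟩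
  rw [← hSV] at hVg ⊢
  have h3 : (SV * Q) * ((X : ℝ) * (X : ℝ) ^ (2 * s + 1)) ≤
      (C1 * C2 * C4 * c3 * (X : ℝ) ^ (1 + 2 * η)) * ((X : ℝ) * (X : ℝ) ^ (2 * s + 1)) := by
    calc (SV * Q) * ((X : ℝ) * (X : ℝ) ^ (2 * s + 1))
        = SV * ((X : ℝ) * ((X : ℝ) ^ (2 * s + 1) * Q)) := by ring
      _ ≤ (2 * X) * (C1 * lg * (X : ℝ) ^ E * ((C4 * JJ) * ((2 * Y + 1) * (4 * P)))) := hVg
      _ = (C1 * lg * C4 * c3) * ((X : ℝ) * ((X : ℝ) ^ E * (JJ * (P : ℝ)))) := by rw [hc3]; ring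
      _ = (C1 * lg * C4 * c3) * (((X : ℝ) * (X : ℝ) ^ (2 * s + 1)) * (X : ℝ) ^ (1 + η)) := by rw [hexp]
      _ ≤ (C1 * (C2 * (X : ℝ) ^ η) * C4 * c3) * (((X : ℝ) * (X : ℝ) ^ (2 * s + 1)) * (X : ℝ) ^ (1 + η)) := by gcongr
      _ = _ := by
          have e : (X : ℝ) ^ (1 + 2 * η) = (X : ℝ) ^ η * (X : ℝ) ^ (1 + η) := by
            rw [← Real.rpow_add hX0]; congr 1; ring
          rw [e]; ring
  exact le_of_mul_le_mul_right h3 (by positivity)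

end Pool.Agent.helper132_h
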