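import Pool.Agent.helper132_h.H8
import Pool.Agent.helper132_sph.LB1
import Pool.Agent.helper132_poly.P5

/-! Major arc bounds for correlations and for power sums. -/

namespace Pool.Agent.helper132_h

open Finset Polynomial Pool.Agent.helper132_sph Pool.Agent.helper132_poly

/-- power form of the major arc bound. -/
theorem major_pow (D : ℕ) (hD : 1 ≤ D) (L : ℕ) (hL : 1 ≤ L) (V : ℝ) (hV1 : 1 ≤ V) (hLV : (L : ℝ) ≤ V) (M : ℝ) (hM : 1 ≤ M) :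
    ∃ K : ℝ, 1 ≤ K ∧ ∀ (X : ℕ) (_ : 1 ≤ X) (f : ℤ[X]) (_ : f.natDegree ≤ D) (_ : f.coeff D = L) (a b : ℤ)
      (_ : b - a ≤ X) (_ : ∀ n ∈ Ico a b, |((f.eval (n + 1) : ℤ) : ℝ) - ((f.eval n : ℤ) : ℝ)| ≤ V * (X : ℝ) ^ (D - 1))
      (q : ℕ) (_ : 1 ≤ q) (β : ℤ) (_ : IsCoprime β (q : ℤ)) (θ : ℝ)
      (_ : (q * (1 + |θ| * (X : ℝ) ^ D)) ^ (12 * (2 * D - 1) + 11) ≤ M * (X : ℝ) ^ (12 * (2 * D - 1))),
      (‖∑ n ∈ Ico a b, ec (((β : ℝ) / q + θ) * ((f.eval n : ℤ) : ℝ))‖ / X) ^ (12 * (2 * D - 1)) *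
        (q * (1 + |θ| * (X : ℝ) ^ D)) ^ 11 ≤ K := by
  obtain ⟨K0, hK0, hK⟩ := major_gen D hD (1 / 12) (by norm_num) (by norm_num) L hL V hV1 hLV
  obtain ⟨N, hN⟩ : ∃ N, N = 12 * (2 * D - 1) := ⟨_, rfl⟩
  refine ⟨2 ^ N * (K0 ^ 12 + K0 ^ N * M) + M * (2 * V) ^ N, ?_, ?_⟩
  · have h1 : 1 ≤ M * (2 * V) ^ N := one_le_mul_of_one_le_of_one_le hM (one_le_pow₀ (by linarith))
    have h2 : 0 ≤ 2 ^ N * (K0 ^ 12 + K0 ^ N * M) := by positivity
    linarith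
  intro X hX f hdeg hcoef a b hab hinc q hq β hβ θ hR
  have hXR : (1 : ℝ) ≤ X := by exact_mod_cast hX
  have hX0 : (0 : ℝ) < X := by linarith
  have hqR : (1 : ℝ) ≤ q := by exact_mod_cast hq
  have hpos : (0 : ℝ) ≤ |θ| * (X : ℝ) ^ D := by positivity
  obtain ⟨R, hRd⟩ : ∃ R : ℝ, R = q * (1 + |θ| * (X : ℝ) ^ D) := ⟨_, rfl⟩
  have hR1 : 1 ≤ R := by
    rw [hRd]; exact one_le_mul_of_one_le_of_one_le hqR (by linarith)
  obtain ⟨z, hz⟩ : ∃ z : ℝ, z = ‖∑ n ∈ Ico a b, ec (((β : ℝ) / q + θ) * ((f.eval n : ℤ) : ℝ))‖ / X := ⟨_, rfl⟩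
  have hz0 : 0 ≤ z := by rw [hz]; positivity
  have hz1 : z ≤ 1 := by
    rw [hz, div_le_one hX0]
    exact norm_sum_ec_le a b (fun n => ((β : ℝ) / q + θ) * ((f.eval n : ℤ) : ℝ)) X hab
  rw [← hRd, ← hz]
  rw [← hRd] at hR
  rw [← hN] at hR ⊢
  rcases le_or_gt (2 * V * R) X with h | h
  · obtain ⟨w, hw0, hw1, hw2, hw3⟩ := hK X hX f hdeg hcoef a b hab hinc q hq β hβ θ (by rw [← hRd]; exact h)
    rw [← hz, ← hRd] at hw2
    rw [← hRd] at hw3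
    have h1 : w ^ N * R ^ 11 ≤ K0 ^ 12 := by
      have h2 : (w ^ (2 * D - 1) * R ^ ((1 : ℝ) - 1 / 12)) ^ 12 ≤ K0 ^ 12 := pow_le_pow_left₀ (by positivity) hw3 12
      rw [mul_pow, ← pow_mul, mul_comm (2 * D - 1) 12, ← hN, ← Real.rpow_natCast (R ^ ((1 : ℝ) - 1 / 12)) 12,
        ← Real.rpow_mul (by linarith)] at h2
      have e : ((1 : ℝ) - 1 / 12) * ((12 : ℕ) : ℝ) = ((11 : ℕ) : ℝ) := by norm_num
      rw [e, Real.rpow_natCast] at h2
      exact h2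
    have h3 : z ^ N ≤ 2 ^ N * (w ^ N + (K0 * R / X) ^ N) := by
      calc z ^ N ≤ (w + K0 * R / X) ^ N := pow_le_pow_left₀ hz0 hw2 N
        _ ≤ 2 ^ N * (w ^ N + (K0 * R / X) ^ N) := add_pow_le_two w (K0 * R / X) hw0 (by positivity) N
    calc z ^ N * R ^ 11 ≤ (2 ^ N * (w ^ N + (K0 * R / X) ^ N)) * R ^ 11 := mul_le_mul_of_nonneg_right h3 (by positivity)
      _ = 2 ^ N * (w ^ N * R ^ 11 + K0 ^ N * (R ^ (N + 11) / (X : ℝ) ^ N)) := by
          rw [div_pow, mul_pow, pow_add]; ring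
      _ ≤ 2 ^ N * (K0 ^ 12 + K0 ^ N * M) := by
          have h4 : R ^ (N + 11) / (X : ℝ) ^ N ≤ M := by
            rw [div_le_iff₀ (by positivity)]; exact hR
          gcongr
      _ ≤ _ := by
          have : 0 ≤ M * (2 * V) ^ N := by positivity
          linarith
  · have h1 : R ^ 11 ≤ M * (2 * V) ^ N := by
      have h2 : (X : ℝ) ^ N ≤ (2 * V * R) ^ N := pow_le_pow_left₀ hX0.le h.le N
      have h3 : R ^ N * R ^ 11 ≤ R ^ N * (M * (2 * V) ^ N) := by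
        calc R ^ N * R ^ 11 = R ^ (N + 11) := by rw [pow_add]
          _ ≤ M * (X : ℝ) ^ N := hR
          _ ≤ M * (2 * V * R) ^ N := mul_le_mul_of_nonneg_left h2 (by linarith)
          _ = _ := by rw [mul_pow]; ring
      exact le_of_mul_le_mul_left h3 (by positivity)
    calc z ^ N * R ^ 11 ≤ 1 * R ^ 11 := mul_le_mul_of_nonneg_right (pow_le_one₀ hz0 hz1) (by positivity)
      _ ≤ M * (2 * V) ^ N := by rw [one_mul]; exact h1
      _ ≤ _ := by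
          have : 0 ≤ 2 ^ N * (K0 ^ 12 + K0 ^ N * M) := by positivity
          linarith

/-- the divided difference of the `k`-th power. -/
noncomputable def Qh (k : ℕ) (h : ℤ) : ℤ[X] := ∑ j ∈ range k, (X + C h) ^ j * X ^ (k - 1 - j)

lemma Qh_eval (k : ℕ) (h n : ℤ) : (Qh k h).eval n * h = (n + h) ^ k - n ^ k := by
  unfold Qh
  rw [Polynomial.eval_finsetSum]
  simp only [Polynomial.eval_mul, Polynomial.eval_pow, Polynomial.eval_add, Polynomial.eval_X, Polynomial.eval_C]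
  have h1 := (Commute.all (n + h) n).geom_sum₂_mul k
  rw [add_sub_cancel_left] at h1
  exact h1

lemma Qh_deg (k : ℕ) (h : ℤ) : (Qh k h).natDegree ≤ k - 1 := by
  unfold Qh
  refine Polynomial.natDegree_sum_le_of_forall_le _ _ fun j hj => ?_
  have hj' := Finset.mem_range.1 hj
  refine Polynomial.natDegree_mul_le.trans ?_
  have h1 : ((X + C h : ℤ[X]) ^ j).natDegree ≤ j := by
    refine Polynomial.natDegree_pow_le.trans ?_
    rw [Polynomial.natDegree_X_add_C, mul_one]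
  have h2 : ((X : ℤ[X]) ^ (k - 1 - j)).natDegree ≤ k - 1 - j := Polynomial.natDegree_X_pow_le _
  omega

lemma Qh_coeff (k : ℕ) (h : ℤ) : (Qh k h).coeff (k - 1) = k := by
  unfold Qh
  rw [Polynomial.finsetSum_coeff]
  have : ∀ j ∈ range k, ((X + C h : ℤ[X]) ^ j * X ^ (k - 1 - j)).coeff (k - 1) = 1 := by
    intro j hj
    have hj' := Finset.mem_range.1 hj
    rw [Polynomial.coeff_mul_X_pow', if_pos (by omega), show k - 1 - (k - 1 - j) = j by omega,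
      Polynomial.coeff_X_add_C_pow]
    simp
  rw [Finset.sum_congr rfl this]
  simp

lemma two_pow_diff (i j : ℕ) (a b X : ℝ) (ha : 0 ≤ a) (hb : 0 ≤ b) (haX : a + 1 ≤ X) (hbX : b + 1 ≤ X) :
    |(a + 1) ^ i * (b + 1) ^ j - a ^ i * b ^ j| ≤ ((i + j : ℕ) : ℝ) * X ^ (i + j - 1) := by
  have hX1 : 1 ≤ X := by linarith
  have hX0 : 0 ≤ X := by linarith
  have h1 : ∀ (i : ℕ) (a : ℝ), 0 ≤ a → a + 1 ≤ X → (a + 1) ^ i - a ^ i ≤ i * X ^ (i - 1) := by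
    intro i a ha haX
    have h2 := pow_sub_pow_le i (a + 1) a ha (by linarith)
    have e : (a + 1) - a = 1 := by ring
    rw [e, mul_one] at h2
    refine h2.trans ?_
    exact mul_le_mul_of_nonneg_left (pow_le_pow_left₀ (by linarith) haX _) (Nat.cast_nonneg _)
  have h3 : a ^ i ≤ (a + 1) ^ i := pow_le_pow_left₀ ha (by linarith) _
  have h4 : b ^ j ≤ (b + 1) ^ j := pow_le_pow_left₀ hb (by linarith) _
  rw [abs_of_nonneg (sub_nonneg.2 (mul_le_mul h3 h4 (by positivity) (by positivity)))]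
  have e : (a + 1) ^ i * (b + 1) ^ j - a ^ i * b ^ j = ((a + 1) ^ i - a ^ i) * (b + 1) ^ j + a ^ i * ((b + 1) ^ j - b ^ j) := by
    ring
  rw [e]
  have h5 : ((a + 1) ^ i - a ^ i) * (b + 1) ^ j ≤ i * X ^ (i + j - 1) := by
    rcases Nat.eq_zero_or_pos i with h0 | h0
    · rw [h0]; simp
    · calc ((a + 1) ^ i - a ^ i) * (b + 1) ^ j ≤ (i * X ^ (i - 1)) * X ^ j :=
            mul_le_mul (h1 i a ha haX) (pow_le_pow_left₀ (by linarith) hbX _) (by positivity) (by positivity)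
        _ = i * X ^ (i + j - 1) := by
            rw [mul_assoc, ← pow_add]; congr 2; omega
  have h6 : a ^ i * ((b + 1) ^ j - b ^ j) ≤ j * X ^ (i + j - 1) := by
    rcases Nat.eq_zero_or_pos j with h0 | h0
    · rw [h0]; simp
    · calc a ^ i * ((b + 1) ^ j - b ^ j) ≤ X ^ i * (j * X ^ (j - 1)) :=
            mul_le_mul (pow_le_pow_left₀ ha (by linarith) _) (h1 j b hb hbX) (by linarith) (by positivity)
        _ = j * (X ^ i * X ^ (j - 1)) := by ring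
        _ = j * X ^ (i + j - 1) := by
            rw [← pow_add]; congr 2; omega
  push_cast
  linarith

lemma Qh_inc (k X : ℕ) (hk : 2 ≤ k) (h n : ℤ) (hn0 : 0 ≤ n) (hnX : n + 1 ≤ X) (hh0 : 0 ≤ n + h) (hhX : n + h + 1 ≤ X) :
    |(((Qh k h).eval (n + 1) : ℤ) : ℝ) - (((Qh k h).eval n : ℤ) : ℝ)| ≤ ((k : ℝ) ^ 2) * (X : ℝ) ^ (k - 2) := by
  have hev : ∀ m : ℤ, (((Qh k h).eval m : ℤ) : ℝ) = ∑ j ∈ range k, ((m : ℝ) + h) ^ j * (m : ℝ) ^ (k - 1 - j) := by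
    intro m
    unfold Qh
    rw [Polynomial.eval_finsetSum]
    simp only [Polynomial.eval_mul, Polynomial.eval_pow, Polynomial.eval_add, Polynomial.eval_X, Polynomial.eval_C]
    push_cast
    rfl
  rw [hev, hev, ← Finset.sum_sub_distrib]
  refine (Finset.abs_sum_le_sum_abs _ _).trans ?_
  have hone : ∀ j ∈ range k, |(((n + 1 : ℤ) : ℝ) + h) ^ j * (((n + 1 : ℤ)) : ℝ) ^ (k - 1 - j) -
      ((n : ℝ) + h) ^ j * (n : ℝ) ^ (k - 1 - j)| ≤ (k : ℝ) * (X : ℝ) ^ (k - 2) := by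
    intro j hj
    have hj' := Finset.mem_range.1 hj
    have h1 := two_pow_diff j (k - 1 - j) ((n : ℝ) + h) (n : ℝ) X (by exact_mod_cast hh0) (by exact_mod_cast hn0)
      (by exact_mod_cast hhX) (by exact_mod_cast hnX)
    have e : j + (k - 1 - j) = k - 1 := by omega
    rw [e, show k - 1 - 1 = k - 2 by omega] at h1
    have e2 : (((n + 1 : ℤ) : ℝ) + h) = (n : ℝ) + h + 1 := by push_cast; ring
    have e3 : (((n + 1 : ℤ)) : ℝ) = (n : ℝ) + 1 := by push_cast; ring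
    rw [e2, e3]
    refine h1.trans ?_
    refine mul_le_mul_of_nonneg_right ?_ (by positivity)
    exact_mod_cast (by omega : k - 1 ≤ k)
  refine (Finset.sum_le_sum hone).trans (le_of_eq ?_)
  rw [Finset.sum_const, Finset.card_range, nsmul_eq_mul]
  ring

/-- correlations on major arcs. -/
theorem dl_major (κ : ℕ) (hκ : 1 ≤ κ) (M : ℝ) (hM : 1 ≤ M) :
    ∃ K : ℝ, 1 ≤ K ∧ ∀ (X : ℕ) (_ : 1 ≤ X) (α : ℝ) (h : ℤ) (q : ℕ) (_ : 1 ≤ q) (β : ℤ) (_ : IsCoprime β (q : ℤ))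
      (_ : (q * (1 + |h * α - β / q| * (X : ℝ) ^ κ)) ^ (12 * (2 * κ - 1) + 11) ≤ M * (X : ℝ) ^ (12 * (2 * κ - 1))),
      dl (κ + 1) X α h ^ (12 * (2 * κ - 1)) * (q * (1 + |h * α - β / q| * (X : ℝ) ^ κ)) ^ 11 ≤ K := by
  have hV : (((κ + 1 : ℕ)) : ℝ) ≤ (((κ + 1 : ℕ)) : ℝ) ^ 2 := by
    have : (1 : ℝ) ≤ (((κ + 1 : ℕ)) : ℝ) := by exact_mod_cast (by omega : 1 ≤ κ + 1)
    exact le_self_pow₀ this (by norm_num)
  have hV1 : (1 : ℝ) ≤ (((κ + 1 : ℕ)) : ℝ) ^ 2 := one_le_pow₀ (by exact_mod_cast (by omega : 1 ≤ κ + 1))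
  obtain ⟨K, hK1, hK⟩ := major_pow κ hκ (κ + 1) (by omega) ((((κ + 1 : ℕ)) : ℝ) ^ 2) hV1 hV M hM
  refine ⟨K, hK1, ?_⟩
  intro X hX α h q hq β hβ hR
  have h1 := hK X hX (Qh (κ + 1) h) (Qh_deg (κ + 1) h) (Qh_coeff (κ + 1) h) (max (0 : ℤ) (0 - h)) (min (X : ℤ) (X - h)) (by
      have := min_le_left (X : ℤ) (X - h)
      have := le_max_left (0 : ℤ) (0 - h)
      linarith) (by
      intro n hn
      rw [Finset.mem_Ico] at hn
      have a1 := le_max_left (0 : ℤ) (0 - h)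
      have a2 := le_max_right (0 : ℤ) (0 - h)
      have a3 := min_le_left (X : ℤ) (X - h)
      have a4 := min_le_right (X : ℤ) (X - h)
      exact Qh_inc (κ + 1) X (by omega) h n (by omega) (by omega) (by omega) (by omega))
    q hq β hβ (h * α - β / q) hR
  have h2 : ‖∑ n ∈ Ico (max (0 : ℤ) (0 - h)) (min (X : ℤ) (X - h)),
      ec (((β : ℝ) / q + (h * α - β / q)) * (((Qh (κ + 1) h).eval n : ℤ) : ℝ))‖ / X = dl (κ + 1) X α h := by
    unfold dl Dk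
    congr 2
    refine Finset.sum_congr rfl fun n _ => ?_
    congr 1
    have h3 := Qh_eval (κ + 1) h n
    have h4 : (((Qh (κ + 1) h).eval n : ℤ) : ℝ) * h = ((n : ℝ) + h) ^ (κ + 1) - (n : ℝ) ^ (κ + 1) := by exact_mod_cast h3
    push_cast
    linear_combination α * h4
  rw [h2] at h1
  exact h1

/-- power sums on major arcs. -/
theorem fS_major (k : ℕ) (hk : 1 ≤ k) (M : ℝ) (hM : 1 ≤ M) :
    ∃ K : ℝ, 1 ≤ K ∧ ∀ (X : ℕ) (_ : 1 ≤ X) (α : ℝ) (q : ℕ) (_ : 1 ≤ q) (β : ℤ) (_ : IsCoprime β (q : ℤ))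
      (_ : (q * (1 + |α - β / q| * (X : ℝ) ^ k)) ^ (12 * (2 * k - 1) + 11) ≤ M * (X : ℝ) ^ (12 * (2 * k - 1))),
      (‖fS k X α‖ / X) ^ (12 * (2 * k - 1)) * (q * (1 + |α - β / q| * (X : ℝ) ^ k)) ^ 11 ≤ K := by
  have hkR : (1 : ℝ) ≤ k := by exact_mod_cast hk
  obtain ⟨K, hK1, hK⟩ := major_pow k hk 1 le_rfl k hkR (by exact_mod_cast hk) M hM
  refine ⟨K, hK1, ?_⟩
  intro X hX α q hq β hβ hR
  have hXR : (1 : ℝ) ≤ X := by exact_mod_cast hX
  have h1 := hK X hX (Polynomial.X ^ k) (Polynomial.natDegree_X_pow_le _) (by simp) 0 X (by simp) (by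
      intro n hn
      rw [Finset.mem_Ico] at hn
      simp only [Polynomial.eval_pow, Polynomial.eval_X]
      have h0 : (0 : ℝ) ≤ n := by exact_mod_cast hn.1
      have h2 : (n : ℝ) + 1 ≤ X := by exact_mod_cast (by omega : n + 1 ≤ (X : ℤ))
      have h3 := two_pow_diff k 0 (n : ℝ) 0 X h0 le_rfl h2 (by linarith)
      simp only [pow_zero, mul_one, add_zero] at h3
      push_cast
      exact h3)
    q hq β hβ (α - β / q) hR
  have h2 : ‖∑ n ∈ Ico (0 : ℤ) X, ec (((β : ℝ) / q + (α - β / q)) * ((((Polynomial.X ^ k : ℤ[X])).eval n : ℤ) : ℝ))‖ / X =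
      ‖fS k X α‖ / X := by
    unfold fS
    congr 2
    refine Finset.sum_congr rfl fun n _ => ?_
    congr 1
    simp
  rw [h2] at h1
  exact h1

end Pool.Agent.helper132_h
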