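import Pool.Agent.helper132_h.H13
import Pool.Agent.helper132_h.H9

/-! The bad shifts. -/

namespace Pool.Agent.helper132_h

open Finset Pool.Agent.helper132_sph Pool.Agent.helper132_poly Pool.Agent.helper132_quad

lemma sum_rpow_le (a : ℝ) (ha0 : 0 < a) (ha1 : a ≤ 1) (X : ℕ) :
    ∑ h ∈ Ico 1 (X + 1), (h : ℝ) ^ (a - 1) ≤ (X : ℝ) ^ a / a := by
  induction X with
  | zero =>
    simp only [zero_add, Ico_self, Finset.sum_empty]
    positivity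
  | succ n ih =>
    rw [Finset.sum_Ico_succ_top (by omega)]
    have hx : (0 : ℝ) < ((n + 1 : ℕ) : ℝ) := by positivity
    have h1 : ((n : ℕ) : ℝ) ^ a ≤ ((n + 1 : ℕ) : ℝ) ^ a - a * ((n + 1 : ℕ) : ℝ) ^ (a - 1) := by
      have hs : (-1 : ℝ) ≤ -(1 / ((n + 1 : ℕ) : ℝ)) := by
        have : 1 / ((n + 1 : ℕ) : ℝ) ≤ 1 := by
          rw [div_le_one hx]; push_cast; linarith [(Nat.cast_nonneg n : (0 : ℝ) ≤ n)]
        linarith
      have h2 := rpow_one_add_le_one_add_mul_self hs ha0.le ha1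
      have h3 : ((n : ℕ) : ℝ) = ((n + 1 : ℕ) : ℝ) * (1 + -(1 / ((n + 1 : ℕ) : ℝ))) := by
        field_simp
        push_cast
        ring
      have h4 : ((n + 1 : ℕ) : ℝ) ^ (a - 1) = ((n + 1 : ℕ) : ℝ) ^ a / ((n + 1 : ℕ) : ℝ) := by
        rw [Real.rpow_sub hx, Real.rpow_one]
      calc ((n : ℕ) : ℝ) ^ a = (((n + 1 : ℕ) : ℝ) * (1 + -(1 / ((n + 1 : ℕ) : ℝ)))) ^ a := by rw [← h3]
        _ = ((n + 1 : ℕ) : ℝ) ^ a * (1 + -(1 / ((n + 1 : ℕ) : ℝ))) ^ a := Real.mul_rpow hx.le (by linarith)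
        _ ≤ ((n + 1 : ℕ) : ℝ) ^ a * (1 + a * -(1 / ((n + 1 : ℕ) : ℝ))) := mul_le_mul_of_nonneg_left h2 (by positivity)
        _ = _ := by rw [h4]; ring
    have h2 : ((n + 1 : ℕ) : ℝ) ^ (a - 1) ≤ (((n + 1 : ℕ) : ℝ) ^ a - ((n : ℕ) : ℝ) ^ a) / a := by
      rw [le_div_iff₀ ha0]; linarith
    calc _ ≤ ((n : ℕ) : ℝ) ^ a / a + (((n + 1 : ℕ) : ℝ) ^ a - ((n : ℕ) : ℝ) ^ a) / a := add_le_add ih h2
      _ = _ := by ring

lemma gcd_sum (q X : ℕ) (hq : 1 ≤ q) (hX : 1 ≤ X) (σ : ℝ) (hσ0 : 0 ≤ σ) (hσ1 : σ < 1) :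
    ∑ h ∈ Ico 1 X, (((Nat.gcd q h : ℕ) : ℝ) / h) ^ σ ≤ q.divisors.card * ((X : ℝ) ^ (1 - σ) / (1 - σ)) := by
  classical
  have h1 : ∀ h ∈ Ico 1 X, (((Nat.gcd q h : ℕ) : ℝ) / h) ^ σ ≤
      ∑ g ∈ q.divisors, if g ∣ h then (((h / g : ℕ)) : ℝ) ^ (-σ) else 0 := by
    intro h hh
    rw [Finset.mem_Ico] at hh
    have hg : Nat.gcd q h ∣ h := Nat.gcd_dvd_right _ _
    have hgpos : 0 < Nat.gcd q h := Nat.gcd_pos_of_pos_left _ hq
    refine le_trans (le_of_eq ?_) (Finset.single_le_sum (f := fun g => if g ∣ h then (((h / g : ℕ)) : ℝ) ^ (-σ) else 0)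
      (fun g _ => ?_) (Nat.mem_divisors.2 ⟨Nat.gcd_dvd_left q h, by omega⟩))
    · rw [if_pos hg, Nat.cast_div hg (by positivity), Real.rpow_neg (by positivity), ← Real.inv_rpow (by positivity), inv_div]
    · split_ifs <;> positivity
  refine (Finset.sum_le_sum h1).trans ?_
  rw [Finset.sum_comm, ← nsmul_eq_mul, ← Finset.sum_const]
  refine Finset.sum_le_sum fun g hg => ?_
  rw [← Finset.sum_filter]
  have hg1 : 1 ≤ g := Nat.pos_of_mem_divisors hg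
  have h2 : ∑ h ∈ (Ico 1 X).filter (fun h => g ∣ h), (((h / g : ℕ)) : ℝ) ^ (-σ) =
      ∑ j ∈ ((Ico 1 X).filter (fun h => g ∣ h)).image (fun h => h / g), (j : ℝ) ^ (-σ) := by
    rw [Finset.sum_image]
    intro a ha b hb hab
    rw [Finset.mem_coe, Finset.mem_filter] at ha hb
    beta_reduce at hab
    rw [← Nat.div_mul_cancel ha.2, ← Nat.div_mul_cancel hb.2, hab]
  rw [h2]
  have h3 : ((Ico 1 X).filter (fun h => g ∣ h)).image (fun h => h / g) ⊆ Ico 1 X := by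
    intro j hj
    rw [Finset.mem_image] at hj
    obtain ⟨h, hh, rfl⟩ := hj
    rw [Finset.mem_filter, Finset.mem_Ico] at hh
    rw [Finset.mem_Ico]
    obtain ⟨⟨h4, h5⟩, ⟨w, hw⟩⟩ := hh
    rw [hw, Nat.mul_div_cancel_left _ hg1]
    have hw1 : 1 ≤ w := by
      rcases Nat.eq_zero_or_pos w with h | h
      · rw [h] at hw; omega
      · exact h
    have : w ≤ g * w := Nat.le_mul_of_pos_left _ hg1
    omega
  refine (Finset.sum_le_sum_of_subset_of_nonneg h3 (fun _ _ _ => by positivity)).trans ?_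
  obtain ⟨Y, rfl⟩ : ∃ Y, X = Y + 1 := ⟨X - 1, by omega⟩
  have h4 := sum_rpow_le (1 - σ) (by linarith) (by linarith) Y
  have e : 1 - σ - 1 = -σ := by ring
  rw [e] at h4
  refine h4.trans ?_
  refine div_le_div_of_nonneg_right ?_ (by linarith)
  exact Real.rpow_le_rpow (Nat.cast_nonneg _) (by push_cast; linarith) (by linarith)

/-- the exponent of the cut. -/
noncomputable def c1 (k : ℕ) : ℝ := 1 - 5 / (3 * k)

lemma c1_pos (k : ℕ) (hk : 3 ≤ k) : 4 / 9 ≤ c1 k ∧ c1 k ≤ 1 := by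
  unfold c1
  have hkR : (3 : ℝ) ≤ k := by exact_mod_cast hk
  constructor
  · have : 5 / (3 * (k : ℝ)) ≤ 5 / 9 := by
      rw [div_le_div_iff₀ (by positivity) (by norm_num)]; linarith
    linarith
  · have : 0 ≤ 5 / (3 * (k : ℝ)) := by positivity
    linarith

/-- a bad shift. -/
lemma bad_pt (κ : ℕ) (hκ : 2 ≤ κ) : ∃ C : ℝ, 1 ≤ C ∧ ∀ (X : ℕ) (_ : 2 ^ 18 < X) (α : ℝ) (q N : ℕ) (c : ℤ)
    (_ : 1 ≤ q) (_ : IsCoprime c (q : ℤ)) (_ : q ≤ N) (_ : (N : ℝ) ≤ (X : ℝ) ^ (((κ + 1 : ℕ) : ℝ) / 2))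
    (_ : (X : ℝ) ^ (((κ + 1 : ℕ) : ℝ) / 2) ≤ (N : ℝ) + 1)
    (_ : |q * α - c| ≤ 1 / ((N : ℝ) + 1)) (h : ℕ) (_ : 1 ≤ h) (_ : h < X)
    (_ : ¬ Pool.Agent.helper132_poly.Minor κ X (((h : ℤ) : ℝ) * α) ((X : ℝ) ^ (c1 (κ + 1)))),
    dl (κ + 1) X α (h : ℤ) ^ (12 * (2 * κ - 1)) *
      (max 1 ((q + |q * α - c| * (X : ℝ) ^ (κ + 1)) * (h / (Nat.gcd q h * X)))) ^ 11 ≤ C := by
  obtain ⟨k, hk⟩ : ∃ k : ℕ, k = κ + 1 := ⟨_, rfl⟩
  have hk3 : 3 ≤ k := by omega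
  have hkR : (3 : ℝ) ≤ k := by exact_mod_cast hk3
  obtain ⟨K, hK1, hK⟩ := dl_major κ (by omega) (2 ^ (12 * (2 * κ - 1) + 11)) (one_le_pow₀ (by norm_num))
  refine ⟨K, hK1, ?_⟩
  intro X hX α q N c hq hcop hqN hN1 hN2 hqα h hh1 hhX hbad
  rw [← hk] at hN1 hN2 hbad ⊢
  have hXR : (1 : ℝ) ≤ X := by exact_mod_cast (by omega : 1 ≤ X)
  have hX0 : (0 : ℝ) < X := by linarith
  have hXz : 1 ≤ X := by omega
  have hhR : (1 : ℝ) ≤ h := by exact_mod_cast hh1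
  have hh0 : (0 : ℝ) < h := by linarith
  have hhXR : (h : ℝ) ≤ X := by exact_mod_cast hhX.le
  have hqR : (1 : ℝ) ≤ q := by exact_mod_cast hq
  have hq0 : (0 : ℝ) < q := by linarith
  obtain ⟨Q, hQ⟩ : ∃ Q : ℝ, Q = (X : ℝ) ^ (c1 k) := ⟨_, rfl⟩
  have hQ0 : 0 < Q := by rw [hQ]; positivity
  have hQ1 : 1 ≤ Q := by rw [hQ]; exact Real.one_le_rpow hXR (by linarith [(c1_pos k hk3).1])
  rw [← hQ] at hbad
  unfold Pool.Agent.helper132_poly.Minor at hbad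
  push Not at hbad
  obtain ⟨q1, b1, hq1, hq1Q, hb1⟩ := hbad
  -- reduce the fraction
  obtain ⟨g1, hg1⟩ : ∃ g1 : ℕ, g1 = Int.gcd b1 (q1 : ℤ) := ⟨_, rfl⟩
  have hg1q : (g1 : ℤ) ∣ (q1 : ℤ) := by rw [hg1]; exact Int.gcd_dvd_right _ _
  have hg1b : (g1 : ℤ) ∣ b1 := by rw [hg1]; exact Int.gcd_dvd_left _ _
  obtain ⟨q2, hq2⟩ : g1 ∣ q1 := by exact_mod_cast hg1q
  obtain ⟨b2, hb2⟩ := hg1b
  have hg1pos : 1 ≤ g1 := by
    rcases Nat.eq_zero_or_pos g1 with h0 | h0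
    · rw [h0] at hq2; omega
    · exact h0
  have hq21 : 1 ≤ q2 := by
    rcases Nat.eq_zero_or_pos q2 with h0 | h0
    · rw [h0] at hq2; omega
    · exact h0
  have hg1R : (1 : ℝ) ≤ g1 := by exact_mod_cast hg1pos
  have hq2R : (1 : ℝ) ≤ q2 := by exact_mod_cast hq21
  have hq20 : (0 : ℝ) < q2 := by linarith
  have hcop2 : IsCoprime b2 (q2 : ℤ) := by
    rw [Int.isCoprime_iff_gcd_eq_one]
    have h1 : g1 = g1 * Int.gcd b2 (q2 : ℤ) := by
      conv_lhs => rw [hg1, hb2, hq2]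
      push_cast
      rw [Int.gcd_mul_left]
      simp
    have h2 : g1 * 1 = g1 * Int.gcd b2 (q2 : ℤ) := by rw [mul_one]; exact h1
    exact (Nat.eq_of_mul_eq_mul_left hg1pos h2).symm
  have hq1c : (q1 : ℝ) = g1 * q2 := by exact_mod_cast hq2
  have hb1c : (b1 : ℝ) = g1 * b2 := by exact_mod_cast hb2
  have hq2Q : (q2 : ℝ) ≤ Q := by
    have : (q2 : ℝ) ≤ g1 * q2 := le_mul_of_one_le_left (by linarith) hg1R
    rw [← hq1c] at this; linarith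
  have hb2Q : |(q2 : ℝ) * (((h : ℤ) : ℝ) * α) - b2| * (X : ℝ) ^ κ ≤ Q := by
    refine le_trans ?_ hb1
    refine mul_le_mul_of_nonneg_right ?_ (by positivity)
    have e : (q1 : ℝ) * (((h : ℤ) : ℝ) * α) - b1 = g1 * ((q2 : ℝ) * (((h : ℤ) : ℝ) * α) - b2) := by
      rw [hq1c, hb1c]; ring
    rw [e, abs_mul, abs_of_nonneg (show (0 : ℝ) ≤ g1 by linarith)]
    exact le_mul_of_one_le_left (abs_nonneg _) hg1R
  have hhc : ((h : ℤ) : ℝ) = (h : ℝ) := by simp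
  rw [hhc] at hb2Q
  -- the two approximations agree
  have hkey : (h : ℤ) * c * q2 = b2 * q := by
    by_contra hne
    have h1 : (1 : ℝ) ≤ |((h : ℤ) * c * q2 - b2 * q : ℤ)| := by
      exact_mod_cast Int.one_le_abs (sub_ne_zero.2 hne)
    have h2 : (((h : ℤ) * c * q2 - b2 * q : ℤ) : ℝ) = q * (q2 * (h * α) - b2) - q2 * h * (q * α - c) := by
      push_cast; ring
    rw [Int.cast_abs, h2] at h1
    have h3 : |(q : ℝ) * (q2 * (h * α) - b2) - q2 * h * (q * α - c)| ≤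
        q * |q2 * (h * α) - b2| + q2 * h * |q * α - c| := by
      refine (abs_sub _ _).trans ?_
      rw [abs_mul, abs_mul, abs_of_pos hq0, abs_of_nonneg (show (0 : ℝ) ≤ q2 * h by positivity)]
    have hNR : (q : ℝ) ≤ (X : ℝ) ^ ((k : ℝ) / 2) := by
      have : (q : ℝ) ≤ N := by exact_mod_cast hqN
      linarith
    have hXκ : (X : ℝ) ^ κ = (X : ℝ) ^ ((k : ℝ) - 1) := by
      rw [← Real.rpow_natCast]; congr 1; rw [hk]; push_cast; ring
    have h4 : (q : ℝ) * |q2 * (h * α) - b2| ≤ (X : ℝ) ^ ((k : ℝ) / 2) * (Q / (X : ℝ) ^ ((k : ℝ) - 1)) := by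
      refine mul_le_mul hNR ?_ (abs_nonneg _) (by positivity)
      rw [le_div_iff₀ (by positivity), ← hXκ]; exact hb2Q
    have h5 : (q2 : ℝ) * h * |q * α - c| ≤ Q * X * (1 / (X : ℝ) ^ ((k : ℝ) / 2)) := by
      refine mul_le_mul (mul_le_mul hq2Q hhXR hh0.le hQ0.le) (hqα.trans ?_) (abs_nonneg _) (by positivity)
      exact one_div_le_one_div_of_le (by positivity) hN2
    have e4 : (X : ℝ) ^ ((k : ℝ) / 2) * (Q / (X : ℝ) ^ ((k : ℝ) - 1)) = (X : ℝ) ^ (c1 k + 1 - k / 2) := by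
      rw [hQ, ← Real.rpow_sub hX0, ← Real.rpow_add hX0]
      congr 1; ring
    have e5 : Q * X * (1 / (X : ℝ) ^ ((k : ℝ) / 2)) = (X : ℝ) ^ (c1 k + 1 - k / 2) := by
      rw [hQ, one_div, ← Real.rpow_neg hX0.le]
      nth_rewrite 2 [← Real.rpow_one (X : ℝ)]
      rw [← Real.rpow_add hX0, ← Real.rpow_add hX0]
      congr 1
    have h6 : (X : ℝ) ^ (c1 k + 1 - k / 2) < 1 / 2 := by
      have h7 : c1 k + 1 - k / 2 ≤ -(1 / 18) := by
        unfold c1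
        have h8 : 5 / (3 * (k : ℝ)) = 5 / 3 * (1 / k) := by field_simp
        have h9 : (k : ℝ) * (1 / k) = 1 := by field_simp
        have h10 : 0 < 1 / (k : ℝ) := by positivity
        rw [h8]
        nlinarith [mul_nonneg (sub_nonneg.2 hkR) h10.le, mul_nonneg (sub_nonneg.2 hkR) (sub_nonneg.2 hkR)]
      have h8 : (X : ℝ) ^ (c1 k + 1 - k / 2) ≤ (X : ℝ) ^ (-(1 / 18) : ℝ) :=
        Real.rpow_le_rpow_of_exponent_le hXR h7
      have h9 : (X : ℝ) ^ (-(1 / 18) : ℝ) < (((2 ^ 18 : ℕ)) : ℝ) ^ (-(1 / 18) : ℝ) := by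
        refine Real.rpow_lt_rpow_of_neg (by norm_num) ?_ (by norm_num)
        exact_mod_cast hX
      have h10 : (((2 ^ 18 : ℕ)) : ℝ) ^ (-(1 / 18) : ℝ) = 1 / 2 := by
        have e9 : (((2 ^ 18 : ℕ)) : ℝ) = (2 : ℝ) ^ (18 : ℝ) := by norm_num
        rw [e9, ← Real.rpow_mul (by norm_num)]
        have e10 : (18 : ℝ) * -(1 / 18) = -1 := by norm_num
        rw [e10, Real.rpow_neg_one]
        norm_num
      linarith
    rw [e4] at h4
    rw [e5] at h5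
    linarith
  -- size of the denominators
  obtain ⟨g, hg⟩ : ∃ g : ℕ, g = Nat.gcd q h := ⟨_, rfl⟩
  have hgpos : 1 ≤ g := by rw [hg]; exact Nat.gcd_pos_of_pos_left _ hq
  have hgR : (1 : ℝ) ≤ g := by exact_mod_cast hgpos
  have hg0 : (0 : ℝ) < g := by linarith
  have hqg : q ≤ g * q2 := by
    have h1 : (q : ℤ) ∣ (h : ℤ) * q2 := by
      have h2 : (q : ℤ) ∣ c * ((h : ℤ) * q2) := ⟨b2, by linarith⟩
      exact hcop.symm.dvd_of_dvd_mul_left h2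
    have h2 : q ∣ h * q2 := by exact_mod_cast h1
    have h3 : q ∣ g * q2 := by
      rw [hg]
      exact (Nat.dvd_gcd_mul_iff_dvd_mul).2 h2
    exact Nat.le_of_dvd (Nat.mul_pos hgpos hq21) h3
  have hqgR : (q : ℝ) ≤ g * q2 := by exact_mod_cast hqg
  have hϑ : (q2 : ℝ) * (h * α) - b2 = q2 * h / q * (q * α - c) := by
    have h1 : (h : ℝ) * c * q2 = b2 * q := by exact_mod_cast hkey
    field_simp
    linear_combination h1
  have hRh : (q + |q * α - c| * (X : ℝ) ^ k) * (h / (g * X)) ≤ q2 + |(q2 : ℝ) * (h * α) - b2| * (X : ℝ) ^ κ := by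
    rw [hϑ, abs_mul, abs_of_nonneg (show (0 : ℝ) ≤ q2 * h / q by positivity)]
    have hXk : (X : ℝ) ^ k = (X : ℝ) ^ κ * X := by rw [hk, pow_succ]
    have h1 : (q : ℝ) * (h / (g * X)) ≤ q2 := by
      rw [← mul_div_assoc, div_le_iff₀ (by positivity)]
      calc (q : ℝ) * h ≤ (g * q2) * X := mul_le_mul hqgR hhXR hh0.le (by positivity)
        _ = q2 * (g * X) := by ring
    have h2 : |q * α - c| * (X : ℝ) ^ k * (h / (g * X)) ≤ q2 * h / q * |q * α - c| * (X : ℝ) ^ κ := by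
      have e1 : |q * α - c| * (X : ℝ) ^ k * (h / (g * X)) = (|q * α - c| * (X : ℝ) ^ κ * h) * (1 / g) := by
        rw [hXk]; field_simp
      have e2 : q2 * h / q * |q * α - c| * (X : ℝ) ^ κ = (|q * α - c| * (X : ℝ) ^ κ * h) * (q2 / q) := by
        field_simp
      rw [e1, e2]
      refine mul_le_mul_of_nonneg_left ?_ (by positivity)
      rw [div_le_div_iff₀ hg0 hq0]
      linarith
    calc _ = (q : ℝ) * (h / (g * X)) + |q * α - c| * (X : ℝ) ^ k * (h / (g * X)) := by ring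
      _ ≤ _ := add_le_add h1 h2
  -- apply the major arc bound
  have hR2 : (q2 : ℝ) * (1 + |((h : ℤ) : ℝ) * α - b2 / q2| * (X : ℝ) ^ κ) = q2 + |(q2 : ℝ) * (h * α) - b2| * (X : ℝ) ^ κ := by
    have h1 : |(q2 : ℝ) * (h * α) - b2| = q2 * |((h : ℤ) : ℝ) * α - b2 / q2| := by
      rw [← abs_of_pos hq20, ← abs_mul, abs_of_pos hq20, hhc]
      congr 1
      field_simp
    rw [h1]; ring
  have hfin := hK X hXz α (h : ℤ) q2 hq21 b2 hcop2 (by
    rw [hR2]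
    have h1 : (q2 : ℝ) + |(q2 : ℝ) * (h * α) - b2| * (X : ℝ) ^ κ ≤ 2 * Q := by linarith
    have h2 : 0 ≤ (q2 : ℝ) + |(q2 : ℝ) * (h * α) - b2| * (X : ℝ) ^ κ := by positivity
    refine (pow_le_pow_left₀ h2 h1 _).trans ?_
    rw [mul_pow]
    refine mul_le_mul_of_nonneg_left ?_ (by positivity)
    rw [hQ, ← Real.rpow_natCast, ← Real.rpow_mul hX0.le, ← Real.rpow_natCast]
    refine Real.rpow_le_rpow_of_exponent_le hXR ?_
    have e : 12 * (2 * κ - 1) = 24 * k - 36 := by omega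
    rw [e]
    push_cast [Nat.cast_sub (show 36 ≤ 24 * k by omega)]
    unfold c1
    have h8 : 5 / (3 * (k : ℝ)) = 5 / 3 * (1 / k) := by field_simp
    have h9 : (k : ℝ) * (1 / k) = 1 := by field_simp
    have h10 : 0 < 1 / (k : ℝ) := by positivity
    have h11 : 1 / (k : ℝ) ≤ 1 / 3 := one_div_le_one_div_of_le (by norm_num) hkR
    rw [h8]
    nlinarith)
  rw [hR2] at hfin
  refine le_trans ?_ hfin
  have hdl0 := dl_nonneg (κ + 1) X α (h : ℤ)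
  rw [hk]
  refine mul_le_mul_of_nonneg_left ?_ (by positivity)
  refine pow_le_pow_left₀ (le_trans zero_le_one (le_max_left _ _)) (max_le ?_ ?_) _
  · have : 0 ≤ |(q2 : ℝ) * (h * α) - b2| * (X : ℝ) ^ κ := by positivity
    linarith
  · rw [hk, hg] at hRh
    exact hRh

end Pool.Agent.helper132_h
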