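import Pool.Agent.helper132_h.H14

/-! The bad part of the average. -/

namespace Pool.Agent.helper132_h

open Finset Pool.Agent.helper132_sph Pool.Agent.helper132_poly Pool.Agent.helper132_quad

lemma Minor_neg {κ X : ℕ} {β Q : ℝ} (h : Pool.Agent.helper132_poly.Minor κ X β Q) :
    Pool.Agent.helper132_poly.Minor κ X (-β) Q := by
  intro q c hq hqQ
  have h1 := h q (-c) hq hqQ
  have e : |(q : ℝ) * β - ((-c : ℤ) : ℝ)| = |(q : ℝ) * (-β) - c| := by
    rw [← abs_neg]; congr 1; push_cast; ring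
  rw [e] at h1
  exact h1

theorem Vb_bound (κ m : ℕ) (hκ : 2 ≤ κ) (hm : κ + 1 ≤ m) : ∃ C : ℝ, 1 ≤ C ∧ ∀ (X : ℕ) (_ : 1 ≤ X) (α R : ℝ)
    (_ : 1 ≤ R) (_ : Pool.Agent.helper132_poly.Minor (κ + 1) X α R),
    Vb κ m X α ((X : ℝ) ^ (c1 (κ + 1))) ≤ C * (R ^ (-(5 / (2 * ((κ + 1 : ℕ) : ℝ)))) + 1 / X) := by
  classical
  obtain ⟨k, hk⟩ : ∃ k : ℕ, k = κ + 1 := ⟨_, rfl⟩
  have hk3 : 3 ≤ k := by omega
  have hkR : (3 : ℝ) ≤ k := by exact_mod_cast hk3
  have hk0 : (0 : ℝ) < k := by linarith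
  obtain ⟨K, hK1, hK⟩ := bad_pt κ hκ
  obtain ⟨Kd, hKd1, hKd⟩ := card_div_le (1 / (4 * (k : ℝ))) (by positivity)
  rw [← hk] at hK ⊢
  refine ⟨2 ^ 19 + 24 * K * Kd, ?_, ?_⟩
  · have : 0 ≤ 24 * K * Kd := by positivity
    linarith
  intro X hX α R hR1 hmin
  have hXR : (1 : ℝ) ≤ X := by exact_mod_cast hX
  have hX0 : (0 : ℝ) < X := by linarith
  have hR0 : 0 < R := by linarith
  obtain ⟨Q, hQ⟩ : ∃ Q : ℝ, Q = (X : ℝ) ^ (c1 k) := ⟨_, rfl⟩
  rw [← hQ]
  have hVb2 : Vb κ m X α Q ≤ 2 := by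
    have h1 := Dl_split κ m X α Q
    have h2 := Dl_le_two (κ + 1) m X α hX
    have h3 := Vg_nonneg κ m X α Q
    linarith
  have hRpos : 0 ≤ R ^ (-(5 / (2 * (k : ℝ)))) := by positivity
  have hKK : 0 ≤ 24 * K * Kd := by positivity
  rcases le_or_gt X (2 ^ 18) with hXs | hXs
  · have h1 : (X : ℝ) ≤ 2 ^ 18 := by exact_mod_cast hXs
    calc Vb κ m X α Q ≤ 2 := hVb2
      _ ≤ 2 ^ 19 * (1 / X) := by
          rw [mul_one_div, le_div_iff₀ hX0]
          linarith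
      _ ≤ (2 ^ 19 + 24 * K * Kd) * (R ^ (-(5 / (2 * (k : ℝ)))) + 1 / X) := by
          have h2 : 0 ≤ 1 / (X : ℝ) := by positivity
          refine mul_le_mul (by linarith) (by linarith) h2 (by linarith)
  · obtain ⟨N, hN⟩ : ∃ N : ℕ, N = ⌊(X : ℝ) ^ ((k : ℝ) / 2)⌋₊ := ⟨_, rfl⟩
    have hXk2 : 1 ≤ (X : ℝ) ^ ((k : ℝ) / 2) := Real.one_le_rpow hXR (by positivity)
    have hN1 : (N : ℝ) ≤ (X : ℝ) ^ ((k : ℝ) / 2) := by rw [hN]; exact Nat.floor_le (by linarith)
    have hN2 : (X : ℝ) ^ ((k : ℝ) / 2) ≤ (N : ℝ) + 1 := by rw [hN]; exact (Nat.lt_floor_add_one _).le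
    have hNpos : 0 < N := by rw [hN]; exact Nat.floor_pos.2 hXk2
    obtain ⟨r, hr1, hr2⟩ := Real.exists_rat_abs_sub_le_and_den_le α hNpos
    obtain ⟨q, hq⟩ : ∃ q : ℕ, q = r.den := ⟨_, rfl⟩
    have hq1 : 1 ≤ q := by rw [hq]; exact r.den_pos
    have hqR : (1 : ℝ) ≤ q := by exact_mod_cast hq1
    have hq0 : (0 : ℝ) < q := by linarith
    have hrcast : (r : ℝ) = (r.num : ℝ) / q := by
      have := Rat.num_div_den r
      rw [hq]
      exact_mod_cast this.symm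
    have hcop : IsCoprime r.num (q : ℤ) := by
      rw [Int.isCoprime_iff_gcd_eq_one, hq]
      have := r.reduced
      rw [Int.gcd_eq_natAbs]
      simpa using this
    rw [hrcast, ← hq] at hr1
    rw [← hq] at hr2
    have hqα : |q * α - r.num| ≤ 1 / ((N : ℝ) + 1) := by
      have e : (q : ℝ) * α - r.num = q * (α - r.num / q) := by field_simp
      rw [e, abs_mul, abs_of_pos hq0]
      calc (q : ℝ) * |α - r.num / q| ≤ q * (1 / (((N : ℝ) + 1) * q)) := mul_le_mul_of_nonneg_left hr1 hq0.le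
        _ = 1 / ((N : ℝ) + 1) := by
            have : (0 : ℝ) < (N : ℝ) + 1 := by positivity
            field_simp
    obtain ⟨Ra, hRa⟩ : ∃ Ra : ℝ, Ra = q + |q * α - r.num| * (X : ℝ) ^ k := ⟨_, rfl⟩
    have hRRa : R ≤ Ra := by
      have h1 : 0 ≤ |q * α - r.num| * (X : ℝ) ^ k := by positivity
      rcases le_or_gt (q : ℝ) R with h | h
      · have h2 := hmin q r.num hq1 h
        rw [hRa]; linarith
      · rw [hRa]; linarith
    have hRa1 : 1 ≤ Ra := hR1.trans hRRa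
    have hRa0 : 0 < Ra := by linarith
    have hqRa : (q : ℝ) ≤ Ra := by
      have h1 : 0 ≤ |q * α - r.num| * (X : ℝ) ^ k := by positivity
      rw [hRa]; linarith
    obtain ⟨σ, hσ⟩ : ∃ σ : ℝ, σ = 11 / (4 * (k : ℝ)) := ⟨_, rfl⟩
    have hσ0 : 0 < σ := by rw [hσ]; positivity
    have hσ1 : σ ≤ 11 / 12 := by
      rw [hσ, div_le_div_iff₀ (by positivity) (by norm_num)]
      linarith
    obtain ⟨f, hf⟩ : ∃ f : ℤ → ℝ, f = fun (h : ℤ) => if Pool.Agent.helper132_poly.Minor κ X (h * α) Q then 0 else dl (κ + 1) X α h ^ m := ⟨_, rfl⟩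
    have hfneg : ∀ h : ℤ, f (-h) = f h := by
      intro h
      rw [hf]
      beta_reduce
      have h1 : Pool.Agent.helper132_poly.Minor κ X (((-h : ℤ) : ℝ) * α) Q ↔ Pool.Agent.helper132_poly.Minor κ X ((h : ℝ) * α) Q := by
        have e : ((-h : ℤ) : ℝ) * α = -((h : ℝ) * α) := by push_cast; ring
        rw [e]
        constructor
        · intro h2
          have := Minor_neg h2
          rwa [neg_neg] at this
        · intro h2; exact Minor_neg h2
      rw [dl_neg]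
      split_ifs with h2 h3 h3
      · rfl
      · exact absurd (h1.1 h2) h3
      · exact absurd (h1.2 h3) h2
      · rfl
    -- each positive shift
    have hone : ∀ h ∈ Ico 1 X, f ((h : ℕ) : ℤ) ≤ (K * (Ra ^ (-σ) * (X : ℝ) ^ σ)) * (((Nat.gcd q h : ℕ) : ℝ) / h) ^ σ := by
      intro h hh
      rw [Finset.mem_Ico] at hh
      have hh0 : (0 : ℝ) < h := by exact_mod_cast (by omega : 0 < h)
      have hgpos : 1 ≤ Nat.gcd q h := Nat.gcd_pos_of_pos_left _ hq1
      have hgR : (0 : ℝ) < (Nat.gcd q h : ℕ) := by exact_mod_cast hgpos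
      rw [hf]
      beta_reduce
      split_ifs with hmn
      · positivity
      · rw [hQ] at hmn
        have h1 := hK X hXs α q N r.num hq1 hcop hr2 hN1 hN2 hqα h hh.1 hh.2 hmn
        rw [← hRa] at h1
        obtain ⟨x0, hx0⟩ : ∃ x0 : ℝ, x0 = Ra * (h / ((Nat.gcd q h : ℕ) * X)) := ⟨_, rfl⟩
        have hx00 : 0 < x0 := by rw [hx0]; positivity
        rw [← hx0] at h1
        obtain ⟨y, hy⟩ : ∃ y : ℝ, y = max 1 x0 := ⟨_, rfl⟩
        have hy1 : 1 ≤ y := by rw [hy]; exact le_max_left _ _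
        have hy0 : 0 < y := by linarith
        have hyx : x0 ≤ y := by rw [hy]; exact le_max_right _ _
        rw [← hy] at h1
        obtain ⟨D, hD⟩ : ∃ D, D = dl (κ + 1) X α ((h : ℕ) : ℤ) := ⟨_, rfl⟩
        rw [hk] at h1
        have hD0 : 0 ≤ D := by rw [hD]; exact dl_nonneg _ _ _ _
        have hD1 : D ≤ 1 := by rw [hD]; exact dl_le_one _ _ _ _ hX
        obtain ⟨N1, hN1e⟩ : ∃ N1 : ℕ, N1 = 12 * (2 * κ - 1) := ⟨_, rfl⟩
        have hN1k : N1 = 24 * k - 36 := by omega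
        have hkk : k * k ≥ 3 * k := Nat.mul_le_mul_right _ hk3
        have hN1R : (N1 : ℝ) = 24 * k - 36 := by
          rw [hN1k]; push_cast [Nat.cast_sub (show 36 ≤ 24 * k by omega)]; ring
        have hN10 : (0 : ℝ) < N1 := by rw [hN1R]; linarith
        rw [← hD, ← hN1e] at h1
        have h2 : D ^ m ≤ (K / y ^ 11) ^ ((k : ℝ) / N1) := by
          calc D ^ m ≤ D ^ k := pow_le_pow_of_le_one hD0 hD1 (by omega)
            _ = (D ^ N1) ^ ((k : ℝ) / N1) := by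
                rw [← Real.rpow_natCast D N1, ← Real.rpow_mul hD0, ← Real.rpow_natCast]
                congr 1; field_simp
            _ ≤ (K / y ^ 11) ^ ((k : ℝ) / N1) := by
                refine Real.rpow_le_rpow (by positivity) ?_ (by positivity)
                rw [le_div_iff₀ (by positivity)]; exact h1
        have h3 : (K / y ^ 11) ^ ((k : ℝ) / N1) ≤ K * y ^ (-σ) := by
          rw [Real.div_rpow (by linarith) (by positivity), div_eq_mul_inv]
          refine mul_le_mul ?_ ?_ (by positivity) (by linarith)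
          · calc K ^ ((k : ℝ) / N1) ≤ K ^ (1 : ℝ) := by
                  refine Real.rpow_le_rpow_of_exponent_le hK1 ?_
                  rw [div_le_one hN10, hN1R]; linarith
              _ = K := Real.rpow_one _
          · rw [← Real.rpow_natCast y 11, ← Real.rpow_mul hy0.le, ← Real.rpow_neg hy0.le]
            refine Real.rpow_le_rpow_of_exponent_le hy1 ?_
            rw [neg_le_neg_iff, hσ, hN1R]
            push_cast
            rw [mul_div_assoc', div_le_div_iff₀ (by positivity) (by linarith)]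
            nlinarith [sq_nonneg ((k : ℝ) - 3)]
        have h4 : y ^ (-σ) ≤ x0 ^ (-σ) := Real.rpow_le_rpow_of_nonpos hx00 hyx (by linarith)
        have h5 : x0 ^ (-σ) = (Ra ^ (-σ) * (X : ℝ) ^ σ) * (((Nat.gcd q h : ℕ) : ℝ) / h) ^ σ := by
          obtain ⟨Zz, hZz⟩ : ∃ Zz : ℝ, Zz = (((Nat.gcd q h : ℕ) : ℝ) / h) * X := ⟨_, rfl⟩
          have hZ0 : 0 < Zz := by rw [hZz]; positivity
          have e1 : x0 = Ra * Zz⁻¹ := by
            rw [hx0, hZz, mul_inv, inv_div]; field_simp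
          have e3 : (Zz⁻¹) ^ (-σ) = Zz ^ σ := by
            rw [Real.inv_rpow hZ0.le, Real.rpow_neg hZ0.le, inv_inv]
          have e4 : Zz ^ σ = (((Nat.gcd q h : ℕ) : ℝ) / h) ^ σ * (X : ℝ) ^ σ := by
            rw [hZz, Real.mul_rpow (by positivity) hX0.le]
          rw [e1, Real.mul_rpow hRa0.le (by positivity), e3, e4]
          ring
        rw [← hD]
        calc D ^ m ≤ K * y ^ (-σ) := h2.trans h3
          _ ≤ K * x0 ^ (-σ) := mul_le_mul_of_nonneg_left h4 (by linarith)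
          _ = (K * (Ra ^ (-σ) * (X : ℝ) ^ σ)) * (((Nat.gcd q h : ℕ) : ℝ) / h) ^ σ := by rw [h5]; ring
    have hsum : ∑ h ∈ Ico 1 X, f ((h : ℕ) : ℤ) ≤ 12 * K * Kd * R ^ (-(5 / (2 * (k : ℝ)))) * X := by
      refine (Finset.sum_le_sum hone).trans ?_
      rw [← Finset.mul_sum]
      have hg := gcd_sum q X hq1 hX σ hσ0.le (by linarith)
      have hd := hKd q hq1
      have h1 : (X : ℝ) ^ (1 - σ) / (1 - σ) ≤ 12 * (X : ℝ) ^ (1 - σ) := by
        rw [div_le_iff₀ (by linarith)]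
        have h2 : 1 ≤ 12 * (1 - σ) := by linarith
        calc (X : ℝ) ^ (1 - σ) = (X : ℝ) ^ (1 - σ) * 1 := by ring
          _ ≤ (X : ℝ) ^ (1 - σ) * (12 * (1 - σ)) := mul_le_mul_of_nonneg_left h2 (by positivity)
          _ = _ := by ring
      have h2 : (q.divisors.card : ℝ) * ((X : ℝ) ^ (1 - σ) / (1 - σ)) ≤
          (Kd * Ra ^ (1 / (4 * (k : ℝ)))) * (12 * (X : ℝ) ^ (1 - σ)) := by
        have hd0 : 0 ≤ (X : ℝ) ^ (1 - σ) / (1 - σ) := div_nonneg (by positivity) (by linarith)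
        refine mul_le_mul (hd.trans ?_) h1 hd0 (by positivity)
        refine mul_le_mul_of_nonneg_left ?_ (by linarith)
        exact Real.rpow_le_rpow hq0.le hqRa (by positivity)
      have h3 : Ra ^ (-σ) * Ra ^ (1 / (4 * (k : ℝ))) = Ra ^ (-(5 / (2 * (k : ℝ)))) := by
        rw [← Real.rpow_add hRa0]
        congr 1
        rw [hσ]; field_simp; norm_num
      have h4 : (X : ℝ) ^ σ * (X : ℝ) ^ (1 - σ) = X := by
        rw [← Real.rpow_add hX0]; simp
      have h5 : Ra ^ (-(5 / (2 * (k : ℝ)))) ≤ R ^ (-(5 / (2 * (k : ℝ)))) :=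
        Real.rpow_le_rpow_of_nonpos hR0 hRRa (by
          have : 0 ≤ 5 / (2 * (k : ℝ)) := by positivity
          linarith)
      calc (K * (Ra ^ (-σ) * (X : ℝ) ^ σ)) * ∑ h ∈ Ico 1 X, (((Nat.gcd q h : ℕ) : ℝ) / h) ^ σ
          ≤ (K * (Ra ^ (-σ) * (X : ℝ) ^ σ)) * ((Kd * Ra ^ (1 / (4 * (k : ℝ)))) * (12 * (X : ℝ) ^ (1 - σ))) :=
            mul_le_mul_of_nonneg_left (hg.trans h2) (by positivity)
        _ = 12 * K * Kd * (Ra ^ (-σ) * Ra ^ (1 / (4 * (k : ℝ)))) * ((X : ℝ) ^ σ * (X : ℝ) ^ (1 - σ)) := by ring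
        _ = 12 * K * Kd * Ra ^ (-(5 / (2 * (k : ℝ)))) * X := by rw [h3, h4]
        _ ≤ _ := by gcongr
    have hVb : Vb κ m X α Q = (∑ h ∈ Ioo (-(X : ℤ)) X, f h) / X := by
      unfold Vb; rw [hf]
    rw [hVb, sum_Ioo_symm X f hX]
    have h0 : f 0 ≤ 1 := by
      rw [hf]; beta_reduce
      split_ifs
      · exact zero_le_one
      · exact pow_le_one₀ (dl_nonneg _ _ _ _) (dl_le_one _ _ _ _ hX)
    have h2 : ∑ h ∈ Ico 1 X, (f ((h : ℕ) : ℤ) + f (-((h : ℕ) : ℤ))) = 2 * ∑ h ∈ Ico 1 X, f ((h : ℕ) : ℤ) := by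
      rw [Finset.mul_sum]
      refine Finset.sum_congr rfl fun h _ => ?_
      rw [hfneg]; ring
    rw [h2, div_le_iff₀ hX0]
    have h3 : (2 ^ 19 + 24 * K * Kd) * (R ^ (-(5 / (2 * (k : ℝ)))) + 1 / X) * X =
        2 ^ 19 * R ^ (-(5 / (2 * (k : ℝ)))) * X + 24 * K * Kd * R ^ (-(5 / (2 * (k : ℝ)))) * X + 2 ^ 19 + 24 * K * Kd := by
      field_simp
      ring
    rw [h3]
    have h4 : 0 ≤ 2 ^ 19 * R ^ (-(5 / (2 * (k : ℝ)))) * X := by positivity
    linarith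

end Pool.Agent.helper132_h
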