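import Pool.Agent.helper132_h.H15
import Pool.Agent.helper132_quad.Q3

/-! The structure hypothesis from the new bounds. -/

namespace Pool.Agent.helper132_h

open Finset Pool.Agent.helper132_sph Pool.Agent.helper132_poly Pool.Agent.helper132_quad

lemma Vg_power (κ m X : ℕ) (hκ : 1 ≤ κ) (hX : 1 ≤ X) (α Q : ℝ) :
    Vg κ m X α Q ^ κ ≤ 2 ^ κ * Vg κ (m * κ) X α Q := by
  classical
  have hX0 : (0 : ℝ) < X := by exact_mod_cast hX
  obtain ⟨f, hf⟩ : ∃ f : ℤ → ℝ, f = fun (h : ℤ) => if Pool.Agent.helper132_poly.Minor κ X (h * α) Q then dl (κ + 1) X α h ^ m else 0 := ⟨_, rfl⟩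
  have hf0 : ∀ h, 0 ≤ f h := by
    intro h
    rw [hf]; beta_reduce
    split_ifs
    · exact pow_nonneg (dl_nonneg _ _ _ _) _
    · exact le_rfl
  obtain ⟨κ', rfl⟩ : ∃ κ', κ = κ' + 1 := ⟨κ - 1, by omega⟩
  have h1 := Pool.Agent.helper132_ec.pow_sum_le (Ioo (-(X : ℤ)) X) f hf0 κ'
  have hcard : ((Ioo (-(X : ℤ)) X).card : ℝ) ≤ 2 * X := by
    rw [Int.card_Ioo]
    have : ((X : ℤ) - -(X : ℤ) - 1).toNat ≤ 2 * X := by omega
    exact_mod_cast this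
  have h2 : Vg (κ' + 1) m X α Q = (∑ h ∈ Ioo (-(X : ℤ)) X, f h) / X := by unfold Vg; rw [hf]
  have h3 : Vg (κ' + 1) (m * (κ' + 1)) X α Q = (∑ h ∈ Ioo (-(X : ℤ)) X, f h ^ (κ' + 1)) / X := by
    unfold Vg; rw [hf]
    congr 1
    refine Finset.sum_congr rfl fun h _ => ?_
    beta_reduce
    split_ifs
    · rw [pow_mul]
    · rw [zero_pow (by omega)]
  rw [h2, h3, div_pow, ← mul_div_assoc, div_le_div_iff₀ (by positivity) hX0]
  have h4 : 0 ≤ ∑ h ∈ Ioo (-(X : ℤ)) X, f h ^ (κ' + 1) := Finset.sum_nonneg fun h _ => pow_nonneg (hf0 h) _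
  have h5 : ((Ioo (-(X : ℤ)) X).card : ℝ) ^ κ' ≤ (2 * X) ^ κ' := pow_le_pow_left₀ (Nat.cast_nonneg _) hcard _
  calc (∑ h ∈ Ioo (-(X : ℤ)) X, f h) ^ (κ' + 1) * X
      ≤ (((Ioo (-(X : ℤ)) X).card : ℝ) ^ κ' * ∑ h ∈ Ioo (-(X : ℤ)) X, f h ^ (κ' + 1)) * X :=
        mul_le_mul_of_nonneg_right h1 hX0.le
    _ ≤ ((2 * X) ^ κ' * ∑ h ∈ Ioo (-(X : ℤ)) X, f h ^ (κ' + 1)) * X := by gcongr
    _ = (1 / 2) * (2 ^ (κ' + 1) * (∑ h ∈ Ioo (-(X : ℤ)) X, f h ^ (κ' + 1)) * (X : ℝ) ^ (κ' + 1)) := by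
        rw [mul_pow, pow_succ, pow_succ]; ring
    _ ≤ 1 * (2 ^ (κ' + 1) * (∑ h ∈ Ioo (-(X : ℤ)) X, f h ^ (κ' + 1)) * (X : ℝ) ^ (κ' + 1)) :=
        mul_le_mul_of_nonneg_right (by norm_num) (by positivity)
    _ = _ := one_mul _

lemma Vg_root (κ m X : ℕ) (hκ : 1 ≤ κ) (hX : 1 ≤ X) (α Q : ℝ) :
    Vg κ m X α Q ≤ 2 * Vg κ (m * κ) X α Q ^ (1 / (κ : ℝ)) := by
  have h1 := Vg_power κ m X hκ hX α Q
  have h0 := Vg_nonneg κ m X α Q
  have h2 := Vg_nonneg κ (m * κ) X α Q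
  refine le_of_pow_le_pow_left₀ (n := κ) (by omega) (by positivity) ?_
  rw [mul_pow, one_div, Real.rpow_inv_natCast_pow h2 (by omega)]
  exact h1

lemma Q_bounds (k X : ℕ) (hk : 3 ≤ k) (hX : 1 ≤ X) : 1 ≤ (X : ℝ) ^ (c1 k) ∧ (X : ℝ) ^ (c1 k) ≤ X := by
  have hXR : (1 : ℝ) ≤ X := by exact_mod_cast hX
  have h := c1_pos k hk
  refine ⟨Real.one_le_rpow hXR (by linarith), ?_⟩
  calc (X : ℝ) ^ (c1 k) ≤ (X : ℝ) ^ (1 : ℝ) := Real.rpow_le_rpow_of_exponent_le hXR h.2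
    _ = X := Real.rpow_one _

lemma add_rpow_le (x y p : ℝ) (hx : 0 ≤ x) (hy : 0 ≤ y) (hp : 0 ≤ p) :
    (x + y) ^ p ≤ 2 ^ p * (x ^ p + y ^ p) := by
  have h1 : x + y ≤ 2 * max x y := by
    have h2 := le_max_left x y
    have h3 := le_max_right x y
    linarith
  have hx' : 0 ≤ x ^ p := Real.rpow_nonneg hx _
  have hy' : 0 ≤ y ^ p := Real.rpow_nonneg hy _
  calc (x + y) ^ p ≤ (2 * max x y) ^ p := Real.rpow_le_rpow (by positivity) h1 hp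
    _ = 2 ^ p * (max x y) ^ p := Real.mul_rpow (by norm_num) (le_max_of_le_left hx)
    _ ≤ 2 ^ p * (x ^ p + y ^ p) := by
        refine mul_le_mul_of_nonneg_left ?_ (by positivity)
        rcases max_choice x y with h | h
        · rw [h]; linarith
        · rw [h]; linarith

/-- the structure hypothesis. -/
theorem Hs_new (κ s m : ℕ) (hκ : 2 ≤ κ) (hs : 1 ≤ s) (hms : m * κ = 2 * s) (hm : κ + 1 ≤ m) (CJ : ℝ) (hCJ : 1 ≤ CJ)
    (hJ : MVT κ s (1 / 18) CJ) : ∃ C : ℝ, 1 ≤ C ∧ Hs (κ + 1) m 5 C := by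
  obtain ⟨k, hk⟩ : ∃ k : ℕ, k = κ + 1 := ⟨_, rfl⟩
  have hk3 : 3 ≤ k := by omega
  have hkR : (3 : ℝ) ≤ k := by exact_mod_cast hk3
  have hκR : (κ : ℝ) = k - 1 := by rw [hk]; push_cast; ring
  have hκ0 : (0 : ℝ) < κ := by rw [hκR]; linarith
  obtain ⟨C1, hC1, hpt⟩ := Vg_pt κ s hκ hs (1 / 18) CJ (by norm_num) (by norm_num) hCJ hJ
  obtain ⟨C2, hC2, hVb⟩ := Vb_bound κ m hκ hm
  rw [← hk] at hVb ⊢
  refine ⟨2 ^ (2 * k) * (2 ^ (2 * k) * C1 ^ (2 * (k : ℝ) / κ) + (2 * C2) ^ (2 * k)), ?_, ?_⟩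
  · have h1 : (1 : ℝ) ≤ 2 ^ (2 * k) := one_le_pow₀ (by norm_num)
    have h2 : 1 ≤ C1 ^ (2 * (k : ℝ) / κ) := Real.one_le_rpow hC1 (by positivity)
    have h3 : 1 ≤ (2 : ℝ) ^ (2 * k) * C1 ^ (2 * (k : ℝ) / κ) := one_le_mul_of_one_le_of_one_le h1 h2
    have h4 : 0 ≤ (2 * C2) ^ (2 * k) := by positivity
    exact one_le_mul_of_one_le_of_one_le h1 (by linarith)
  intro X α R hX hR1 hRX hmin
  have hXR : (1 : ℝ) ≤ X := by exact_mod_cast hX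
  have hX0 : (0 : ℝ) < X := by linarith
  have hR0 : 0 < R := by linarith
  have hR2X : R ^ 2 ≤ X := by
    refine le_of_pow_le_pow_left₀ (n := 5) (by norm_num) hX0.le ?_
    rw [← pow_mul]; exact hRX
  have hRleX : R ≤ X := (le_self_pow₀ hR1 (by norm_num)).trans hR2X
  obtain ⟨Q, hQ⟩ : ∃ Q : ℝ, Q = (X : ℝ) ^ (c1 k) := ⟨_, rfl⟩
  have hQb := Q_bounds k X hk3 hX
  rw [← hQ] at hQb
  have hQ0 : 0 < Q := by linarith [hQb.1]
  have hg := hpt X hX α Q R hQb.1 hQb.2 hR1 hRleX (by rw [← hk]; exact hmin)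
  have hb := hVb X hX α R hR1 hmin
  rw [← hQ] at hb
  obtain ⟨G, hG⟩ : ∃ G, G = Vg κ m X α Q := ⟨_, rfl⟩
  obtain ⟨B, hB⟩ : ∃ B, B = Vb κ m X α Q := ⟨_, rfl⟩
  have hG0 : 0 ≤ G := by rw [hG]; exact Vg_nonneg _ _ _ _ _
  have hB0 : 0 ≤ B := by rw [hB]; exact Vb_nonneg _ _ _ _ _
  have hGr := Vg_root κ m X (by omega) hX α Q
  rw [← hG, hms] at hGr
  rw [← hB] at hb
  have hD := Dl_split κ m X α Q
  rw [← hG, ← hB, ← hk] at hD
  rw [hD]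
  obtain ⟨V, hV⟩ : ∃ V, V = Vg κ (2 * s) X α Q := ⟨_, rfl⟩
  have hV0 : 0 ≤ V := by rw [hV]; exact Vg_nonneg _ _ _ _ _
  rw [← hV] at hGr hg
  -- good part
  have hGfin : G ^ (2 * k) * R ^ 5 ≤ 2 ^ (2 * k) * C1 ^ (2 * (k : ℝ) / κ) := by
    have h1 : V ≤ C1 * ((X : ℝ) ^ ((1 : ℝ) / 9) / (Q * R)) := by
      rw [← mul_div_assoc, le_div_iff₀ (by positivity)]
      have e : (2 : ℝ) * (1 / 18) = 1 / 9 := by norm_num
      rw [e] at hg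
      exact hg
    have h2 : G ^ (2 * k) ≤ 2 ^ (2 * k) * V ^ (2 * (k : ℝ) / κ) := by
      refine (pow_le_pow_left₀ hG0 hGr _).trans (le_of_eq ?_)
      rw [mul_pow, ← Real.rpow_natCast (V ^ (1 / (κ : ℝ))) (2 * k), ← Real.rpow_mul hV0]
      congr 2
      push_cast
      ring
    have h3 : V ^ (2 * (k : ℝ) / κ) ≤ C1 ^ (2 * (k : ℝ) / κ) * ((X : ℝ) ^ ((1 : ℝ) / 9) / (Q * R)) ^ (2 * (k : ℝ) / κ) := by
      rw [← Real.mul_rpow (by linarith) (by positivity)]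
      exact Real.rpow_le_rpow hV0 h1 (by positivity)
    have h4 : ((X : ℝ) ^ ((1 : ℝ) / 9) / (Q * R)) ^ (2 * (k : ℝ) / κ) * R ^ 5 ≤ 1 := by
      have e1 : ((X : ℝ) ^ ((1 : ℝ) / 9) / (Q * R)) ^ (2 * (k : ℝ) / κ) * R ^ 5 =
          (X : ℝ) ^ ((1 / 9 - c1 k) * (2 * (k : ℝ) / κ)) * R ^ (5 - 2 * (k : ℝ) / κ) := by
        rw [Real.div_rpow (by positivity) (by positivity), Real.mul_rpow hQ0.le hR0.le, hQ,
          ← Real.rpow_mul hX0.le, ← Real.rpow_mul hX0.le, sub_mul, Real.rpow_sub hX0, Real.rpow_sub hR0]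
        have : R ^ (5 : ℝ) = R ^ 5 := by exact_mod_cast Real.rpow_natCast R 5
        rw [this]
        field_simp
      rw [e1]
      have hexp : 0 ≤ 5 - 2 * (k : ℝ) / κ := by
        rw [sub_nonneg, div_le_iff₀ hκ0, hκR]; linarith
      have h5 : R ≤ (X : ℝ) ^ ((1 : ℝ) / 2) := by
        rw [← Real.sqrt_eq_rpow]
        exact Real.le_sqrt_of_sq_le hR2X
      calc (X : ℝ) ^ ((1 / 9 - c1 k) * (2 * (k : ℝ) / κ)) * R ^ (5 - 2 * (k : ℝ) / κ)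
          ≤ (X : ℝ) ^ ((1 / 9 - c1 k) * (2 * (k : ℝ) / κ)) * ((X : ℝ) ^ ((1 : ℝ) / 2)) ^ (5 - 2 * (k : ℝ) / κ) :=
            mul_le_mul_of_nonneg_left (Real.rpow_le_rpow hR0.le h5 hexp) (by positivity)
        _ = (X : ℝ) ^ ((1 / 9 - c1 k) * (2 * (k : ℝ) / κ) + 1 / 2 * (5 - 2 * (k : ℝ) / κ)) := by
            rw [← Real.rpow_mul hX0.le, ← Real.rpow_add hX0]
        _ ≤ (X : ℝ) ^ (0 : ℝ) := by
            refine Real.rpow_le_rpow_of_exponent_le hXR ?_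
            have e2 : (1 / 9 - c1 k) * (2 * (k : ℝ) / κ) + 1 / 2 * (5 - 2 * (k : ℝ) / κ) =
                ((1 / 9 - c1 k) * (2 * k) + 1 / 2 * (5 * κ - 2 * k)) / κ := by field_simp
            rw [e2]
            refine div_nonpos_of_nonpos_of_nonneg ?_ hκ0.le
            have e3 : c1 k * k = k - 5 / 3 := by unfold c1; field_simp
            rw [hκR]
            nlinarith
        _ = 1 := Real.rpow_zero _
    calc G ^ (2 * k) * R ^ 5 ≤ (2 ^ (2 * k) * (C1 ^ (2 * (k : ℝ) / κ) * ((X : ℝ) ^ ((1 : ℝ) / 9) / (Q * R)) ^ (2 * (k : ℝ) / κ))) * R ^ 5 := by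
          refine mul_le_mul_of_nonneg_right (h2.trans ?_) (by positivity)
          exact mul_le_mul_of_nonneg_left h3 (by positivity)
      _ = 2 ^ (2 * k) * C1 ^ (2 * (k : ℝ) / κ) * (((X : ℝ) ^ ((1 : ℝ) / 9) / (Q * R)) ^ (2 * (k : ℝ) / κ) * R ^ 5) := by ring
      _ ≤ 2 ^ (2 * k) * C1 ^ (2 * (k : ℝ) / κ) * 1 := mul_le_mul_of_nonneg_left h4 (by positivity)
      _ = _ := mul_one _
  -- bad part
  have hBfin : B ^ (2 * k) * R ^ 5 ≤ (2 * C2) ^ (2 * k) := by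
    have h1 : 1 / (X : ℝ) ≤ R ^ (-(5 / (2 * (k : ℝ)))) := by
      calc 1 / (X : ℝ) ≤ 1 / R ^ 2 := one_div_le_one_div_of_le (by positivity) hR2X
        _ = R ^ (-2 : ℝ) := by
            rw [Real.rpow_neg hR0.le, one_div]
            congr 1
            exact_mod_cast (Real.rpow_natCast R 2).symm
        _ ≤ R ^ (-(5 / (2 * (k : ℝ)))) := by
            refine Real.rpow_le_rpow_of_exponent_le hR1 ?_
            rw [neg_le_neg_iff, div_le_iff₀ (by positivity)]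
            linarith
    have h2 : B ≤ (2 * C2) * R ^ (-(5 / (2 * (k : ℝ)))) := by
      refine hb.trans ?_
      have h3 : C2 * (R ^ (-(5 / (2 * (k : ℝ)))) + 1 / X) ≤ C2 * (R ^ (-(5 / (2 * (k : ℝ)))) + R ^ (-(5 / (2 * (k : ℝ))))) :=
        mul_le_mul_of_nonneg_left (by linarith) (by linarith)
      linarith
    have h3 : (R ^ (-(5 / (2 * (k : ℝ))))) ^ (2 * k) * R ^ 5 = 1 := by
      rw [← Real.rpow_natCast (R ^ (-(5 / (2 * (k : ℝ))))) (2 * k), ← Real.rpow_mul hR0.le]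
      have e1 : -(5 / (2 * (k : ℝ))) * ((2 * k : ℕ) : ℝ) = -5 := by push_cast; field_simp
      have e2 : R ^ (5 : ℝ) = R ^ 5 := by exact_mod_cast Real.rpow_natCast R 5
      rw [e1, Real.rpow_neg hR0.le, e2]
      field_simp
    calc B ^ (2 * k) * R ^ 5 ≤ ((2 * C2) * R ^ (-(5 / (2 * (k : ℝ))))) ^ (2 * k) * R ^ 5 :=
          mul_le_mul_of_nonneg_right (pow_le_pow_left₀ hB0 h2 _) (by positivity)
      _ = (2 * C2) ^ (2 * k) * ((R ^ (-(5 / (2 * (k : ℝ))))) ^ (2 * k) * R ^ 5) := by rw [mul_pow]; ring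
      _ = _ := by rw [h3, mul_one]
  calc (G + B) ^ (2 * k) * R ^ 5 ≤ (2 ^ (2 * k) * (G ^ (2 * k) + B ^ (2 * k))) * R ^ 5 :=
        mul_le_mul_of_nonneg_right (add_pow_le_two G B hG0 hB0 _) (by positivity)
    _ = 2 ^ (2 * k) * (G ^ (2 * k) * R ^ 5 + B ^ (2 * k) * R ^ 5) := by ring
    _ ≤ _ := mul_le_mul_of_nonneg_left (add_le_add hGfin hBfin) (by positivity)

end Pool.Agent.helper132_h
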