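import Pool.Agent.helper132_h.H16
import Pool.Agent.helper132_sph.Arc

/-! Levels of frequencies. -/

namespace Pool.Agent.helper132_h

open Finset Pool.Agent.helper132_sph Pool.Agent.helper132_poly Pool.Agent.helper132_quad

lemma card_gap (S : Finset ℕ) (q V : ℕ) (hq : 1 ≤ q) (h : ∀ a ∈ S, ∀ b ∈ S, a ≤ b → q * (b - a) ≤ 2 * V) :
    (S.card : ℝ) ≤ 2 * V / q + 1 := by
  have hqR : (0 : ℝ) < q := by exact_mod_cast hq
  rcases S.eq_empty_or_nonempty with h0 | hne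
  · rw [h0, Finset.card_empty, Nat.cast_zero]
    positivity
  obtain ⟨a, ha⟩ : ∃ a, a = S.min' hne := ⟨_, rfl⟩
  have haS : a ∈ S := by rw [ha]; exact Finset.min'_mem _ _
  have hsub : S ⊆ Icc a (a + 2 * V / q) := by
    intro b hb
    have hab : a ≤ b := by rw [ha]; exact Finset.min'_le _ _ hb
    rw [Finset.mem_Icc]
    refine ⟨hab, ?_⟩
    have h1 := h a haS b hb hab
    have h2 : b - a ≤ 2 * V / q := by
      rw [Nat.le_div_iff_mul_le hq, mul_comm]; exact h1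
    omega
  have h1 := Finset.card_le_card hsub
  rw [Nat.card_Icc] at h1
  have h2 : S.card ≤ 2 * V / q + 1 := by
    rwa [add_assoc, Nat.add_sub_cancel_left] at h1
  have h3 : ((2 * V / q : ℕ) : ℝ) ≤ ((2 * V : ℕ) : ℝ) / q := Nat.cast_div_le
  have h4 : (S.card : ℝ) ≤ ((2 * V / q + 1 : ℕ) : ℝ) := by exact_mod_cast h2
  push_cast at h3 h4
  linarith

/-- number of points in the arcs of level ν. -/
lemma card_arc (k X : ℕ) (hX : 1 ≤ X) (ν : ℕ) (S : Finset ℕ)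
    (hS : ∀ a ∈ S, a < X ^ k ∧ InArc k X ((a : ℝ) / (X : ℝ) ^ k) ν) : (S.card : ℝ) ≤ 12 * (2 ^ ν) ^ 2 := by
  classical
  obtain ⟨V, hV⟩ : ∃ V : ℕ, V = 2 ^ ν := ⟨_, rfl⟩
  have hVR : (V : ℝ) = 2 ^ ν := by rw [hV]; push_cast; ring
  rw [← hVR]
  have hV1 : 1 ≤ V := by rw [hV]; exact Nat.one_le_two_pow
  have hV1R : (1 : ℝ) ≤ V := by exact_mod_cast hV1
  obtain ⟨P, hP⟩ : ∃ P : ℕ, P = X ^ k := ⟨_, rfl⟩
  have hPR : (P : ℝ) = (X : ℝ) ^ k := by rw [hP]; push_cast; ring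
  have hP1 : 1 ≤ P := by rw [hP]; exact Nat.one_le_pow _ _ hX
  have hP0 : (0 : ℝ) < P := by exact_mod_cast hP1
  have hVV : (V : ℝ) ≤ V ^ 2 := le_self_pow₀ hV1R (by norm_num)
  rcases le_or_gt P V with hc | hc
  · have h1 : S.card ≤ P := by
      have : S ⊆ range P := by
        intro a ha
        rw [Finset.mem_range, hP]; exact (hS a ha).1
      have h2 := Finset.card_le_card this
      rwa [Finset.card_range] at h2
    have h2 : (S.card : ℝ) ≤ V := by exact_mod_cast h1.trans hc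
    nlinarith
  have hex : ∀ a ∈ S, ∃ q ∈ Icc 1 V, ∃ c ∈ Icc (-1 : ℤ) (q + 1), |(q : ℝ) * a - c * P| ≤ V := by
    intro a ha
    obtain ⟨haP, q, c, hq1, hq2, hq3⟩ := hS a ha
    have haP' : (a : ℝ) ≤ P := by
      rw [← hP] at haP
      exact_mod_cast haP.le
    have ha0 : (0 : ℝ) ≤ a := Nat.cast_nonneg _
    have hqV : q ≤ V := by
      rw [← hVR] at hq2
      exact_mod_cast hq2
    have hqR : (1 : ℝ) ≤ q := by exact_mod_cast hq1
    have h1 : |(q : ℝ) * a - c * P| ≤ V := by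
      have e : (q : ℝ) * a - c * P = (q * ((a : ℝ) / (X : ℝ) ^ k) - c) * P := by
        rw [← hPR]; field_simp
      rw [e, abs_mul, abs_of_pos hP0, hPR, hVR]
      exact hq3
    refine ⟨q, Finset.mem_Icc.2 ⟨hq1, hqV⟩, c, ?_, h1⟩
    have hcV : (V : ℝ) < P := by exact_mod_cast hc
    rw [abs_le] at h1
    rw [Finset.mem_Icc]
    have h2 : (q : ℝ) * a ≤ q * P := mul_le_mul_of_nonneg_left haP' (by linarith)
    have h3 : 0 ≤ (q : ℝ) * a := by positivity
    constructor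
    · have : (-1 : ℝ) < c + 1 := by
        by_contra hcon
        push Not at hcon
        have h4 : (c : ℝ) * P ≤ -2 * P := mul_le_mul_of_nonneg_right (by linarith) hP0.le
        linarith [h1.2]
      have h5 : (-1 : ℤ) < c + 1 := by exact_mod_cast this
      omega
    · have : (c : ℝ) < q + 2 := by
        by_contra hcon
        push Not at hcon
        have h4 : ((q : ℝ) + 2) * P ≤ c * P := mul_le_mul_of_nonneg_right hcon hP0.le
        linarith [h1.1]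
      have h5 : c < (q : ℤ) + 2 := by exact_mod_cast this
      omega
  have hsub : S ⊆ (Icc 1 V).biUnion (fun q => (Icc (-1 : ℤ) (q + 1)).biUnion
      (fun c => S.filter (fun a : ℕ => |(q : ℝ) * a - c * P| ≤ V))) := by
    intro a ha
    obtain ⟨q, hq, c, hcc, h⟩ := hex a ha
    rw [Finset.mem_biUnion]
    refine ⟨q, hq, ?_⟩
    rw [Finset.mem_biUnion]
    exact ⟨c, hcc, Finset.mem_filter.2 ⟨ha, h⟩⟩
  have h1 : (S.card : ℝ) ≤ ∑ q ∈ Icc 1 V, ∑ c ∈ Icc (-1 : ℤ) (q + 1),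
      (((S.filter (fun a : ℕ => |(q : ℝ) * a - c * P| ≤ V)).card : ℕ) : ℝ) := by
    have h2 := (Finset.card_le_card hsub).trans Finset.card_biUnion_le
    have h3 : ∑ q ∈ Icc 1 V, ((Icc (-1 : ℤ) (q + 1)).biUnion
      (fun c => S.filter (fun a : ℕ => |(q : ℝ) * a - c * P| ≤ V))).card ≤
      ∑ q ∈ Icc 1 V, ∑ c ∈ Icc (-1 : ℤ) (q + 1), (S.filter (fun a : ℕ => |(q : ℝ) * a - c * P| ≤ V)).card :=
      Finset.sum_le_sum fun q _ => Finset.card_biUnion_le
    exact_mod_cast h2.trans h3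
  refine h1.trans ?_
  have h2 : ∀ q ∈ Icc 1 V, ∑ c ∈ Icc (-1 : ℤ) (q + 1),
      (((S.filter (fun a : ℕ => |(q : ℝ) * a - c * P| ≤ V)).card : ℕ) : ℝ) ≤ 12 * V := by
    intro q hq
    rw [Finset.mem_Icc] at hq
    have hqR : (1 : ℝ) ≤ q := by exact_mod_cast hq.1
    have hq0 : (0 : ℝ) < q := by linarith
    have hqV : (q : ℝ) ≤ V := by exact_mod_cast hq.2
    have h3 : ∀ c ∈ Icc (-1 : ℤ) (q + 1),
        (((S.filter (fun a : ℕ => |(q : ℝ) * a - c * P| ≤ V)).card : ℕ) : ℝ) ≤ 2 * V / q + 1 := by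
      intro c _
      refine card_gap _ q V hq.1 ?_
      intro a ha b hb hab
      rw [Finset.mem_filter, abs_le] at ha hb
      have h4 : ((q * (b - a) : ℕ) : ℝ) ≤ ((2 * V : ℕ) : ℝ) := by
        rw [Nat.cast_mul, Nat.cast_sub hab]
        push_cast
        linarith [ha.2.1, hb.2.2]
      exact_mod_cast h4
    refine (Finset.sum_le_sum h3).trans ?_
    rw [Finset.sum_const, nsmul_eq_mul, Int.card_Icc]
    have h4 : (((q : ℤ) + 1 + 1 - -1).toNat : ℝ) = q + 3 := by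
      have : ((q : ℤ) + 1 + 1 - -1).toNat = q + 3 := by omega
      rw [this]; push_cast; ring
    rw [h4]
    have e : ((q : ℝ) + 3) * (2 * V / q + 1) = 2 * V + q + 3 + 6 * (V / q) := by field_simp; ring
    rw [e]
    have h5 : (V : ℝ) / q ≤ V := div_le_self (by linarith) hqR
    have h6 : (V : ℝ) / q + 0 ≤ V := by linarith
    rcases hq.2.eq_or_lt with h7 | h7
    · -- q = V
      rw [← h7] at h5 ⊢
      have h8 : (q : ℝ) / q = 1 := div_self hq0.ne'
      rw [h8]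
      linarith
    · have h8 : (2 : ℝ) ≤ V := by exact_mod_cast (by omega : 2 ≤ V)
      linarith
  refine (Finset.sum_le_sum h2).trans ?_
  rw [Finset.sum_const, nsmul_eq_mul, Nat.card_Icc, Nat.add_sub_cancel]
  refine le_of_eq ?_
  ring

/-- the level of a frequency. -/
noncomputable def lev (k X : ℕ) (α : ℝ) : ℕ := by
  classical
  exact Nat.find (exists_inArc k X α)

lemma lev_in (k X : ℕ) (α : ℝ) : InArc k X α (lev k X α) := by
  classical
  exact Nat.find_spec (exists_inArc k X α)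

lemma lev_minor (k X : ℕ) (α : ℝ) (h : 1 ≤ lev k X α) :
    Pool.Agent.helper132_poly.Minor k X α (2 ^ (lev k X α - 1)) := by
  classical
  intro q c hq1 hq2
  by_contra hcon
  push Not at hcon
  have h1 : ¬ InArc k X α (lev k X α - 1) := by
    refine Nat.find_min (exists_inArc k X α) ?_
    show lev k X α - 1 < lev k X α
    omega
  exact h1 ⟨q, c, hq1, hq2, hcon⟩

lemma lev_gt (k X : ℕ) (α R : ℝ) (h : Pool.Agent.helper132_poly.Minor k X α R) : R < 2 ^ (lev k X α) := by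
  by_contra hcon
  push Not at hcon
  obtain ⟨q, c, hq1, hq2, hq3⟩ := lev_in k X α
  have := h q c hq1 (hq2.trans hcon)
  linarith

lemma lev_le (k X : ℕ) (α : ℝ) : lev k X α ≤ Nat.log 2 (X ^ k) + 1 := by
  classical
  refine Nat.find_min' (exists_inArc k X α) ⟨1, round α, le_rfl, ?_, ?_⟩
  · rw [Nat.cast_one]; exact one_le_pow₀ (by norm_num)
  · rw [Nat.cast_one, one_mul]
    have h1 : |α - round α| ≤ 1 := (abs_sub_round α).trans (by norm_num)
    have h2 : X ^ k < 2 ^ (Nat.log 2 (X ^ k) + 1) := Nat.lt_pow_succ_log_self (by norm_num) _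
    have h3 : (X : ℝ) ^ k ≤ 2 ^ (Nat.log 2 (X ^ k) + 1) := by exact_mod_cast h2.le
    calc |α - round α| * (X : ℝ) ^ k ≤ 1 * (X : ℝ) ^ k :=
          mul_le_mul_of_nonneg_right h1 (by positivity)
      _ ≤ _ := by linarith

lemma num_lev (k : ℕ) (δ : ℝ) (hδ : 0 < δ) : ∃ C : ℝ, 1 ≤ C ∧ ∀ X : ℕ, 1 ≤ X →
    ((Nat.log 2 (X ^ k) + 2 : ℕ) : ℝ) ≤ C * (X : ℝ) ^ δ := by
  refine ⟨2 * (k / δ) + 2, ?_, ?_⟩
  · have : (0 : ℝ) ≤ k / δ := by positivity
    linarith
  intro X hX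
  have hXR : (1 : ℝ) ≤ X := by exact_mod_cast hX
  have hX0 : (0 : ℝ) < X := by linarith
  have h1 : 2 ^ Nat.log 2 (X ^ k) ≤ X ^ k := Nat.pow_log_le_self 2 (by positivity)
  have h2 : (2 : ℝ) ^ Nat.log 2 (X ^ k) ≤ (X : ℝ) ^ k := by exact_mod_cast h1
  have h3 := Real.log_le_log (by positivity) h2
  rw [Real.log_pow, Real.log_pow] at h3
  have h4 : Real.log X ≤ (X : ℝ) ^ δ / δ := Real.log_le_rpow_div hX0.le hδ
  have h5 : (1 : ℝ) / 2 ≤ Real.log 2 := by
    have := Real.log_two_gt_d9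
    linarith
  have h6 : 1 ≤ (X : ℝ) ^ δ := Real.one_le_rpow hXR hδ.le
  have h7 : (Nat.log 2 (X ^ k) : ℝ) * (1 / 2) ≤ Nat.log 2 (X ^ k) * Real.log 2 :=
    mul_le_mul_of_nonneg_left h5 (Nat.cast_nonneg _)
  have h8 : (k : ℝ) * Real.log X ≤ k * ((X : ℝ) ^ δ / δ) := mul_le_mul_of_nonneg_left h4 (Nat.cast_nonneg _)
  push_cast
  have e : (2 * (k / δ) + 2) * (X : ℝ) ^ δ = 2 * (k * ((X : ℝ) ^ δ / δ)) + 2 * (X : ℝ) ^ δ := by ring
  rw [e]
  linarith

end Pool.Agent.helper132_h
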