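import Pool.Agent.helper132_h.H17

/-! The sum over the minor frequencies. -/

namespace Pool.Agent.helper132_h

open Finset Pool.Agent.helper132_sph Pool.Agent.helper132_poly Pool.Agent.helper132_quad

lemma level_sum (k X : ℕ) (M : Finset ℕ) (f : ℕ → ℝ) (Bd : ℝ)
    (h : ∀ ν, ∑ a ∈ M.filter (fun a : ℕ => lev k X ((a : ℝ) / (X : ℝ) ^ k) = ν), f a ≤ Bd) :
    ∑ a ∈ M, f a ≤ ((Nat.log 2 (X ^ k) + 2 : ℕ) : ℝ) * Bd := by
  classical
  rw [← Finset.sum_fiberwise_of_maps_to (s := M) (t := range (Nat.log 2 (X ^ k) + 2))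
    (g := fun a : ℕ => lev k X ((a : ℝ) / (X : ℝ) ^ k)) (by
      intro a _
      rw [Finset.mem_range]
      have := lev_le k X ((a : ℝ) / (X : ℝ) ^ k)
      omega)]
  refine (Finset.sum_le_sum fun ν _ => h ν).trans (le_of_eq ?_)
  rw [Finset.sum_const, Finset.card_range, nsmul_eq_mul]

/-- the frequencies considered. -/
def Mset (k X : ℕ) (M : Finset ℕ) : Prop :=
  ∀ a ∈ M, a < X ^ k ∧ ∃ R : ℝ, 0 ≤ R ∧ Pool.Agent.helper132_poly.Minor k X ((a : ℝ) / (X : ℝ) ^ k) R ∧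
    (X : ℝ) ^ 5 ≤ 1024 * R ^ 10

lemma lev_facts (k X : ℕ) (hX : 4 ≤ X) (M : Finset ℕ) (hM : Mset k X M) (a : ℕ) (ha : a ∈ M) :
    1 ≤ lev k X ((a : ℝ) / (X : ℝ) ^ k) ∧
    (X : ℝ) ^ ((1 : ℝ) / 2) / 4 ≤ 2 ^ (lev k X ((a : ℝ) / (X : ℝ) ^ k) - 1) := by
  obtain ⟨_, R, hR0, hmin, hR⟩ := hM a ha
  have hXR : (4 : ℝ) ≤ X := by exact_mod_cast hX
  have h1 : (X : ℝ) ≤ 4 * R ^ 2 := by
    refine le_of_pow_le_pow_left₀ (n := 5) (by norm_num) (by positivity) ?_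
    calc (X : ℝ) ^ 5 ≤ 1024 * R ^ 10 := hR
      _ = (4 * R ^ 2) ^ 5 := by ring
  have h2 : (X : ℝ) ^ ((1 : ℝ) / 2) ≤ 2 * R := by
    rw [← Real.sqrt_eq_rpow]
    rw [Real.sqrt_le_left (by positivity)]
    calc (X : ℝ) ≤ 4 * R ^ 2 := h1
      _ = (2 * R) ^ 2 := by ring
  have h3 : (2 : ℝ) ≤ (X : ℝ) ^ ((1 : ℝ) / 2) := by
    rw [← Real.sqrt_eq_rpow]
    refine Real.le_sqrt_of_sq_le ?_
    linarith
  have h4 := lev_gt k X ((a : ℝ) / (X : ℝ) ^ k) R hmin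
  obtain ⟨l, hl⟩ : ∃ l, l = lev k X ((a : ℝ) / (X : ℝ) ^ k) := ⟨_, rfl⟩
  rw [← hl] at h4 ⊢
  have h5 : 1 ≤ l := by
    by_contra hcon
    have : l = 0 := by omega
    rw [this, pow_zero] at h4
    linarith
  refine ⟨h5, ?_⟩
  have h6 : (2 : ℝ) ^ l = 2 ^ (l - 1) * 2 := by
    rw [← pow_succ]; congr 1; omega
  rw [h6] at h4
  linarith

lemma expo (κ : ℕ) (hκ : 2 ≤ κ) (c e p η δ : ℝ) (hc : c = c1 (κ + 1)) (he : e = 1 / (6 * ((κ + 1 : ℕ) : ℝ)))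
    (hp : p = (((κ + 1 : ℕ) : ℝ) + e) / κ) (hη : η = 1 / (48 * (κ : ℝ))) (hδ : δ = 1 / (12 * (κ : ℝ))) :
    (2 * η - c) * p + 2 - p + δ ≤ -e := by
  have hκR : (2 : ℝ) ≤ κ := by exact_mod_cast hκ
  have hκ0 : (0 : ℝ) < κ := by linarith
  obtain ⟨k, hk⟩ : ∃ k : ℝ, k = ((κ + 1 : ℕ) : ℝ) := ⟨_, rfl⟩
  have hkκ : k = κ + 1 := by rw [hk]; push_cast; ring
  rw [← hk] at he hp
  have hk3 : 3 ≤ k := by rw [hkκ]; linarith
  have hek : e * k = 1 / 6 := by rw [he]; field_simp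
  have he0 : 0 < e := by rw [he]; positivity
  have he18 : e ≤ 1 / 18 := by
    rw [he, div_le_div_iff₀ (by positivity) (by norm_num)]; linarith
  have hηκ : η * κ = 1 / 48 := by rw [hη]; field_simp
  have hη0 : 0 < η := by rw [hη]; positivity
  have hη96 : η ≤ 1 / 96 := by
    rw [hη, div_le_div_iff₀ (by positivity) (by norm_num)]; linarith
  have hδκ : δ * κ = 1 / 12 := by rw [hδ]; field_simp
  have hpκ : p * κ = k + e := by rw [hp]; field_simp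
  have hck : c * k = k - 5 / 3 := by
    rw [hc]; unfold c1; rw [← hk]; field_simp
  have hc49 : 4 / 9 ≤ c := by rw [hc]; exact (c1_pos (κ + 1) (by omega)).1
  have h1 : ((2 * η - c) * p + 2 - p + δ + e) * κ ≤ 0 := by
    have e1 : ((2 * η - c) * p + 2 - p + δ + e) * κ =
        2 * η * (p * κ) - c * (p * κ) - p * κ + 2 * κ + δ * κ + e * κ := by ring
    rw [e1, hpκ, hδκ]
    have e2 : 2 * η * (k + e) = 2 * (η * κ) + 2 * (η * (1 + e)) := by rw [hkκ]; ring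
    have e3 : c * (k + e) = (k - 5 / 3) + c * e := by rw [← hck]; ring
    have e4 : e * κ = 1 / 6 - e := by
      rw [← hek, hkκ]; ring
    rw [e2, e3, e4, hηκ]
    have h2 : η * (1 + e) ≤ 1 / 96 * (1 + 1 / 18) :=
      mul_le_mul hη96 (by linarith) (by linarith) (by norm_num)
    have h3 : 4 / 9 * e ≤ c * e := mul_le_mul_of_nonneg_right hc49 he0.le
    have h4 : (κ : ℝ) = k - 1 := by rw [hkκ]; ring
    rw [h4]
    linarith
  have h5 : (2 * η - c) * p + 2 - p + δ + e ≤ 0 := by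
    by_contra hcon
    push Not at hcon
    have := mul_pos hcon hκ0
    linarith
  linarith

/-- sum of the good parts. -/
theorem Vg_minor (κ s : ℕ) (hκ : 2 ≤ κ) (hs : 1 ≤ s) (CJ : ℝ) (hCJ : 1 ≤ CJ)
    (hJ : MVT κ s (1 / (48 * (κ : ℝ))) CJ) (p e : ℝ) (he : e = 1 / (6 * ((κ + 1 : ℕ) : ℝ)))
    (hp : p = (((κ + 1 : ℕ) : ℝ) + e) / κ) : ∃ C : ℝ, 1 ≤ C ∧ ∀ X : ℕ, 4 ≤ X → ∀ M : Finset ℕ, Mset (κ + 1) X M →
      ∑ a ∈ M, Vg κ (2 * s) X ((a : ℝ) / (X : ℝ) ^ (κ + 1)) ((X : ℝ) ^ c1 (κ + 1)) ^ p ≤ C * (X : ℝ) ^ (-e) := by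
  classical
  obtain ⟨η, hη⟩ : ∃ η : ℝ, η = 1 / (48 * (κ : ℝ)) := ⟨_, rfl⟩
  obtain ⟨δ, hδ⟩ : ∃ δ : ℝ, δ = 1 / (12 * (κ : ℝ)) := ⟨_, rfl⟩
  obtain ⟨c, hc⟩ : ∃ c : ℝ, c = c1 (κ + 1) := ⟨_, rfl⟩
  have hexp := expo κ hκ c e p η δ hc he hp hη hδ
  have hκR : (2 : ℝ) ≤ κ := by exact_mod_cast hκ
  have hκ0 : (0 : ℝ) < κ := by linarith
  have hη0 : 0 < η := by rw [hη]; positivity
  have hη1 : η ≤ 1 := by
    rw [hη, div_le_one (by positivity)]; linarith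
  have hδ0 : 0 < δ := by rw [hδ]; positivity
  have he0 : 0 < e := by rw [he]; positivity
  have he1 : e ≤ 1 := by
    rw [he, div_le_one (by positivity)]
    push_cast; linarith
  rw [← hη] at hJ
  have hp1 : 1 ≤ p := by
    rw [hp, le_div_iff₀ hκ0]; push_cast; linarith
  have hp2 : p ≤ 2 := by
    rw [hp, div_le_iff₀ hκ0]; push_cast
    have : e ≤ 1 / 18 := by
      rw [he, div_le_div_iff₀ (by positivity) (by norm_num)]; push_cast; linarith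
    linarith
  obtain ⟨C1, hC1, hpt⟩ := Vg_pt κ s hκ hs η CJ hη0 hη1 hCJ hJ
  obtain ⟨C2, hC2, hsum⟩ := Vg_sum κ s hκ hs η CJ hη0 hη1 hCJ hJ
  obtain ⟨C3, hC3, hlev⟩ := num_lev (κ + 1) δ hδ0
  have hC1p : 1 ≤ C1 ^ p := Real.one_le_rpow hC1 (by linarith)
  have hC1p' : 1 ≤ C1 ^ (p - 1) := Real.one_le_rpow hC1 (by linarith)
  refine ⟨C3 * (48 * C1 ^ p) + C1 ^ (p - 1) * C2, ?_, ?_⟩
  · have h1 : (1 : ℝ) ≤ C1 ^ (p - 1) * C2 := one_le_mul_of_one_le_of_one_le hC1p' hC2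
    have h2 : (0 : ℝ) ≤ C3 * (48 * C1 ^ p) := by positivity
    linarith
  intro X hX4 M hM
  have hX : 1 ≤ X := by omega
  have hXR : (1 : ℝ) ≤ X := by exact_mod_cast hX
  have hX0 : (0 : ℝ) < X := by linarith
  rw [← hc]
  obtain ⟨Q, hQ⟩ : ∃ Q : ℝ, Q = (X : ℝ) ^ c := ⟨_, rfl⟩
  have hQb := Q_bounds (κ + 1) X (by omega) hX
  rw [← hc, ← hQ] at hQb
  have hQ0 : 0 < Q := by linarith [hQb.1]
  rw [← hQ]
  obtain ⟨V, hV⟩ : ∃ V : ℕ → ℝ, V = fun a : ℕ => Vg κ (2 * s) X ((a : ℝ) / (X : ℝ) ^ (κ + 1)) Q := ⟨_, rfl⟩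
  have hV0 : ∀ a, 0 ≤ V a := by intro a; rw [hV]; exact Vg_nonneg _ _ _ _ _
  have hgoal : ∑ a ∈ M, Vg κ (2 * s) X ((a : ℝ) / (X : ℝ) ^ (κ + 1)) Q ^ p = ∑ a ∈ M, V a ^ p := by rw [hV]
  rw [hgoal]
  have hE : (X : ℝ) ^ ((2 * η - c) * p + 2 - p + δ) ≤ (X : ℝ) ^ (-e) := Real.rpow_le_rpow_of_exponent_le hXR hexp
  have hE' : (X : ℝ) ^ ((2 * η - c) * p + 2 - p) ≤ (X : ℝ) ^ (-e) :=
    Real.rpow_le_rpow_of_exponent_le hXR (by linarith)
  -- pointwise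
  have hpt' : ∀ a ∈ M, ∀ R : ℝ, 1 ≤ R → R ≤ X → Pool.Agent.helper132_poly.Minor (κ + 1) X ((a : ℝ) / (X : ℝ) ^ (κ + 1)) R →
      V a ≤ C1 * ((X : ℝ) ^ (2 * η - c) / R) := by
    intro a _ R hR1 hRX hmin
    have h := hpt X hX ((a : ℝ) / (X : ℝ) ^ (κ + 1)) Q R hQb.1 hQb.2 hR1 hRX hmin
    have hR0 : 0 < R := by linarith
    have e1 : C1 * ((X : ℝ) ^ (2 * η - c) / R) = C1 * (X : ℝ) ^ (2 * η) / (Q * R) := by
      rw [Real.rpow_sub hX0, ← hQ]; field_simp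
    rw [e1, le_div_iff₀ (by positivity), hV]
    exact h
  rw [← Finset.sum_filter_add_sum_filter_not M (fun a : ℕ => (2 : ℝ) ^ (lev (κ + 1) X ((a : ℝ) / (X : ℝ) ^ (κ + 1)) - 1) ≤ X)]
  obtain ⟨M1, hM1⟩ : ∃ M1, M1 = M.filter (fun a : ℕ => (2 : ℝ) ^ (lev (κ + 1) X ((a : ℝ) / (X : ℝ) ^ (κ + 1)) - 1) ≤ X) := ⟨_, rfl⟩
  obtain ⟨M2, hM2⟩ : ∃ M2, M2 = M.filter (fun a : ℕ => ¬ (2 : ℝ) ^ (lev (κ + 1) X ((a : ℝ) / (X : ℝ) ^ (κ + 1)) - 1) ≤ X) := ⟨_, rfl⟩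
  rw [← hM1, ← hM2]
  have hpartA : ∑ a ∈ M1, V a ^ p ≤ C3 * (48 * C1 ^ p) * (X : ℝ) ^ (-e) := by
    have h1 := level_sum (κ + 1) X M1 (fun a => V a ^ p) (48 * C1 ^ p * (X : ℝ) ^ ((2 * η - c) * p + 2 - p)) (by
      intro ν
      obtain ⟨S, hS⟩ : ∃ S, S = M1.filter (fun a : ℕ => lev (κ + 1) X ((a : ℝ) / (X : ℝ) ^ (κ + 1)) = ν) := ⟨_, rfl⟩
      rw [← hS]
      rcases S.eq_empty_or_nonempty with h0 | ⟨a0, ha0⟩
      · rw [h0, Finset.sum_empty]; positivity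
      have hSM : ∀ a ∈ S, a ∈ M ∧ lev (κ + 1) X ((a : ℝ) / (X : ℝ) ^ (κ + 1)) = ν ∧ (2 : ℝ) ^ (ν - 1) ≤ X := by
        intro a ha
        rw [hS, Finset.mem_filter, hM1, Finset.mem_filter] at ha
        refine ⟨ha.1.1, ha.2, ?_⟩
        have := ha.1.2
        rwa [ha.2] at this
      have hν1 : 1 ≤ ν := by
        obtain ⟨h1, h2, _⟩ := hSM a0 ha0
        have := (lev_facts (κ + 1) X hX4 M hM a0 h1).1
        rwa [h2] at this
      have hνX := (hSM a0 ha0).2.2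
      obtain ⟨R, hR⟩ : ∃ R : ℝ, R = 2 ^ (ν - 1) := ⟨_, rfl⟩
      have hR1 : 1 ≤ R := by rw [hR]; exact one_le_pow₀ (by norm_num)
      have hR0 : 0 < R := by linarith
      rw [← hR] at hνX
      have h2ν : (2 : ℝ) ^ ν = 2 * R := by
        rw [hR, ← pow_succ']; congr 1; omega
      have hcard := card_arc (κ + 1) X hX ν S (by
        intro a ha
        obtain ⟨h1, h2, _⟩ := hSM a ha
        refine ⟨(hM a h1).1, ?_⟩
        have := lev_in (κ + 1) X ((a : ℝ) / (X : ℝ) ^ (κ + 1))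
        rwa [h2] at this)
      rw [h2ν] at hcard
      have hterm : ∀ a ∈ S, V a ^ p ≤ C1 ^ p * ((X : ℝ) ^ (2 * η - c) / R) ^ p := by
        intro a ha
        obtain ⟨h1, h2, _⟩ := hSM a ha
        have h3 := hpt' a h1 R hR1 hνX (by
          have := lev_minor (κ + 1) X ((a : ℝ) / (X : ℝ) ^ (κ + 1)) (by rw [h2]; exact hν1)
          rw [h2, ← hR] at this
          exact this)
        rw [← Real.mul_rpow (by linarith) (by positivity)]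
        exact Real.rpow_le_rpow (hV0 a) h3 (by linarith)
      refine (Finset.sum_le_sum hterm).trans ?_
      rw [Finset.sum_const, nsmul_eq_mul]
      have h4 : ((X : ℝ) ^ (2 * η - c) / R) ^ p = (X : ℝ) ^ ((2 * η - c) * p) * R ^ (-p) := by
        rw [Real.div_rpow (by positivity) hR0.le, ← Real.rpow_mul hX0.le, Real.rpow_neg hR0.le]; rfl
      have h5 : R ^ (2 : ℝ) * R ^ (-p) ≤ (X : ℝ) ^ (2 - p) := by
        rw [← Real.rpow_add hR0]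
        have : (2 : ℝ) + -p = 2 - p := by ring
        rw [this]
        exact Real.rpow_le_rpow hR0.le hνX (by linarith)
      have h6 : R ^ (2 : ℝ) = R ^ 2 := by exact_mod_cast Real.rpow_natCast R 2
      rw [h6] at h5
      have h7 : (X : ℝ) ^ ((2 * η - c) * p + 2 - p) = (X : ℝ) ^ ((2 * η - c) * p) * (X : ℝ) ^ (2 - p) := by
        rw [← Real.rpow_add hX0]; congr 1; ring
      rw [h4, h7]
      calc (S.card : ℝ) * (C1 ^ p * ((X : ℝ) ^ ((2 * η - c) * p) * R ^ (-p)))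
          ≤ (12 * (2 * R) ^ 2) * (C1 ^ p * ((X : ℝ) ^ ((2 * η - c) * p) * R ^ (-p))) :=
            mul_le_mul_of_nonneg_right hcard (by positivity)
        _ = 48 * C1 ^ p * (X : ℝ) ^ ((2 * η - c) * p) * (R ^ 2 * R ^ (-p)) := by ring
        _ ≤ 48 * C1 ^ p * (X : ℝ) ^ ((2 * η - c) * p) * (X : ℝ) ^ (2 - p) :=
            mul_le_mul_of_nonneg_left h5 (by positivity)
        _ = _ := by ring)
    refine h1.trans ?_
    have h2 := hlev X hX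
    calc ((Nat.log 2 (X ^ (κ + 1)) + 2 : ℕ) : ℝ) * (48 * C1 ^ p * (X : ℝ) ^ ((2 * η - c) * p + 2 - p))
        ≤ (C3 * (X : ℝ) ^ δ) * (48 * C1 ^ p * (X : ℝ) ^ ((2 * η - c) * p + 2 - p)) :=
          mul_le_mul_of_nonneg_right h2 (by positivity)
      _ = C3 * (48 * C1 ^ p) * (X : ℝ) ^ ((2 * η - c) * p + 2 - p + δ) := by
          rw [Real.rpow_add hX0 ((2 * η - c) * p + 2 - p) δ]; ring
      _ ≤ _ := mul_le_mul_of_nonneg_left hE (by positivity)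
  have hpartB : ∑ a ∈ M2, V a ^ p ≤ C1 ^ (p - 1) * C2 * (X : ℝ) ^ (-e) := by
    have hterm : ∀ a ∈ M2, V a ^ p ≤ C1 ^ (p - 1) * ((X : ℝ) ^ (2 * η - c) / X) ^ (p - 1) * V a := by
      intro a ha
      rw [hM2, Finset.mem_filter, not_le] at ha
      have h1 := (lev_facts (κ + 1) X hX4 M hM a ha.1).1
      have h2 := lev_minor (κ + 1) X ((a : ℝ) / (X : ℝ) ^ (κ + 1)) h1
      have h3 := hpt' a ha.1 X hXR le_rfl (h2.mono ha.2.le)
      rcases (hV0 a).eq_or_lt with h4 | h4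
      · rw [← h4, Real.zero_rpow (by linarith), mul_zero]
      · have h5 : V a ^ p = V a ^ (p - 1) * V a := by
          have := Real.rpow_add h4 (p - 1) 1
          rw [Real.rpow_one, sub_add_cancel] at this
          exact this
        rw [h5]
        refine mul_le_mul_of_nonneg_right ?_ h4.le
        rw [← Real.mul_rpow (by linarith) (by positivity)]
        exact Real.rpow_le_rpow h4.le h3 (by linarith)
    refine (Finset.sum_le_sum hterm).trans ?_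
    rw [← Finset.mul_sum]
    have h1 : ∑ a ∈ M2, V a ≤ ∑ a ∈ range (X ^ (κ + 1)), V a := by
      refine Finset.sum_le_sum_of_subset_of_nonneg ?_ fun a _ _ => hV0 a
      intro a ha
      rw [hM2, Finset.mem_filter] at ha
      exact Finset.mem_range.2 (hM a ha.1).1
    have h2 := hsum X hX Q hQb.1 hQb.2
    have h3 : ∑ a ∈ range (X ^ (κ + 1)), V a ≤ C2 * ((X : ℝ) ^ (1 + 2 * η) / Q) := by
      rw [← mul_div_assoc, le_div_iff₀ hQ0, hV]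
      exact h2
    have h4 : ((X : ℝ) ^ (2 * η - c) / X) ^ (p - 1) * ((X : ℝ) ^ (1 + 2 * η) / Q) =
        (X : ℝ) ^ ((2 * η - c) * p + 2 - p) := by
      have e1 : (X : ℝ) ^ (2 * η - c) / X = (X : ℝ) ^ (2 * η - c - 1) := by
        rw [Real.rpow_sub hX0 (2 * η - c) 1, Real.rpow_one]
      rw [e1, hQ, ← Real.rpow_sub hX0, ← Real.rpow_mul hX0.le, ← Real.rpow_add hX0]
      congr 1
      ring
    calc C1 ^ (p - 1) * ((X : ℝ) ^ (2 * η - c) / X) ^ (p - 1) * ∑ a ∈ M2, V a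
        ≤ C1 ^ (p - 1) * ((X : ℝ) ^ (2 * η - c) / X) ^ (p - 1) * (C2 * ((X : ℝ) ^ (1 + 2 * η) / Q)) :=
          mul_le_mul_of_nonneg_left (h1.trans h3) (by positivity)
      _ = C1 ^ (p - 1) * C2 * (((X : ℝ) ^ (2 * η - c) / X) ^ (p - 1) * ((X : ℝ) ^ (1 + 2 * η) / Q)) := by ring
      _ = C1 ^ (p - 1) * C2 * (X : ℝ) ^ ((2 * η - c) * p + 2 - p) := by rw [h4]
      _ ≤ _ := mul_le_mul_of_nonneg_left hE' (by positivity)
  rw [add_mul]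
  exact add_le_add hpartA hpartB

end Pool.Agent.helper132_h
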