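import Pool.Agent.helper132_h.H18

/-! The minor sum. -/

namespace Pool.Agent.helper132_h

open Finset Pool.Agent.helper132_sph Pool.Agent.helper132_poly Pool.Agent.helper132_quad

/-- sum of the bad parts. -/
theorem Vb_minor (κ m : ℕ) (hκ : 2 ≤ κ) (hm : κ + 1 ≤ m) (e : ℝ) (he : e = 1 / (6 * ((κ + 1 : ℕ) : ℝ))) :
    ∃ C : ℝ, 1 ≤ C ∧ ∀ X : ℕ, 4 ≤ X → ∀ M : Finset ℕ, Mset (κ + 1) X M →
      ∑ a ∈ M, Vb κ m X ((a : ℝ) / (X : ℝ) ^ (κ + 1)) ((X : ℝ) ^ c1 (κ + 1)) ^ (((κ + 1 : ℕ) : ℝ) + e) ≤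
        C * (X : ℝ) ^ (-e) := by
  classical
  obtain ⟨k, hk⟩ : ∃ k : ℝ, k = ((κ + 1 : ℕ) : ℝ) := ⟨_, rfl⟩
  have hκR : (2 : ℝ) ≤ κ := by exact_mod_cast hκ
  have hk3 : 3 ≤ k := by rw [hk]; push_cast; linarith
  rw [← hk] at he ⊢
  have he0 : 0 < e := by rw [he]; positivity
  have he18 : e ≤ 1 / 18 := by
    rw [he, div_le_div_iff₀ (by positivity) (by norm_num)]; linarith
  obtain ⟨C2, hC2, hb⟩ := Vb_bound κ m hκ hm
  obtain ⟨C3, hC3, hlev⟩ := num_lev (κ + 1) (1 / 24) (by norm_num)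
  have hC2p : 1 ≤ C2 ^ (k + e) := Real.one_le_rpow hC2 (by linarith)
  have h2p : 1 ≤ (2 : ℝ) ^ (k + e) := Real.one_le_rpow (by norm_num) (by linarith)
  refine ⟨(2 ^ (k + e) * C2 ^ (k + e)) * (C3 * 96 + 1), ?_, ?_⟩
  · have h1 : (1 : ℝ) ≤ 2 ^ (k + e) * C2 ^ (k + e) := one_le_mul_of_one_le_of_one_le h2p hC2p
    have h2 : (1 : ℝ) ≤ C3 * 96 + 1 := by linarith
    exact one_le_mul_of_one_le_of_one_le h1 h2
  intro X hX4 M hM
  have hX : 1 ≤ X := by omega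
  have hXR : (1 : ℝ) ≤ X := by exact_mod_cast hX
  have hX0 : (0 : ℝ) < X := by linarith
  obtain ⟨r, hr⟩ : ∃ r : ℕ → ℝ, r = fun a : ℕ => (2 : ℝ) ^ (lev (κ + 1) X ((a : ℝ) / (X : ℝ) ^ (κ + 1)) - 1) := ⟨_, rfl⟩
  have hr1 : ∀ a, 1 ≤ r a := by intro a; rw [hr]; exact one_le_pow₀ (by norm_num)
  have hterm : ∀ a ∈ M, Vb κ m X ((a : ℝ) / (X : ℝ) ^ (κ + 1)) ((X : ℝ) ^ c1 (κ + 1)) ^ (k + e) ≤
      (2 ^ (k + e) * C2 ^ (k + e)) * (r a ^ (-(5 / 2) : ℝ) + (X : ℝ) ^ (-(k + e))) := by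
    intro a ha
    have h1 := (lev_facts (κ + 1) X hX4 M hM a ha).1
    have h2 := lev_minor (κ + 1) X ((a : ℝ) / (X : ℝ) ^ (κ + 1)) h1
    have h3 := hb X hX ((a : ℝ) / (X : ℝ) ^ (κ + 1)) (r a) (hr1 a) (by rw [hr]; exact h2)
    have hra0 : 0 < r a := by linarith [hr1 a]
    have h4 := Vb_nonneg κ m X ((a : ℝ) / (X : ℝ) ^ (κ + 1)) ((X : ℝ) ^ c1 (κ + 1))
    refine (Real.rpow_le_rpow h4 h3 (by linarith)).trans ?_
    rw [← hk, Real.mul_rpow (by linarith) (by positivity)]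
    have h5 := add_rpow_le (r a ^ (-(5 / (2 * k)))) (1 / X) (k + e) (by positivity) (by positivity) (by linarith)
    have h6 : (r a ^ (-(5 / (2 * k)))) ^ (k + e) ≤ r a ^ (-(5 / 2) : ℝ) := by
      rw [← Real.rpow_mul hra0.le]
      refine Real.rpow_le_rpow_of_exponent_le (hr1 a) ?_
      have e1 : -(5 / (2 * k)) * (k + e) = -(5 / 2) - 5 / (2 * k) * e := by field_simp; ring
      rw [e1]
      have : 0 ≤ 5 / (2 * k) * e := by positivity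
      linarith
    have h7 : (1 / (X : ℝ)) ^ (k + e) = (X : ℝ) ^ (-(k + e)) := by
      rw [one_div, Real.inv_rpow hX0.le, Real.rpow_neg hX0.le]
    rw [h7] at h5
    calc C2 ^ (k + e) * (r a ^ (-(5 / (2 * k))) + 1 / X) ^ (k + e)
        ≤ C2 ^ (k + e) * (2 ^ (k + e) * ((r a ^ (-(5 / (2 * k)))) ^ (k + e) + (X : ℝ) ^ (-(k + e)))) :=
          mul_le_mul_of_nonneg_left h5 (by positivity)
      _ ≤ C2 ^ (k + e) * (2 ^ (k + e) * (r a ^ (-(5 / 2) : ℝ) + (X : ℝ) ^ (-(k + e)))) := by gcongr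
      _ = _ := by ring
  refine (Finset.sum_le_sum hterm).trans ?_
  rw [← Finset.mul_sum, Finset.sum_add_distrib]
  have e0 : 2 ^ (k + e) * C2 ^ (k + e) * (C3 * 96 + 1) * (X : ℝ) ^ (-e) =
      (2 ^ (k + e) * C2 ^ (k + e)) * ((C3 * 96 + 1) * (X : ℝ) ^ (-e)) := by ring
  rw [e0]
  refine mul_le_mul_of_nonneg_left ?_ (by positivity)
  have hpos : (0 : ℝ) ≤ 96 * (X : ℝ) ^ (-(1 / 4) : ℝ) := by positivity
  have hA : ∑ a ∈ M, r a ^ (-(5 / 2) : ℝ) ≤ C3 * 96 * (X : ℝ) ^ (-e) := by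
    have h1 := level_sum (κ + 1) X M (fun a => r a ^ (-(5 / 2) : ℝ)) (96 * (X : ℝ) ^ (-(1 / 4) : ℝ)) (by
      intro ν
      obtain ⟨S, hS⟩ : ∃ S, S = M.filter (fun a : ℕ => lev (κ + 1) X ((a : ℝ) / (X : ℝ) ^ (κ + 1)) = ν) := ⟨_, rfl⟩
      rw [← hS]
      rcases S.eq_empty_or_nonempty with h0 | ⟨a0, ha0⟩
      · rw [h0, Finset.sum_empty]; exact hpos
      have hSM : ∀ a ∈ S, a ∈ M ∧ lev (κ + 1) X ((a : ℝ) / (X : ℝ) ^ (κ + 1)) = ν := by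
        intro a ha
        rw [hS, Finset.mem_filter] at ha
        exact ha
      obtain ⟨hν1, hνX⟩ : 1 ≤ ν ∧ (X : ℝ) ^ ((1 : ℝ) / 2) / 4 ≤ 2 ^ (ν - 1) := by
        obtain ⟨h1, h2⟩ := hSM a0 ha0
        have := lev_facts (κ + 1) X hX4 M hM a0 h1
        rwa [h2] at this
      obtain ⟨R, hR⟩ : ∃ R : ℝ, R = 2 ^ (ν - 1) := ⟨_, rfl⟩
      have hR1 : 1 ≤ R := by rw [hR]; exact one_le_pow₀ (by norm_num)
      have hR0 : 0 < R := by linarith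
      rw [← hR] at hνX
      have h2ν : (2 : ℝ) ^ ν = 2 * R := by
        rw [hR, ← pow_succ']; congr 1; omega
      have hcard := card_arc (κ + 1) X hX ν S (by
        intro a ha
        obtain ⟨h1, h2⟩ := hSM a ha
        refine ⟨(hM a h1).1, ?_⟩
        have := lev_in (κ + 1) X ((a : ℝ) / (X : ℝ) ^ (κ + 1))
        rwa [h2] at this)
      rw [h2ν] at hcard
      have hterm2 : ∀ a ∈ S, r a ^ (-(5 / 2) : ℝ) ≤ R ^ (-(5 / 2) : ℝ) := by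
        intro a ha
        have h2 := (hSM a ha).2
        have h3 : r a = R := by rw [hr]; beta_reduce; rw [h2, hR]
        rw [h3]
      refine (Finset.sum_le_sum hterm2).trans ?_
      rw [Finset.sum_const, nsmul_eq_mul]
      have h5 : R ^ (2 : ℝ) * R ^ (-(5 / 2) : ℝ) ≤ 2 * (X : ℝ) ^ (-(1 / 4) : ℝ) := by
        rw [← Real.rpow_add hR0]
        have e1 : (2 : ℝ) + -(5 / 2) = -(1 / 2) := by norm_num
        rw [e1]
        have h6 : R ^ (-(1 / 2) : ℝ) ≤ ((X : ℝ) ^ ((1 : ℝ) / 2) / 4) ^ (-(1 / 2) : ℝ) :=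
          Real.rpow_le_rpow_of_nonpos (by positivity) hνX (by norm_num)
        refine h6.trans (le_of_eq ?_)
        rw [Real.div_rpow (by positivity) (by norm_num), ← Real.rpow_mul hX0.le]
        have e2 : (1 : ℝ) / 2 * -(1 / 2) = -(1 / 4) := by norm_num
        have e3 : (4 : ℝ) ^ (-(1 / 2) : ℝ) = 1 / 2 := by
          have : (4 : ℝ) = 2 ^ (2 : ℝ) := by norm_num
          rw [this, ← Real.rpow_mul (by norm_num)]
          have e4 : (2 : ℝ) * -(1 / 2) = -1 := by norm_num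
          rw [e4, Real.rpow_neg_one]; norm_num
        rw [e2, e3]
        ring
      have h6 : R ^ (2 : ℝ) = R ^ 2 := by exact_mod_cast Real.rpow_natCast R 2
      rw [h6] at h5
      calc (S.card : ℝ) * R ^ (-(5 / 2) : ℝ) ≤ (12 * (2 * R) ^ 2) * R ^ (-(5 / 2) : ℝ) :=
            mul_le_mul_of_nonneg_right hcard (by positivity)
        _ = 48 * (R ^ 2 * R ^ (-(5 / 2) : ℝ)) := by ring
        _ ≤ 48 * (2 * (X : ℝ) ^ (-(1 / 4) : ℝ)) := mul_le_mul_of_nonneg_left h5 (by norm_num)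
        _ = _ := by ring)
    refine h1.trans ?_
    have h2 := hlev X hX
    have h3 : (X : ℝ) ^ ((1 : ℝ) / 24) * (X : ℝ) ^ (-(1 / 4) : ℝ) ≤ (X : ℝ) ^ (-e) := by
      rw [← Real.rpow_add hX0]
      exact Real.rpow_le_rpow_of_exponent_le hXR (by linarith)
    calc ((Nat.log 2 (X ^ (κ + 1)) + 2 : ℕ) : ℝ) * (96 * (X : ℝ) ^ (-(1 / 4) : ℝ))
        ≤ (C3 * (X : ℝ) ^ ((1 : ℝ) / 24)) * (96 * (X : ℝ) ^ (-(1 / 4) : ℝ)) :=
          mul_le_mul_of_nonneg_right h2 (by positivity)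
      _ = C3 * 96 * ((X : ℝ) ^ ((1 : ℝ) / 24) * (X : ℝ) ^ (-(1 / 4) : ℝ)) := by ring
      _ ≤ _ := mul_le_mul_of_nonneg_left h3 (by positivity)
  have hB : ∑ _a ∈ M, (X : ℝ) ^ (-(k + e)) ≤ 1 * (X : ℝ) ^ (-e) := by
    rw [Finset.sum_const, nsmul_eq_mul, one_mul]
    have h1 : (M.card : ℝ) ≤ (X : ℝ) ^ (κ + 1) := by
      have h2 : M ⊆ range (X ^ (κ + 1)) := by
        intro a ha
        exact Finset.mem_range.2 (hM a ha).1
      have h3 := Finset.card_le_card h2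
      rw [Finset.card_range] at h3
      exact_mod_cast h3
    calc (M.card : ℝ) * (X : ℝ) ^ (-(k + e)) ≤ (X : ℝ) ^ (κ + 1) * (X : ℝ) ^ (-(k + e)) :=
          mul_le_mul_of_nonneg_right h1 (by positivity)
      _ = (X : ℝ) ^ (-e) := by
          rw [← Real.rpow_natCast (X : ℝ) (κ + 1), ← hk, ← Real.rpow_add hX0]
          congr 1
          ring
  calc _ ≤ C3 * 96 * (X : ℝ) ^ (-e) + 1 * (X : ℝ) ^ (-e) := add_le_add hA hB
    _ = _ := by ring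

/-- the sum over the minor frequencies. -/
theorem minor_new (κ s m : ℕ) (hκ : 2 ≤ κ) (hs : 1 ≤ s) (hms : m * κ = 2 * s) (hm : κ + 1 ≤ m) (CJ : ℝ) (hCJ : 1 ≤ CJ)
    (hJ : MVT κ s (1 / (48 * (κ : ℝ))) CJ) (e : ℝ) (he : e = 1 / (6 * ((κ + 1 : ℕ) : ℝ))) :
    ∃ C : ℝ, 1 ≤ C ∧ ∀ (X : ℕ) (M : Finset ℕ), 1 ≤ X → Mset (κ + 1) X M →
      ∑ a ∈ M, Dl (κ + 1) m X ((a : ℝ) / (X : ℝ) ^ (κ + 1)) ^ (((κ + 1 : ℕ) : ℝ) + e) ≤ C * (X : ℝ) ^ (-e) := by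
  classical
  obtain ⟨k, hk⟩ : ∃ k : ℝ, k = ((κ + 1 : ℕ) : ℝ) := ⟨_, rfl⟩
  have hκR : (2 : ℝ) ≤ κ := by exact_mod_cast hκ
  have hκ0 : (0 : ℝ) < κ := by linarith
  have hk3 : 3 ≤ k := by rw [hk]; push_cast; linarith
  obtain ⟨p, hp⟩ : ∃ p : ℝ, p = (((κ + 1 : ℕ) : ℝ) + e) / κ := ⟨_, rfl⟩
  obtain ⟨CA, hCA, hA⟩ := Vg_minor κ s hκ hs CJ hCJ hJ p e he hp
  obtain ⟨CB, hCB, hB⟩ := Vb_minor κ m hκ hm e he
  rw [← hk] at he hp hB ⊢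
  have he0 : 0 < e := by rw [he]; positivity
  have he1 : e ≤ 1 := by
    rw [he, div_le_one (by positivity)]
    linarith
  have hp0 : 0 < p := by rw [hp]; positivity
  have h2p : 1 ≤ (2 : ℝ) ^ (k + e) := Real.one_le_rpow (by norm_num) (by linarith)
  have h4p : (1 : ℝ) ≤ 4 ^ (κ + 1) := one_le_pow₀ (by norm_num)
  refine ⟨2 ^ (k + e) * (2 ^ (k + e) * CA + CB) + 4 ^ (κ + 1) * 2 ^ (k + e) * 4, ?_, ?_⟩
  · have h1 : (1 : ℝ) ≤ 4 ^ (κ + 1) * 2 ^ (k + e) := one_le_mul_of_one_le_of_one_le h4p h2p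
    have h2 : (0 : ℝ) ≤ 2 ^ (k + e) * (2 ^ (k + e) * CA + CB) := by positivity
    linarith
  intro X M hX hM
  have hXR : (1 : ℝ) ≤ X := by exact_mod_cast hX
  have hX0 : (0 : ℝ) < X := by linarith
  have hXe : 0 < (X : ℝ) ^ (-e) := by positivity
  rcases lt_or_ge X 4 with hX4 | hX4
  · -- trivial bound
    have h1 : ∀ a ∈ M, Dl (κ + 1) m X ((a : ℝ) / (X : ℝ) ^ (κ + 1)) ^ (k + e) ≤ 2 ^ (k + e) := fun a _ =>
      Real.rpow_le_rpow (Dl_nonneg _ _ _ _) (Dl_le_two _ _ _ _ hX) (by linarith)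
    refine (Finset.sum_le_sum h1).trans ?_
    rw [Finset.sum_const, nsmul_eq_mul]
    have h2 : (M.card : ℝ) ≤ 4 ^ (κ + 1) := by
      have h3 : M ⊆ range (4 ^ (κ + 1)) := by
        intro a ha
        refine Finset.mem_range.2 (lt_of_lt_of_le (hM a ha).1 ?_)
        exact Nat.pow_le_pow_left (by omega) _
      have h4 := Finset.card_le_card h3
      rw [Finset.card_range] at h4
      exact_mod_cast h4
    have h5 : 1 ≤ 4 * (X : ℝ) ^ (-e) := by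
      have h6 : (4 : ℝ) ^ (-e) ≤ (X : ℝ) ^ (-e) :=
        Real.rpow_le_rpow_of_nonpos hX0 (by exact_mod_cast hX4.le) (by linarith)
      have h7 : (4 : ℝ) ^ (-1 : ℝ) ≤ 4 ^ (-e) := Real.rpow_le_rpow_of_exponent_le (by norm_num) (by linarith)
      rw [Real.rpow_neg_one] at h7
      have : (4 : ℝ)⁻¹ = 1 / 4 := by norm_num
      linarith
    have h8 : 0 ≤ 2 ^ (k + e) * (2 ^ (k + e) * CA + CB) * (X : ℝ) ^ (-e) := by positivity
    calc (M.card : ℝ) * 2 ^ (k + e) ≤ 4 ^ (κ + 1) * 2 ^ (k + e) := mul_le_mul_of_nonneg_right h2 (by positivity)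
      _ = 4 ^ (κ + 1) * 2 ^ (k + e) * 1 := by ring
      _ ≤ 4 ^ (κ + 1) * 2 ^ (k + e) * (4 * (X : ℝ) ^ (-e)) := mul_le_mul_of_nonneg_left h5 (by positivity)
      _ ≤ (2 ^ (k + e) * (2 ^ (k + e) * CA + CB) + 4 ^ (κ + 1) * 2 ^ (k + e) * 4) * (X : ℝ) ^ (-e) := by linarith
  · have hterm : ∀ a ∈ M, Dl (κ + 1) m X ((a : ℝ) / (X : ℝ) ^ (κ + 1)) ^ (k + e) ≤
        2 ^ (k + e) * (2 ^ (k + e) * Vg κ (2 * s) X ((a : ℝ) / (X : ℝ) ^ (κ + 1)) ((X : ℝ) ^ c1 (κ + 1)) ^ p +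
          Vb κ m X ((a : ℝ) / (X : ℝ) ^ (κ + 1)) ((X : ℝ) ^ c1 (κ + 1)) ^ (k + e)) := by
      intro a _
      obtain ⟨α, hα⟩ : ∃ α : ℝ, α = (a : ℝ) / (X : ℝ) ^ (κ + 1) := ⟨_, rfl⟩
      obtain ⟨Q, hQ⟩ : ∃ Q : ℝ, Q = (X : ℝ) ^ c1 (κ + 1) := ⟨_, rfl⟩
      rw [← hα, ← hQ, Dl_split κ m X α Q]
      refine (add_rpow_le _ _ (k + e) (Vg_nonneg _ _ _ _ _) (Vb_nonneg _ _ _ _ _) (by linarith)).trans ?_
      refine mul_le_mul_of_nonneg_left ?_ (by positivity)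
      refine add_le_add ?_ le_rfl
      have h1 := Vg_root κ m X (by omega) hX α Q
      rw [hms] at h1
      have hV0 := Vg_nonneg κ (2 * s) X α Q
      refine (Real.rpow_le_rpow (Vg_nonneg _ _ _ _ _) h1 (by linarith)).trans (le_of_eq ?_)
      rw [Real.mul_rpow (by norm_num) (by positivity), ← Real.rpow_mul hV0, hp]
      congr 2
      ring
    refine (Finset.sum_le_sum hterm).trans ?_
    rw [← Finset.mul_sum, Finset.sum_add_distrib, ← Finset.mul_sum]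
    have h1 := hA X hX4 M hM
    have h2 := hB X hX4 M hM
    have h3 : 0 ≤ 4 ^ (κ + 1) * 2 ^ (k + e) * 4 * (X : ℝ) ^ (-e) := by positivity
    calc _ ≤ 2 ^ (k + e) * (2 ^ (k + e) * (CA * (X : ℝ) ^ (-e)) + CB * (X : ℝ) ^ (-e)) := by gcongr
      _ ≤ (2 ^ (k + e) * (2 ^ (k + e) * CA + CB) + 4 ^ (κ + 1) * 2 ^ (k + e) * 4) * (X : ℝ) ^ (-e) := by linarith

end Pool.Agent.helper132_h
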