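import Pool.Agent.helper132_h.H1

/-! Complete sums modulo prime powers: stationary phase. -/

namespace Pool.Agent.helper132_h

open Finset Polynomial Pool.Agent.helper132_sph Pool.Agent.helper132_poly

lemma ec_eq_one {x : ℝ} (h : ec x = 1) : ∃ n : ℤ, x = n := by
  unfold ec at h
  rw [Complex.exp_eq_one_iff] at h
  obtain ⟨n, hn⟩ := h
  refine ⟨n, ?_⟩
  have h1 : ((2 * Real.pi * x : ℝ) : ℂ) = ((2 * Real.pi * n : ℝ) : ℂ) := by
    have h2 : ((2 * Real.pi * x : ℝ) : ℂ) * Complex.I = ((2 * Real.pi * n : ℝ) : ℂ) * Complex.I := by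
      rw [hn]; push_cast; ring
    exact mul_right_cancel₀ Complex.I_ne_zero h2
  have h3 := Complex.ofReal_injective h1
  have hpi := Real.pi_pos
  have : 2 * Real.pi * (x - n) = 0 := by linarith
  rcases mul_eq_zero.1 this with h4 | h4
  · exfalso; linarith
  · linarith

lemma geom_ndvd (P : ℕ) (hP : 1 ≤ P) (w : ℤ) (h : ¬ (P : ℤ) ∣ w) :
    ∑ a ∈ range P, ec ((a : ℝ) * ((w : ℝ) / P)) = 0 := by
  have hPR : (P : ℝ) ≠ 0 := by exact_mod_cast (by omega : P ≠ 0)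
  have h1 : ∀ a ∈ range P, ec ((a : ℝ) * ((w : ℝ) / P)) = ec ((w : ℝ) / P) ^ a := fun a _ => ec_nat_mul a _
  rw [Finset.sum_congr rfl h1]
  have h2 : ec ((w : ℝ) / P) ≠ 1 := by
    intro h3
    obtain ⟨n, hn⟩ := ec_eq_one h3
    apply h
    refine ⟨n, ?_⟩
    have : (w : ℝ) = P * n := by
      rw [div_eq_iff hPR] at hn
      linarith
    exact_mod_cast this
  have h3 := mul_geom_sum (ec ((w : ℝ) / P)) P
  have h4 : ec ((w : ℝ) / P) ^ P = 1 := by
    rw [← ec_nat_mul]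
    have : (P : ℝ) * ((w : ℝ) / P) = w := by field_simp
    rw [this, ec_int]
  rw [h4, sub_self] at h3
  rcases mul_eq_zero.1 h3 with h5 | h5
  · exact absurd (sub_eq_zero.1 h5) h2
  · exact h5

lemma sum_range_split (a b : ℕ) (F : ℕ → ℂ) :
    ∑ n ∈ range (a * b), F n = ∑ u ∈ range a, ∑ v ∈ range b, F (u + a * v) := by
  induction b with
  | zero => simp
  | succ b ih =>
    rw [Nat.mul_succ, Finset.sum_range_add, ih]
    simp only [Finset.sum_range_succ]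
    rw [Finset.sum_add_distrib]
    congr 1
    refine Finset.sum_congr rfl fun u _ => ?_
    rw [add_comm]

lemma prim_part (p : ℕ) (hp : p.Prime) (h : ℤ[X]) (h0 : h ≠ 0) :
    ∃ (τ : ℕ) (g : ℤ[X]), h = C ((p : ℤ) ^ τ) * g ∧ ∃ j, ¬ (p : ℤ) ∣ g.coeff j := by
  have hpu : ¬ IsUnit (C (p : ℤ) : ℤ[X]) := by
    rw [Polynomial.isUnit_C, Int.isUnit_iff]
    have := hp.two_le
    omega
  obtain ⟨g, hg, hgn⟩ := (FiniteMultiplicity.of_not_isUnit hpu h0).exists_eq_pow_mul_and_not_dvd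
  refine ⟨multiplicity (C (p : ℤ)) h, g, ?_, ?_⟩
  · rw [Polynomial.C_pow]; exact hg
  · by_contra hcon
    push Not at hcon
    exact hgn ((Polynomial.C_dvd_iff_dvd_coeff _ _).2 hcon)

/-- stationary phase. -/
lemma cs_stat (p : ℕ) (hp : p.Prime) (i s : ℕ) (hsi : s ≤ i) (f : ℤ[X]) :
    ‖cs (p ^ (i + s)) f‖ ≤ (p : ℝ) ^ s *
      (((range (p ^ i)).filter (fun u => (p : ℤ) ^ s ∣ f.derivative.eval ((u : ℕ) : ℤ))).card : ℝ) := by
  classical
  have hpR : (0 : ℝ) < p := by exact_mod_cast hp.pos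
  have hps : 1 ≤ p ^ s := Nat.one_le_pow _ _ hp.pos
  have hpis : 1 ≤ p ^ (i + s) := Nat.one_le_pow _ _ hp.pos
  unfold cs
  have e1 : p ^ (i + s) = p ^ i * p ^ s := pow_add _ _ _
  have e2 : ∑ n ∈ range (p ^ (i + s)), ec (((f.eval ((n : ℕ) : ℤ) : ℤ) : ℝ) / ((p ^ (i + s) : ℕ) : ℝ)) =
      ∑ u ∈ range (p ^ i), ∑ v ∈ range (p ^ s),
        ec (((f.eval (((u + p ^ i * v : ℕ)) : ℤ) : ℤ) : ℝ) / ((p ^ (i + s) : ℕ) : ℝ)) := by
    conv_lhs => rw [e1]
    rw [sum_range_split, ← e1]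
  rw [e2]
  have e3 : ∀ u ∈ range (p ^ i), ‖∑ v ∈ range (p ^ s),
        ec (((f.eval (((u + p ^ i * v : ℕ)) : ℤ) : ℤ) : ℝ) / ((p ^ (i + s) : ℕ) : ℝ))‖ ≤
      if (p : ℤ) ^ s ∣ f.derivative.eval ((u : ℕ) : ℤ) then (p : ℝ) ^ s else 0 := by
    intro u _
    have e4 : ∀ v ∈ range (p ^ s), ec (((f.eval (((u + p ^ i * v : ℕ)) : ℤ) : ℤ) : ℝ) / ((p ^ (i + s) : ℕ) : ℝ)) =
        ec (((f.eval ((u : ℕ) : ℤ) : ℤ) : ℝ) / ((p ^ (i + s) : ℕ) : ℝ)) *
          ec ((v : ℝ) * (((f.derivative.eval ((u : ℕ) : ℤ) : ℤ) : ℝ) / ((p ^ s : ℕ) : ℝ))) := by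
      intro v _
      obtain ⟨w, hw⟩ := Polynomial.binomExpansion f ((u : ℕ) : ℤ) (((p : ℤ) ^ i * v))
      have h1 : (((u + p ^ i * v : ℕ)) : ℤ) = (u : ℤ) + (p : ℤ) ^ i * v := by push_cast; ring
      rw [h1]
      rw [ec_div_congr (p ^ (i + s)) hpis _ (f.eval (u : ℤ) + f.derivative.eval (u : ℤ) * ((p : ℤ) ^ i * v)) (by
        rw [hw]
        have : f.eval (u : ℤ) + f.derivative.eval (u : ℤ) * ((p : ℤ) ^ i * v) + w * ((p : ℤ) ^ i * v) ^ 2 -
          (f.eval (u : ℤ) + f.derivative.eval (u : ℤ) * ((p : ℤ) ^ i * v)) = (p : ℤ) ^ (i + i) * (w * v ^ 2) := by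
          rw [pow_add]; ring
        rw [this]
        refine Dvd.dvd.mul_right ?_ _
        push_cast
        exact pow_dvd_pow _ (by omega))]
      rw [← ec_add]
      congr 1
      push_cast
      rw [pow_add]
      field_simp
    rw [Finset.sum_congr rfl e4, ← Finset.mul_sum, norm_mul, norm_ec, one_mul]
    split_ifs with hd
    · refine (norm_sum_le _ _).trans ?_
      simp [norm_ec]
    · rw [geom_ndvd (p ^ s) hps _ (by push_cast; exact hd), norm_zero]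
  refine (norm_sum_le _ _).trans ((Finset.sum_le_sum e3).trans ?_)
  rw [← Finset.sum_filter, Finset.sum_const, nsmul_eq_mul, mul_comm]

/-- complete sums modulo prime powers. -/
lemma cs_pp (κ : ℕ) (hκ : 1 ≤ κ) (p : ℕ) (hp : p.Prime) (j : ℕ) (hj : 2 ≤ j) (f : ℤ[X])
    (hdeg : f.natDegree ≤ κ) (hgood : ∃ i, 1 ≤ i ∧ ¬ (p : ℤ) ∣ f.coeff i) :
    (‖cs (p ^ j) f‖ / (p : ℝ) ^ j) ^ (2 * κ - 1) * (p : ℝ) ^ j ≤ (κ : ℝ) ^ (2 * κ + 1) := by
  classical
  have hpR : (0 : ℝ) < p := by exact_mod_cast hp.pos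
  have hpR1 : (1 : ℝ) ≤ p := by exact_mod_cast hp.one_lt.le
  have hκR : (1 : ℝ) ≤ κ := by exact_mod_cast hκ
  obtain ⟨i0, hi0, hi0p⟩ := hgood
  have hi0κ : i0 ≤ κ := by
    by_contra hcon
    push Not at hcon
    apply hi0p
    rw [Polynomial.coeff_eq_zero_of_natDegree_lt (by omega)]
    exact dvd_zero _
  have hcoef : f.derivative.coeff (i0 - 1) = f.coeff i0 * i0 := by
    rw [Polynomial.coeff_derivative, Nat.sub_add_cancel hi0]
    have : (((i0 - 1 : ℕ)) : ℤ) + 1 = i0 := by omega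
    rw [this]
  have hd0 : f.derivative ≠ 0 := by
    intro h0
    rw [h0, Polynomial.coeff_zero] at hcoef
    have h1 : f.coeff i0 ≠ 0 := fun h => hi0p (by rw [h]; exact dvd_zero _)
    have h2 : (i0 : ℤ) ≠ 0 := by omega
    exact mul_ne_zero h1 h2 hcoef.symm
  obtain ⟨τ, g, hg, hgp⟩ := prim_part p hp f.derivative hd0
  have hτ : p ^ τ ≤ κ := by
    have h1 : (p : ℤ) ^ τ ∣ f.coeff i0 * i0 := by
      rw [← hcoef, hg, Polynomial.coeff_C_mul]
      exact Dvd.intro _ rfl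
    have hcop : IsCoprime ((p : ℤ) ^ τ) (f.coeff i0) := by
      refine IsCoprime.pow_left ?_
      exact (Prime.coprime_iff_not_dvd (Nat.prime_iff_prime_int.1 hp)).2 hi0p
    have h2 : (p : ℤ) ^ τ ∣ (i0 : ℤ) := hcop.dvd_of_dvd_mul_left h1
    have h3 : p ^ τ ∣ i0 := by exact_mod_cast h2
    exact (Nat.le_of_dvd (by omega) h3).trans hi0κ
  have hτR : (p : ℝ) ^ τ ≤ κ := by exact_mod_cast hτ
  obtain ⟨s, hs⟩ : ∃ s, s = j / 2 := ⟨_, rfl⟩
  obtain ⟨i, hi⟩ : ∃ i, i = j - s := ⟨_, rfl⟩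
  have hij : j = i + s := by omega
  have hsi : s ≤ i := by omega
  have hs1 : 1 ≤ s := by omega
  have hj2 : j ≤ 2 * s + 1 := by omega
  have hmain := cs_stat p hp i s hsi f
  rw [← hij] at hmain
  have hu1 : ‖cs (p ^ j) f‖ / (p : ℝ) ^ j ≤ 1 := by
    rw [div_le_one (by positivity)]
    have := norm_cs_le (p ^ j) f
    push_cast at this
    exact this
  have hu0 : 0 ≤ ‖cs (p ^ j) f‖ / (p : ℝ) ^ j := by positivity
  rcases le_or_gt s τ with hcase | hcase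
  · have h1 : (p : ℝ) ^ j ≤ κ ^ 3 := by
      calc (p : ℝ) ^ j ≤ (p : ℝ) ^ (2 * s + 1) := pow_le_pow_right₀ hpR1 hj2
        _ ≤ (p : ℝ) ^ (τ * 3) := pow_le_pow_right₀ hpR1 (by omega)
        _ = ((p : ℝ) ^ τ) ^ 3 := pow_mul _ _ _
        _ ≤ (κ : ℝ) ^ 3 := pow_le_pow_left₀ (by positivity) hτR 3
    calc (‖cs (p ^ j) f‖ / (p : ℝ) ^ j) ^ (2 * κ - 1) * (p : ℝ) ^ j ≤ 1 * (κ : ℝ) ^ 3 :=
          mul_le_mul (pow_le_one₀ hu0 hu1) h1 (by positivity) zero_le_one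
      _ = (κ : ℝ) ^ 3 := one_mul _
      _ ≤ _ := pow_le_pow_right₀ hκR (by omega)
  · obtain ⟨t, ht⟩ : ∃ t, t = (s - τ - 1) / (κ - 1) + 1 := ⟨_, rfl⟩
    have ht0 : 1 ≤ t := by rw [ht]; exact Nat.le_add_left _ _
    have ht1 : (κ - 1) * (t - 1) < s - τ := by
      rw [ht, Nat.add_sub_cancel]
      have := Nat.mul_div_le (s - τ - 1) (κ - 1)
      omega
    have htle : t ≤ s - τ := by
      have := Nat.div_le_self (s - τ - 1) (κ - 1)
      omega
    have hdegg : g.natDegree ≤ κ - 1 := by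
      have h1 : f.derivative.natDegree ≤ κ - 1 := (Polynomial.natDegree_derivative_le f).trans (by omega)
      rw [hg, Polynomial.natDegree_C_mul (by
        have : (p : ℤ) ≠ 0 := by exact_mod_cast hp.pos.ne'
        exact pow_ne_zero _ this)] at h1
      exact h1
    have hcr := card_roots p hp (κ - 1) (s - τ) t i g hdegg hgp ht1 (by omega)
    have hsub : ((range (p ^ i)).filter (fun u => (p : ℤ) ^ s ∣ f.derivative.eval ((u : ℕ) : ℤ))).card ≤
        (κ - 1) * p ^ (i - t) := by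
      refine le_trans (Finset.card_le_card ?_) hcr
      intro u hu
      rw [Finset.mem_filter] at hu ⊢
      refine ⟨hu.1, ?_⟩
      have h1 := hu.2
      rw [hg, Polynomial.eval_mul, Polynomial.eval_C] at h1
      have h2 : (p : ℤ) ^ s = (p : ℤ) ^ τ * (p : ℤ) ^ (s - τ) := by rw [← pow_add]; congr 1; omega
      rw [h2] at h1
      refine (mul_dvd_mul_iff_left ?_).1 h1
      have : (p : ℤ) ≠ 0 := by exact_mod_cast hp.pos.ne'
      exact pow_ne_zero _ this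
    have hsubR : (((range (p ^ i)).filter (fun u => (p : ℤ) ^ s ∣ f.derivative.eval ((u : ℕ) : ℤ))).card : ℝ) ≤
        ((κ - 1 : ℕ) : ℝ) * (p : ℝ) ^ (i - t) := by exact_mod_cast hsub
    rcases hκ.eq_or_lt with hκ1 | hκ1
    · rw [← hκ1] at hsubR
      simp only [Nat.sub_self, Nat.cast_zero, zero_mul] at hsubR
      have h0 : ‖cs (p ^ j) f‖ ≤ 0 := by
        refine hmain.trans ?_
        have h1 : (0 : ℝ) ≤ (p : ℝ) ^ s := by positivity
        nlinarith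
      have h1 : ‖cs (p ^ j) f‖ / (p : ℝ) ^ j = 0 := by
        have : ‖cs (p ^ j) f‖ = 0 := le_antisymm h0 (norm_nonneg _)
        rw [this, zero_div]
      rw [h1, zero_pow (by omega), zero_mul]
      positivity
    · have hts : s - τ ≤ (κ - 1) * t := by
        rw [ht]
        have := Nat.lt_mul_div_succ (s - τ - 1) (by omega : 0 < κ - 1)
        have e : (κ - 1) * ((s - τ - 1) / (κ - 1) + 1) = (κ - 1) * ((s - τ - 1) / (κ - 1)) + (κ - 1) := by ring
        rw [e] at this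
        rw [e]
        omega
      have hjt : j ≤ t * (2 * κ - 1) + τ * 2 := by
        have e1 : t * (2 * κ - 1) = 2 * ((κ - 1) * t) + t := by
          obtain ⟨κ', rfl⟩ : ∃ κ', κ = κ' + 1 := ⟨κ - 1, by omega⟩
          have : 2 * (κ' + 1) - 1 = 2 * κ' + 1 := by omega
          rw [this, Nat.add_sub_cancel]; ring
        rw [e1]
        omega
      have hb : ‖cs (p ^ j) f‖ / (p : ℝ) ^ j ≤ κ / (p : ℝ) ^ t := by
        rw [div_le_div_iff₀ (by positivity) (by positivity)]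
        calc ‖cs (p ^ j) f‖ * (p : ℝ) ^ t ≤ ((p : ℝ) ^ s * (((κ - 1 : ℕ) : ℝ) * (p : ℝ) ^ (i - t))) * (p : ℝ) ^ t := by
              refine mul_le_mul_of_nonneg_right (hmain.trans ?_) (by positivity)
              exact mul_le_mul_of_nonneg_left hsubR (by positivity)
          _ = ((κ - 1 : ℕ) : ℝ) * ((p : ℝ) ^ s * (p : ℝ) ^ (i - t) * (p : ℝ) ^ t) := by ring
          _ = ((κ - 1 : ℕ) : ℝ) * (p : ℝ) ^ j := by
              rw [← pow_add, ← pow_add]; congr 2; omega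
          _ ≤ κ * (p : ℝ) ^ j := by
              refine mul_le_mul_of_nonneg_right ?_ (by positivity)
              exact_mod_cast Nat.sub_le _ _
      calc (‖cs (p ^ j) f‖ / (p : ℝ) ^ j) ^ (2 * κ - 1) * (p : ℝ) ^ j
          ≤ (κ / (p : ℝ) ^ t) ^ (2 * κ - 1) * (p : ℝ) ^ (t * (2 * κ - 1) + τ * 2) := by
            refine mul_le_mul (pow_le_pow_left₀ hu0 hb _) (pow_le_pow_right₀ hpR1 hjt) (by positivity)
              (by positivity)
        _ = (κ : ℝ) ^ (2 * κ - 1) * ((p : ℝ) ^ τ) ^ 2 := by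
            rw [div_pow, ← pow_mul, ← pow_mul, pow_add]
            field_simp
        _ ≤ (κ : ℝ) ^ (2 * κ - 1) * (κ : ℝ) ^ 2 := by gcongr
        _ = (κ : ℝ) ^ (2 * κ + 1) := by rw [← pow_add]; congr 1; omega

end Pool.Agent.helper132_h
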