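import Pool.Agent.helper132_h.H6
import Pool.Agent.helper132_sph.Weyl

/-! Sublevel sets and the van der Corput estimate. -/

namespace Pool.Agent.helper132_h

open Finset Polynomial Pool.Agent.helper132_sph Pool.Agent.helper132_poly

lemma fin_gap {n : ℕ} (f : Fin n → ℤ) (hf : StrictMono f) (i : ℕ) : ∀ m : ℕ, ∀ (h1 : i < n) (h2 : i + m < n),
    f ⟨i, h1⟩ + m ≤ f ⟨i + m, h2⟩ := by
  intro m
  induction m with
  | zero => intro h1 h2; simp
  | succ m ih =>
    intro h1 h2
    have h3 := ih h1 (by omega)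
    have h4 : f ⟨i + m, by omega⟩ < f ⟨i + (m + 1), h2⟩ := hf (by
      rw [Fin.mk_lt_mk]; omega)
    push_cast
    omega

/-- sublevel sets of polynomials. -/
lemma sublevel (D : ℕ) (A : ℝ) (x : ℤ → ℝ) (hx : PP D A x) (S : Finset ℤ) (δ : ℝ)
    (hS : ∀ n ∈ S, |x n| ≤ δ) (M : ℕ) (hM : 1 ≤ M) (hcard : D * M + 1 ≤ S.card) :
    |A| * (M : ℝ) ^ D ≤ (D + 1) * δ := by
  classical
  obtain ⟨c, hc⟩ := hx
  have hMR : (1 : ℝ) ≤ M := by exact_mod_cast hM
  have hM0 : (0 : ℝ) < M := by linarith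
  obtain ⟨P, hP⟩ : ∃ P : ℝ[X], P = C A * X ^ D + ∑ j ∈ range D, C (c j) * X ^ j := ⟨_, rfl⟩
  have hsum : (∑ j ∈ range D, C (c j) * X ^ j : ℝ[X]).degree < (D : ℕ) := by
    rw [Polynomial.degree_lt_iff_coeff_zero]
    intro m hm
    rw [Polynomial.finsetSum_coeff]
    refine Finset.sum_eq_zero fun j hj => ?_
    rw [Polynomial.coeff_C_mul, Polynomial.coeff_X_pow, if_neg (by have := Finset.mem_range.1 hj; omega), mul_zero]
  have hdeg : P.degree < ((D + 1 : ℕ) : WithBot ℕ) := by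
    rw [hP]
    refine (Polynomial.degree_add_le _ _).trans_lt (max_lt ?_ ?_)
    · refine (Polynomial.degree_C_mul_X_pow_le D A).trans_lt ?_
      exact_mod_cast Nat.lt_succ_self D
    · refine hsum.trans ?_
      exact_mod_cast Nat.lt_succ_self D
  have hcoef : P.coeff D = A := by
    rw [hP, Polynomial.coeff_add, Polynomial.coeff_C_mul, Polynomial.coeff_X_pow_self, mul_one,
      Polynomial.coeff_eq_zero_of_degree_lt hsum, add_zero]
  have heval : ∀ n : ℤ, P.eval (n : ℝ) = x n := by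
    intro n
    have h1 := hc n
    rw [hP]
    simp only [Polynomial.eval_add, Polynomial.eval_mul, Polynomial.eval_C, Polynomial.eval_pow, Polynomial.eval_X,
      Polynomial.eval_finsetSum]
    rw [← h1]
    ring
  obtain ⟨e, he⟩ : ∃ e : Fin S.card → ℤ, e = S.orderEmbOfFin rfl := ⟨_, rfl⟩
  have hemono : StrictMono e := by rw [he]; exact (S.orderEmbOfFin rfl).strictMono
  have hemem : ∀ i, e i ∈ S := by intro i; rw [he]; exact Finset.orderEmbOfFin_mem S rfl i
  have hidx : ∀ i : Fin (D + 1), (i : ℕ) * M < S.card := by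
    intro i
    have h1 : (i : ℕ) ≤ D := by omega
    have h2 : (i : ℕ) * M ≤ D * M := Nat.mul_le_mul_right _ h1
    omega
  obtain ⟨v, hv⟩ : ∃ v : Fin (D + 1) → ℤ, v = fun (i : Fin (D + 1)) => e ⟨(i : ℕ) * M, hidx i⟩ := ⟨_, rfl⟩
  have hgap : ∀ i j : Fin (D + 1), i < j → v i + M ≤ v j := by
    intro i j hij
    rw [hv]
    beta_reduce
    have h1 : (i : ℕ) + 1 ≤ j := hij
    have h2 : (i : ℕ) * M + M ≤ (j : ℕ) * M := by
      calc (i : ℕ) * M + M = ((i : ℕ) + 1) * M := by ring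
        _ ≤ (j : ℕ) * M := Nat.mul_le_mul_right _ h1
    obtain ⟨m, hm⟩ := Nat.exists_eq_add_of_le (show (i : ℕ) * M ≤ (j : ℕ) * M by omega)
    have h3 := fin_gap e hemono ((i : ℕ) * M) m (hidx i) (by rw [← hm]; exact hidx j)
    have h4 : (⟨(j : ℕ) * M, hidx j⟩ : Fin S.card) = ⟨(i : ℕ) * M + m, by rw [← hm]; exact hidx j⟩ := by
      rw [Fin.mk.injEq]; exact hm
    rw [h4]
    have h5 : M ≤ m := by omega
    omega
  have hgap2 : ∀ i j : Fin (D + 1), i ≠ j → (M : ℝ) ≤ |((v i : ℤ) : ℝ) - ((v j : ℤ) : ℝ)| := by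
    intro i j hij
    rcases lt_or_gt_of_ne hij with h | h
    · have h1 := hgap i j h
      have h2 : ((v i : ℤ) : ℝ) + M ≤ ((v j : ℤ) : ℝ) := by exact_mod_cast h1
      rw [abs_sub_comm]
      exact le_trans (by linarith) (le_abs_self _)
    · have h1 := hgap j i h
      have h2 : ((v j : ℤ) : ℝ) + M ≤ ((v i : ℤ) : ℝ) := by exact_mod_cast h1
      exact le_trans (by linarith) (le_abs_self _)
  have hinj : Set.InjOn (fun i : Fin (D + 1) => ((v i : ℤ) : ℝ)) ((Finset.univ : Finset (Fin (D + 1))) : Set (Fin (D + 1))) := by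
    intro i _ j _ hij
    by_contra hne
    have h1 := hgap2 i j hne
    beta_reduce at hij
    rw [hij, sub_self, abs_zero] at h1
    linarith
  have hL := Lagrange.coeff_eq_sum hinj (P := P) (by
    rw [Finset.card_univ, Fintype.card_fin]; exact hdeg)
  rw [Finset.card_univ, Fintype.card_fin, Nat.add_sub_cancel, hcoef] at hL
  have hδ0 : 0 ≤ δ := (abs_nonneg _).trans (hS _ (hemem ⟨0, by omega⟩))
  have hterm : ∀ i ∈ (Finset.univ : Finset (Fin (D + 1))),
      |P.eval ((v i : ℤ) : ℝ) / ∏ j ∈ Finset.univ.erase i, (((v i : ℤ) : ℝ) - ((v j : ℤ) : ℝ))| ≤ δ / (M : ℝ) ^ D := by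
    intro i _
    rw [abs_div, Finset.abs_prod]
    have h1 : |P.eval ((v i : ℤ) : ℝ)| ≤ δ := by
      rw [heval]
      refine hS _ ?_
      rw [hv]; exact hemem _
    have h2 : (M : ℝ) ^ D ≤ ∏ j ∈ Finset.univ.erase i, |((v i : ℤ) : ℝ) - ((v j : ℤ) : ℝ)| := by
      have h3 : ((Finset.univ : Finset (Fin (D + 1))).erase i).card = D := by
        rw [Finset.card_erase_of_mem (Finset.mem_univ _), Finset.card_univ, Fintype.card_fin, Nat.add_sub_cancel]
      calc (M : ℝ) ^ D = ∏ _j ∈ Finset.univ.erase i, (M : ℝ) := by rw [Finset.prod_const, h3]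
        _ ≤ _ := Finset.prod_le_prod (fun _ _ => hM0.le) fun j hj =>
            hgap2 i j (Ne.symm (Finset.ne_of_mem_erase hj))
    exact div_le_div₀ hδ0 h1 (by positivity) h2
  have hA : |A| ≤ (D + 1) * (δ / (M : ℝ) ^ D) := by
    rw [hL]
    refine (Finset.abs_sum_le_sum_abs _ _).trans ((Finset.sum_le_sum hterm).trans (le_of_eq ?_))
    rw [Finset.sum_const, Finset.card_univ, Fintype.card_fin, nsmul_eq_mul]
    push_cast
    ring
  calc |A| * (M : ℝ) ^ D ≤ ((D + 1) * (δ / (M : ℝ) ^ D)) * (M : ℝ) ^ D :=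
        mul_le_mul_of_nonneg_right hA (by positivity)
    _ = (D + 1) * δ := by field_simp

/-- the van der Corput estimate. -/
theorem vdc (D : ℕ) (A : ℝ) (φ : ℤ → ℝ) (a b : ℤ) (hφ : PP (D + 1) A φ)
    (hb : ∀ n ∈ Ico a b, |φ (n + 1) - φ n| ≤ 1 / 2) (hA : |A| ≤ 1) :
    ‖∑ n ∈ Ico a b, ec (φ n)‖ ^ (D + 1) * |A| ≤ (10 * (D : ℝ) + 4) ^ (D + 1) := by
  classical
  rcases eq_or_ne A 0 with hA0 | hA0
  · rw [hA0, abs_zero, mul_zero]; positivity
  have hApos : 0 < |A| := abs_pos.2 hA0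
  obtain ⟨y, hy⟩ : ∃ y : ℝ, y = |A| ^ ((((D + 1 : ℕ) : ℝ))⁻¹) := ⟨_, rfl⟩
  have hy0 : 0 < y := by rw [hy]; positivity
  have hyD : y ^ (D + 1) = |A| := by
    rw [hy]; exact Real.rpow_inv_natCast_pow hApos.le (by omega)
  have hy1 : y ≤ 1 := by
    rw [hy]; exact Real.rpow_le_one hApos.le hA (by positivity)
  obtain ⟨N, hN⟩ : ∃ N : ℕ, N = (b - a).toNat := ⟨_, rfl⟩
  rw [sum_Ico_int, ← hN]
  obtain ⟨ψ, hψ⟩ : ∃ ψ : ℕ → ℝ, ψ = fun i : ℕ => φ (a + i) := ⟨_, rfl⟩
  have hψb : ∀ n < N, |ψ (n + 1) - ψ n| ≤ 1 / 2 := by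
    intro n hn
    have h1 := hb (a + n) (by rw [Finset.mem_Ico]; omega)
    rw [hψ]; beta_reduce
    have e : a + ((n + 1 : ℕ) : ℤ) = a + n + 1 := by push_cast; ring
    rw [e]; exact h1
  have hx : PP D (((D : ℝ) + 1) * ((1 : ℤ) : ℝ) * A) (fun n => φ (n + 1) - φ n) := PP.diff hφ 1
  have hx' := PP.shift hx a
  have hψD : PDn D (fun n => ψ (n + 1) - ψ n) := by
    have h1 := PDn_of_PP D _ _ hx'
    have h2 : (fun n : ℕ => (fun u : ℤ => φ (u + a + 1) - φ (u + a)) (n : ℤ)) = (fun n => ψ (n + 1) - ψ n) := by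
      funext n
      rw [hψ]; beta_reduce
      congr 2
      · push_cast; ring
      · ring
    rw [← h2]; exact h1
  have hψD' : PDn D (fun n => (fun m => - ψ m) (n + 1) - (fun m => - ψ m) n) := by
    have h0 := PP.smul (-1) hx'
    have h1 := PDn_of_PP D _ _ h0
    have h2 : (fun n : ℕ => (fun u : ℤ => -1 * (φ (u + a + 1) - φ (u + a))) (n : ℤ)) =
        (fun n => (fun m => - ψ m) (n + 1) - (fun m => - ψ m) n) := by
      funext n
      rw [hψ]; beta_reduce
      have e1 : ((n : ℕ) : ℤ) + a + 1 = a + ((n + 1 : ℕ) : ℤ) := by push_cast; ring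
      have e2 : ((n : ℕ) : ℤ) + a = a + (n : ℤ) := by ring
      rw [e1, e2]
      ring
    rw [← h2]; exact h1
  obtain ⟨δ, hδ⟩ : ∃ δ : ℝ, δ = y / 2 := ⟨_, rfl⟩
  have hδ0 : 0 < δ := by rw [hδ]; linarith
  have hδ2 : δ ≤ 1 / 2 := by rw [hδ]; linarith
  have hp := plus_part D ψ hψD δ hδ0 hδ2 N (fun n hn => (le_abs_self _).trans (hψb n hn))
  have hm := plus_part D (fun m => - ψ m) hψD' δ hδ0 hδ2 N (fun n hn => by
    beta_reduce
    have := (neg_abs_le (ψ (n + 1) - ψ n))
    linarith [hψb n hn])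
  beta_reduce at hm
  obtain ⟨S0, hS0⟩ : ∃ S0, S0 = (range N).filter (fun n => |ψ (n + 1) - ψ n| < δ) := ⟨_, rfl⟩
  -- number of points with small increments
  have hcount : (S0.card : ℝ) * y ≤ 2 * D := by
    obtain ⟨T, hT⟩ : ∃ T : Finset ℤ, T = S0.image (fun i : ℕ => a + (i : ℤ)) := ⟨_, rfl⟩
    have hTc : T.card = S0.card := by
      rw [hT]
      refine Finset.card_image_of_injective _ ?_
      intro i j hij
      beta_reduce at hij
      omega
    have hTx : ∀ n ∈ T, |(fun n => φ (n + 1) - φ n) n| ≤ δ := by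
      intro n hn
      rw [hT, Finset.mem_image] at hn
      obtain ⟨i, hi, rfl⟩ := hn
      rw [hS0, Finset.mem_filter] at hi
      have h1 := hi.2.le
      rw [hψ] at h1; beta_reduce at h1
      beta_reduce
      have e : a + ((i + 1 : ℕ) : ℤ) = a + i + 1 := by push_cast; ring
      rw [e] at h1
      exact h1
    have hlead : |((D : ℝ) + 1) * ((1 : ℤ) : ℝ) * A| = (D + 1) * |A| := by
      rw [Int.cast_one, mul_one, abs_mul, abs_of_nonneg (show (0 : ℝ) ≤ (D : ℝ) + 1 by positivity)]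
    rcases Nat.eq_zero_or_pos D with hD | hD
    · subst hD
      have : T.card = 0 := by
        by_contra hne
        have h1 := sublevel 0 _ _ hx T δ hTx 1 le_rfl (by omega)
        rw [hlead] at h1
        simp only [Nat.cast_zero, zero_add, one_mul, pow_zero, mul_one] at h1
        rw [← hyD] at h1
        simp only [zero_add, pow_one] at h1
        rw [hδ] at h1
        linarith
      rw [← hTc, this]
      simp
    · obtain ⟨M, hM⟩ : ∃ M, M = (T.card - 1) / D := ⟨_, rfl⟩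
      have hup : T.card ≤ D * (M + 1) := by
        have h1 := Nat.lt_mul_div_succ (T.card - 1) hD
        rw [← hM] at h1
        omega
      have hDR : (1 : ℝ) ≤ D := by exact_mod_cast hD
      have hupR : (S0.card : ℝ) ≤ D * (M + 1) := by rw [← hTc]; exact_mod_cast hup
      have hyM : y * M ≤ 1 := by
        rcases Nat.eq_zero_or_pos M with h0 | h0
        · rw [h0]; simp
        · have hlow : D * M + 1 ≤ T.card := by
            have h1 : D * M ≤ T.card - 1 := by rw [hM]; exact Nat.mul_div_le _ _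
            have h2 : 1 * 1 ≤ D * M := Nat.mul_le_mul hD h0
            omega
          have h1 := sublevel D _ _ hx T δ hTx M h0 hlow
          rw [hlead, ← hyD, hδ] at h1
          have h2 : (y * M) ^ D ≤ 1 ^ D := by
            have h3 : ((D : ℝ) + 1) * y * ((y * M) ^ D) ≤ ((D : ℝ) + 1) * y * (1 / 2) := by
              calc ((D : ℝ) + 1) * y * ((y * M) ^ D) = (D + 1) * y ^ (D + 1) * M ^ D := by
                    rw [mul_pow, pow_succ]; ring
                _ ≤ (D + 1) * (y / 2) := h1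
                _ = _ := by ring
            have h4 := le_of_mul_le_mul_left h3 (by positivity)
            rw [one_pow]; linarith
          exact le_of_pow_le_pow_left₀ (by omega) zero_le_one h2
      calc (S0.card : ℝ) * y ≤ (D * (M + 1)) * y := mul_le_mul_of_nonneg_right hupR hy0.le
        _ = D * (y * M + y) := by ring
        _ ≤ D * (1 + 1) := by
            refine mul_le_mul_of_nonneg_left ?_ (by linarith)
            linarith
        _ = 2 * D := by ring
  -- splitting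
  have hsplit : ∑ i ∈ range N, ec (φ (a + i)) = ∑ i ∈ S0, ec (ψ i) +
      ∑ i ∈ (range N).filter (fun n => δ ≤ ψ (n + 1) - ψ n), ec (ψ i) +
      ∑ i ∈ (range N).filter (fun n => δ ≤ - ψ (n + 1) - - ψ n), ec (ψ i) := by
    rw [hS0, Finset.sum_filter, Finset.sum_filter, Finset.sum_filter, ← Finset.sum_add_distrib,
      ← Finset.sum_add_distrib]
    refine Finset.sum_congr rfl fun i _ => ?_
    have e : ec (φ (a + i)) = ec (ψ i) := by rw [hψ]
    rw [e]
    rcases lt_or_ge |ψ (i + 1) - ψ i| δ with h | h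
    · have h1 := abs_lt.1 h
      rw [if_pos h, if_neg (by linarith), if_neg (by linarith)]
      simp
    · rw [if_neg (by linarith)]
      rcases le_abs.1 h with h1 | h1
      · rw [if_pos h1, if_neg (by linarith)]; simp
      · rw [if_neg (by linarith), if_pos (by linarith)]; simp
  have hconj : ‖∑ i ∈ (range N).filter (fun n => δ ≤ - ψ (n + 1) - - ψ n), ec (ψ i)‖ ≤ (1 + 2 * D) / δ := by
    rw [← Complex.norm_conj, map_sum]
    refine le_trans (le_of_eq ?_) hm
    congr 1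
    refine Finset.sum_congr rfl fun i _ => ?_
    rw [conj_ec]
  have hS0n : ‖∑ i ∈ S0, ec (ψ i)‖ ≤ S0.card := by
    refine (norm_sum_le _ _).trans ?_
    simp [norm_ec]
  have htot : ‖∑ i ∈ range N, ec (φ (a + i))‖ * y ≤ 10 * D + 4 := by
    rw [hsplit]
    have h1 := norm_add_le (∑ i ∈ S0, ec (ψ i) +
      ∑ i ∈ (range N).filter (fun n => δ ≤ ψ (n + 1) - ψ n), ec (ψ i))
      (∑ i ∈ (range N).filter (fun n => δ ≤ - ψ (n + 1) - - ψ n), ec (ψ i))
    have h2 := norm_add_le (∑ i ∈ S0, ec (ψ i)) (∑ i ∈ (range N).filter (fun n => δ ≤ ψ (n + 1) - ψ n), ec (ψ i))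
    have h3 : (1 + 2 * (D : ℝ)) / δ * y = 2 * (1 + 2 * D) := by rw [hδ]; field_simp
    calc _ ≤ ((S0.card : ℝ) + (1 + 2 * D) / δ + (1 + 2 * D) / δ) * y :=
          mul_le_mul_of_nonneg_right (by linarith) hy0.le
      _ = (S0.card : ℝ) * y + (1 + 2 * (D : ℝ)) / δ * y + (1 + 2 * (D : ℝ)) / δ * y := by ring
      _ ≤ 2 * D + 2 * (1 + 2 * D) + 2 * (1 + 2 * D) := by rw [h3]; linarith
      _ = _ := by ring
  rw [← hyD, ← mul_pow]
  exact pow_le_pow_left₀ (by positivity) htot _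

end Pool.Agent.helper132_h
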