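import Pool.Agent.helper132_h.H21
import Pool.Agent.helper132_h.H7
import Pool.Agent.helper132_poly.P13

/-! Cross terms by van der Corput. -/

namespace Pool.Agent.helper132_h

open Finset Pool.Agent.helper132_sph Pool.Agent.helper132_poly Pool.Agent.helper132_quad

lemma pow_inc (k : ℕ) (x y : ℝ) (hx : 0 ≤ x) (hxy : x + 1 ≤ y) : |(x + 1) ^ k - x ^ k| ≤ k * y ^ (k - 1) := by
  induction k with
  | zero => simp
  | succ n ih =>
    have h0 : 0 ≤ (x + 1) ^ n - x ^ n := sub_nonneg.2 (pow_le_pow_left₀ hx (by linarith) n)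
    have h1 : 0 ≤ (x + 1) ^ (n + 1) - x ^ (n + 1) := sub_nonneg.2 (pow_le_pow_left₀ hx (by linarith) _)
    rw [abs_of_nonneg h1]
    rw [abs_of_nonneg h0] at ih
    have h2 : (x + 1) ^ (n + 1) - x ^ (n + 1) = (x + 1) * ((x + 1) ^ n - x ^ n) + x ^ n := by ring
    have hy : 0 ≤ y := by linarith
    rcases Nat.eq_zero_or_pos n with hn | hn
    · subst hn
      simp
    · have h3 : y * y ^ (n - 1) = y ^ n := by rw [← pow_succ']; congr 1; omega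
      have h4 : (x + 1) * ((x + 1) ^ n - x ^ n) ≤ y * (n * y ^ (n - 1)) :=
        mul_le_mul hxy ih h0 hy
      have h5 : x ^ n ≤ y ^ n := pow_le_pow_left₀ hx (by linarith) n
      rw [h2, Nat.add_sub_cancel]
      push_cast
      have h6 : y * (n * y ^ (n - 1)) = n * y ^ n := by rw [← h3]; ring
      linarith

lemma gamma_inc (k q X : ℕ) (hk : 1 ≤ k) (hq : 1 ≤ q) (hX : q ≤ X) (t a : ℝ) (ha : 3 * k * 2 ^ k ≤ a)
    (ht : |t| ≤ 5 / 4 * a) (hqX : (q : ℝ) / X ≤ 1 / a ^ 2) (n : ℤ) (hn0 : 0 ≤ n) (hn : n + 1 ≤ (Nq q X : ℤ)) :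
    |t / (X : ℝ) ^ k * (q : ℝ) ^ k * ((n : ℝ) + 1) ^ k - t / (X : ℝ) ^ k * (q : ℝ) ^ k * (n : ℝ) ^ k| ≤ 1 / 4 := by
  have hqR : (1 : ℝ) ≤ q := by exact_mod_cast hq
  have hq0 : (0 : ℝ) < q := by linarith
  have hXR : (1 : ℝ) ≤ X := by exact_mod_cast hq.trans hX
  have hX0 : (0 : ℝ) < X := by linarith
  have hkR : (1 : ℝ) ≤ k := by exact_mod_cast hk
  have h2k : (1 : ℝ) ≤ 2 ^ k := one_le_pow₀ (by norm_num)
  have ha3 : 3 ≤ a := by
    have : (1 : ℝ) ≤ k * 2 ^ k := one_le_mul_of_one_le_of_one_le hkR h2k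
    linarith
  have ha0 : 0 < a := by linarith
  have hN := Nq_upper q X hq
  have hNR : (q : ℝ) * (Nq q X : ℝ) ≤ 2 * X := by
    have h1 : ((q * Nq q X : ℕ) : ℝ) ≤ ((X + q : ℕ) : ℝ) := by exact_mod_cast hN
    have h2 : (q : ℝ) ≤ X := by exact_mod_cast hX
    push_cast at h1
    linarith
  have hNy : (Nq q X : ℝ) ≤ 2 * X / q := by
    rw [le_div_iff₀ hq0]; linarith
  have hnR : (n : ℝ) + 1 ≤ 2 * X / q := by
    have : ((n + 1 : ℤ) : ℝ) ≤ ((Nq q X : ℤ) : ℝ) := by exact_mod_cast hn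
    push_cast at this
    exact this.trans hNy
  have hn0R : (0 : ℝ) ≤ n := by exact_mod_cast hn0
  have h1 := pow_inc k n (2 * X / q) hn0R hnR
  rw [← mul_sub, abs_mul]
  have h2 : |t / (X : ℝ) ^ k * (q : ℝ) ^ k| = |t| * ((q : ℝ) / X) ^ k := by
    rw [abs_mul, abs_div, abs_of_pos (show (0 : ℝ) < (X : ℝ) ^ k by positivity),
      abs_of_pos (show (0 : ℝ) < (q : ℝ) ^ k by positivity), div_pow]
    ring
  rw [h2]
  have h3 : ((q : ℝ) / X) ^ k * (2 * X / q) ^ (k - 1) = 2 ^ (k - 1) * (q / X) := by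
    obtain ⟨j, rfl⟩ : ∃ j, k = j + 1 := ⟨k - 1, by omega⟩
    rw [Nat.add_sub_cancel, pow_succ]
    have : ((q : ℝ) / X) ^ j * (q / X) * (2 * X / q) ^ j = ((q / X) * (2 * X / q)) ^ j * (q / X) := by
      rw [mul_pow]; ring
    rw [this]
    congr 2
    field_simp
  have h4 : (2 : ℝ) ^ (k - 1) * 2 = 2 ^ k := by rw [← pow_succ]; congr 1; omega
  calc |t| * ((q : ℝ) / X) ^ k * |((n : ℝ) + 1) ^ k - (n : ℝ) ^ k|
      ≤ |t| * ((q : ℝ) / X) ^ k * (k * (2 * X / q) ^ (k - 1)) := mul_le_mul_of_nonneg_left h1 (by positivity)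
    _ = |t| * k * (((q : ℝ) / X) ^ k * (2 * X / q) ^ (k - 1)) := by ring
    _ = |t| * k * (2 ^ (k - 1) * (q / X)) := by rw [h3]
    _ ≤ (5 / 4 * a) * k * (2 ^ (k - 1) * (1 / a ^ 2)) := by gcongr
    _ = 5 / 8 * (k * (2 ^ (k - 1) * 2)) / a := by field_simp; ring
    _ = 5 / 8 * (k * 2 ^ k) / a := by rw [h4]
    _ ≤ 1 / 4 := by
        rw [div_le_div_iff₀ ha0 (by norm_num)]
        have : 0 ≤ (k : ℝ) * 2 ^ k := by positivity
        linarith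

/-- the cross-scale bound. -/
lemma gsum_crossV (k : ℕ) (hk : 3 ≤ k) : ∃ C : ℝ, 1 ≤ C ∧
    ∀ (q : ℕ) (_ : 1 ≤ q) (a : ℝ) (_ : 4 ≤ a) (X X' : ℕ) (t t' : ℝ)
      (_ : |t| ≤ a + 1) (_ : |t'| ≤ a + 1) (_ : a - 1 ≤ |t'|)
      (_ : (q : ℝ) * a ^ 2 ≤ X') (_ : 2 * X' ≤ X) (h : ℤ),
      (‖gsum k (Nq q X) (Nq q X') (t / (X : ℝ) ^ k * (q : ℝ) ^ k) (t' / (X' : ℝ) ^ k * (q : ℝ) ^ k) h‖ /
        Nq q X') ^ k * a ≤ C := by
  have hkR : (3 : ℝ) ≤ k := by exact_mod_cast hk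
  have h2k : (1 : ℝ) ≤ 2 ^ k := one_le_pow₀ (by norm_num)
  have hk2k : (1 : ℝ) ≤ k * 2 ^ k := one_le_mul_of_one_le_of_one_le (by linarith) h2k
  obtain ⟨V, hV⟩ : ∃ V : ℝ, V = (10 * ((k - 1 : ℕ) : ℝ) + 4) ^ k := ⟨_, rfl⟩
  have hV0 : 0 ≤ V := by rw [hV]; positivity
  refine ⟨3 * k * 2 ^ k + 2 * V, by linarith, ?_⟩
  intro q hq a ha X X' t t' ht ht' ht'2 hX' hXX h
  have hqR1 : (1 : ℝ) ≤ q := by exact_mod_cast hq
  have hqR : (0 : ℝ) < q := by linarith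
  have ha0 : (0 : ℝ) < a := by linarith
  have ha2 : (1 : ℝ) ≤ a ^ 2 := one_le_pow₀ (by linarith)
  have hqX'R : (q : ℝ) ≤ X' := by
    have : (q : ℝ) * 1 ≤ q * a ^ 2 := mul_le_mul_of_nonneg_left ha2 hqR.le
    linarith
  have hqX' : q ≤ X' := by exact_mod_cast hqX'R
  have hX'R : (1 : ℝ) ≤ X' := by linarith
  have hX'0 : (0 : ℝ) < X' := by linarith
  have hX'1 : 1 ≤ X' := by exact_mod_cast hX'R
  have hXR : 2 * (X' : ℝ) ≤ X := by exact_mod_cast hXX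
  have hX0 : (0 : ℝ) < X := by linarith
  obtain ⟨N', hN'⟩ : ∃ N', N' = Nq q X' := ⟨_, rfl⟩
  have hN'1 : 1 ≤ N' := by rw [hN']; exact Nq_pos q X' hq hX'1
  have hN'R : (1 : ℝ) ≤ N' := by exact_mod_cast hN'1
  have hN'0 : (0 : ℝ) < N' := by linarith
  have hqN' : (X' : ℝ) ≤ q * N' := by rw [hN']; exact_mod_cast Nq_lower q X' hq
  rcases lt_or_ge a (3 * k * 2 ^ k) with hcase | hcase
  · have h1 := norm_gsum_le k (Nq q X) (Nq q X') (t / (X : ℝ) ^ k * (q : ℝ) ^ k) (t' / (X' : ℝ) ^ k * (q : ℝ) ^ k) h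
    have h2 : ‖gsum k (Nq q X) (Nq q X') (t / (X : ℝ) ^ k * (q : ℝ) ^ k) (t' / (X' : ℝ) ^ k * (q : ℝ) ^ k) h‖ /
        Nq q X' ≤ 1 := by
      rw [← hN'] at h1 ⊢
      rw [div_le_one hN'0]
      exact h1.trans (min_le_right _ _)
    have h3 : (‖gsum k (Nq q X) (Nq q X') (t / (X : ℝ) ^ k * (q : ℝ) ^ k) (t' / (X' : ℝ) ^ k * (q : ℝ) ^ k) h‖ /
        Nq q X') ^ k ≤ 1 := pow_le_one₀ (by positivity) h2
    calc _ ≤ 1 * a := mul_le_mul_of_nonneg_right h3 ha0.le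
      _ ≤ _ := by linarith
  have hqX'a : (q : ℝ) / X' ≤ 1 / a ^ 2 := by
    rw [div_le_div_iff₀ hX'0 (by positivity)]; linarith
  have hqXa : (q : ℝ) / X ≤ 1 / a ^ 2 := by
    refine le_trans ?_ hqX'a
    exact div_le_div_of_nonneg_left hqR.le hX'0 (by linarith)
  have hqX : q ≤ X := hqX'.trans (by omega)
  have hta : |t| ≤ 5 / 4 * a := by linarith
  have ht'a : |t'| ≤ 5 / 4 * a := by linarith
  have ht'b : 3 / 4 * a ≤ |t'| := by linarith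
  have hinc1 := gamma_inc k q X (by omega) hq hqX t a hcase hta hqXa
  have hinc2 := gamma_inc k q X' (by omega) hq hqX' t' a hcase ht'a hqX'a
  rw [← hN'] at hinc2 ⊢
  obtain ⟨N, hN⟩ : ∃ N, N = Nq q X := ⟨_, rfl⟩
  rw [← hN] at hinc1 ⊢
  obtain ⟨γ, hγ⟩ : ∃ γ, γ = t / (X : ℝ) ^ k * (q : ℝ) ^ k := ⟨_, rfl⟩
  obtain ⟨γ', hγ'⟩ : ∃ γ', γ' = t' / (X' : ℝ) ^ k * (q : ℝ) ^ k := ⟨_, rfl⟩
  rw [← hγ] at hinc1
  rw [← hγ'] at hinc2
  rw [← hγ, ← hγ']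
  obtain ⟨z, hz⟩ : ∃ z : ℝ, z = ((q : ℝ) / X') ^ k := ⟨_, rfl⟩
  have hz0 : 0 < z := by rw [hz]; positivity
  have hγ'z : |γ'| = |t'| * z := by
    rw [hγ', hz, abs_mul, abs_div, abs_of_pos (show (0 : ℝ) < (X' : ℝ) ^ k by positivity),
      abs_of_pos (show (0 : ℝ) < (q : ℝ) ^ k by positivity), div_pow]
    ring
  have hγz : |γ| ≤ |t| * z / 8 := by
    rw [hγ, hz, abs_mul, abs_div, abs_of_pos (show (0 : ℝ) < (X : ℝ) ^ k by positivity),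
      abs_of_pos (show (0 : ℝ) < (q : ℝ) ^ k by positivity), div_pow]
    have h1 : 8 * (X' : ℝ) ^ k ≤ (X : ℝ) ^ k := by
      calc 8 * (X' : ℝ) ^ k = 2 ^ 3 * (X' : ℝ) ^ k := by norm_num
        _ ≤ 2 ^ k * (X' : ℝ) ^ k := by
            refine mul_le_mul_of_nonneg_right ?_ (by positivity)
            exact pow_le_pow_right₀ (by norm_num) hk
        _ = (2 * (X' : ℝ)) ^ k := (mul_pow _ _ _).symm
        _ ≤ (X : ℝ) ^ k := pow_le_pow_left₀ (by positivity) hXR _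
    have h2 : |t| / (X : ℝ) ^ k ≤ |t| / (8 * (X' : ℝ) ^ k) :=
      div_le_div_of_nonneg_left (abs_nonneg _) (by positivity) h1
    calc |t| / (X : ℝ) ^ k * (q : ℝ) ^ k ≤ |t| / (8 * (X' : ℝ) ^ k) * (q : ℝ) ^ k :=
          mul_le_mul_of_nonneg_right h2 (by positivity)
      _ = |t| * ((q : ℝ) ^ k / (X' : ℝ) ^ k) / 8 := by field_simp
  have haz : 0 < a * z := by positivity
  have g1 : |γ| ≤ 5 / 32 * (a * z) := by
    have : |t| * z ≤ 5 / 4 * a * z := mul_le_mul_of_nonneg_right hta hz0.le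
    linarith
  have g2 : |γ'| ≤ 5 / 4 * (a * z) := by
    rw [hγ'z]
    have : |t'| * z ≤ 5 / 4 * a * z := mul_le_mul_of_nonneg_right ht'a hz0.le
    linarith
  have g3 : 3 / 4 * (a * z) ≤ |γ'| := by
    rw [hγ'z]
    have : 3 / 4 * a * z ≤ |t'| * z := mul_le_mul_of_nonneg_right ht'b hz0.le
    linarith
  obtain ⟨δ, hδ⟩ : ∃ δ, δ = γ + (-1) * γ' := ⟨_, rfl⟩
  have hδ1 : a * z / 2 ≤ |δ| := by
    have h1 : |γ'| - |γ| ≤ |δ| := by
      have : |γ'| ≤ |γ' - γ| + |γ| := by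
        have := abs_add_le (γ' - γ) γ
        rwa [sub_add_cancel] at this
      have e : |δ| = |γ' - γ| := by rw [hδ, abs_sub_comm]; congr 1; ring
      rw [e]; linarith
    linarith
  have hδ2 : |δ| ≤ 2 * (a * z) := by
    have h1 : |δ| ≤ |γ| + |γ'| := by
      rw [hδ]
      refine (abs_add_le _ _).trans ?_
      rw [abs_mul]; simp
    linarith
  have hδle : |δ| ≤ 1 := by
    have h4 : (q : ℝ) / X' ≤ 1 := hqX'a.trans (by
      rw [div_le_one (by positivity)]; exact ha2)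
    have h5 : z ≤ q / X' := by
      rw [hz]
      exact pow_le_of_le_one (by positivity) h4 (by omega)
    have h6 : a * z ≤ 1 / a := by
      calc a * z ≤ a * (1 / a ^ 2) := mul_le_mul_of_nonneg_left (h5.trans hqX'a) ha0.le
        _ = 1 / a := by field_simp
    have h7 : 1 / a ≤ 1 / 4 := one_div_le_one_div_of_le (by norm_num) ha
    linarith
  have hPh : PP k δ (fun m : ℤ => γ * (m : ℝ) ^ k - γ' * (((m + h : ℤ)) : ℝ) ^ k) := by
    have h1 := PP.pow k γ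
    have h2 := PP.smul (-1) (PP.shift (PP.pow k γ') h)
    have h3 := PP.add h1 h2
    rw [← hδ] at h3
    convert h3 using 1
    funext m
    ring
  have hk1 : k - 1 + 1 = k := by omega
  have hvdc := vdc (k - 1) δ (fun m : ℤ => γ * (m : ℝ) ^ k - γ' * (((m + h : ℤ)) : ℝ) ^ k)
    (max (0 : ℤ) (0 - h)) (min (N : ℤ) (N' - h)) (by rw [hk1]; exact hPh) (by
      intro n hn
      rw [Finset.mem_Ico, max_le_iff, lt_min_iff] at hn
      obtain ⟨⟨a1, a2⟩, a3, a4⟩ := hn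
      have i1 := hinc1 n a1 (by omega)
      have i2 := hinc2 (n + h) (by omega) (by omega)
      have e1 : (γ * (((n + 1 : ℤ)) : ℝ) ^ k - γ' * (((n + 1 + h : ℤ)) : ℝ) ^ k) -
          (γ * (n : ℝ) ^ k - γ' * (((n + h : ℤ)) : ℝ) ^ k) =
          (γ * ((n : ℝ) + 1) ^ k - γ * (n : ℝ) ^ k) -
          (γ' * ((((n + h : ℤ)) : ℝ) + 1) ^ k - γ' * (((n + h : ℤ)) : ℝ) ^ k) := by
        push_cast
        have : (n : ℝ) + 1 + h = n + h + 1 := by ring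
        rw [this]; ring
      rw [e1]
      refine (abs_sub _ _).trans ?_
      linarith) hδle
  rw [hk1, ← hV] at hvdc
  obtain ⟨g, hg⟩ : ∃ g, g = ‖gsum k N N' γ γ' h‖ := ⟨_, rfl⟩
  have hg' : ‖∑ n ∈ Ico (max (0 : ℤ) (0 - h)) (min (N : ℤ) (N' - h)),
      ec ((fun m : ℤ => γ * (m : ℝ) ^ k - γ' * (((m + h : ℤ)) : ℝ) ^ k) n)‖ = g := by
    rw [hg]; rfl
  rw [hg'] at hvdc
  rw [← hg]
  have hg0 : 0 ≤ g := by rw [hg]; exact norm_nonneg _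
  have hzN : 1 ≤ z * (N' : ℝ) ^ k := by
    rw [hz, ← mul_pow]
    apply one_le_pow₀
    rw [div_mul_eq_mul_div, le_div_iff₀ hX'0, one_mul]
    exact hqN'
  have hN'k : (0 : ℝ) < (N' : ℝ) ^ k := by positivity
  rw [div_pow]
  have h1 : g ^ k * (a * z / 2) ≤ V := (mul_le_mul_of_nonneg_left hδ1 (by positivity)).trans hvdc
  have h2 : g ^ k / (N' : ℝ) ^ k * a ≤ g ^ k * (a * z) := by
    rw [div_mul_eq_mul_div, div_le_iff₀ hN'k]
    calc g ^ k * a = g ^ k * a * 1 := by ring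
      _ ≤ g ^ k * a * (z * (N' : ℝ) ^ k) := mul_le_mul_of_nonneg_left hzN (by positivity)
      _ = _ := by ring
  have h3 : 0 ≤ 3 * (k : ℝ) * 2 ^ k := by positivity
  linarith

end Pool.Agent.helper132_h
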