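import Pool.Agent.helper132_h.H24
import Pool.Agent.helper132_quad.R2

/-! Mean value estimate with few variables. -/

namespace Pool.Agent.helper132_h

open Finset Pool.Agent.helper132_sph Pool.Agent.helper132_poly Pool.Agent.helper132_quad

/-- coprime reduction. -/
lemma cop_red (q : ℕ) (hq : 1 ≤ q) (c : ℤ) : ∃ (q' : ℕ) (c' : ℤ), 1 ≤ q' ∧ q' ≤ q ∧ IsCoprime c' (q' : ℤ) ∧
    ∀ α : ℝ, |(q' : ℝ) * α - c'| ≤ |(q : ℝ) * α - c| := by
  obtain ⟨g, hg⟩ : ∃ g, g = Int.gcd c q := ⟨_, rfl⟩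
  have hgq : g ∣ q := by
    have := Int.gcd_dvd_right c (q : ℤ)
    rw [← hg] at this
    exact_mod_cast this
  have hgpos : 0 < g := Nat.pos_of_dvd_of_pos hgq (by omega)
  obtain ⟨q', hq'⟩ := hgq
  obtain ⟨c', hc'⟩ : (g : ℤ) ∣ c := by rw [hg]; exact Int.gcd_dvd_left c (q : ℤ)
  have hq'1 : 1 ≤ q' := by
    rcases Nat.eq_zero_or_pos q' with h | h
    · rw [h] at hq'; omega
    · exact h
  refine ⟨q', c', hq'1, ?_, ?_, ?_⟩
  · rw [hq']; exact Nat.le_mul_of_pos_left _ hgpos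
  · rw [Int.isCoprime_iff_gcd_eq_one]
    have h1 : Int.gcd ((g : ℤ) * c') ((g : ℤ) * q') = g * Int.gcd c' q' := by
      rw [Int.gcd_mul_left]; simp
    have h2 : Int.gcd ((g : ℤ) * c') ((g : ℤ) * q') = g := by
      rw [← hc']
      have : ((g : ℤ) * q') = (q : ℤ) := by rw [hq']; push_cast; ring
      rw [this, ← hg]
    rw [h2] at h1
    have h3 : g * 1 = g * Int.gcd c' q' := by omega
    exact (Nat.eq_of_mul_eq_mul_left hgpos h3).symm
  · intro α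
    have hgR : (1 : ℝ) ≤ g := by exact_mod_cast hgpos
    have hqq : (q : ℝ) = g * q' := by exact_mod_cast hq'
    have hcc : (c : ℝ) = g * c' := by exact_mod_cast hc'
    have h1 : (q : ℝ) * α - c = g * (q' * α - c') := by rw [hqq, hcc]; ring
    rw [h1, abs_mul, abs_of_pos (show (0 : ℝ) < g by linarith)]
    exact le_mul_of_one_le_left (abs_nonneg _) hgR

/-- the mean value estimate. -/
lemma mean_value_n (k A s' : ℕ) (hk : 3 ≤ k) (C : ℝ) (hC : 1 ≤ C) (hW : WH k A C) (hA : 1 ≤ A)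
    (hs' : 1 ≤ s') (η CJ : ℝ) (hη : η ≤ 1 / (4 * (A : ℝ))) (hCJ : 1 ≤ CJ) (hJ : MVT k s' η CJ)
    (σ : ℝ) (hσ : σ = 2 * (s' : ℝ) + 1 / 2) (hσ2 : 27 * (2 * (k : ℝ) - 1) ≤ 11 * σ) (R : ℕ) (hR : 1 ≤ R) :
    ∃ K : ℝ, 1 ≤ K ∧ ∀ X : ℕ, 1 ≤ X →
      ∑ a ∈ range (R * X ^ k), (‖fS k X ((a : ℝ) / ((R * X ^ k : ℕ) : ℝ))‖ / X) ^ σ ≤ K := by
  classical
  have hAR : (1 : ℝ) ≤ A := by exact_mod_cast hA
  have hRR : (1 : ℝ) ≤ R := by exact_mod_cast hR
  have hR0 : (0 : ℝ) < R := by linarith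
  have hs'R : (1 : ℝ) ≤ s' := by exact_mod_cast hs'
  have hσ0 : 0 < σ := by rw [hσ]; linarith
  have hkR : (3 : ℝ) ≤ k := by exact_mod_cast hk
  obtain ⟨Ks, hKs1, hKs⟩ := sum_wt
  have hC0 : 0 < C := by linarith
  obtain ⟨Cm, hCm1, hmom⟩ := fS_moment k s' (by omega) hs' η CJ hCJ hJ
  obtain ⟨T0, hT0⟩ : ∃ T0 : ℕ, T0 = 12 * (2 * k - 1) := ⟨_, rfl⟩
  have hT0R : (T0 : ℝ) = 12 * (2 * k - 1) := by
    rw [hT0]
    rw [Nat.cast_mul, Nat.cast_sub (by omega)]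
    push_cast; ring
  have hT00 : (0 : ℝ) < T0 := by rw [hT0R]; linarith
  obtain ⟨Kf, hKf1, hKf⟩ := fS_major k (by omega) (2 ^ (T0 + 11)) (one_le_pow₀ (by norm_num))
  rw [← hT0] at hKf
  obtain ⟨K1, hK1⟩ : ∃ K1 : ℝ, K1 = Kf * ((R : ℝ) + 2) ^ 11 := ⟨_, rfl⟩
  have hK11 : 1 ≤ K1 := by
    rw [hK1]
    exact one_le_mul_of_one_le_of_one_le hKf1 (one_le_pow₀ (by linarith))
  have hK1p : 1 ≤ K1 ^ (σ / T0) := Real.one_le_rpow hK11 (by positivity)
  obtain ⟨D, hD⟩ : ∃ D : ℝ, D = C * (R + 2) := ⟨_, rfl⟩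
  have hD1 : 1 ≤ D := by
    rw [hD]; exact one_le_mul_of_one_le_of_one_le hC (by linarith)
  have hD0 : 0 < D := by linarith
  refine ⟨D * (Cm * R) + K1 ^ (σ / T0) * Ks, ?_, ?_⟩
  · have h1 : (0 : ℝ) ≤ D * (Cm * R) := by positivity
    have h2 : (1 : ℝ) ≤ K1 ^ (σ / T0) * Ks := one_le_mul_of_one_le_of_one_le hK1p hKs1
    linarith
  intro X hX
  have hXR : (1 : ℝ) ≤ X := by exact_mod_cast hX
  have hX0 : (0 : ℝ) < X := by linarith
  have hXk : (0 : ℝ) < (X : ℝ) ^ k := by positivity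
  obtain ⟨P, hP⟩ : ∃ P : ℕ, P = R * X ^ k := ⟨_, rfl⟩
  have hPR : (P : ℝ) = R * (X : ℝ) ^ k := by rw [hP]; push_cast; ring
  have hP0 : (0 : ℝ) < P := by rw [hPR]; positivity
  rw [← hP]
  obtain ⟨Xh, hXh⟩ : ∃ Xh : ℝ, Xh = (X : ℝ) ^ ((1 : ℝ) / 2) := ⟨_, rfl⟩
  have hXh0 : 0 < Xh := by rw [hXh]; positivity
  have hXhX : Xh ^ 2 = X := by
    rw [hXh, ← Real.rpow_natCast, ← Real.rpow_mul hX0.le]; norm_num
  have hXhle : Xh ≤ X := by
    rw [hXh]
    calc (X : ℝ) ^ ((1 : ℝ) / 2) ≤ (X : ℝ) ^ (1 : ℝ) := Real.rpow_le_rpow_of_exponent_le hXR (by norm_num)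
      _ = X := Real.rpow_one _
  obtain ⟨u, hu⟩ : ∃ u : ℕ → ℝ, u = fun a : ℕ => ‖fS k X ((a : ℝ) / (P : ℝ))‖ / X := ⟨_, rfl⟩
  have hu0 : ∀ a, 0 ≤ u a := by intro a; rw [hu]; positivity
  have hgoal : ∑ a ∈ range P, (‖fS k X ((a : ℝ) / ((P : ℕ) : ℝ))‖ / X) ^ σ =
      ∑ a ∈ range P, u a ^ σ := by rw [hu]
  rw [hgoal]
  have hu1 : ∀ a, u a ≤ 1 := by
    intro a; rw [hu]; beta_reduce; rw [div_le_one hX0]; exact norm_fS_le _ _ _
  obtain ⟨Sh, hSh⟩ : ∃ Sh : Finset ℕ, Sh = (range P).filter (fun a => ¬ (u a ^ A * Xh ≤ D)) := ⟨_, rfl⟩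
  rw [← Finset.sum_filter_add_sum_filter_not (range P) (fun a => u a ^ A * Xh ≤ D), ← hSh]
  have hdeep : ∑ a ∈ (range P).filter (fun a => u a ^ A * Xh ≤ D), u a ^ σ ≤ D * (Cm * R) := by
    obtain ⟨θ, hθ⟩ : ∃ θ : ℝ, θ = 1 / (2 * (A : ℝ)) := ⟨_, rfl⟩
    have hθ0 : 0 < θ := by rw [hθ]; positivity
    have hθ1 : θ ≤ 1 := by rw [hθ, div_le_one (by positivity)]; linarith
    have h1 : ∀ a ∈ (range P).filter (fun a => u a ^ A * Xh ≤ D), u a ^ σ ≤
        D * (X : ℝ) ^ (-(1 / (4 * (A : ℝ)))) * u a ^ (2 * s') := by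
      intro a ha
      have h2 := (Finset.mem_filter.1 ha).2
      have h3 : u a ^ A ≤ D / Xh := by rw [le_div_iff₀ hXh0]; exact h2
      have h4 : u a ^ ((1 : ℝ) / 2) ≤ D * (X : ℝ) ^ (-(1 / (4 * (A : ℝ)))) := by
        have e1 : u a ^ ((1 : ℝ) / 2) = (u a ^ A) ^ θ := by
          rw [← Real.rpow_natCast (u a) A, ← Real.rpow_mul (hu0 a), hθ]
          congr 1
          field_simp
        rw [e1]
        calc (u a ^ A) ^ θ ≤ (D / Xh) ^ θ := Real.rpow_le_rpow (pow_nonneg (hu0 a) _) h3 hθ0.le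
          _ = D ^ θ * Xh ^ (-θ) := by
              rw [Real.div_rpow hD0.le hXh0.le, Real.rpow_neg hXh0.le]; rfl
          _ ≤ D ^ (1 : ℝ) * Xh ^ (-θ) := by
              refine mul_le_mul_of_nonneg_right ?_ (by positivity)
              exact Real.rpow_le_rpow_of_exponent_le hD1 hθ1
          _ = _ := by
              rw [Real.rpow_one, hXh, ← Real.rpow_mul hX0.le, hθ]
              congr 2
              field_simp
              norm_num
      have h5 : u a ^ σ = u a ^ ((1 : ℝ) / 2) * u a ^ (2 * s') := by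
        rcases (hu0 a).eq_or_lt with h6 | h6
        · rw [← h6, Real.zero_rpow hσ0.ne', Real.zero_rpow (by norm_num), zero_mul]
        · rw [← Real.rpow_natCast (u a) (2 * s'), ← Real.rpow_add h6, hσ]
          congr 1
          push_cast
          ring
      rw [h5]
      exact mul_le_mul_of_nonneg_right h4 (pow_nonneg (hu0 a) _)
    refine (Finset.sum_le_sum h1).trans ?_
    rw [← Finset.mul_sum]
    have h4 : ∑ a ∈ (range P).filter (fun a => u a ^ A * Xh ≤ D), u a ^ (2 * s') ≤ Cm * R * (X : ℝ) ^ η := by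
      have h5 := hmom R X hR hX
      rw [← hP] at h5
      have h6 : ∑ a ∈ range P, (‖fS k X ((a : ℝ) / ((P : ℕ) : ℝ))‖ / X) ^ (2 * s') =
          ∑ a ∈ range P, u a ^ (2 * s') := by rw [hu]
      rw [h6] at h5
      exact (Finset.sum_le_sum_of_subset_of_nonneg (Finset.filter_subset _ _)
        fun a _ _ => pow_nonneg (hu0 a) _).trans h5
    have h7 : (X : ℝ) ^ (-(1 / (4 * (A : ℝ)))) * (X : ℝ) ^ η ≤ 1 := by
      rw [← Real.rpow_add hX0]
      exact Real.rpow_le_one_of_one_le_of_nonpos hXR (by linarith)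
    calc D * (X : ℝ) ^ (-(1 / (4 * (A : ℝ)))) * ∑ a ∈ (range P).filter (fun a => u a ^ A * Xh ≤ D), u a ^ (2 * s')
        ≤ D * (X : ℝ) ^ (-(1 / (4 * (A : ℝ)))) * (Cm * R * (X : ℝ) ^ η) := mul_le_mul_of_nonneg_left h4 (by positivity)
      _ = D * (Cm * R) * ((X : ℝ) ^ (-(1 / (4 * (A : ℝ)))) * (X : ℝ) ^ η) := by ring
      _ ≤ D * (Cm * R) * 1 := mul_le_mul_of_nonneg_left h7 (by positivity)
      _ = _ := mul_one _
  have hex : ∀ a, ∃ τ : ℕ × ℤ × ℤ, a ∈ Sh → ((1 ≤ τ.1 ∧ -1 ≤ τ.2.1 ∧ τ.2.1 ≤ τ.1 + 1) ∧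
      (a : ℤ) = τ.2.2 + ((P : ℤ) * τ.2.1) / (τ.1 : ℤ) ∧ u a ^ T0 * (wt τ : ℝ) ^ 11 ≤ K1) := by
    intro a
    by_cases haS : a ∈ Sh
    swap
    · exact ⟨(0, 0, 0), fun h => absurd h haS⟩
    have haS' := haS
    rw [hSh, Finset.mem_filter, Finset.mem_range] at haS'
    obtain ⟨haP, hnd⟩ := haS'
    push Not at hnd
    obtain ⟨α, hα⟩ : ∃ α : ℝ, α = (a : ℝ) / P := ⟨_, rfl⟩
    have hWX := hW X hX α (fun n : ℤ => α * (n : ℝ) ^ k) (PP.pow k α) 0 X (by simp)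
    have hua : ‖∑ n ∈ Ico (0 : ℤ) X, ec ((fun n : ℤ => α * (n : ℝ) ^ k) n)‖ / X = u a := by
      rw [hu, hα]; rfl
    rw [hua] at hWX
    have huA : 0 ≤ u a ^ A := pow_nonneg (hu0 a) _
    have hnd1 : ¬ (u a ^ A * X ≤ C) := by
      intro h
      have h1 : u a ^ A * Xh ≤ u a ^ A * X := mul_le_mul_of_nonneg_left hXhle huA
      have h2 : C ≤ D := by
        rw [hD]; exact le_mul_of_one_le_right hC0.le (by linarith)
      linarith
    obtain ⟨q0, c00, hq0, h1', h2'⟩ := hWX.resolve_left hnd1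
    obtain ⟨c0, hc0⟩ : ∃ c : ℤ, c = round ((q0 : ℝ) * α) := ⟨_, rfl⟩
    have hcle : |(q0 : ℝ) * α - c0| ≤ |(q0 : ℝ) * α - c00| := by rw [hc0]; exact round_le _ _
    have hchalf : |(q0 : ℝ) * α - c0| ≤ 1 / 2 := by rw [hc0]; exact abs_sub_round _
    obtain ⟨q, c, hq, hqq0, hcop, hred⟩ := cop_red q0 hq0 c0
    have hred1 := hred α
    have hqR : (1 : ℝ) ≤ q := by exact_mod_cast hq
    have hqpos : (0 : ℝ) < q := by linarith
    have hqz : (0 : ℤ) < q := by exact_mod_cast (by omega : 0 < q)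
    have hqq0R : (q : ℝ) ≤ q0 := by exact_mod_cast hqq0
    have h1 : (q : ℝ) * u a ^ A ≤ C := (mul_le_mul_of_nonneg_right hqq0R huA).trans h1'
    have h2 : |(q : ℝ) * α - c| * u a ^ A * (X : ℝ) ^ k ≤ C := by
      refine le_trans ?_ h2'
      exact mul_le_mul_of_nonneg_right (mul_le_mul_of_nonneg_right (hred1.trans hcle) huA) hXk.le
    have hchalf' : |(q : ℝ) * α - c| ≤ 1 / 2 := hred1.trans hchalf
    have hα0 : 0 ≤ α := by rw [hα]; positivity
    have hα1 : α ≤ 1 := by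
      rw [hα, div_le_one hP0]; exact_mod_cast haP.le
    have hqα : (q : ℝ) * α ≤ q := by
      calc (q : ℝ) * α ≤ q * 1 := mul_le_mul_of_nonneg_left hα1 hqpos.le
        _ = q := by ring
    have hqα0 : 0 ≤ (q : ℝ) * α := by positivity
    have hcc := abs_le.1 hchalf'
    have hc1 : -1 ≤ c := by
      have : (-1 : ℝ) ≤ c := by linarith [hcc.2]
      exact_mod_cast this
    have hc2 : c ≤ q + 1 := by
      have : (c : ℝ) ≤ q + 1 := by linarith [hcc.1]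
      exact_mod_cast this
    obtain ⟨i, hi⟩ : ∃ i : ℤ, i = (a : ℤ) - ((P : ℤ) * c) / (q : ℤ) := ⟨_, rfl⟩
    refine ⟨(q, c, i), fun _ => ⟨⟨hq, hc1, hc2⟩, by simp only; rw [hi]; ring, ?_⟩⟩
    have e2 := Int.mul_ediv_add_emod ((P : ℤ) * c) (q : ℤ)
    have e3 : ((q : ℤ) * i : ℤ) = q * a - P * c + ((P : ℤ) * c) % (q : ℤ) := by
      rw [hi]; linarith
    have e4 : ((q : ℝ) * i) = q * a - P * c + ((((P : ℤ) * c) % (q : ℤ) : ℤ) : ℝ) := by
      exact_mod_cast e3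
    have e5 : (0 : ℤ) ≤ ((P : ℤ) * c) % (q : ℤ) := Int.emod_nonneg _ hqz.ne'
    have e6 : ((P : ℤ) * c) % (q : ℤ) < q := Int.emod_lt_of_pos _ hqz
    have e5' : (0 : ℝ) ≤ ((((P : ℤ) * c) % (q : ℤ) : ℤ) : ℝ) := by exact_mod_cast e5
    have e6' : ((((P : ℤ) * c) % (q : ℤ) : ℤ) : ℝ) ≤ q := by exact_mod_cast e6.le
    have e7 : (q : ℝ) * a - P * c = P * (q * α - c) := by
      rw [hα]; field_simp
    have e8 : (q : ℝ) * |(i : ℝ)| = |(q : ℝ) * i| := by rw [abs_mul, abs_of_pos hqpos]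
    have hqi : (q : ℝ) * |(i : ℝ)| ≤ P * |(q : ℝ) * α - c| + q := by
      rw [e8, e4, e7]
      refine (abs_add_le _ _).trans (add_le_add ?_ ?_)
      · rw [abs_mul, abs_of_pos hP0]
      · rw [abs_of_nonneg e5']; exact e6'
    have hqi2 : P * |(q : ℝ) * α - c| ≤ (q : ℝ) * |(i : ℝ)| + q := by
      have f1 : (P : ℝ) * |(q : ℝ) * α - c| = |(q : ℝ) * i - ((((P : ℤ) * c) % (q : ℤ) : ℤ) : ℝ)| := by
        have : (q : ℝ) * i - ((((P : ℤ) * c) % (q : ℤ) : ℤ) : ℝ) = P * (q * α - c) := by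
          rw [e4, ← e7]; ring
        rw [this, abs_mul, abs_of_pos hP0]
      rw [f1, e8]
      refine (abs_sub _ _).trans (add_le_add le_rfl ?_)
      rw [abs_of_nonneg e5']; exact e6'
    have hwt : (wt (q, c, i) : ℝ) = q + q * |(i : ℝ)| := by
      unfold wt
      push_cast
      have : ((i.natAbs : ℕ) : ℝ) = |(i : ℝ)| := by rw [Nat.cast_natAbs]; simp
      rw [this]; ring
    obtain ⟨w, hw⟩ : ∃ w : ℝ, w = (wt (q, c, i) : ℝ) := ⟨_, rfl⟩
    rw [← hw] at hwt ⊢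
    have hw1 : 1 ≤ w := by
      rw [hwt]
      have : 0 ≤ (q : ℝ) * |(i : ℝ)| := by positivity
      linarith
    obtain ⟨y, hy⟩ : ∃ y : ℝ, y = |(q : ℝ) * α - c| * (X : ℝ) ^ k := ⟨_, rfl⟩
    have hy0 : 0 ≤ y := by rw [hy]; positivity
    have hPy : (P : ℝ) * |(q : ℝ) * α - c| = R * y := by rw [hPR, hy]; ring
    rw [hPy] at hqi hqi2
    have hyR : y ≤ R * y := le_mul_of_one_le_left hy0 hRR
    obtain ⟨W', hW'⟩ : ∃ W' : ℝ, W' = q * (1 + |α - c / q| * (X : ℝ) ^ k) := ⟨_, rfl⟩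
    have hW'y : W' = q + y := by
      have : |(q : ℝ) * α - c| = q * |α - c / q| := by
        rw [← abs_of_pos hqpos, ← abs_mul, abs_of_pos hqpos]
        congr 1
        field_simp
      rw [hW', hy, this]; ring
    have hW'w : W' ≤ 2 * w := by
      rw [hW'y, hwt]
      have : 0 ≤ (q : ℝ) * |(i : ℝ)| := by positivity
      linarith
    have hwW' : w ≤ (R + 2) * W' := by
      rw [hW'y, hwt]
      have f2 : 0 ≤ (R : ℝ) * q := by positivity
      have f3 : ((R : ℝ) + 2) * (q + y) = R * q + 2 * q + R * y + 2 * y := by ring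
      rw [f3]
      linarith
    have hwA : w * u a ^ A ≤ D := by
      have f1 : y * u a ^ A ≤ C := by rw [hy]; linarith
      have f2 : R * (y * u a ^ A) ≤ R * C := mul_le_mul_of_nonneg_left f1 hR0.le
      have f3 : w ≤ 2 * q + R * y := by rw [hwt]; linarith
      calc w * u a ^ A ≤ (2 * q + R * y) * u a ^ A := mul_le_mul_of_nonneg_right f3 huA
        _ = 2 * (q * u a ^ A) + R * (y * u a ^ A) := by ring
        _ ≤ 2 * C + R * C := by linarith
        _ = D := by rw [hD]; ring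
    have hupos : 0 < u a ^ A := by
      rcases huA.eq_or_lt with h | h
      · rw [← h, zero_mul] at hnd; linarith
      · exact h
    have hwX : w ≤ Xh := by
      have : w * u a ^ A ≤ Xh * u a ^ A := by linarith
      exact le_of_mul_le_mul_right this hupos
    have hW'0 : 0 < W' := by rw [hW'y]; linarith
    have hmaj : W' ^ (T0 + 11) ≤ 2 ^ (T0 + 11) * (X : ℝ) ^ T0 := by
      calc W' ^ (T0 + 11) ≤ (2 * Xh) ^ (T0 + 11) := pow_le_pow_left₀ hW'0.le (by linarith) _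
        _ = 2 ^ (T0 + 11) * Xh ^ (T0 + 11) := mul_pow _ _ _
        _ ≤ 2 ^ (T0 + 11) * Xh ^ (2 * T0) := by
            refine mul_le_mul_of_nonneg_left ?_ (by positivity)
            refine pow_le_pow_right₀ (hw1.trans hwX) ?_
            omega
        _ = _ := by rw [pow_mul, hXhX]
    have hf := hKf X hX α q hq c hcop (by rw [← hW']; exact hmaj)
    rw [← hW'] at hf
    have hua' : ‖fS k X α‖ / X = u a := by rw [hu, hα]
    rw [hua'] at hf
    calc u a ^ T0 * w ^ 11 ≤ u a ^ T0 * ((R + 2) * W') ^ 11 := by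
          refine mul_le_mul_of_nonneg_left ?_ (pow_nonneg (hu0 a) _)
          exact pow_le_pow_left₀ (by linarith) hwW' 11
      _ = (u a ^ T0 * W' ^ 11) * (R + 2) ^ 11 := by rw [mul_pow]; ring
      _ ≤ Kf * (R + 2) ^ 11 := mul_le_mul_of_nonneg_right hf (by positivity)
      _ = K1 := hK1.symm
  choose tau htau using hex
  have hterm : ∀ a ∈ Sh, u a ^ σ ≤ K1 ^ (σ / T0) * (wt (tau a) : ℝ) ^ (-(9 / 4) : ℝ) := by
    intro a ha
    obtain ⟨⟨t1, _, _⟩, _, t3⟩ := htau a ha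
    have hw := wt_pos (tau a) t1
    have hwR : (1 : ℝ) ≤ (wt (tau a) : ℝ) := by exact_mod_cast hw
    have hw0 : (0 : ℝ) < (wt (tau a) : ℝ) := by linarith
    have h3 : u a ^ T0 ≤ K1 / (wt (tau a) : ℝ) ^ 11 := by
      rw [le_div_iff₀ (by positivity)]; exact t3
    have h4 : u a ^ σ = (u a ^ T0) ^ (σ / T0) := by
      rw [← Real.rpow_natCast (u a) T0, ← Real.rpow_mul (hu0 a)]
      congr 1
      field_simp
    rw [h4]
    calc (u a ^ T0) ^ (σ / T0) ≤ (K1 / (wt (tau a) : ℝ) ^ 11) ^ (σ / T0) :=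
          Real.rpow_le_rpow (pow_nonneg (hu0 a) _) h3 (by positivity)
      _ = K1 ^ (σ / T0) * (wt (tau a) : ℝ) ^ (-(11 * σ / T0)) := by
          rw [Real.div_rpow (by linarith) (by positivity), ← Real.rpow_natCast (wt (tau a) : ℝ) 11,
            ← Real.rpow_mul hw0.le, Real.rpow_neg hw0.le, div_eq_mul_inv]
          congr 3
          push_cast
          ring
      _ ≤ K1 ^ (σ / T0) * (wt (tau a) : ℝ) ^ (-(9 / 4) : ℝ) := by
          refine mul_le_mul_of_nonneg_left ?_ (by positivity)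
          refine Real.rpow_le_rpow_of_exponent_le hwR ?_
          rw [neg_le_neg_iff, le_div_iff₀ hT00, hT0R]
          linarith
  have hinj : Set.InjOn tau (Sh : Set ℕ) := by
    intro a ha b hb hab
    rw [Finset.mem_coe] at ha hb
    have h1 := (htau a ha).2.1
    have h2 := (htau b hb).2.1
    rw [hab] at h1
    have : (a : ℤ) = b := h1.trans h2.symm
    exact_mod_cast this
  have h5 := hKs (Sh.image tau) (by
    intro τ hτ
    rw [Finset.mem_image] at hτ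
    obtain ⟨a, ha, rfl⟩ := hτ
    exact (htau a ha).1)
  rw [Finset.sum_image hinj] at h5
  have h6 : ∑ a ∈ Sh, u a ^ σ ≤ K1 ^ (σ / T0) * Ks := by
    refine (Finset.sum_le_sum hterm).trans ?_
    rw [← Finset.mul_sum]
    exact mul_le_mul_of_nonneg_left h5 (by positivity)
  exact add_le_add hdeep h6

end Pool.Agent.helper132_h
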