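import Pool.Agent.helper132_h.H25
import Pool.Agent.helper132_quad.R4

/-! An interval of a residue class where the number of representations is large. -/

namespace Pool.Agent.helper132_h

open Finset Pool.Agent.helper132_sph Pool.Agent.helper132_poly Pool.Agent.helper132_quad

lemma Phi_diff_r (k X s' P n n' : ℕ) (hX : 1 ≤ X) (σ : ℝ) (hσ : σ = 2 * (s' : ℝ) + 1 / 2) (ε1 κ1 : ℝ)
    (hε : 0 ≤ ε1) (hκ1 : 0 ≤ κ1)
    (hdec : ∀ α : ℝ, ‖fS k X α‖ ≤ ε1 ^ 2 * X ∨ ‖ec (-(α * n)) - ec (-(α * n'))‖ ≤ κ1) :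
    ‖Phi k X (2 * s' + 1) P n - Phi k X (2 * s' + 1) P n'‖ ≤
      (X : ℝ) ^ (2 * s' + 1) * (∑ a ∈ range P, (‖fS k X ((a : ℝ) / P)‖ / X) ^ σ) * (2 * ε1 + κ1) := by
  classical
  have hXR : (0 : ℝ) < X := by exact_mod_cast hX
  unfold Phi
  rw [← Finset.sum_sub_distrib]
  refine (norm_sum_le _ _).trans ?_
  rw [Finset.mul_sum, Finset.sum_mul]
  refine Finset.sum_le_sum fun a _ => ?_
  obtain ⟨α, hα⟩ : ∃ α : ℝ, α = (a : ℝ) / P := ⟨_, rfl⟩
  rw [← hα]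
  obtain ⟨v, hv⟩ : ∃ v : ℝ, v = ‖fS k X α‖ := ⟨_, rfl⟩
  have hv0 : 0 ≤ v := by rw [hv]; exact norm_nonneg _
  have hvX : v ≤ X := by rw [hv]; exact norm_fS_le _ _ _
  rw [← sub_mul, norm_mul, norm_pow, ← hv]
  have hvX1 : v / X ≤ 1 := by rw [div_le_one hXR]; exact hvX
  have hvX0 : 0 ≤ v / X := by positivity
  have hE2 : ‖ec (-(α * n)) - ec (-(α * n'))‖ ≤ 2 := by
    refine (norm_sub_le _ _).trans ?_
    rw [norm_ec, norm_ec]; norm_num
  have hvs : v ^ (2 * s' + 1) = (X : ℝ) ^ (2 * s' + 1) * (v / X) ^ σ * (v / X) ^ ((1 : ℝ) / 2) := by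
    have h1 : (v / X) ^ σ * (v / X) ^ ((1 : ℝ) / 2) = (v / X) ^ (2 * s' + 1) := by
      rcases hvX0.eq_or_lt with h | h
      · rw [← h, Real.zero_rpow (x := (1 : ℝ) / 2) (by norm_num), mul_zero, zero_pow (by omega)]
      · rw [← Real.rpow_add h, ← Real.rpow_natCast, hσ]
        congr 1
        push_cast
        ring
    rw [mul_assoc, h1, div_pow]; field_simp
  rcases hdec α with h | h
  · rw [← hv] at h
    have h1 : (v / X) ^ ((1 : ℝ) / 2) ≤ ε1 := by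
      have h2 : v / X ≤ ε1 ^ 2 := by rw [div_le_iff₀ hXR]; exact h
      calc (v / X) ^ ((1 : ℝ) / 2) ≤ (ε1 ^ 2) ^ ((1 : ℝ) / 2) := Real.rpow_le_rpow hvX0 h2 (by norm_num)
        _ = ε1 := by
            rw [← Real.rpow_natCast, ← Real.rpow_mul hε]; norm_num
    calc ‖ec (-(α * n)) - ec (-(α * n'))‖ * v ^ (2 * s' + 1) ≤ 2 * ((X : ℝ) ^ (2 * s' + 1) * (v / X) ^ σ * ε1) := by
          rw [hvs]; gcongr
      _ = (X : ℝ) ^ (2 * s' + 1) * (v / X) ^ σ * (2 * ε1) := by ring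
      _ ≤ _ := by
          refine mul_le_mul_of_nonneg_left ?_ (by positivity)
          linarith
  · have h1 : (v / X) ^ ((1 : ℝ) / 2) ≤ 1 := Real.rpow_le_one hvX0 hvX1 (by norm_num)
    calc ‖ec (-(α * n)) - ec (-(α * n'))‖ * v ^ (2 * s' + 1)
        ≤ κ1 * ((X : ℝ) ^ (2 * s' + 1) * (v / X) ^ σ * 1) := by
          rw [hvs]; gcongr
      _ = (X : ℝ) ^ (2 * s' + 1) * (v / X) ^ σ * κ1 := by ring
      _ ≤ _ := by
          refine mul_le_mul_of_nonneg_left ?_ (by positivity)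
          linarith

/-- interval lemma. -/
lemma interval_lemma_n (k A s' : ℕ) (hk : 3 ≤ k) (C : ℝ) (hC : 1 ≤ C) (hWH : WH k A C) (hA : 1 ≤ A)
    (hs' : 1 ≤ s') (η CJ : ℝ) (hη : η ≤ 1 / (4 * (A : ℝ))) (hCJ : 1 ≤ CJ) (hJ : MVT k s' η CJ)
    (σ : ℝ) (hσ : σ = 2 * (s' : ℝ) + 1 / 2) (hσ2 : 27 * (2 * (k : ℝ) - 1) ≤ 11 * σ) (s : ℕ) (hsA : s = 2 * s' + 1) :
    ∃ W X1 : ℕ, ∃ δ : ℝ, 1 ≤ W ∧ 1 ≤ X1 ∧ 0 < δ ∧ δ ≤ 1 ∧
    ∀ X, X1 ≤ X → ∃ n0 : ℕ, n0 < s * X ^ k ∧ ∀ n : ℕ, n0 ≤ n → (n : ℝ) ≤ n0 + δ * (X : ℝ) ^ k →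
      (W : ℤ) ∣ (n : ℤ) - n0 → (X : ℝ) ^ s ≤ 2 * s * (X : ℝ) ^ k * cS k X s n := by
  classical
  obtain ⟨M, hM1, hmv⟩ := mean_value_n k A s' hk C hC hWH hA hs' η CJ hη hCJ hJ σ hσ hσ2 (2 * s) (by omega)
  have hpi := Real.pi_pos
  have hM0 : 0 < M := by linarith
  have hs1 : 1 ≤ s := by omega
  have hsR : (1 : ℝ) ≤ s := by exact_mod_cast hs1
  obtain ⟨ε1, hε1⟩ : ∃ ε1 : ℝ, ε1 = 1 / (4 * M) := ⟨_, rfl⟩
  have hε10 : 0 < ε1 := by rw [hε1]; positivity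
  obtain ⟨ε, hε⟩ : ∃ ε : ℝ, ε = ε1 ^ 2 := ⟨_, rfl⟩
  have hε0 : 0 < ε := by rw [hε]; positivity
  obtain ⟨Q, hQ⟩ := exists_nat_ge (C / ε ^ A)
  have hQ0 : (0 : ℝ) < Q := lt_of_lt_of_le (by positivity) hQ
  have hQ1 : 1 ≤ Q := by exact_mod_cast hQ0
  obtain ⟨W, hW⟩ : ∃ W : ℕ, W = Nat.factorial Q := ⟨_, rfl⟩
  have hW1 : 1 ≤ W := by rw [hW]; exact Nat.factorial_pos _
  refine ⟨W, Q + 1, min 1 (1 / (2 * M * (2 * Real.pi * Q))), hW1, by omega,
    lt_min one_pos (by positivity), min_le_left _ _, ?_⟩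
  intro X hX
  have hX1 : 1 ≤ X := by omega
  have hXR : (1 : ℝ) ≤ X := by exact_mod_cast hX1
  have hX0 : (0 : ℝ) < X := by linarith
  have hXk : (0 : ℝ) < (X : ℝ) ^ k := by positivity
  have hXkn : 1 ≤ X ^ k := Nat.one_le_pow _ _ hX1
  obtain ⟨P, hP⟩ : ∃ P : ℕ, P = 2 * s * X ^ k := ⟨_, rfl⟩
  have hP1 : 1 ≤ P := by
    rw [hP]; exact Nat.mul_pos (by omega) hXkn
  have hPR : (P : ℝ) = 2 * s * (X : ℝ) ^ k := by rw [hP]; push_cast; ring
  -- range of values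
  have hval : ∀ y ∈ Fintype.piFinset (fun _ : Fin s => range X), ∑ j, (y j) ^ k < s * X ^ k := by
    intro y hy
    rw [Fintype.mem_piFinset] at hy
    calc ∑ j, (y j) ^ k < ∑ _j : Fin s, X ^ k := by
          refine Finset.sum_lt_sum_of_nonempty ?_ ?_
          · exact ⟨⟨0, by omega⟩, Finset.mem_univ _⟩
          · intro j _
            exact Nat.pow_lt_pow_left (Finset.mem_range.1 (hy j)) (by omega)
      _ = s * X ^ k := by simp
  have hval2 : ∀ y ∈ Fintype.piFinset (fun _ : Fin s => range X), ∑ j, (y j) ^ k < P := by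
    intro y hy
    have := hval y hy
    rw [hP, mul_assoc]
    omega
  -- the peak
  have hpeak : ∃ n0 ∈ range (s * X ^ k), X ^ s ≤ s * X ^ k * cS k X s n0 := by
    by_contra hcon
    push Not at hcon
    have h1 : ∑ n ∈ range (s * X ^ k), cS k X s n = X ^ s := by
      unfold cS
      rw [← Finset.card_eq_sum_card_fiberwise (f := fun y : Fin s → ℕ => ∑ j, (y j) ^ k)]
      · rw [Fintype.card_piFinset]; simp
      · intro y hy
        rw [Finset.mem_coe] at hy ⊢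
        exact Finset.mem_range.2 (hval y hy)
    have h2 : ∑ n ∈ range (s * X ^ k), (s * X ^ k * cS k X s n) < ∑ n ∈ range (s * X ^ k), X ^ s :=
      Finset.sum_lt_sum_of_nonempty ⟨0, Finset.mem_range.2 (Nat.mul_pos (by omega) hXkn)⟩ hcon
    rw [← Finset.mul_sum, h1, Finset.sum_const, Finset.card_range, smul_eq_mul] at h2
    exact absurd h2 (lt_irrefl _)
  obtain ⟨n0, hn0, hn0p⟩ := hpeak
  rw [Finset.mem_range] at hn0
  refine ⟨n0, hn0, ?_⟩
  intro n hn1 hn2 hWn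
  have hmin1 : min 1 (1 / (2 * M * (2 * Real.pi * Q))) ≤ 1 := min_le_left _ _
  have hmin2 : min 1 (1 / (2 * M * (2 * Real.pi * Q))) ≤ 1 / (2 * M * (2 * Real.pi * Q)) := min_le_right _ _
  have hnP : n < P := by
    have h1 : (n : ℝ) ≤ n0 + 1 * (X : ℝ) ^ k := hn2.trans (by
      have := mul_le_mul_of_nonneg_right hmin1 hXk.le
      linarith)
    have h2 : (n : ℝ) ≤ ((n0 + X ^ k : ℕ) : ℝ) := by push_cast; linarith
    have h3 : n ≤ n0 + X ^ k := by exact_mod_cast h2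
    have h4 : X ^ k ≤ s * X ^ k := Nat.le_mul_of_pos_left _ hs1
    rw [hP, mul_assoc]
    omega
  have hn0P : n0 < P := by
    rw [hP, mul_assoc]; omega
  have e1 := Phi_eq k X s P n hP1 hnP hval2
  have e2 := Phi_eq k X s P n0 hP1 hn0P hval2
  have hmv2 := hmv X hX1
  have hPc : 2 * s * X ^ k = P := hP.symm
  rw [hPc] at hmv2
  have hnn : |(n : ℝ) - n0| ≤ 1 / (2 * M * (2 * Real.pi * Q)) * (X : ℝ) ^ k := by
    rw [abs_of_nonneg (by
      have : (n0 : ℝ) ≤ n := by exact_mod_cast hn1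
      linarith)]
    have := mul_le_mul_of_nonneg_right hmin2 hXk.le
    linarith
  have hdec : ∀ α : ℝ, ‖fS k X α‖ ≤ ε * X ∨
      ‖ec (-(α * n)) - ec (-(α * n0))‖ ≤ 1 / (2 * M) := by
    intro α
    by_cases hcase : ‖fS k X α‖ ≤ ε * X
    · left; exact hcase
    push Not at hcase
    right
    have hWX := hWH X hX1 α (fun n : ℤ => α * (n : ℝ) ^ k) (PP.pow k α) 0 X (by simp)
    obtain ⟨u, hu⟩ : ∃ u : ℝ, u = ‖fS k X α‖ / X := ⟨_, rfl⟩
    have hu' : ‖∑ n ∈ Ico (0 : ℤ) X, ec ((fun n : ℤ => α * (n : ℝ) ^ k) n)‖ / X = u := by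
      rw [hu]; rfl
    rw [hu'] at hWX
    have huε : ε ≤ u := by rw [hu, le_div_iff₀ hX0]; exact hcase.le
    have huA : ε ^ A ≤ u ^ A := pow_le_pow_left₀ hε0.le huε A
    have hconv : ∀ z : ℝ, 0 ≤ z → z * u ^ A ≤ C → z ≤ Q := by
      intro z hz hzC
      refine le_trans ?_ hQ
      rw [le_div_iff₀ (by positivity)]
      exact (mul_le_mul_of_nonneg_left huA hz).trans hzC
    have hnd : ¬ (u ^ A * X ≤ C) := by
      intro h
      have h1 := hconv X hX0.le (by rw [mul_comm]; exact h)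
      have h2 : X ≤ Q := by exact_mod_cast h1
      omega
    obtain ⟨q, c, hq, h1, h2⟩ := hWX.resolve_left hnd
    have hqQ : q ≤ Q := by exact_mod_cast hconv q (Nat.cast_nonneg _) h1
    have hqR : (1 : ℝ) ≤ q := by exact_mod_cast hq
    have hq0 : (0 : ℝ) < q := by linarith
    have hβ : |(q : ℝ) * α - c| * (X : ℝ) ^ k ≤ Q := by
      refine hconv _ (by positivity) ?_
      calc |(q : ℝ) * α - c| * (X : ℝ) ^ k * u ^ A = |(q : ℝ) * α - c| * u ^ A * (X : ℝ) ^ k := by ring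
        _ ≤ C := h2
    obtain ⟨w, hw⟩ : (q : ℤ) ∣ (n : ℤ) - n0 := by
      refine dvd_trans ?_ hWn
      rw [hW]
      exact_mod_cast Nat.dvd_factorial (by omega) hqQ
    have hwR : (n : ℝ) - n0 = q * w := by exact_mod_cast hw
    have e1 : -(α * n) = (-(α * n0) - (q * α - c) * w) + (((-(c * w) : ℤ)) : ℝ) := by
      have : (n : ℝ) = n0 + q * w := by linarith
      rw [this]; push_cast; ring
    rw [e1, ec_add_int]
    refine (norm_ec_sub_le _ _).trans ?_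
    have e2 : -(α * (n0 : ℝ)) - (q * α - c) * w - -(α * n0) = -((q * α - c) * w) := by ring
    rw [e2, abs_neg, abs_mul]
    have hw' : |(w : ℝ)| ≤ |(n : ℝ) - n0| := by
      rw [hwR, abs_mul, abs_of_pos hq0]
      exact le_mul_of_one_le_left (abs_nonneg _) hqR
    have hβ' : |(q : ℝ) * α - c| ≤ Q / (X : ℝ) ^ k := by rw [le_div_iff₀ hXk]; exact hβ
    calc 2 * Real.pi * (|(q : ℝ) * α - c| * |(w : ℝ)|)
        ≤ 2 * Real.pi * ((Q / (X : ℝ) ^ k) * (1 / (2 * M * (2 * Real.pi * Q)) * (X : ℝ) ^ k)) := by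
          refine mul_le_mul_of_nonneg_left ?_ (by positivity)
          exact mul_le_mul hβ' (hw'.trans hnn) (abs_nonneg _) (by positivity)
      _ = 1 / (2 * M) := by field_simp
  have hd := Phi_diff_r k X s' P n n0 hX1 σ hσ ε1 (1 / (2 * M)) hε10.le (by positivity) (by rw [← hε]; exact hdec)
  rw [← hsA] at hd
  have hsum0 : 0 ≤ ∑ a ∈ range P, (‖fS k X ((a : ℝ) / P)‖ / X) ^ σ :=
    Finset.sum_nonneg fun a _ => by positivity
  have hpieces : 2 * ε1 + 1 / (2 * M) ≤ 1 / M := by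
    have : 2 * ε1 + 1 / (2 * M) = 1 / M := by rw [hε1]; field_simp; norm_num
    exact this.le
  have hd2 : ‖Phi k X s P n - Phi k X s P n0‖ ≤ (X : ℝ) ^ s := by
    refine hd.trans ?_
    calc _ ≤ (X : ℝ) ^ s * M * (1 / M) := by
          have h0 : 0 ≤ 2 * ε1 + 1 / (2 * M) := by positivity
          gcongr
      _ = (X : ℝ) ^ s := by field_simp
  rw [e1, e2] at hd2
  have h6 : (P : ℝ) * cS k X s n0 - P * cS k X s n ≤ (X : ℝ) ^ s := by
    have h7 : ‖(P : ℂ) * cS k X s n - (P : ℂ) * cS k X s n0‖ =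
        |(P : ℝ) * cS k X s n - P * cS k X s n0| := by
      rw [← Real.norm_eq_abs, ← Complex.norm_real]
      push_cast
      rfl
    rw [h7, abs_sub_comm] at hd2
    exact (le_abs_self _).trans hd2
  have h8 : 2 * (X : ℝ) ^ s ≤ P * cS k X s n0 := by
    have h9 : ((X ^ s : ℕ) : ℝ) ≤ ((s * X ^ k * cS k X s n0 : ℕ) : ℝ) := by exact_mod_cast hn0p
    push_cast at h9
    rw [hPR]
    linarith
  rw [← hPR]
  linarith

/-- lower bound for the number of representations, explicit dimension. -/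
theorem sphere_lower_n (k A s' : ℕ) (hk : 3 ≤ k) (C : ℝ) (hC : 1 ≤ C) (hWH : WH k A C) (hA : 1 ≤ A)
    (hs' : 1 ≤ s') (η CJ : ℝ) (hη : η ≤ 1 / (4 * (A : ℝ))) (hCJ : 1 ≤ CJ) (hJ : MVT k s' η CJ)
    (hσ2 : 27 * (2 * (k : ℝ) - 1) ≤ 11 * (2 * (s' : ℝ) + 1 / 2)) (T : ℕ) (hT : ∀ W : ℕ, 1 ≤ W → LSR k T W)
    (d : ℕ) (hdk : k ≤ d) (hd : 2 * s' + 2 + T ≤ d) : ∃ c : ℝ, 0 < c ∧
    ∀ (n : ℕ) (r : ℝ), 0 < r → r ^ k = n →
      c * r ^ (d - k) ≤ max 1 (((Rp k d n).card : ℕ) : ℝ) := by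
  obtain ⟨s, hsA⟩ : ∃ s, s = 2 * s' + 1 := ⟨_, rfl⟩
  have hs : 1 ≤ s := by omega
  obtain ⟨W, X1, δ, hW1, hX1, hδ0, hδ1, hint⟩ := interval_lemma_n k A s' hk C hC hWH hA hs' η CJ hη hCJ hJ _ rfl hσ2 s hsA
  have hkR : (0 : ℝ) < k := by exact_mod_cast (by omega : 0 < k)
  have hsR : (0 : ℝ) < s := by exact_mod_cast (by omega : 0 < s)
  have hWR1 : (1 : ℝ) ≤ W := by exact_mod_cast hW1
  have hWR : (0 : ℝ) < W := by linarith
  obtain ⟨j, hj⟩ : ∃ j, j = d - s - 1 := ⟨_, rfl⟩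
  have hjk : T ≤ j := by omega
  have hjd : s + 1 + j = d := by omega
  obtain ⟨B, hB⟩ : ∃ B : ℕ, B = d * 2 ^ k := ⟨_, rfl⟩
  have hB1 : 1 ≤ B := by rw [hB]; exact Nat.mul_pos (by omega) (by positivity)
  have hBR : (1 : ℝ) ≤ B := by exact_mod_cast hB1
  have hdB : d ≤ B := by rw [hB]; exact Nat.le_mul_of_pos_right _ (by positivity)
  obtain ⟨v, hv⟩ : ∃ v : ℝ, v = δ / (k * W * ((B : ℝ) + 1) ^ (k - 1)) := ⟨_, rfl⟩
  have hv0 : 0 < v := by rw [hv]; positivity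
  have hden1 : (1 : ℝ) ≤ k * ((B : ℝ) + 1) ^ (k - 1) := by
    have h1 : (1 : ℝ) ≤ k := by exact_mod_cast (by omega : 1 ≤ k)
    have h2 : (1 : ℝ) ≤ ((B : ℝ) + 1) ^ (k - 1) := one_le_pow₀ (by linarith)
    calc (1 : ℝ) = 1 * 1 := by ring
      _ ≤ _ := mul_le_mul h1 h2 zero_le_one (by positivity)
  have hvW : v * W ≤ 1 := by
    have e : v * W = δ / (k * ((B : ℝ) + 1) ^ (k - 1)) := by rw [hv]; field_simp
    rw [e, div_le_one (by positivity)]
    linarith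
  obtain ⟨X2, hX2⟩ := exists_nat_ge (max (max (X1 : ℝ) (2 / v)) (2 * W))
  have hX2a : X1 ≤ X2 := by exact_mod_cast (le_max_left _ _).trans ((le_max_left _ _).trans hX2)
  have hX2b : 2 / v ≤ X2 := (le_max_right _ _).trans ((le_max_left _ _).trans hX2)
  have hX2c : 2 * (W : ℝ) ≤ X2 := (le_max_right _ _).trans hX2
  have hX21 : 1 ≤ X2 := hX1.trans hX2a
  obtain ⟨c1, hc1⟩ : ∃ c1 : ℝ, c1 = v / (4 * s * (2 * W) ^ j) := ⟨_, rfl⟩
  have hc10 : 0 < c1 := by rw [hc1]; positivity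
  have hdX2 : (0 : ℝ) < (((d * X2 : ℕ)) : ℝ) := by
    exact_mod_cast Nat.mul_pos (by omega) hX21
  refine ⟨min (c1 / (B : ℝ) ^ (d - k)) (1 / (((d * X2 : ℕ)) : ℝ) ^ (d - k)),
    lt_min (by positivity) (by positivity), ?_⟩
  intro n r hr hrn
  have hrk0 : 0 ≤ r ^ (d - k) := by positivity
  rcases lt_or_ge n (d * X2 ^ k) with hcase | hcase
  · refine le_trans ?_ (le_max_left _ _)
    refine (mul_le_mul_of_nonneg_right (min_le_right _ _) hrk0).trans ?_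
    rw [one_div, inv_mul_le_iff₀ (by positivity), mul_one]
    refine pow_le_pow_left₀ hr.le ?_ _
    refine le_of_pow_le_pow_left₀ (n := k) (by omega) hdX2.le ?_
    rw [hrn]
    have : n ≤ (d * X2) ^ k := by
      calc n ≤ d * X2 ^ k := hcase.le
        _ ≤ d ^ k * X2 ^ k := Nat.mul_le_mul_right _ (Nat.le_self_pow (by omega) _)
        _ = (d * X2) ^ k := (Nat.mul_pow _ _ _).symm
    exact_mod_cast this
  · refine le_trans ?_ (le_max_right _ _)
    obtain ⟨X, hXa, hXb⟩ := exists_root k (n / d) (by omega)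
    have hd0 : 0 < d := by omega
    have hXa' : d * X ^ k ≤ n := by
      calc d * X ^ k ≤ d * (n / d) := Nat.mul_le_mul_left _ hXa
        _ ≤ n := Nat.mul_div_le _ _
    have hX2X : X2 ≤ X := by
      by_contra hlt
      push Not at hlt
      have h1 : X2 ^ k ≤ n / d := by
        rw [Nat.le_div_iff_mul_le hd0, mul_comm]; exact hcase
      have h2 : (X + 1) ^ k ≤ X2 ^ k := Nat.pow_le_pow_left hlt k
      omega
    have hX1' : 1 ≤ X := hX21.trans hX2X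
    have hXR : (1 : ℝ) ≤ X := by exact_mod_cast hX1'
    have hX0 : (0 : ℝ) < X := by linarith
    have hX2XR : (X2 : ℝ) ≤ X := by exact_mod_cast hX2X
    have hnB : n ≤ B * X ^ k := by
      have h1 : n < d * (X + 1) ^ k := by
        rw [mul_comm, ← Nat.div_lt_iff_lt_mul hd0]
        exact hXb
      have h2 : (X + 1) ^ k ≤ (2 * X) ^ k := Nat.pow_le_pow_left (by omega) k
      calc n ≤ d * (X + 1) ^ k := h1.le
        _ ≤ d * (2 * X) ^ k := Nat.mul_le_mul_left _ h2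
        _ = B * X ^ k := by rw [hB, Nat.mul_pow]; ring
    obtain ⟨n0, hn0, hn0i⟩ := hint X (hX2a.trans hX2X)
    obtain ⟨T1, hT1⟩ : ∃ T1 : ℕ, T1 = ⌊v * X⌋₊ := ⟨_, rfl⟩
    have hvX : 2 ≤ v * X := by
      have h1 : 2 / v ≤ (X : ℝ) := hX2b.trans hX2XR
      rw [div_le_iff₀ hv0] at h1
      linarith
    have hT1a : (T1 : ℝ) ≤ v * X := by rw [hT1]; exact Nat.floor_le (by positivity)
    have hT1b : v * X / 2 ≤ T1 := by
      have : v * X < T1 + 1 := by rw [hT1]; exact Nat.lt_floor_add_one _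
      linarith
    have hT1X : T1 * W ≤ X := by
      have h1 : ((T1 * W : ℕ) : ℝ) ≤ X := by
        push_cast
        calc (T1 : ℝ) * W ≤ (v * X) * W := mul_le_mul_of_nonneg_right hT1a hWR.le
          _ = (v * W) * X := by ring
          _ ≤ 1 * X := mul_le_mul_of_nonneg_right hvW hX0.le
          _ = X := one_mul _
      exact_mod_cast h1
    have hT2 : (k : ℝ) * ((T1 * W : ℕ) : ℝ) * ((B : ℝ) + 1) ^ (k - 1) ≤ δ * X := by
      push_cast
      calc (k : ℝ) * ((T1 : ℝ) * W) * ((B : ℝ) + 1) ^ (k - 1) = (k * W * ((B : ℝ) + 1) ^ (k - 1)) * T1 := by ring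
        _ ≤ (k * W * ((B : ℝ) + 1) ^ (k - 1)) * (v * X) := mul_le_mul_of_nonneg_left hT1a (by positivity)
        _ = δ * X := by rw [hv]; field_simp
    have hst := step_two' k X s B T1 W n0 (by omega) hW1 (fun n' hn1 hn2 hn3 =>
      step_one' k X s n' n0 B T1 W δ (by omega) hX1' hW1 hn0 hn0i hn1 hn2 hn3 hT1X hT2) j n
      (by rw [hjd]; exact hXa') hnB
      ((hT W hW1).mono (by omega) hjk ((n : ℤ) - n0))
    rw [hjd] at hst
    have hY : (X : ℝ) / (2 * W) ≤ ((X / W : ℕ) : ℝ) := by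
      have h1 := Nat.lt_div_mul_add (a := X) (b := W) (by omega)
      have h2 : (X : ℝ) < ((X / W : ℕ) : ℝ) * W + W := by exact_mod_cast h1
      rw [div_le_iff₀ (by positivity)]
      have h3 : 2 * (W : ℝ) ≤ X := hX2c.trans hX2XR
      have h4 : ((X / W : ℕ) : ℝ) * (2 * W) = 2 * (((X / W : ℕ) : ℝ) * W) := by ring
      rw [h4]
      linarith
    -- conclude
    have h1 : c1 * (X : ℝ) ^ (d - k) ≤ (Rp k d n).card := by
      have h2 : (v * X / 2) * (X : ℝ) ^ s * ((X : ℝ) / (2 * W)) ^ j ≤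
          2 * s * (X : ℝ) ^ k * (Rp k d n).card := by
        refine le_trans ?_ hst
        gcongr
      have h3 : (v * X / 2) * (X : ℝ) ^ s * ((X : ℝ) / (2 * W)) ^ j =
          (c1 * (X : ℝ) ^ (d - k)) * (2 * s * (X : ℝ) ^ k) := by
        have h4 : (X : ℝ) * (X : ℝ) ^ s * (X : ℝ) ^ j = (X : ℝ) ^ (d - k) * (X : ℝ) ^ k := by
          rw [← pow_succ', ← pow_add, ← pow_add]; congr 1; omega
        calc (v * X / 2) * (X : ℝ) ^ s * ((X : ℝ) / (2 * W)) ^ j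
            = (v / 2 / (2 * W) ^ j) * ((X : ℝ) * (X : ℝ) ^ s * (X : ℝ) ^ j) := by
              rw [div_pow]; field_simp
          _ = (v / 2 / (2 * W) ^ j) * ((X : ℝ) ^ (d - k) * (X : ℝ) ^ k) := by rw [h4]
          _ = _ := by rw [hc1]; field_simp; ring
      rw [h3] at h2
      have h5 : (0 : ℝ) < 2 * s * (X : ℝ) ^ k := by positivity
      refine le_of_mul_le_mul_right ?_ h5
      linarith
    refine le_trans ?_ h1
    refine (mul_le_mul_of_nonneg_right (min_le_left _ _) hrk0).trans ?_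
    have h6 : r ≤ B * X := by
      refine le_of_pow_le_pow_left₀ (n := k) (by omega) (by positivity) ?_
      rw [hrn]
      have : n ≤ (B * X) ^ k := by
        calc n ≤ B * X ^ k := hnB
          _ ≤ B ^ k * X ^ k := Nat.mul_le_mul_right _ (Nat.le_self_pow (by omega) _)
          _ = (B * X) ^ k := (Nat.mul_pow _ _ _).symm
      exact_mod_cast this
    calc c1 / (B : ℝ) ^ (d - k) * r ^ (d - k) ≤ c1 / (B : ℝ) ^ (d - k) * (B * X) ^ (d - k) := by
          refine mul_le_mul_of_nonneg_left ?_ (by positivity)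
          exact pow_le_pow_left₀ hr.le h6 _
      _ = c1 * (X : ℝ) ^ (d - k) := by rw [mul_pow]; field_simp

end Pool.Agent.helper132_h
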