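import Pool.Agent.helper132_h.H27
import Pool.Agent.helper132_ec.E8

/-! The endpoint bound in quadratic dimension. -/

namespace Pool.Agent.helper132_h

open Finset Pool.Agent.helper132_sph Pool.Agent.helper132_poly Pool.Agent.helper132_quad
open scoped ENNReal NNReal

/-- The endpoint bound in all dimensions `d ≥ 4 k² + 2 k + 2`. -/
theorem endpoint_quad (k : ℕ) (hk : 3 ≤ k) (d : ℕ) (hd : 4 * k ^ 2 + 2 * k + 2 ≤ d) :
    ∃ C : ℝ≥0, ∀ f : (Fin d → ℤ) → ℂ,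
      weakNorm ((d : ℝ) / (d - k)) (sphMax k f) ≤
        C * lorentzNorm ((d : ℝ) / (d - k)) (fun x => ENNReal.ofReal ‖f x‖) := by
  obtain ⟨κ, rfl⟩ : ∃ κ, k = κ + 1 := ⟨k - 1, by omega⟩
  have hκ : 2 ≤ κ := by omega
  have hκR : (2 : ℝ) ≤ κ := by exact_mod_cast hκ
  have e1 : 4 * (κ + 1) ^ 2 = 2 * (κ + 1) * (2 * (κ + 1)) := by ring
  have e2 : 4 * (κ + 1) ^ 2 = 2 * ((κ + 1 + 1) * (κ + 1)) + 2 * (κ + 1) ^ 2 - 2 * (κ + 1) := by
    have : 2 * ((κ + 1 + 1) * (κ + 1)) + 2 * (κ + 1) ^ 2 = 4 * (κ + 1) ^ 2 + 2 * (κ + 1) := by ring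
    omega
  refine endpoint_h κ ((κ + 1) * κ) (2 * (κ + 1)) hκ (Nat.mul_pos (by omega) (by omega)) (by ring) (by omega)
    (fun η hη => Pool.Agent.helper132_ec.vmvt_ec κ hκ η hη) ((κ + 1 + 1) * (κ + 1)) (Nat.mul_pos (by omega) (by omega))
    (fun η hη => Pool.Agent.helper132_ec.vmvt_ec (κ + 1) (by omega) η hη) ?_ (2 * (κ + 1) ^ 2)
    (local_solv' (κ + 1) (by omega)) d (by omega) (by omega) ?_
  · push_cast
    nlinarith
  · have : 2 * ((κ + 1 + 1) * (κ + 1)) + 2 + 2 * (κ + 1) ^ 2 = 4 * (κ + 1) ^ 2 + 2 * (κ + 1) + 2 := by ring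
    omega

end Pool.Agent.helper132_h
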