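import Pool.Agent.helper132_h.H3

/-! Complete sums modulo primes: orbits and the final bound. -/

namespace Pool.Agent.helper132_h

open Finset Polynomial Pool.Agent.helper132_sph Pool.Agent.helper132_poly

/-- affine substitution. -/
noncomputable def aff (f : ℤ[X]) (y z : ℤ) : ℤ[X] := (taylor z f).comp (C y * X)

lemma aff_eval (f : ℤ[X]) (y z n : ℤ) : (aff f y z).eval n = f.eval (y * n + z) := by
  unfold aff
  rw [Polynomial.eval_comp, Polynomial.taylor_eval]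
  simp [add_comm]

lemma aff_deg (f : ℤ[X]) (y z : ℤ) (κ : ℕ) (h : f.natDegree ≤ κ) : (aff f y z).natDegree ≤ κ := by
  unfold aff
  refine Polynomial.natDegree_comp_le.trans ?_
  rw [Polynomial.natDegree_taylor]
  calc f.natDegree * (C y * X).natDegree ≤ κ * 1 :=
        Nat.mul_le_mul h ((Polynomial.natDegree_C_mul_le _ _).trans (Polynomial.natDegree_X_le))
    _ = κ := mul_one _

lemma aff_coeff (f : ℤ[X]) (y z : ℤ) (κ n : ℕ) (h : f.natDegree ≤ κ) :
    (aff f y z).coeff n = (∑ j ∈ range (κ + 1), ((j.choose n : ℕ) : ℤ) * f.coeff j * z ^ (j - n)) * y ^ n := by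
  unfold aff
  rw [Polynomial.comp_C_mul_X_coeff, Polynomial.taylor_coeff, Polynomial.hasseDeriv_apply,
    Polynomial.sum_over_range' _ _ (κ + 1) (Nat.lt_succ_of_le h)]
  · rw [Polynomial.eval_finsetSum]
    congr 1
    refine Finset.sum_congr rfl fun j _ => ?_
    rw [Polynomial.eval_monomial]
  · intro n; simp

lemma aff_coeff_top (p : ℕ) (f : ℤ[X]) (y z : ℤ) (κ D : ℕ) (h : f.natDegree ≤ κ) (hDκ : D ≤ κ)
    (hD : ∀ j, D < j → (p : ℤ) ∣ f.coeff j) : (p : ℤ) ∣ (aff f y z).coeff D - f.coeff D * y ^ D := by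
  rw [aff_coeff f y z κ D h, ← sub_mul]
  refine Dvd.dvd.mul_right ?_ _
  rw [← Finset.add_sum_erase _ _ (Finset.mem_range.2 (by omega : D < κ + 1))]
  simp only [Nat.choose_self, Nat.cast_one, one_mul, Nat.sub_self, pow_zero, mul_one, add_sub_cancel_left]
  refine Finset.dvd_sum fun j hj => ?_
  rw [Finset.mem_erase] at hj
  rcases lt_or_gt_of_ne hj.1 with h1 | h1
  · rw [Nat.choose_eq_zero_of_lt h1]; simp
  · exact ((hD j h1).mul_left _).mul_right _

lemma aff_coeff_next (p : ℕ) (f : ℤ[X]) (y z : ℤ) (κ D : ℕ) (h : f.natDegree ≤ κ) (hDκ : D + 1 ≤ κ)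
    (hD : ∀ j, D + 1 < j → (p : ℤ) ∣ f.coeff j) :
    (p : ℤ) ∣ (aff f y z).coeff D - (f.coeff D + (D + 1) * f.coeff (D + 1) * z) * y ^ D := by
  rw [aff_coeff f y z κ D h, ← sub_mul]
  refine Dvd.dvd.mul_right ?_ _
  rw [← Finset.add_sum_erase _ _ (Finset.mem_range.2 (by omega : D < κ + 1)),
    ← Finset.add_sum_erase _ _ (show D + 1 ∈ (range (κ + 1)).erase D by
      rw [Finset.mem_erase, Finset.mem_range]; omega)]
  have e1 : D + 1 - D = 1 := by omega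
  simp only [Nat.choose_self, Nat.cast_one, one_mul, Nat.sub_self, pow_zero, mul_one, Nat.choose_succ_self_right,
    e1, pow_one]
  push_cast
  have e2 : ∀ a b c : ℤ, a + (b + c) - (a + b) = c := by intro a b c; ring
  rw [e2]
  refine Finset.dvd_sum fun j hj => ?_
  rw [Finset.mem_erase, Finset.mem_erase] at hj
  rcases lt_or_gt_of_ne hj.2.1 with h1 | h1
  · rw [Nat.choose_eq_zero_of_lt h1]; simp
  · exact ((hD j (by omega)).mul_left _).mul_right _

lemma cs_aff (p : ℕ) (hp : p.Prime) (f : ℤ[X]) (y z : ℤ) (hy : ¬ (p : ℤ) ∣ y) : cs p (aff f y z) = cs p f := by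
  classical
  have hp1 : 1 ≤ p := hp.pos
  have hpz : (0 : ℤ) < p := by exact_mod_cast hp.pos
  unfold cs
  obtain ⟨σ, hσ⟩ : ∃ σ : ℕ → ℕ, σ = fun (n : ℕ) => ((y * n + z) % (p : ℤ)).toNat := ⟨_, rfl⟩
  have hσz : ∀ n, ((σ n : ℕ) : ℤ) = (y * n + z) % (p : ℤ) := by
    intro n; rw [hσ]; exact Int.toNat_of_nonneg (Int.emod_nonneg _ hpz.ne')
  have hσlt : ∀ n, σ n < p := by
    intro n
    have h1 := Int.emod_lt_of_pos (y * n + z) hpz
    rw [← hσz] at h1
    exact_mod_cast h1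
  have hinj : Set.InjOn σ (range p : Finset ℕ) := by
    intro n hn n' hn' h
    rw [Finset.mem_coe, Finset.mem_range] at hn hn'
    have h1 : (y * n + z) % (p : ℤ) = (y * n' + z) % (p : ℤ) := by rw [← hσz, ← hσz, h]
    have h2 : (p : ℤ) ∣ (y * n' + z) - (y * n + z) := Int.ModEq.dvd h1
    have h3 : (p : ℤ) ∣ y * ((n' : ℤ) - n) := by
      have e : (y * n' + z) - (y * n + z) = y * ((n' : ℤ) - n) := by ring
      rwa [e] at h2
    rcases (Nat.prime_iff_prime_int.1 hp).dvd_or_dvd h3 with h4 | h4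
    · exact absurd h4 hy
    · have h5 := Int.eq_zero_of_abs_lt_dvd h4 (by rw [abs_lt]; constructor <;> omega)
      omega
  have himg : (range p).image σ = range p := by
    refine Finset.eq_of_subset_of_card_le ?_ ?_
    · intro m hm
      rw [Finset.mem_image] at hm
      obtain ⟨n, _, rfl⟩ := hm
      exact Finset.mem_range.2 (hσlt n)
    · rw [Finset.card_image_of_injOn hinj]
  conv_rhs => rw [← himg]
  rw [Finset.sum_image hinj]
  refine Finset.sum_congr rfl fun n _ => ?_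
  refine ec_div_congr p hp1 _ _ ?_
  rw [aff_eval, hσz]
  refine dvd_trans ?_ (Polynomial.sub_dvd_eval_sub _ _ f)
  exact Int.dvd_self_sub_emod

/-- Mordell's bound. -/
lemma cs_prime (κ : ℕ) (hκ : 1 ≤ κ) (p : ℕ) (hp : p.Prime) (f : ℤ[X])
    (hdeg : f.natDegree ≤ κ) (hgood : ∃ i, 1 ≤ i ∧ ¬ (p : ℤ) ∣ f.coeff i) :
    (‖cs p f‖ / p) ^ (2 * κ) * (p : ℝ) ^ 2 ≤ 2 * (κ : ℝ) ^ (κ + 1) := by
  classical
  have hpR : (0 : ℝ) < p := by exact_mod_cast hp.pos
  have hpR1 : (1 : ℝ) ≤ p := by exact_mod_cast hp.one_lt.le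
  have hκR : (1 : ℝ) ≤ κ := by exact_mod_cast hκ
  have hpp : Prime (p : ℤ) := Nat.prime_iff_prime_int.1 hp
  have hpz : (0 : ℤ) < p := by exact_mod_cast hp.pos
  have hu1 : ‖cs p f‖ / p ≤ 1 := by
    rw [div_le_one hpR]; exact norm_cs_le p f
  have hu0 : 0 ≤ ‖cs p f‖ / p := by positivity
  rcases le_or_gt p κ with hpκ | hpκ
  · have hpκR : (p : ℝ) ≤ κ := by exact_mod_cast hpκ
    calc (‖cs p f‖ / p) ^ (2 * κ) * (p : ℝ) ^ 2 ≤ 1 * (κ : ℝ) ^ 2 := by
          refine mul_le_mul (pow_le_one₀ hu0 hu1) (pow_le_pow_left₀ hpR.le hpκR 2) (by positivity) zero_le_one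
      _ ≤ 1 * (κ : ℝ) ^ (κ + 1) := mul_le_mul_of_nonneg_left (pow_le_pow_right₀ hκR (by omega)) zero_le_one
      _ ≤ 2 * (κ : ℝ) ^ (κ + 1) := mul_le_mul_of_nonneg_right (by norm_num) (by positivity)
  -- the top index
  have hbig : ∀ j, κ < j → f.coeff j = 0 := fun j hj => Polynomial.coeff_eq_zero_of_natDegree_lt (by omega)
  obtain ⟨D, hD1, hDp, hDtop⟩ : ∃ D, 1 ≤ D ∧ ¬ (p : ℤ) ∣ f.coeff D ∧ ∀ j, D < j → (p : ℤ) ∣ f.coeff j := by
    obtain ⟨S, hS⟩ : ∃ S : Finset ℕ, S = (Icc 1 κ).filter (fun i => ¬ (p : ℤ) ∣ f.coeff i) := ⟨_, rfl⟩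
    have hne : S.Nonempty := by
      obtain ⟨i, hi1, hi2⟩ := hgood
      refine ⟨i, ?_⟩
      rw [hS, Finset.mem_filter, Finset.mem_Icc]
      refine ⟨⟨hi1, ?_⟩, hi2⟩
      by_contra hcon
      push Not at hcon
      apply hi2; rw [hbig i hcon]; exact dvd_zero _
    have hkey : ∀ i ∈ S, 1 ≤ i ∧ ¬ (p : ℤ) ∣ f.coeff i := by
      intro i hi
      rw [hS, Finset.mem_filter, Finset.mem_Icc] at hi
      exact ⟨hi.1.1, hi.2⟩
    have hmem := hkey _ (Finset.max'_mem S hne)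
    refine ⟨S.max' hne, hmem.1, hmem.2, ?_⟩
    · intro j hj
      by_contra hcon
      have hjκ : j ≤ κ := by
        by_contra h2
        push Not at h2
        apply hcon; rw [hbig j h2]; exact dvd_zero _
      have : j ∈ S := by
        rw [hS, Finset.mem_filter, Finset.mem_Icc]
        exact ⟨⟨by omega, hjκ⟩, hcon⟩
      have := Finset.le_max' S j this
      omega
  have hDκ : D ≤ κ := by
    by_contra hcon
    push Not at hcon
    apply hDp; rw [hbig D hcon]; exact dvd_zero _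
  rcases hD1.eq_or_lt with hD | hD
  · -- linear case
    have h0 : cs p f = 0 := by
      unfold cs
      have e1 : ∀ n ∈ range p, ec (((f.eval ((n : ℕ) : ℤ) : ℤ) : ℝ) / p) =
          ec ((f.coeff 0 : ℝ) / p) * ec ((n : ℝ) * ((f.coeff 1 : ℝ) / p)) := by
        intro n _
        rw [← ec_add]
        have e2 : (f.coeff 0 : ℝ) / p + (n : ℝ) * ((f.coeff 1 : ℝ) / p) =
            ((f.coeff 0 + n * f.coeff 1 : ℤ) : ℝ) / p := by push_cast; ring
        rw [e2]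
        refine ec_div_congr p hp.pos _ _ ?_
        rw [Polynomial.eval_eq_sum_range' (Nat.lt_succ_of_le hdeg), ← Finset.add_sum_erase _ _
          (Finset.mem_range.2 (by omega : 0 < κ + 1)), ← Finset.add_sum_erase _ _
          (show 1 ∈ (range (κ + 1)).erase 0 by rw [Finset.mem_erase, Finset.mem_range]; omega)]
        have e3 : ∀ a b c n' : ℤ, (p : ℤ) ∣ c → (p : ℤ) ∣ a * n' ^ 0 + (b * n' ^ 1 + c) - (a + n' * b) := by
          intro a b c n' hc
          have : a * n' ^ 0 + (b * n' ^ 1 + c) - (a + n' * b) = c := by ring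
          rw [this]; exact hc
        refine e3 _ _ _ _ ?_
        refine Finset.dvd_sum fun j hj => ?_
        rw [Finset.mem_erase, Finset.mem_erase] at hj
        exact (hDtop j (by omega)).mul_right _
      rw [Finset.sum_congr rfl e1, ← Finset.mul_sum, geom_ndvd p hp.pos _ (by rw [hD]; exact hDp), mul_zero]
    rw [h0, norm_zero, zero_div, zero_pow (by omega), zero_mul]
    positivity
  -- general case
  obtain ⟨D', rfl⟩ : ∃ D', D = D' + 1 := ⟨D - 1, by omega⟩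
  obtain ⟨T, hT⟩ : ∃ T : Finset (ℕ × ℕ), T = (Ico 1 p) ×ˢ (range p) := ⟨_, rfl⟩
  obtain ⟨Ψ, hΨ⟩ : ∃ Ψ : ℕ × ℕ → (Fin κ → ℕ), Ψ = fun v => cf κ p (aff f ((v.1 : ℕ) : ℤ) ((v.2 : ℕ) : ℤ)) := ⟨_, rfl⟩
  have hny : ∀ v ∈ T, ¬ (p : ℤ) ∣ ((v.1 : ℕ) : ℤ) := by
    intro v hv hd
    rw [hT, Finset.mem_product, Finset.mem_Ico] at hv
    have h1 : p ∣ v.1 := by exact_mod_cast hd
    have := Nat.le_of_dvd (by omega) h1
    omega
  have hEq : ∀ v ∈ T, ‖Sg p (Ico (0 : ℤ) p) (mom κ) (Ψ v)‖ = ‖cs p f‖ := by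
    intro v hv
    rw [hΨ, ← norm_cs_eq κ p hp.pos _ (aff_deg f _ _ κ hdeg), cs_aff p hp f _ _ (hny v hv)]
  have hcong : ∀ v v', Ψ v = Ψ v' → ∀ i, 1 ≤ i → i ≤ κ →
      (p : ℤ) ∣ (aff f ((v.1 : ℕ) : ℤ) ((v.2 : ℕ) : ℤ)).coeff i - (aff f ((v'.1 : ℕ) : ℤ) ((v'.2 : ℕ) : ℤ)).coeff i := by
    intro v v' h i hi1 hi2
    have h1 := congrFun h ⟨i - 1, by omega⟩
    rw [hΨ] at h1
    simp only at h1
    have h2 := cf_cast κ p hp.pos (aff f ((v.1 : ℕ) : ℤ) ((v.2 : ℕ) : ℤ)) ⟨i - 1, by omega⟩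
    have h3 := cf_cast κ p hp.pos (aff f ((v'.1 : ℕ) : ℤ) ((v'.2 : ℕ) : ℤ)) ⟨i - 1, by omega⟩
    simp only [Nat.sub_add_cancel hi1] at h2 h3
    rw [h1, h3] at h2
    exact Int.ModEq.dvd h2
  have hfib : ∀ b ∈ T.image Ψ, (T.filter (fun v => Ψ v = b)).card ≤ κ := by
    intro b hb
    rw [Finset.mem_image] at hb
    obtain ⟨v0, hv0, rfl⟩ := hb
    have : Fact p.Prime := ⟨hp⟩
    obtain ⟨A, hA⟩ : ∃ A : ZMod p, A = ((v0.1 : ℕ) : ZMod p) ^ (D' + 1) := ⟨_, rfl⟩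
    refine le_trans ?_ ((Multiset.toFinset_card_le _).trans ((Polynomial.card_nthRoots (D' + 1) A).trans hDκ))
    refine Finset.card_le_card_of_injOn (fun v => ((v.1 : ℕ) : ZMod p)) ?_ ?_
    · intro v hv
      rw [Finset.mem_coe, Finset.mem_filter] at hv
      rw [Finset.mem_coe, Multiset.mem_toFinset, Polynomial.mem_nthRoots (by omega)]
      have h1 := hcong v v0 hv.2 (D' + 1) (by omega) hDκ
      have h2 := aff_coeff_top p f ((v.1 : ℕ) : ℤ) ((v.2 : ℕ) : ℤ) κ (D' + 1) hdeg hDκ hDtop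
      have h3 := aff_coeff_top p f ((v0.1 : ℕ) : ℤ) ((v0.2 : ℕ) : ℤ) κ (D' + 1) hdeg hDκ hDtop
      have h4 : (p : ℤ) ∣ f.coeff (D' + 1) * (((v.1 : ℕ) : ℤ) ^ (D' + 1) - ((v0.1 : ℕ) : ℤ) ^ (D' + 1)) := by
        have e := dvd_sub (dvd_add h1 h3) h2
        have e2 : ∀ x y : ℤ, (p : ℤ) ∣ x → x = y → (p : ℤ) ∣ y := by intro x y hx hxy; rw [← hxy]; exact hx
        refine e2 _ _ e ?_
        ring
      rcases hpp.dvd_or_dvd h4 with h5 | h5
      · exact absurd h5 hDp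
      · rw [← ZMod.intCast_zmod_eq_zero_iff_dvd] at h5
        push_cast at h5
        rw [hA]
        exact sub_eq_zero.1 h5
    · intro v hv v' hv' h
      rw [Finset.mem_coe, Finset.mem_filter] at hv hv'
      simp only at h
      have hvT := hv.1
      have hvT' := hv'.1
      rw [hT, Finset.mem_product, Finset.mem_Ico, Finset.mem_range] at hvT hvT'
      have h1 : v.1 = v'.1 := by
        have h2 : ((v.1 : ℕ) : ZMod p) = ((v'.1 : ℕ) : ZMod p) := h
        rw [ZMod.natCast_eq_natCast_iff'] at h2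
        rw [Nat.mod_eq_of_lt hvT.1.2, Nat.mod_eq_of_lt hvT'.1.2] at h2
        exact h2
      have hD'1 : 1 ≤ D' := by omega
      have h2 := hcong v v' (hv.2.trans hv'.2.symm) D' hD'1 (by omega)
      have h3 := aff_coeff_next p f ((v.1 : ℕ) : ℤ) ((v.2 : ℕ) : ℤ) κ D' hdeg hDκ hDtop
      have h4 := aff_coeff_next p f ((v'.1 : ℕ) : ℤ) ((v'.2 : ℕ) : ℤ) κ D' hdeg hDκ hDtop
      have h5 : (p : ℤ) ∣ ((D' : ℤ) + 1) * f.coeff (D' + 1) * ((v.1 : ℕ) : ℤ) ^ D' *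
          (((v.2 : ℕ) : ℤ) - ((v'.2 : ℕ) : ℤ)) := by
        have e := dvd_sub (dvd_add h2 h4) h3
        rw [← h1] at e
        have e2 : ∀ x y z : ℤ, (p : ℤ) ∣ x → x = y → (p : ℤ) ∣ y := by intro x y _ hx hxy; rw [← hxy]; exact hx
        refine e2 _ _ 0 e ?_
        ring
      have h6 : (p : ℤ) ∣ ((v.2 : ℕ) : ℤ) - ((v'.2 : ℕ) : ℤ) := by
        rcases hpp.dvd_or_dvd h5 with h7 | h7
        · exfalso
          rcases hpp.dvd_or_dvd h7 with h8 | h8
          · rcases hpp.dvd_or_dvd h8 with h9 | h9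
            · have h10 : p ∣ D' + 1 := by exact_mod_cast h9
              have := Nat.le_of_dvd (by omega) h10
              omega
            · exact hDp h9
          · exact hny v hv.1 (hpp.dvd_of_dvd_pow h8)
        · exact h7
      have h7 := Int.eq_zero_of_abs_lt_dvd h6 (by rw [abs_lt]; constructor <;> omega)
      exact Prod.ext h1 (by omega)
  have hcard := Finset.card_le_mul_card_image T κ hfib
  have hTc : T.card = (p - 1) * p := by
    rw [hT, Finset.card_product, Nat.card_Ico, Finset.card_range]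
  have hmom := moment_mod (k := κ) (s := κ) p hp.pos
  have hcnt := card_pow_mod p κ hp hpκ
  have himg : T.image Ψ ⊆ gr κ p := by
    intro b hb
    rw [Finset.mem_image] at hb
    obtain ⟨v, _, rfl⟩ := hb
    rw [hΨ]
    exact cf_mem κ p hp.pos _
  have hlow : ((T.image Ψ).card : ℝ) * ‖cs p f‖ ^ (2 * κ) ≤
      ∑ a ∈ gr κ p, ‖Sg p (Ico (0 : ℤ) p) (mom κ) a‖ ^ (2 * κ) := by
    rw [← nsmul_eq_mul, ← Finset.sum_const]
    refine le_trans (le_of_eq ?_) (Finset.sum_le_sum_of_subset_of_nonneg himg (fun _ _ _ => by positivity))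
    refine Finset.sum_congr rfl fun b hb => ?_
    rw [Finset.mem_image] at hb
    obtain ⟨v, hv, rfl⟩ := hb
    rw [hEq v hv]
  rw [hmom] at hlow
  have hcntR : (((bx κ p ×ˢ bx κ p).filter (fun w => ∀ j, (p : ℤ) ∣ psm κ w.1 j - psm κ w.2 j)).card : ℝ) ≤
      (κ : ℝ) ^ κ * (p : ℝ) ^ κ := by exact_mod_cast hcnt
  have hcardR : (((p - 1) * p : ℕ) : ℝ) ≤ κ * ((T.image Ψ).card : ℝ) := by
    rw [← hTc]; exact_mod_cast hcard
  have hp2 : (p : ℝ) ^ 2 ≤ 2 * (((p - 1) * p : ℕ) : ℝ) := by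
    have h2 := hp.two_le
    have h3 : p ^ 2 ≤ 2 * ((p - 1) * p) := by
      calc p ^ 2 = p * p := sq p
        _ ≤ (2 * (p - 1)) * p := Nat.mul_le_mul_right _ (by omega)
        _ = 2 * ((p - 1) * p) := by ring
    exact_mod_cast h3
  have hfin : ‖cs p f‖ ^ (2 * κ) * (p : ℝ) ^ 2 ≤ 2 * (κ : ℝ) ^ (κ + 1) * (p : ℝ) ^ (2 * κ) := by
    have hc0 : 0 ≤ ‖cs p f‖ ^ (2 * κ) := by positivity
    calc ‖cs p f‖ ^ (2 * κ) * (p : ℝ) ^ 2 ≤ ‖cs p f‖ ^ (2 * κ) * (2 * (κ * ((T.image Ψ).card : ℝ))) := by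
          refine mul_le_mul_of_nonneg_left ?_ hc0
          linarith
      _ = 2 * κ * (((T.image Ψ).card : ℝ) * ‖cs p f‖ ^ (2 * κ)) := by ring
      _ ≤ 2 * κ * ((p : ℝ) ^ κ * ((κ : ℝ) ^ κ * (p : ℝ) ^ κ)) := by
          refine mul_le_mul_of_nonneg_left (hlow.trans ?_) (by positivity)
          exact mul_le_mul_of_nonneg_left hcntR (by positivity)
      _ = _ := by
          rw [two_mul κ, pow_add (p : ℝ) κ κ]; ring
  rw [div_pow, div_mul_eq_mul_div, div_le_iff₀ (by positivity)]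
  exact hfin

end Pool.Agent.helper132_h
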