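import Pool.Agent.helper132_h.H4

/-! Complete sums to general moduli. -/

namespace Pool.Agent.helper132_h

open Finset Polynomial Pool.Agent.helper132_sph Pool.Agent.helper132_poly

/-- divisor type bounds. -/
lemma prod_bound (ε M : ℝ) (hε : 0 < ε) (hM : 1 ≤ M) : ∃ K : ℝ, 1 ≤ K ∧ ∀ q : ℕ, 1 ≤ q →
    ∏ p ∈ q.primeFactors, M * ((q.factorization p : ℝ) + 1) ≤ K * (q : ℝ) ^ ε := by
  have hlog : 0 < Real.log 2 := Real.log_pos (by norm_num)
  obtain ⟨A, hA⟩ : ∃ A : ℝ, A = 1 + 1 / (ε * Real.log 2) := ⟨_, rfl⟩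
  have hA1 : 1 ≤ A := by
    rw [hA]
    have : 0 < 1 / (ε * Real.log 2) := by positivity
    linarith
  obtain ⟨B, hB⟩ := exists_nat_ge ((2 * M) ^ (1 / ε))
  have hMA : 1 ≤ M * A := one_le_mul_of_one_le_of_one_le hM hA1
  refine ⟨(M * A) ^ (B + 1), one_le_pow₀ hMA, ?_⟩
  intro q hq
  have hone : ∀ p ∈ q.primeFactors, M * ((q.factorization p : ℝ) + 1) ≤
      (if p ≤ B then M * A else 1) * ((p : ℝ) ^ (q.factorization p)) ^ ε := by
    intro p hp
    have hpp := Nat.prime_of_mem_primeFactors hp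
    have hp2 : (2 : ℝ) ≤ p := by exact_mod_cast hpp.two_le
    have hp0 : (0 : ℝ) < p := by linarith
    have hv1 : 1 ≤ q.factorization p := by
      have h1 := Nat.dvd_of_mem_primeFactors hp
      exact (hpp.dvd_iff_one_le_factorization (by omega)).1 h1
    obtain ⟨v, hv⟩ : ∃ v, v = q.factorization p := ⟨_, rfl⟩
    rw [← hv] at hv1 ⊢
    have hcomm : ((p : ℝ) ^ v) ^ ε = ((p : ℝ) ^ ε) ^ v := by
      rw [← Real.rpow_natCast, ← Real.rpow_mul hp0.le, mul_comm, Real.rpow_mul hp0.le, Real.rpow_natCast]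
    rw [hcomm]
    have hpε : (2 : ℝ) ^ ε ≤ (p : ℝ) ^ ε := Real.rpow_le_rpow (by norm_num) hp2 hε.le
    have h2ε : 1 ≤ (2 : ℝ) ^ ε := Real.one_le_rpow (by norm_num) hε.le
    have hvR : (1 : ℝ) ≤ v := by exact_mod_cast hv1
    split_ifs with hc
    · have h1 : ((v : ℝ) + 1) ≤ A * ((p : ℝ) ^ ε) ^ v := by
        have h2 : 1 + v * (ε * Real.log 2) ≤ ((2 : ℝ) ^ ε) ^ v := by
          have h3 : 1 + (v : ℝ) * ((2 : ℝ) ^ ε - 1) ≤ ((2 : ℝ) ^ ε) ^ v := by
            have := one_add_mul_le_pow (show (-2 : ℝ) ≤ (2 : ℝ) ^ ε - 1 by linarith) v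
            rw [add_sub_cancel] at this
            exact this
          have h4 : ε * Real.log 2 ≤ (2 : ℝ) ^ ε - 1 := by
            have h5 := Real.add_one_le_exp (ε * Real.log 2)
            have h6 : (2 : ℝ) ^ ε = Real.exp (ε * Real.log 2) := by
              rw [Real.rpow_def_of_pos (by norm_num), mul_comm]
            rw [h6]; linarith
          have := mul_le_mul_of_nonneg_left h4 (show (0 : ℝ) ≤ v by linarith)
          linarith
        have h3 : ((2 : ℝ) ^ ε) ^ v ≤ ((p : ℝ) ^ ε) ^ v := pow_le_pow_left₀ (by linarith) hpε v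
        have h4 : (v : ℝ) ≤ 1 / (ε * Real.log 2) * ((p : ℝ) ^ ε) ^ v := by
          have h5 : v * (ε * Real.log 2) ≤ ((p : ℝ) ^ ε) ^ v := by linarith
          have h6 : 0 < ε * Real.log 2 := by positivity
          rw [div_mul_eq_mul_div, one_mul, le_div_iff₀ h6]
          exact h5
        have h7 : 1 ≤ ((p : ℝ) ^ ε) ^ v := one_le_pow₀ (by linarith)
        rw [hA]
        linarith
      calc M * ((v : ℝ) + 1) ≤ M * (A * ((p : ℝ) ^ ε) ^ v) := mul_le_mul_of_nonneg_left h1 (by linarith)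
        _ = _ := by ring
    · push Not at hc
      have h1 : 2 * M ≤ (p : ℝ) ^ ε := by
        have h2 : (2 * M) ^ (1 / ε) ≤ (p : ℝ) := hB.trans (by exact_mod_cast hc.le)
        calc 2 * M = ((2 * M) ^ (1 / ε)) ^ ε := by
              rw [← Real.rpow_mul (by linarith), one_div_mul_cancel hε.ne', Real.rpow_one]
          _ ≤ _ := Real.rpow_le_rpow (by positivity) h2 hε.le
      have h3 : (v : ℝ) + 1 ≤ 2 ^ v := by
        have : v + 1 ≤ 2 ^ v := Nat.lt_two_pow_self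
        exact_mod_cast this
      have h4 : M ≤ M ^ v := le_self_pow₀ hM (by omega)
      rw [one_mul]
      calc M * ((v : ℝ) + 1) ≤ M ^ v * 2 ^ v := mul_le_mul h4 h3 (by linarith) (by positivity)
        _ = (2 * M) ^ v := by rw [mul_pow]; ring
        _ ≤ _ := pow_le_pow_left₀ (by linarith) h1 v
  refine (Finset.prod_le_prod (fun p _ => by positivity) hone).trans ?_
  rw [Finset.prod_mul_distrib]
  refine mul_le_mul ?_ ?_ (Finset.prod_nonneg fun p _ => by positivity) (by positivity)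
  · rw [Finset.prod_ite, Finset.prod_const, Finset.prod_const_one, mul_one]
    refine pow_le_pow_right₀ hMA ?_
    calc (q.primeFactors.filter (fun p => p ≤ B)).card ≤ (range (B + 1)).card := by
          refine Finset.card_le_card fun p hp => ?_
          rw [Finset.mem_filter] at hp
          rw [Finset.mem_range]
          omega
      _ = B + 1 := Finset.card_range _
  · rw [Real.finsetProd_rpow _ _ (fun p _ => by positivity)]
    refine Real.rpow_le_rpow (Finset.prod_nonneg fun p _ => by positivity) ?_ hε.le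
    have h1 := Nat.prod_factorization_pow_eq_self (n := q) (by omega)
    have h2 : ((q.factorization.prod (fun p v => p ^ v) : ℕ) : ℝ) = q := by exact_mod_cast h1
    rw [← h2, Finsupp.prod, Nat.support_factorization]
    push_cast
    exact le_rfl

lemma pow_omega_le (ε C : ℝ) (hε : 0 < ε) (hC : 1 ≤ C) : ∃ K : ℝ, 1 ≤ K ∧ ∀ q : ℕ, 1 ≤ q →
    C ^ q.primeFactors.card ≤ K * (q : ℝ) ^ ε := by
  obtain ⟨K, hK1, hK⟩ := prod_bound ε C hε hC
  refine ⟨K, hK1, fun q hq => le_trans ?_ (hK q hq)⟩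
  rw [← Finset.prod_const]
  refine Finset.prod_le_prod (fun p _ => by positivity) fun p _ => ?_
  have : (0 : ℝ) ≤ (q.factorization p : ℝ) := Nat.cast_nonneg _
  have h2 : C * 1 ≤ C * ((q.factorization p : ℝ) + 1) := mul_le_mul_of_nonneg_left (by linarith) (by linarith)
  linarith

lemma card_div_le (ε : ℝ) (hε : 0 < ε) : ∃ K : ℝ, 1 ≤ K ∧ ∀ q : ℕ, 1 ≤ q →
    (q.divisors.card : ℝ) ≤ K * (q : ℝ) ^ ε := by
  obtain ⟨K, hK1, hK⟩ := prod_bound ε 1 hε le_rfl
  refine ⟨K, hK1, fun q hq => le_trans (le_of_eq ?_) (hK q hq)⟩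
  rw [Nat.card_divisors (by omega)]
  push_cast
  refine Finset.prod_congr rfl fun p _ => by ring

/-- multiplicativity. -/
lemma cs_mul (q1 q2 : ℕ) (hq1 : 1 ≤ q1) (hq2 : 1 ≤ q2) (hcop : Nat.Coprime q1 q2) (f : ℤ[X]) (a1 a2 : ℤ)
    (ha : a1 * q2 + a2 * q1 = 1) : cs (q1 * q2) f = cs q1 (C a1 * f) * cs q2 (C a2 * f) := by
  classical
  have hq1R : (q1 : ℝ) ≠ 0 := by exact_mod_cast (by omega : q1 ≠ 0)
  have hq2R : (q2 : ℝ) ≠ 0 := by exact_mod_cast (by omega : q2 ≠ 0)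
  unfold cs
  rw [Finset.sum_mul_sum, ← Finset.sum_product']
  obtain ⟨σ, hσ⟩ : ∃ σ : ℕ → ℕ × ℕ, σ = fun n => (n % q1, n % q2) := ⟨_, rfl⟩
  have hinj : Set.InjOn σ (range (q1 * q2) : Finset ℕ) := by
    intro n hn n' hn' h
    rw [Finset.mem_coe, Finset.mem_range] at hn hn'
    rw [hσ] at h
    simp only [Prod.mk.injEq] at h
    have h1 : n ≡ n' [MOD q1 * q2] := (Nat.modEq_and_modEq_iff_modEq_mul hcop).1 ⟨h.1, h.2⟩
    exact Nat.ModEq.eq_of_lt_of_lt h1 hn hn'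
  have himg : (range (q1 * q2)).image σ = range q1 ×ˢ range q2 := by
    refine Finset.eq_of_subset_of_card_le ?_ ?_
    · intro m hm
      rw [Finset.mem_image] at hm
      obtain ⟨n, _, rfl⟩ := hm
      rw [hσ, Finset.mem_product, Finset.mem_range, Finset.mem_range]
      exact ⟨Nat.mod_lt _ hq1, Nat.mod_lt _ hq2⟩
    · rw [Finset.card_image_of_injOn hinj, Finset.card_product, Finset.card_range, Finset.card_range,
        Finset.card_range]
  rw [← himg, Finset.sum_image hinj]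
  refine Finset.sum_congr rfl fun n _ => ?_
  rw [hσ]
  simp only [Polynomial.eval_mul, Polynomial.eval_C]
  have e1 : ∀ q : ℕ, (q : ℤ) ∣ (n : ℤ) - ((n % q : ℕ) : ℤ) := by
    intro q
    have := Int.dvd_self_sub_emod (x := (n : ℤ)) (m := (q : ℤ))
    exact_mod_cast this
  have e2 : ∀ (q : ℕ) (a : ℤ), 1 ≤ q → ec ((a * f.eval ((n % q : ℕ) : ℤ) : ℤ) / q) = ec ((a * f.eval (n : ℤ) : ℤ) / q) := by
    intro q a hq
    refine ec_div_congr q hq _ _ ?_
    rw [← mul_sub]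
    refine Dvd.dvd.mul_left ?_ _
    have h1 := (e1 q).trans (Polynomial.sub_dvd_eval_sub _ _ f)
    rw [← dvd_neg, neg_sub]
    exact h1
  rw [e2 q1 a1 hq1, e2 q2 a2 hq2, ← ec_add]
  congr 1
  have haR : (a1 : ℝ) * q2 + a2 * q1 = 1 := by exact_mod_cast ha
  obtain ⟨F, hF⟩ : ∃ F : ℤ, F = f.eval (n : ℤ) := ⟨_, rfl⟩
  rw [← hF]
  push_cast
  field_simp
  linear_combination (-(F : ℝ)) * haR

/-- complete sums, primitive case. -/
lemma cs_prim (κ : ℕ) (hκ : 1 ≤ κ) : ∀ q : ℕ, 1 ≤ q → ∀ f : ℤ[X], f.natDegree ≤ κ →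
    (∀ p : ℕ, p.Prime → p ∣ q → ∃ i, 1 ≤ i ∧ ¬ (p : ℤ) ∣ f.coeff i) →
    (‖cs q f‖ / q) ^ (2 * κ - 1) * (q : ℝ) ≤ (2 * (κ : ℝ) ^ (2 * κ + 1)) ^ q.primeFactors.card := by
  have hκR : (1 : ℝ) ≤ κ := by exact_mod_cast hκ
  have hk1 : (1 : ℝ) ≤ (κ : ℝ) ^ (2 * κ + 1) := one_le_pow₀ hκR
  intro q
  induction q using Nat.recOnPosPrimePosCoprime with
  | prime_pow p n hp hn =>
    intro _ f hdeg hgood
    have hg := hgood p hp (dvd_pow_self p (by omega))
    rw [Nat.primeFactors_prime_pow (by omega) hp, Finset.card_singleton, pow_one]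
    rcases (show n = 1 ∨ 2 ≤ n by omega) with h1 | h1
    · rw [h1, pow_one]
      have h2 := cs_prime κ hκ p hp f hdeg hg
      have hpR : (0 : ℝ) < p := by exact_mod_cast hp.pos
      have hu1 : ‖cs p f‖ / p ≤ 1 := by
        rw [div_le_one hpR]; exact norm_cs_le p f
      have hu0 : 0 ≤ ‖cs p f‖ / p := by positivity
      obtain ⟨u, hu⟩ : ∃ u, u = ‖cs p f‖ / p := ⟨_, rfl⟩
      rw [← hu] at h2 hu1 hu0 ⊢
      have h3 : (u ^ κ * p) ^ 2 ≤ (2 * (κ : ℝ) ^ (κ + 1)) ^ 2 := by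
        have h4 : (1 : ℝ) ≤ 2 * (κ : ℝ) ^ (κ + 1) := by
          have : (1 : ℝ) ≤ (κ : ℝ) ^ (κ + 1) := one_le_pow₀ hκR
          linarith
        calc (u ^ κ * p) ^ 2 = u ^ (2 * κ) * (p : ℝ) ^ 2 := by ring
          _ ≤ 2 * (κ : ℝ) ^ (κ + 1) := h2
          _ ≤ _ := le_self_pow₀ h4 (by norm_num)
      have h5 : u ^ κ * p ≤ 2 * (κ : ℝ) ^ (κ + 1) := le_of_pow_le_pow_left₀ (by norm_num) (by positivity) h3
      calc u ^ (2 * κ - 1) * p ≤ u ^ κ * p := by
            refine mul_le_mul_of_nonneg_right ?_ hpR.le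
            exact pow_le_pow_of_le_one hu0 hu1 (by omega)
        _ ≤ 2 * (κ : ℝ) ^ (κ + 1) := h5
        _ ≤ 2 * (κ : ℝ) ^ (2 * κ + 1) := by
            refine mul_le_mul_of_nonneg_left ?_ (by norm_num)
            exact pow_le_pow_right₀ hκR (by omega)
    · have h2 := cs_pp κ hκ p hp n h1 f hdeg hg
      push_cast
      linarith
  | zero => intro h; omega
  | one =>
    intro _ f _ _
    simp only [Nat.primeFactors_one, Finset.card_empty, pow_zero, Nat.cast_one, mul_one, div_one]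
    exact pow_le_one₀ (norm_nonneg _) (by have := norm_cs_le 1 f; simpa using this)
  | coprime a b ha hb hcop iha ihb =>
    intro _ f hdeg hgood
    have ha1 : 1 ≤ a := by omega
    have hb1 : 1 ≤ b := by omega
    obtain ⟨u, v, huv⟩ := Nat.isCoprime_iff_coprime.2 hcop
    -- u * a + v * b = 1
    have hprod := cs_mul a b ha1 hb1 hcop f v u (by linarith)
    have hgen : ∀ (a' : ℕ) (w : ℤ), (∀ p : ℕ, p.Prime → p ∣ a' → ¬ (p : ℤ) ∣ w) → a' ∣ a * b →
        ∀ p : ℕ, p.Prime → p ∣ a' → ∃ i, 1 ≤ i ∧ ¬ (p : ℤ) ∣ (C w * f).coeff i := by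
      intro a' w hw hab p hp hpa
      obtain ⟨i, hi1, hi2⟩ := hgood p hp (hpa.trans hab)
      refine ⟨i, hi1, ?_⟩
      rw [Polynomial.coeff_C_mul]
      intro hd
      rcases (Nat.prime_iff_prime_int.1 hp).dvd_or_dvd hd with h | h
      · exact hw p hp hpa h
      · exact hi2 h
    have hdeg' : ∀ w : ℤ, (C w * f).natDegree ≤ κ := fun w => (Polynomial.natDegree_C_mul_le _ _).trans hdeg
    have hpd : ∀ p : ℕ, p.Prime → ¬ (p : ℤ) ∣ 1 := by
      intro p hp h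
      have h1 : p ∣ 1 := by exact_mod_cast h
      exact hp.one_lt.ne' (Nat.dvd_one.1 h1)
    have h1 := iha ha1 (C v * f) (hdeg' v) (hgen a v (by
      intro p hp hpa h
      apply hpd p hp
      rw [← huv]
      exact dvd_add (Dvd.dvd.mul_left (by exact_mod_cast hpa) _) (h.mul_right _)) (Dvd.intro _ rfl))
    have h2 := ihb hb1 (C u * f) (hdeg' u) (hgen b u (by
      intro p hp hpa h
      apply hpd p hp
      rw [← huv]
      exact dvd_add (h.mul_right _) (Dvd.dvd.mul_left (by exact_mod_cast hpa) _)) (Dvd.intro_left _ rfl))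
    rw [Nat.Coprime.primeFactors_mul hcop, Finset.card_union_of_disjoint hcop.disjoint_primeFactors, pow_add, hprod,
      norm_mul]
    have haR : (0 : ℝ) < a := by exact_mod_cast ha1
    have hbR : (0 : ℝ) < b := by exact_mod_cast hb1
    calc (‖cs a (C v * f)‖ * ‖cs b (C u * f)‖ / ((a * b : ℕ) : ℝ)) ^ (2 * κ - 1) * ((a * b : ℕ) : ℝ)
        = ((‖cs a (C v * f)‖ / a) ^ (2 * κ - 1) * a) * ((‖cs b (C u * f)‖ / b) ^ (2 * κ - 1) * b) := by
          push_cast
          rw [mul_div_mul_comm, mul_pow]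
          ring
      _ ≤ _ := mul_le_mul h1 h2 (by positivity) (by positivity)

/-- complete sums, general case. -/
lemma cs_gen (κ : ℕ) (hκ : 1 ≤ κ) (i0 : ℕ) (hi0 : 1 ≤ i0) : ∀ q : ℕ, 1 ≤ q → ∀ f : ℤ[X], f.natDegree ≤ κ →
    (‖cs q f‖ / q) ^ (2 * κ - 1) * (q : ℝ) ≤
      (Int.gcd (f.coeff i0) q : ℝ) * (2 * (κ : ℝ) ^ (2 * κ + 1)) ^ q.primeFactors.card := by
  have hκR : (1 : ℝ) ≤ κ := by exact_mod_cast hκ
  have hk1 : (1 : ℝ) ≤ (κ : ℝ) ^ (2 * κ + 1) := one_le_pow₀ hκR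
  intro q
  induction q using Nat.strong_induction_on with
  | _ q ih =>
  intro hq f hdeg
  have hqz : (0 : ℤ) < q := by exact_mod_cast hq
  have hg1 : 1 ≤ Int.gcd (f.coeff i0) q := by
    rw [Nat.one_le_iff_ne_zero]
    intro h0
    rw [Int.gcd_eq_zero_iff] at h0
    omega
  have hg1R : (1 : ℝ) ≤ (Int.gcd (f.coeff i0) q : ℝ) := by exact_mod_cast hg1
  by_cases hgood : ∀ p : ℕ, p.Prime → p ∣ q → ∃ i, 1 ≤ i ∧ ¬ (p : ℤ) ∣ f.coeff i
  · refine (cs_prim κ hκ q hq f hdeg hgood).trans ?_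
    refine le_mul_of_one_le_left (by positivity) hg1R
  · push Not at hgood
    obtain ⟨p, hp, ⟨q', rfl⟩, hdiv⟩ := hgood
    have hq'1 : 1 ≤ q' := by
      rcases Nat.eq_zero_or_pos q' with h | h
      · rw [h] at hq; omega
      · exact h
    have hp1 : 1 ≤ p := hp.pos
    have hpR : (0 : ℝ) < p := by exact_mod_cast hp.pos
    have hq'R : (0 : ℝ) < q' := by exact_mod_cast hq'1
    obtain ⟨g, hg⟩ : ∃ g : ℤ[X], f - C (f.coeff 0) = C (p : ℤ) * g := by
      have : C (p : ℤ) ∣ f - C (f.coeff 0) := by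
        rw [Polynomial.C_dvd_iff_dvd_coeff]
        intro i
        rw [Polynomial.coeff_sub, Polynomial.coeff_C]
        split_ifs with h
        · rw [h, sub_self]; exact dvd_zero _
        · rw [sub_zero]; exact hdiv i (by omega)
      exact this
    have hcoef : ∀ i, 1 ≤ i → f.coeff i = p * g.coeff i := by
      intro i hi
      have h1 := congrArg (fun F : ℤ[X] => F.coeff i) hg
      simp only [Polynomial.coeff_sub, Polynomial.coeff_C, Polynomial.coeff_C_mul] at h1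
      rw [if_neg (by omega), sub_zero] at h1
      exact h1
    have hgdeg : g.natDegree ≤ κ := by
      rw [Polynomial.natDegree_le_iff_coeff_eq_zero]
      intro i hi
      have h1 := hcoef i (by omega)
      rw [Polynomial.coeff_eq_zero_of_natDegree_lt (by omega)] at h1
      have hpz : (p : ℤ) ≠ 0 := by exact_mod_cast hp.ne_zero
      rcases mul_eq_zero.1 h1.symm with h2 | h2
      · exact absurd h2 hpz
      · exact h2
    have hcs : cs (p * q') f = ec ((f.coeff 0 : ℝ) / ((p * q' : ℕ) : ℝ)) * (p * cs q' g) := by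
      unfold cs
      rw [mul_comm p q', sum_range_split q' p, Finset.mul_sum, Finset.mul_sum]
      refine Finset.sum_congr rfl fun u _ => ?_
      have h1 : ∀ v ∈ range p, ec (((f.eval (((u + q' * v : ℕ)) : ℤ) : ℤ) : ℝ) / ((q' * p : ℕ) : ℝ)) =
          ec ((f.coeff 0 : ℝ) / ((q' * p : ℕ) : ℝ)) * ec (((g.eval ((u : ℕ) : ℤ) : ℤ) : ℝ) / (q' : ℝ)) := by
        intro v _
        have h2 : ec (((g.eval ((u : ℕ) : ℤ) : ℤ) : ℝ) / (q' : ℝ)) =
            ec (((g.eval (((u + q' * v : ℕ)) : ℤ) : ℤ) : ℝ) / (q' : ℝ)) := by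
          refine ec_div_congr q' hq'1 _ _ ?_
          refine dvd_trans ?_ (Polynomial.sub_dvd_eval_sub _ _ g)
          refine ⟨-(v : ℤ), ?_⟩
          push_cast; ring
        rw [h2, ← ec_add]
        congr 1
        have h3 : f.eval (((u + q' * v : ℕ)) : ℤ) = f.coeff 0 + p * g.eval (((u + q' * v : ℕ)) : ℤ) := by
          have h4 := congrArg (fun F : ℤ[X] => F.eval (((u + q' * v : ℕ)) : ℤ)) hg
          simp only [Polynomial.eval_sub, Polynomial.eval_C, Polynomial.eval_mul] at h4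
          linarith
        rw [h3]
        obtain ⟨G, hG⟩ : ∃ G : ℤ, G = g.eval (((u + q' * v : ℕ)) : ℤ) := ⟨_, rfl⟩
        rw [← hG]
        push_cast
        field_simp
      rw [Finset.sum_congr rfl h1, Finset.sum_const, Finset.card_range, nsmul_eq_mul]
      ring
    have hih := ih q' (by
      calc q' < 2 * q' := by omega
        _ ≤ p * q' := Nat.mul_le_mul_right _ hp.two_le) hq'1 g hgdeg
    have hgcd : Int.gcd (f.coeff i0) ((p * q' : ℕ) : ℤ) = p * Int.gcd (g.coeff i0) (q' : ℤ) := by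
      rw [hcoef i0 hi0]
      push_cast
      rw [Int.gcd_mul_left]
      simp
    have hpf : q'.primeFactors.card ≤ (p * q').primeFactors.card := by
      refine Finset.card_le_card ?_
      exact Nat.primeFactors_mono (Dvd.intro_left _ rfl) (by positivity)
    have hn : ‖cs (p * q') f‖ / ((p * q' : ℕ) : ℝ) = ‖cs q' g‖ / q' := by
      rw [hcs, norm_mul, norm_ec, one_mul, norm_mul, Complex.norm_natCast]
      push_cast
      field_simp
    rw [hn, hgcd]
    have hC1 : (1 : ℝ) ≤ 2 * (κ : ℝ) ^ (2 * κ + 1) := by linarith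
    calc (‖cs q' g‖ / q') ^ (2 * κ - 1) * ((p * q' : ℕ) : ℝ)
        = p * ((‖cs q' g‖ / q') ^ (2 * κ - 1) * q') := by push_cast; ring
      _ ≤ p * ((Int.gcd (g.coeff i0) q' : ℝ) * (2 * (κ : ℝ) ^ (2 * κ + 1)) ^ q'.primeFactors.card) :=
          mul_le_mul_of_nonneg_left hih hpR.le
      _ ≤ p * ((Int.gcd (g.coeff i0) q' : ℝ) * (2 * (κ : ℝ) ^ (2 * κ + 1)) ^ (p * q').primeFactors.card) := by
          refine mul_le_mul_of_nonneg_left (mul_le_mul_of_nonneg_left ?_ (Nat.cast_nonneg _)) hpR.le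
          exact pow_le_pow_right₀ hC1 hpf
      _ = _ := by push_cast; ring

/-- complete sums, final form. -/
theorem cs_bound (κ : ℕ) (hκ : 1 ≤ κ) (ε : ℝ) (hε : 0 < ε) : ∃ K : ℝ, 1 ≤ K ∧ ∀ (i0 : ℕ), 1 ≤ i0 →
    ∀ q : ℕ, 1 ≤ q → ∀ f : ℤ[X], f.natDegree ≤ κ →
    (‖cs q f‖ / q) ^ (2 * κ - 1) * (q : ℝ) ^ (1 - ε) ≤ (Int.gcd (f.coeff i0) q : ℝ) * K := by
  have hκR : (1 : ℝ) ≤ κ := by exact_mod_cast hκ
  have hk1 : (1 : ℝ) ≤ (κ : ℝ) ^ (2 * κ + 1) := one_le_pow₀ hκR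
  obtain ⟨K, hK1, hK⟩ := pow_omega_le ε (2 * (κ : ℝ) ^ (2 * κ + 1)) hε (by linarith)
  refine ⟨K, hK1, ?_⟩
  intro i0 hi0 q hq f hdeg
  have hqR : (0 : ℝ) < q := by exact_mod_cast hq
  have h1 := cs_gen κ hκ i0 hi0 q hq f hdeg
  have h2 := hK q hq
  have h3 : (q : ℝ) ^ ε * (q : ℝ) ^ (1 - ε) = q := by
    rw [← Real.rpow_add hqR]; simp
  have h4 : (0 : ℝ) < (q : ℝ) ^ ε := Real.rpow_pos_of_pos hqR _
  refine le_of_mul_le_mul_left ?_ h4
  calc (q : ℝ) ^ ε * ((‖cs q f‖ / q) ^ (2 * κ - 1) * (q : ℝ) ^ (1 - ε))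
      = (‖cs q f‖ / q) ^ (2 * κ - 1) * ((q : ℝ) ^ ε * (q : ℝ) ^ (1 - ε)) := by ring
    _ = (‖cs q f‖ / q) ^ (2 * κ - 1) * q := by rw [h3]
    _ ≤ (Int.gcd (f.coeff i0) q : ℝ) * (2 * (κ : ℝ) ^ (2 * κ + 1)) ^ q.primeFactors.card := h1
    _ ≤ (Int.gcd (f.coeff i0) q : ℝ) * (K * (q : ℝ) ^ ε) := mul_le_mul_of_nonneg_left h2 (Nat.cast_nonneg _)
    _ = _ := by ring

end Pool.Agent.helper132_h
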