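import Pool.Agent.helper132_poly.P1
import Pool.Agent.helper132_h.H1

/-! A van der Corput estimate for polynomial phases. -/

namespace Pool.Agent.helper132_h

open Finset Pool.Agent.helper132_sph Pool.Agent.helper132_poly

/-- sequences with vanishing differences. -/
def PDn : ℕ → (ℕ → ℝ) → Prop
  | 0, x => ∀ n, x (n + 1) = x n
  | (D + 1), x => PDn D (fun n => x (n + 1) - x n)

lemma PDn_of_PP : ∀ (D : ℕ) (A : ℝ) (x : ℤ → ℝ), PP D A x → PDn D (fun n : ℕ => x n) := by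
  intro D
  induction D with
  | zero =>
    intro A x h n
    obtain ⟨c, hc⟩ := h
    have h1 := hc ((n + 1 : ℕ) : ℤ)
    have h2 := hc ((n : ℕ) : ℤ)
    simp only [Finset.range_zero, Finset.sum_empty, pow_zero, mul_one] at h1 h2
    beta_reduce
    linarith
  | succ D ih =>
    intro A x h
    have h1 := ih _ _ (PP.diff h 1)
    have h2 : (fun n : ℕ => (fun n : ℤ => x (n + 1) - x n) (n : ℤ)) =
        (fun n : ℕ => (fun n : ℕ => x n) (n + 1) - (fun n : ℕ => x n) n) := by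
      funext n
      push_cast
      rfl
    show PDn D _
    rw [← h2]
    exact h1

lemma abel_le (N : ℕ) (s G : ℕ → ℝ) (B : ℝ) (hG : ∀ n, |G n| ≤ B) :
    ∑ n ∈ range N, s n * (G (n + 1) - G n) ≤ s N * G N - s 0 * G 0 + B * ∑ n ∈ range N, |s (n + 1) - s n| := by
  induction N with
  | zero => simp
  | succ N ih =>
    rw [Finset.sum_range_succ, Finset.sum_range_succ, mul_add]
    have h1 : (s N - s (N + 1)) * G (N + 1) ≤ B * |s (N + 1) - s N| := by
      calc (s N - s (N + 1)) * G (N + 1) ≤ |(s N - s (N + 1)) * G (N + 1)| := le_abs_self _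
        _ = |s (N + 1) - s N| * |G (N + 1)| := by rw [abs_mul, abs_sub_comm]
        _ ≤ |s (N + 1) - s N| * B := mul_le_mul_of_nonneg_left (hG _) (abs_nonneg _)
        _ = _ := mul_comm _ _
    linarith

/-- total variation of monotone functions along polynomial sequences. -/
lemma tv_bound : ∀ (D : ℕ) (x : ℕ → ℝ), PDn D x → ∀ (g : ℝ → ℝ), Monotone g → ∀ B : ℝ, (∀ t, |g t| ≤ B) →
    ∀ N, ∑ n ∈ range N, |g (x (n + 1)) - g (x n)| ≤ 2 * D * B := by
  intro D
  induction D with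
  | zero =>
    intro x hx g _ B _ N
    have : ∀ n ∈ range N, |g (x (n + 1)) - g (x n)| = 0 := by
      intro n _
      rw [hx n, sub_self, abs_zero]
    rw [Finset.sum_eq_zero this]; simp
  | succ D ih =>
    intro x hx g hg B hB N
    have hB0 : 0 ≤ B := (abs_nonneg _).trans (hB 0)
    obtain ⟨S, hS⟩ : ∃ S : ℝ → ℝ, S = fun t => if 0 ≤ t then 1 else -1 := ⟨_, rfl⟩
    have hSm : Monotone S := by
      intro a b hab
      rw [hS]
      beta_reduce
      split_ifs with h1 h2 <;> first | linarith | norm_num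
    have hSb : ∀ t, |S t| ≤ 1 := by
      intro t; rw [hS]; beta_reduce
      split_ifs <;> simp
    have h1 := ih (fun n => x (n + 1) - x n) hx S hSm 1 hSb N
    have h2 : ∀ n ∈ range N, |g (x (n + 1)) - g (x n)| =
        S (x (n + 1) - x n) * ((fun n => g (x n)) (n + 1) - (fun n => g (x n)) n) := by
      intro n _
      beta_reduce
      rw [hS]
      beta_reduce
      split_ifs with h
      · rw [abs_of_nonneg (sub_nonneg.2 (hg (by linarith))), one_mul]
      · push Not at h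
        rw [abs_of_nonpos (sub_nonpos.2 (hg (by linarith)))]
        ring
    rw [Finset.sum_congr rfl h2]
    have h3 := abel_le N (fun n => S (x (n + 1) - x n)) (fun n => g (x n)) B (fun n => hB _)
    beta_reduce at h3 h1
    have h4 : S (x (N + 1) - x N) * g (x N) ≤ B := by
      calc _ ≤ |S (x (N + 1) - x N) * g (x N)| := le_abs_self _
        _ = |S (x (N + 1) - x N)| * |g (x N)| := abs_mul _ _
        _ ≤ 1 * B := mul_le_mul (hSb _) (hB _) (abs_nonneg _) zero_le_one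
        _ = B := one_mul _
    have h5 : -(S (x (0 + 1) - x 0) * g (x 0)) ≤ B := by
      calc _ ≤ |S (x (0 + 1) - x 0) * g (x 0)| := neg_le_abs _
        _ = |S (x (0 + 1) - x 0)| * |g (x 0)| := abs_mul _ _
        _ ≤ 1 * B := mul_le_mul (hSb _) (hB _) (abs_nonneg _) zero_le_one
        _ = B := one_mul _
    have h6 := mul_le_mul_of_nonneg_left h1 hB0
    push_cast
    have e : 2 * ((D : ℝ) + 1) * B = B + B + B * (2 * D * 1) := by ring
    rw [e]
    linarith

lemma tv_bound_anti (D : ℕ) (x : ℕ → ℝ) (hx : PDn D x) (g : ℝ → ℝ) (hg : Antitone g) (B : ℝ)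
    (hB : ∀ t, |g t| ≤ B) (N : ℕ) : ∑ n ∈ range N, |g (x (n + 1)) - g (x n)| ≤ 2 * D * B := by
  have h := tv_bound D x hx (fun t => - g t) (fun a b hab => neg_le_neg (hg hab)) B (fun t => by
    rw [abs_neg]; exact hB t) N
  refine le_trans (le_of_eq (Finset.sum_congr rfl fun n _ => ?_)) h
  beta_reduce
  rw [← abs_neg]
  congr 1; ring

lemma abel_c (N : ℕ) (E H : ℕ → ℂ) (hE : ∀ n, ‖E n‖ ≤ 1) :
    ‖∑ n ∈ range N, (E (n + 1) - E n) * H n‖ ≤ ‖H N‖ + ‖H 0‖ + ∑ n ∈ range N, ‖H (n + 1) - H n‖ := by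
  have h1 : ∀ N, ∑ n ∈ range N, (E (n + 1) - E n) * H n =
      E N * H N - E 0 * H 0 - ∑ n ∈ range N, E (n + 1) * (H (n + 1) - H n) := by
    intro N
    induction N with
    | zero => simp
    | succ N ih =>
      rw [Finset.sum_range_succ, Finset.sum_range_succ, ih]; ring
  rw [h1]
  have h2 : ‖∑ n ∈ range N, E (n + 1) * (H (n + 1) - H n)‖ ≤ ∑ n ∈ range N, ‖H (n + 1) - H n‖ := by
    refine (norm_sum_le _ _).trans (Finset.sum_le_sum fun n _ => ?_)
    rw [norm_mul]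
    calc _ ≤ 1 * ‖H (n + 1) - H n‖ := mul_le_mul_of_nonneg_right (hE _) (norm_nonneg _)
      _ = _ := one_mul _
  have h3 : ‖E N * H N‖ ≤ ‖H N‖ := by
    rw [norm_mul]
    calc _ ≤ 1 * ‖H N‖ := mul_le_mul_of_nonneg_right (hE _) (norm_nonneg _)
      _ = _ := one_mul _
  have h4 : ‖E 0 * H 0‖ ≤ ‖H 0‖ := by
    rw [norm_mul]
    calc _ ≤ 1 * ‖H 0‖ := mul_le_mul_of_nonneg_right (hE _) (norm_nonneg _)
      _ = _ := one_mul _
  have h5 := norm_sub_le (E N * H N - E 0 * H 0) (∑ n ∈ range N, E (n + 1) * (H (n + 1) - H n))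
  have h6 := norm_sub_le (E N * H N) (E 0 * H 0)
  linarith

/-- the kernel of summation by parts. -/
noncomputable def Gk (t : ℝ) : ℂ := (-(1 / 2) : ℝ) + (-(1 / 2) * (Real.cos (Real.pi * t) / Real.sin (Real.pi * t)) : ℝ) * Complex.I

lemma Gk_mul (t : ℝ) (ht : Real.sin (Real.pi * t) ≠ 0) : (ec t - 1) * Gk t = 1 := by
  have h1 : ec t = ((2 * Real.cos (Real.pi * t) ^ 2 - 1 : ℝ) : ℂ) +
      ((2 * Real.sin (Real.pi * t) * Real.cos (Real.pi * t) : ℝ) : ℂ) * Complex.I := by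
    unfold ec
    rw [Complex.exp_mul_I, ← Complex.ofReal_cos, ← Complex.ofReal_sin]
    have e : 2 * Real.pi * t = 2 * (Real.pi * t) := by ring
    rw [e, Real.cos_two_mul, Real.sin_two_mul]
  have h2 := Real.sin_sq_add_cos_sq (Real.pi * t)
  have hmul : ∀ x y u v : ℝ, ((x : ℂ) + (y : ℂ) * Complex.I - 1) * ((u : ℂ) + (v : ℂ) * Complex.I) =
      (((x - 1) * u - y * v : ℝ) : ℂ) + (((x - 1) * v + y * u : ℝ) : ℂ) * Complex.I := by
    intro x y u v
    push_cast
    linear_combination ((y : ℂ) * v) * Complex.I_sq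
  rw [h1]
  unfold Gk
  rw [hmul]
  have e1 : (2 * Real.cos (Real.pi * t) ^ 2 - 1 - 1) * (-(1 / 2)) - 2 * Real.sin (Real.pi * t) * Real.cos (Real.pi * t) *
      (-(1 / 2) * (Real.cos (Real.pi * t) / Real.sin (Real.pi * t))) = 1 := by
    field_simp
    ring
  have e2 : (2 * Real.cos (Real.pi * t) ^ 2 - 1 - 1) * (-(1 / 2) * (Real.cos (Real.pi * t) / Real.sin (Real.pi * t))) +
      2 * Real.sin (Real.pi * t) * Real.cos (Real.pi * t) * (-(1 / 2)) = 0 := by
    field_simp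
    linear_combination (-2 * (Real.cos (Real.pi * t))) * h2
  rw [e1, e2]
  simp

lemma ec_diff_Gk (a b : ℝ) (hs : Real.sin (Real.pi * (b - a)) ≠ 0) : ec a = (ec b - ec a) * Gk (b - a) := by
  have h1 : ec b = ec a * ec (b - a) := by rw [← ec_add]; congr 1; ring
  rw [h1]
  have h2 := Gk_mul (b - a) hs
  calc ec a = ec a * ((ec (b - a) - 1) * Gk (b - a)) := by rw [h2, mul_one]
    _ = _ := by ring

lemma cot_facts (δ : ℝ) (hδ : 0 < δ) (hδ2 : δ ≤ 1 / 2) (s t : ℝ) (hs : δ ≤ s) (hst : s ≤ t) (ht : t ≤ 1 / 2) :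
    0 ≤ Real.cos (Real.pi * t) / Real.sin (Real.pi * t) ∧
    Real.cos (Real.pi * t) / Real.sin (Real.pi * t) ≤ Real.cos (Real.pi * s) / Real.sin (Real.pi * s) ∧
    Real.cos (Real.pi * s) / Real.sin (Real.pi * s) ≤ 1 / (2 * δ) ∧ 0 < Real.sin (Real.pi * s) := by
  have hpi := Real.pi_pos
  have h1 : 0 < Real.pi * s := by nlinarith
  have h2 : Real.pi * t ≤ Real.pi / 2 := by nlinarith
  have h3 : Real.pi * s ≤ Real.pi * t := by nlinarith
  have hsp : ∀ u, δ ≤ u → u ≤ 1 / 2 → 2 * δ ≤ Real.sin (Real.pi * u) := by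
    intro u hu1 hu2
    have h4 := Real.mul_le_sin (show 0 ≤ Real.pi * u by nlinarith) (by nlinarith)
    have h5 : 2 / Real.pi * (Real.pi * u) = 2 * u := by field_simp
    rw [h5] at h4
    linarith
  have hss := hsp s hs (by linarith)
  have hst' := hsp t (by linarith) ht
  have hc0 : ∀ u, 0 ≤ u → u ≤ 1 / 2 → 0 ≤ Real.cos (Real.pi * u) := by
    intro u hu0 hu
    exact Real.cos_nonneg_of_neg_pi_div_two_le_of_le (by nlinarith) (by nlinarith)
  refine ⟨div_nonneg (hc0 t (by linarith) ht) (by linarith), ?_, ?_, by linarith⟩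
  · refine div_le_div₀ (hc0 s (by linarith) (by linarith)) ?_ (by linarith) ?_
    · exact Real.cos_le_cos_of_nonneg_of_le_pi h1.le (by linarith) h3
    · exact Real.sin_le_sin_of_le_of_le_pi_div_two (by linarith) h2 h3
  · rw [div_le_div_iff₀ (by linarith) (by linarith)]
    have := Real.cos_le_one (Real.pi * s)
    have h6 : Real.cos (Real.pi * s) * (2 * δ) ≤ 1 * (2 * δ) := mul_le_mul_of_nonneg_right this (by linarith)
    linarith

/-- the part with increments at least `δ`. -/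
lemma plus_part (D : ℕ) (φ : ℕ → ℝ) (hφ : PDn D (fun n => φ (n + 1) - φ n)) (δ : ℝ) (hδ : 0 < δ)
    (hδ2 : δ ≤ 1 / 2) (N : ℕ) (hN : ∀ n < N, φ (n + 1) - φ n ≤ 1 / 2) :
    ‖∑ n ∈ (range N).filter (fun n => δ ≤ φ (n + 1) - φ n), ec (φ n)‖ ≤ (1 + 2 * D) / δ := by
  classical
  obtain ⟨g1, hg1⟩ : ∃ g1 : ℝ → ℝ, g1 = fun t => Real.cos (Real.pi * (max δ (min t (1 / 2)))) /
    Real.sin (Real.pi * (max δ (min t (1 / 2)))) := ⟨_, rfl⟩
  obtain ⟨g2, hg2⟩ : ∃ g2 : ℝ → ℝ, g2 = fun t => if t < δ then 1 else 0 := ⟨_, rfl⟩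
  obtain ⟨c0, hc0⟩ : ∃ c0 : ℝ, c0 = Real.cos (Real.pi * δ) / Real.sin (Real.pi * δ) := ⟨_, rfl⟩
  obtain ⟨H, hH⟩ : ∃ H : ℝ → ℂ, H = fun t => (((-(1 / 2)) * (1 - g2 t) : ℝ) : ℂ) +
    (((-(1 / 2)) * (g1 t - c0 * g2 t) : ℝ) : ℂ) * Complex.I := ⟨_, rfl⟩
  have hclamp : ∀ t : ℝ, δ ≤ max δ (min t (1 / 2)) ∧ max δ (min t (1 / 2)) ≤ 1 / 2 := by
    intro t
    exact ⟨le_max_left _ _, max_le hδ2 (min_le_right _ _)⟩
  have hc0b : 0 ≤ c0 ∧ c0 ≤ 1 / (2 * δ) := by
    have := cot_facts δ hδ hδ2 δ δ le_rfl le_rfl hδ2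
    rw [hc0]; exact ⟨this.1, this.2.2.1⟩
  have hg1b : ∀ t, |g1 t| ≤ 1 / (2 * δ) := by
    intro t
    have := cot_facts δ hδ hδ2 _ _ (hclamp t).1 le_rfl (hclamp t).2
    rw [hg1]; beta_reduce
    rw [abs_of_nonneg this.1]; exact this.2.2.1
  have hg1a : Antitone g1 := by
    intro a b hab
    rw [hg1]; beta_reduce
    exact (cot_facts δ hδ hδ2 _ _ (hclamp a).1 (max_le_max le_rfl (min_le_min hab le_rfl)) (hclamp b).2).2.1
  have hg2b : ∀ t, |g2 t| ≤ 1 := by
    intro t; rw [hg2]; beta_reduce; split_ifs <;> simp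
  have hg2a : Antitone g2 := by
    intro a b hab
    rw [hg2]; beta_reduce
    split_ifs with h1 h2 <;> first | linarith | norm_num
  have hHn : ∀ t, ‖H t‖ ≤ 1 / (2 * δ) := by
    intro t
    have hg2t : g2 t = 0 ∨ g2 t = 1 := by
      rw [hg2]; beta_reduce; split_ifs <;> simp
    have hδ4 : 1 / 2 ≤ 1 / (4 * δ) := by
      rw [div_le_div_iff₀ (by norm_num) (by linarith)]; linarith
    rcases hg2t with h | h
    · rw [hH]; beta_reduce
      rw [h]
      refine (norm_add_le _ _).trans ?_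
      rw [norm_mul, Complex.norm_I, mul_one, Complex.norm_real, Complex.norm_real, Real.norm_eq_abs, Real.norm_eq_abs]
      have h1 := hg1b t
      have e1 : |(-(1 / 2)) * ((1 : ℝ) - 0)| = 1 / 2 := by
        rw [sub_zero, mul_one, abs_neg]; norm_num
      have e2 : |(-(1 / 2)) * (g1 t - c0 * 0)| = 1 / 2 * |g1 t| := by
        rw [mul_zero, sub_zero, abs_mul, abs_neg]; norm_num
      rw [e1, e2]
      have e3 : 1 / (2 * δ) = 1 / (4 * δ) + 1 / 2 * (1 / (2 * δ)) := by field_simp; norm_num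
      rw [e3]
      linarith
    · have h1 : t < δ := by
        rw [hg2] at h; beta_reduce at h
        by_contra hcon
        rw [if_neg hcon] at h
        norm_num at h
      have h2 : g1 t = c0 := by
        rw [hg1, hc0]; beta_reduce
        have : max δ (min t (1 / 2)) = δ := max_eq_left ((min_le_left _ _).trans h1.le)
        rw [this]
      rw [hH]; beta_reduce
      rw [h, h2]
      simp
      positivity
  have hHd : ∀ s t, ‖H s - H t‖ ≤ 1 / 2 * |g2 s - g2 t| + 1 / 2 * |g1 s - g1 t| + 1 / 2 * c0 * |g2 s - g2 t| := by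
    intro s t
    rw [hH]; beta_reduce
    have e : (((-(1 / 2)) * (1 - g2 s) : ℝ) : ℂ) + (((-(1 / 2)) * (g1 s - c0 * g2 s) : ℝ) : ℂ) * Complex.I -
        ((((-(1 / 2)) * (1 - g2 t) : ℝ) : ℂ) + (((-(1 / 2)) * (g1 t - c0 * g2 t) : ℝ) : ℂ) * Complex.I) =
        (((1 / 2) * (g2 s - g2 t) : ℝ) : ℂ) + ((((1 / 2) * c0) * (g2 s - g2 t) : ℝ) : ℂ) * Complex.I +
        ((-(1 / 2) * (g1 s - g1 t) : ℝ) : ℂ) * Complex.I := by
      push_cast; ring
    rw [e]
    refine (norm_add_le _ _).trans ?_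
    refine (add_le_add_left (norm_add_le _ _) _).trans ?_
    rw [norm_mul, norm_mul, Complex.norm_I, mul_one, mul_one, Complex.norm_real, Complex.norm_real, Complex.norm_real,
      Real.norm_eq_abs, Real.norm_eq_abs, Real.norm_eq_abs, abs_mul (1 / 2) (g2 s - g2 t), abs_mul (1 / 2 * c0) (g2 s - g2 t), abs_mul (-(1 / 2)) (g1 s - g1 t), abs_neg,
      abs_of_nonneg (show (0 : ℝ) ≤ 1 / 2 by norm_num), abs_of_nonneg (show 0 ≤ 1 / 2 * c0 by linarith [hc0b.1])]
    linarith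
  have hkey : ∑ n ∈ (range N).filter (fun n => δ ≤ φ (n + 1) - φ n), ec (φ n) =
      ∑ n ∈ range N, (ec (φ (n + 1)) - ec (φ n)) * H (φ (n + 1) - φ n) := by
    rw [Finset.sum_filter]
    refine Finset.sum_congr rfl fun n hn => ?_
    rw [Finset.mem_range] at hn
    have hle := hN n hn
    split_ifs with h
    · have hsin := (cot_facts δ hδ hδ2 (φ (n + 1) - φ n) _ h le_rfl hle).2.2.2
      have hHG : H (φ (n + 1) - φ n) = Gk (φ (n + 1) - φ n) := by
        rw [hH, hg1, hg2]; beta_reduce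
        unfold Gk
        rw [if_neg (by linarith), min_eq_left hle, max_eq_right h]
        simp
      rw [hHG]
      exact ec_diff_Gk _ _ hsin.ne'
    · push Not at h
      have hH0 : H (φ (n + 1) - φ n) = 0 := by
        have h2 : g1 (φ (n + 1) - φ n) = c0 := by
          rw [hg1, hc0]; beta_reduce
          have : max δ (min (φ (n + 1) - φ n) (1 / 2)) = δ := max_eq_left ((min_le_left _ _).trans h.le)
          rw [this]
        have h3 : g2 (φ (n + 1) - φ n) = 1 := by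
          rw [hg2]; beta_reduce; rw [if_pos h]
        rw [hH]; beta_reduce
        rw [h2, h3]; simp
      rw [hH0, mul_zero]
  rw [hkey]
  refine (abel_c N (fun n => ec (φ n)) (fun n => H (φ (n + 1) - φ n)) (fun n => (norm_ec _).le)).trans ?_
  beta_reduce
  have hT1 := tv_bound_anti D _ hφ g1 hg1a (1 / (2 * δ)) hg1b N
  have hT2 := tv_bound_anti D _ hφ g2 hg2a 1 hg2b N
  beta_reduce at hT1 hT2
  have hTV : ∑ n ∈ range N, ‖H (φ (n + 1 + 1) - φ (n + 1)) - H (φ (n + 1) - φ n)‖ ≤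
      1 / 2 * (2 * D * 1) + 1 / 2 * (2 * D * (1 / (2 * δ))) + 1 / 2 * c0 * (2 * D * 1) := by
    refine (Finset.sum_le_sum fun n _ => hHd _ _).trans ?_
    rw [Finset.sum_add_distrib, Finset.sum_add_distrib, ← Finset.mul_sum, ← Finset.mul_sum, ← Finset.mul_sum]
    have h1 := mul_le_mul_of_nonneg_left hT2 (show 0 ≤ 1 / 2 * c0 by linarith [hc0b.1])
    linarith
  have hD0 : (0 : ℝ) ≤ D := Nat.cast_nonneg _
  have hfin : 1 / 2 * (2 * (D : ℝ) * 1) + 1 / 2 * (2 * D * (1 / (2 * δ))) + 1 / 2 * c0 * (2 * D * 1) ≤ 2 * D / δ := by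
    have h1 : 1 / 2 * c0 * (2 * (D : ℝ) * 1) ≤ D * (1 / (2 * δ)) := by
      have := mul_le_mul_of_nonneg_left hc0b.2 hD0
      linarith
    have h2 : (D : ℝ) * 1 ≤ D * (1 / (2 * δ)) := by
      refine mul_le_mul_of_nonneg_left ?_ hD0
      rw [le_div_iff₀ (by linarith)]; linarith
    have h3 : (2 : ℝ) * D / δ = 4 * (D * (1 / (2 * δ))) := by field_simp; ring
    have h4 : 0 ≤ (D : ℝ) * (1 / (2 * δ)) := by positivity
    rw [h3]
    linarith
  have e : (1 + 2 * (D : ℝ)) / δ = 1 / (2 * δ) + 1 / (2 * δ) + 2 * D / δ := by field_simp; ring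
  rw [e]
  have h1 := hHn (φ (N + 1) - φ N)
  have h2 := hHn (φ (0 + 1) - φ 0)
  linarith

end Pool.Agent.helper132_h
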