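import Pool.Agent.helper132_h.H5
import Pool.Agent.helper132_h.H7
import Pool.Agent.helper132_sph.Fact

/-! Sums over major arcs. -/

namespace Pool.Agent.helper132_h

open Finset Polynomial Pool.Agent.helper132_sph Pool.Agent.helper132_poly

lemma period_shift (q : ℕ) (c : ℤ → ℂ) (hc : ∀ n, c (n + q) = c n) (a : ℤ) :
    ∑ i ∈ range q, c (a + i) = ∑ i ∈ range q, c i := by
  have hstep : ∀ a : ℤ, ∑ i ∈ range q, c (a + 1 + i) = ∑ i ∈ range q, c (a + i) := by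
    intro a
    have h1 := Finset.sum_range_succ (fun i : ℕ => c (a + i)) q
    have h2 := Finset.sum_range_succ' (fun i : ℕ => c (a + i)) q
    rw [h1] at h2
    rw [hc] at h2
    have h3 : ∑ i ∈ range q, c (a + ((i + 1 : ℕ) : ℤ)) = ∑ i ∈ range q, c (a + 1 + i) := by
      refine Finset.sum_congr rfl fun i _ => ?_
      congr 1; push_cast; ring
    rw [h3] at h2
    have h4 : c (a + ((0 : ℕ) : ℤ)) = c a := by simp
    rw [h4] at h2
    exact (add_right_cancel h2).symm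
  induction a using Int.induction_on with
  | zero => simp
  | succ i ih => rw [hstep, ih]
  | pred i ih =>
    have h1 := hstep (-(i : ℤ) - 1)
    have h2 : -(i : ℤ) - 1 + 1 = -i := by ring
    rw [h2, ih] at h1
    exact h1.symm

lemma partial_le (q : ℕ) (hq : 1 ≤ q) (c : ℤ → ℂ) (hc : ∀ n, c (n + q) = c n) (hc1 : ∀ n, ‖c n‖ ≤ 1) (a : ℤ) :
    ∀ N : ℕ, ‖∑ i ∈ range N, (c (a + i) - (∑ j ∈ range q, c j) / q)‖ ≤ 2 * q := by
  have hqR : (0 : ℝ) < q := by exact_mod_cast hq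
  have hqC : (q : ℂ) ≠ 0 := by exact_mod_cast (by omega : q ≠ 0)
  obtain ⟨m, hm⟩ : ∃ m : ℂ, m = (∑ j ∈ range q, c j) / q := ⟨_, rfl⟩
  rw [← hm]
  have hm1 : ‖m‖ ≤ 1 := by
    rw [hm, norm_div, Complex.norm_natCast, div_le_one hqR]
    refine (norm_sum_le _ _).trans ?_
    calc _ ≤ ∑ _j ∈ range q, (1 : ℝ) := Finset.sum_le_sum fun _ _ => hc1 _
      _ = q := by simp
  intro N
  induction N using Nat.strong_induction_on with
  | _ N ih =>
  rcases lt_or_ge N q with h | h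
  · refine (norm_sum_le _ _).trans ?_
    calc _ ≤ ∑ _j ∈ range N, (2 : ℝ) := by
          refine Finset.sum_le_sum fun i _ => (norm_sub_le _ _).trans ?_
          linarith [hc1 (a + i)]
      _ = 2 * N := by simp [mul_comm]
      _ ≤ 2 * q := by
          have : (N : ℝ) ≤ q := by exact_mod_cast h.le
          linarith
  · obtain ⟨M, rfl⟩ := Nat.exists_eq_add_of_le h
    have h1 : ∑ i ∈ range (q + M), (c (a + i) - m) = ∑ i ∈ range M, (c (a + i) - m) := by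
      rw [Finset.sum_range_add]
      have h2 : ∑ x ∈ range q, (c (a + x) - m) = 0 := by
        rw [Finset.sum_sub_distrib, period_shift q c hc, Finset.sum_const, Finset.card_range, nsmul_eq_mul, hm]
        field_simp
        ring
      rw [h2, zero_add]
      refine Finset.sum_congr rfl fun i _ => ?_
      congr 1
      rw [← hc (a + i)]
      congr 1; push_cast; ring
    rw [h1]
    exact ih M (by omega)

/-- sums of periodic functions with a smooth weight. -/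
lemma periodic_sum (q : ℕ) (hq : 1 ≤ q) (c : ℤ → ℂ) (hc : ∀ n, c (n + q) = c n) (hc1 : ∀ n, ‖c n‖ ≤ 1) (a : ℤ)
    (N : ℕ) (g : ℕ → ℂ) (hg1 : ∀ n, ‖g n‖ ≤ 1) (W : ℝ) (hW : ∀ n < N, ‖g (n + 1) - g n‖ ≤ W) :
    ‖∑ i ∈ range N, c (a + i) * g i - ((∑ j ∈ range q, c j) / q) * ∑ i ∈ range N, g i‖ ≤ 2 * q * (1 + N * W) := by
  obtain ⟨m, hm⟩ : ∃ m : ℂ, m = (∑ j ∈ range q, c j) / q := ⟨_, rfl⟩
  have hS := partial_le q hq c hc hc1 a
  rw [← hm] at hS ⊢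
  obtain ⟨S, hSd⟩ : ∃ S : ℕ → ℂ, S = fun N => ∑ i ∈ range N, (c (a + i) - m) := ⟨_, rfl⟩
  have hSb : ∀ n, ‖S n‖ ≤ 2 * q := by intro n; rw [hSd]; exact hS n
  have hqR : (0 : ℝ) ≤ q := Nat.cast_nonneg _
  have hid : ∀ N, ∑ i ∈ range N, c (a + i) * g i - m * ∑ i ∈ range N, g i =
      S N * g N - ∑ i ∈ range N, S (i + 1) * (g (i + 1) - g i) := by
    intro N
    induction N with
    | zero => rw [hSd]; simp
    | succ N ih =>
      have h1 : S (N + 1) = S N + (c (a + N) - m) := by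
        rw [hSd]; beta_reduce; rw [Finset.sum_range_succ]
      rw [Finset.sum_range_succ, Finset.sum_range_succ (fun i => g i), Finset.sum_range_succ (fun i => S (i + 1) * (g (i + 1) - g i))]
      have e : ∑ x ∈ range N, c (a + x) * g x + c (a + N) * g N - m * (∑ x ∈ range N, g x + g N) =
          (∑ i ∈ range N, c (a + i) * g i - m * ∑ i ∈ range N, g i) + (c (a + N) - m) * g N := by ring
      rw [e, ih, h1]
      ring
  rw [hid]
  refine (norm_sub_le _ _).trans ?_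
  have h1 : ‖S N * g N‖ ≤ 2 * q := by
    rw [norm_mul]
    calc _ ≤ 2 * (q : ℝ) * 1 := mul_le_mul (hSb N) (hg1 N) (norm_nonneg _) (by positivity)
      _ = _ := mul_one _
  have h2 : ‖∑ i ∈ range N, S (i + 1) * (g (i + 1) - g i)‖ ≤ N * (2 * q * W) := by
    refine (norm_sum_le _ _).trans ?_
    calc _ ≤ ∑ _i ∈ range N, 2 * q * W := by
          refine Finset.sum_le_sum fun i hi => ?_
          rw [norm_mul]
          exact mul_le_mul (hSb _) (hW i (Finset.mem_range.1 hi)) (norm_nonneg _) (by positivity)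
      _ = _ := by rw [Finset.sum_const, Finset.card_range, nsmul_eq_mul]
  calc _ ≤ 2 * (q : ℝ) + N * (2 * q * W) := add_le_add h1 h2
    _ = _ := by ring

/-- comparison with the complete sum. -/
lemma ap_sum (q : ℕ) (hq : 1 ≤ q) (β : ℤ) (θ : ℝ) (f : ℤ[X]) (a b : ℤ) (N : ℕ) (hN : b - a ≤ N) (V : ℝ) (hV0 : 0 ≤ V)
    (hV : ∀ n ∈ Ico a b, |((f.eval (n + 1) : ℤ) : ℝ) - ((f.eval n : ℤ) : ℝ)| ≤ V) :
    ‖∑ n ∈ Ico a b, ec (((β : ℝ) / q + θ) * ((f.eval n : ℤ) : ℝ))‖ ≤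
      ‖cs q (C β * f)‖ / q * ‖∑ n ∈ Ico a b, ec (θ * ((f.eval n : ℤ) : ℝ))‖ + 2 * q * (1 + N * (2 * Real.pi * (|θ| * V))) := by
  have hqR : (0 : ℝ) < q := by exact_mod_cast hq
  have hpi := Real.pi_pos
  obtain ⟨c, hc⟩ : ∃ c : ℤ → ℂ, c = fun n => ec (((β * f.eval n : ℤ) : ℝ) / q) := ⟨_, rfl⟩
  have hcper : ∀ n, c (n + q) = c n := by
    intro n
    rw [hc]; beta_reduce
    refine ec_div_congr q hq _ _ ?_
    rw [← mul_sub]
    refine Dvd.dvd.mul_left ?_ _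
    refine dvd_trans ?_ (Polynomial.sub_dvd_eval_sub _ _ f)
    exact ⟨1, by ring⟩
  have hc1 : ∀ n, ‖c n‖ ≤ 1 := by intro n; rw [hc]; exact (norm_ec _).le
  obtain ⟨N', hN'⟩ : ∃ N' : ℕ, N' = (b - a).toNat := ⟨_, rfl⟩
  have hN'N : (N' : ℝ) ≤ N := by
    have : N' ≤ N := by omega
    exact_mod_cast this
  obtain ⟨g, hg⟩ : ∃ g : ℕ → ℂ, g = fun i : ℕ => ec (θ * ((f.eval (a + i) : ℤ) : ℝ)) := ⟨_, rfl⟩
  have hg1 : ∀ n, ‖g n‖ ≤ 1 := by intro n; rw [hg]; exact (norm_ec _).le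
  have hgW : ∀ n < N', ‖g (n + 1) - g n‖ ≤ 2 * Real.pi * (|θ| * V) := by
    intro n hn
    have h1 := hV (a + n) (by rw [Finset.mem_Ico]; omega)
    rw [hg]; beta_reduce
    refine (norm_ec_sub_le _ _).trans ?_
    refine mul_le_mul_of_nonneg_left ?_ (by positivity)
    rw [← mul_sub, abs_mul]
    refine mul_le_mul_of_nonneg_left ?_ (abs_nonneg _)
    have e : a + ((n + 1 : ℕ) : ℤ) = a + n + 1 := by push_cast; ring
    rw [e]
    exact h1
  have hmain := periodic_sum q hq c hcper hc1 a N' g hg1 _ hgW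
  have h1 : ∑ n ∈ Ico a b, ec (((β : ℝ) / q + θ) * ((f.eval n : ℤ) : ℝ)) = ∑ i ∈ range N', c (a + i) * g i := by
    rw [sum_Ico_int, ← hN']
    refine Finset.sum_congr rfl fun i _ => ?_
    rw [hc, hg]; beta_reduce
    rw [← ec_add]
    congr 1
    obtain ⟨F, hF⟩ : ∃ F : ℤ, F = f.eval (a + i) := ⟨_, rfl⟩
    rw [← hF]
    push_cast
    ring
  have h2 : ∑ n ∈ Ico a b, ec (θ * ((f.eval n : ℤ) : ℝ)) = ∑ i ∈ range N', g i := by
    rw [sum_Ico_int, ← hN', hg]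
  have h3 : ∑ j ∈ range q, c j = cs q (C β * f) := by
    unfold cs
    rw [hc]
    refine Finset.sum_congr rfl fun j _ => ?_
    simp only [Polynomial.eval_mul, Polynomial.eval_C]
  rw [h3] at hmain
  rw [h1, h2]
  have h4 := norm_add_le (∑ i ∈ range N', c (a + i) * g i - cs q (C β * f) / q * ∑ i ∈ range N', g i)
    (cs q (C β * f) / q * ∑ i ∈ range N', g i)
  rw [sub_add_cancel] at h4
  have h5 : ‖cs q (C β * f) / q * ∑ i ∈ range N', g i‖ = ‖cs q (C β * f)‖ / q * ‖∑ i ∈ range N', g i‖ := by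
    rw [norm_mul, norm_div, Complex.norm_natCast]
  rw [h5] at h4
  have h6 : 2 * (q : ℝ) * (1 + N' * (2 * Real.pi * (|θ| * V))) ≤ 2 * q * (1 + N * (2 * Real.pi * (|θ| * V))) := by
    have h7 : (N' : ℝ) * (2 * Real.pi * (|θ| * V)) ≤ N * (2 * Real.pi * (|θ| * V)) :=
      mul_le_mul_of_nonneg_right hN'N (by positivity)
    exact mul_le_mul_of_nonneg_left (by linarith) (by positivity)
  linarith

/-- the general major arc bound. -/
theorem major_gen (D : ℕ) (hD : 1 ≤ D) (ε : ℝ) (hε : 0 < ε) (hε1 : ε ≤ 1) (L : ℕ) (hL : 1 ≤ L) (V : ℝ) (hV1 : 1 ≤ V) (hLV : (L : ℝ) ≤ V) :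
    ∃ K : ℝ, 1 ≤ K ∧ ∀ (X : ℕ) (_ : 1 ≤ X) (f : ℤ[X]) (_ : f.natDegree ≤ D) (_ : f.coeff D = L) (a b : ℤ)
      (_ : b - a ≤ X) (_ : ∀ n ∈ Ico a b, |((f.eval (n + 1) : ℤ) : ℝ) - ((f.eval n : ℤ) : ℝ)| ≤ V * (X : ℝ) ^ (D - 1))
      (q : ℕ) (_ : 1 ≤ q) (β : ℤ) (_ : IsCoprime β (q : ℤ)) (θ : ℝ)
      (_ : 2 * V * (q * (1 + |θ| * (X : ℝ) ^ D)) ≤ X),
      ∃ w : ℝ, 0 ≤ w ∧ w ≤ 1 ∧ ‖∑ n ∈ Ico a b, ec (((β : ℝ) / q + θ) * ((f.eval n : ℤ) : ℝ))‖ / X ≤
        w + K * (q * (1 + |θ| * (X : ℝ) ^ D)) / X ∧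
        w ^ (2 * D - 1) * (q * (1 + |θ| * (X : ℝ) ^ D)) ^ (1 - ε) ≤ K := by
  obtain ⟨Kc, hKc1, hKc⟩ := cs_bound D hD ε hε
  have hpi := Real.pi_pos
  obtain ⟨D', rfl⟩ : ∃ D', D = D' + 1 := ⟨D - 1, by omega⟩
  obtain ⟨Kv, hKv⟩ : ∃ Kv : ℝ, Kv = (10 * (D' : ℝ) + 4) ^ (D' + 1) := ⟨_, rfl⟩
  have hKv0 : 0 ≤ Kv := by rw [hKv]; positivity
  refine ⟨(L * Kc) * (1 + Kv) + 2 * (1 + 2 * Real.pi * V), ?_, ?_⟩
  · have h1 : (0 : ℝ) ≤ (L * Kc) * (1 + Kv) := by positivity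
    have h2 : (0 : ℝ) ≤ 2 * Real.pi * V := by positivity
    linarith
  intro X hX f hdeg hcoef a b hab hinc q hq β hβ θ hR
  have hXR : (1 : ℝ) ≤ X := by exact_mod_cast hX
  have hX0 : (0 : ℝ) < X := by linarith
  have hqR : (1 : ℝ) ≤ q := by exact_mod_cast hq
  have hq0 : (0 : ℝ) < q := by linarith
  have hLR : (1 : ℝ) ≤ L := by exact_mod_cast hL
  obtain ⟨t, ht⟩ : ∃ t : ℝ, t = |θ| * (X : ℝ) ^ (D' + 1) := ⟨_, rfl⟩
  have ht0 : 0 ≤ t := by rw [ht]; positivity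
  rw [← ht] at hR ⊢
  obtain ⟨R, hRd⟩ : ∃ R : ℝ, R = q * (1 + t) := ⟨_, rfl⟩
  rw [← hRd] at hR ⊢
  have hR1 : 1 ≤ R := by
    rw [hRd]
    calc (1 : ℝ) = 1 * 1 := by ring
      _ ≤ q * (1 + t) := mul_le_mul hqR (by linarith) zero_le_one (by linarith)
  have htR : t ≤ R := by
    rw [hRd]
    calc t ≤ 1 * (1 + t) := by linarith
      _ ≤ q * (1 + t) := mul_le_mul_of_nonneg_right hqR (by linarith)
  have hap := ap_sum q hq β θ f a b X hab (V * (X : ℝ) ^ (D' + 1 - 1)) (by positivity) hinc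
  rw [Nat.add_sub_cancel] at hap hinc
  obtain ⟨u, hu⟩ : ∃ u : ℝ, u = ‖cs q (C β * f)‖ / q := ⟨_, rfl⟩
  obtain ⟨v, hv⟩ : ∃ v : ℝ, v = ‖∑ n ∈ Ico a b, ec (θ * ((f.eval n : ℤ) : ℝ))‖ / X := ⟨_, rfl⟩
  have hu0 : 0 ≤ u := by rw [hu]; positivity
  have hu1 : u ≤ 1 := by rw [hu, div_le_one hq0]; exact norm_cs_le _ _
  have hv0 : 0 ≤ v := by rw [hv]; positivity
  have hv1 : v ≤ 1 := by
    rw [hv, div_le_one hX0]
    exact norm_sum_ec_le a b (fun n => θ * ((f.eval n : ℤ) : ℝ)) X hab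
  have hvX : ‖∑ n ∈ Ico a b, ec (θ * ((f.eval n : ℤ) : ℝ))‖ = v * X := by rw [hv]; field_simp
  rw [← hu, hvX] at hap
  refine ⟨u * v, by positivity, mul_le_one₀ hu1 hv0 hv1, ?_, ?_⟩
  · rw [div_le_iff₀ hX0]
    refine hap.trans ?_
    have e1 : (u * v + ((L * Kc) * (1 + Kv) + 2 * (1 + 2 * Real.pi * V)) * R / X) * X =
        u * (v * X) + ((L * Kc) * (1 + Kv) + 2 * (1 + 2 * Real.pi * V)) * R := by field_simp
    rw [e1]
    have e2 : (X : ℝ) * (2 * Real.pi * (|θ| * (V * (X : ℝ) ^ D'))) = 2 * Real.pi * V * t := by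
      rw [ht, pow_succ]; ring
    rw [e2]
    have h1 : 2 * (q : ℝ) * (1 + 2 * Real.pi * V * t) ≤ 2 * (1 + 2 * Real.pi * V) * R := by
      rw [hRd]
      have h2 : (1 : ℝ) + 2 * Real.pi * V * t ≤ (1 + 2 * Real.pi * V) * (1 + t) := by
        have : 0 ≤ 2 * Real.pi * V := by positivity
        have e3 : (1 + 2 * Real.pi * V) * (1 + t) = 1 + 2 * Real.pi * V * t + (t + 2 * Real.pi * V) := by ring
        rw [e3]; linarith
      calc 2 * (q : ℝ) * (1 + 2 * Real.pi * V * t) ≤ 2 * q * ((1 + 2 * Real.pi * V) * (1 + t)) :=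
            mul_le_mul_of_nonneg_left h2 (by positivity)
        _ = _ := by ring
    have h3 : 0 ≤ (L * Kc) * (1 + Kv) * R := by positivity
    have e4 : ((L * Kc) * (1 + Kv) + 2 * (1 + 2 * Real.pi * V)) * R = (L * Kc) * (1 + Kv) * R + 2 * (1 + 2 * Real.pi * V) * R := by
      ring
    rw [e4]
    linarith
  · have hcs := hKc (D' + 1) (by omega) q hq (C β * f) ((Polynomial.natDegree_C_mul_le _ _).trans hdeg)
    rw [← hu, Polynomial.coeff_C_mul, hcoef] at hcs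
    have hgcd : ((Int.gcd (β * (L : ℤ)) (q : ℤ) : ℕ) : ℝ) ≤ L := by
      have h1 : Int.gcd (β * (L : ℤ)) (q : ℤ) ∣ L := by
        have h2 : ((Int.gcd (β * (L : ℤ)) (q : ℤ) : ℕ) : ℤ) ∣ β * (L : ℤ) := Int.gcd_dvd_left _ _
        have h3 : ((Int.gcd (β * (L : ℤ)) (q : ℤ) : ℕ) : ℤ) ∣ (q : ℤ) := Int.gcd_dvd_right _ _
        have h4 : IsCoprime ((Int.gcd (β * (L : ℤ)) (q : ℤ) : ℕ) : ℤ) β := (IsCoprime.of_isCoprime_of_dvd_right hβ h3).symm
        exact_mod_cast h4.dvd_of_dvd_mul_left h2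
      exact_mod_cast Nat.le_of_dvd (by omega) h1
    have hcs2 : u ^ (2 * (D' + 1) - 1) * (q : ℝ) ^ (1 - ε) ≤ L * Kc :=
      hcs.trans (mul_le_mul_of_nonneg_right hgcd (by linarith))
    -- van der Corput
    have hPP : PP (D' + 1) (θ * L) (fun n : ℤ => θ * ((f.eval n : ℤ) : ℝ)) := by
      refine ⟨fun j => θ * ((f.coeff j : ℤ) : ℝ), fun n => ?_⟩
      beta_reduce
      rw [Polynomial.eval_eq_sum_range' (Nat.lt_succ_of_le hdeg) n, Finset.sum_range_succ, hcoef]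
      push_cast
      rw [mul_add, Finset.mul_sum]
      have : ∑ i ∈ range (D' + 1), θ * ((f.coeff i : ℝ) * (n : ℝ) ^ i) = ∑ i ∈ range (D' + 1), θ * (f.coeff i : ℝ) * (n : ℝ) ^ i :=
        Finset.sum_congr rfl fun i _ => by ring
      rw [this]
      ring
    have hRV : V * R / X ≤ 1 / 2 := by
      rw [div_le_iff₀ hX0]; linarith
    have hinc2 : ∀ n ∈ Ico a b, |(fun n : ℤ => θ * ((f.eval n : ℤ) : ℝ)) (n + 1) - (fun n : ℤ => θ * ((f.eval n : ℤ) : ℝ)) n| ≤ 1 / 2 := by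
      intro n hn
      beta_reduce
      rw [← mul_sub, abs_mul]
      calc |θ| * |((f.eval (n + 1) : ℤ) : ℝ) - ((f.eval n : ℤ) : ℝ)| ≤ |θ| * (V * (X : ℝ) ^ D') :=
            mul_le_mul_of_nonneg_left (hinc n hn) (abs_nonneg _)
        _ = V * t / X := by rw [ht, pow_succ]; field_simp
        _ ≤ V * R / X := by gcongr
        _ ≤ 1 / 2 := hRV
    have hXD : (1 : ℝ) ≤ (X : ℝ) ^ D' := one_le_pow₀ hXR
    have hA1 : |θ * L| ≤ 1 := by
      rw [abs_mul, abs_of_nonneg (show (0 : ℝ) ≤ L by linarith)]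
      have h1 : |θ| * X ≤ t := by
        rw [ht, pow_succ]
        calc |θ| * X = |θ| * (1 * X) := by ring
          _ ≤ |θ| * ((X : ℝ) ^ D' * X) := by gcongr
      have h2 : |θ| * L * X ≤ 1 * X := by
        calc |θ| * L * X = L * (|θ| * X) := by ring
          _ ≤ V * R := mul_le_mul hLV (h1.trans htR) (by positivity) (by linarith)
          _ ≤ 1 * X := by linarith
      exact le_of_mul_le_mul_right h2 hX0
    have hvdc := vdc D' (θ * L) (fun n : ℤ => θ * ((f.eval n : ℤ) : ℝ)) a b hPP hinc2 hA1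
    rw [hvX, ← hKv, abs_mul, abs_of_nonneg (show (0 : ℝ) ≤ L by linarith), mul_pow] at hvdc
    have hvt : v ^ (D' + 1) * t ≤ Kv := by
      calc v ^ (D' + 1) * t ≤ (v ^ (D' + 1) * t) * L := le_mul_of_one_le_right (by positivity) hLR
        _ = v ^ (D' + 1) * (X : ℝ) ^ (D' + 1) * (|θ| * L) := by rw [ht]; ring
        _ ≤ Kv := hvdc
    have hvt2 : v ^ (2 * (D' + 1) - 1) * (1 + t) ^ (1 - ε) ≤ 1 + Kv := by
      calc v ^ (2 * (D' + 1) - 1) * (1 + t) ^ (1 - ε) ≤ v ^ (D' + 1) * (1 + t) := by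
            refine mul_le_mul (pow_le_pow_of_le_one hv0 hv1 (by omega)) ?_ (by positivity) (by positivity)
            calc (1 + t) ^ (1 - ε) ≤ (1 + t) ^ (1 : ℝ) := Real.rpow_le_rpow_of_exponent_le (by linarith) (by linarith)
              _ = 1 + t := Real.rpow_one _
        _ = v ^ (D' + 1) + v ^ (D' + 1) * t := by ring
        _ ≤ 1 + Kv := add_le_add (pow_le_one₀ hv0 hv1) hvt
    have hRpow : R ^ (1 - ε) = (q : ℝ) ^ (1 - ε) * (1 + t) ^ (1 - ε) := by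
      rw [hRd, Real.mul_rpow hq0.le (by linarith)]
    calc (u * v) ^ (2 * (D' + 1) - 1) * R ^ (1 - ε)
        = (u ^ (2 * (D' + 1) - 1) * (q : ℝ) ^ (1 - ε)) * (v ^ (2 * (D' + 1) - 1) * (1 + t) ^ (1 - ε)) := by
          rw [hRpow, mul_pow]; ring
      _ ≤ (L * Kc) * (1 + Kv) := mul_le_mul hcs2 hvt2 (by positivity) (by positivity)
      _ ≤ _ := by
          have : 0 ≤ 2 * (1 + 2 * Real.pi * V) := by positivity
          linarith

end Pool.Agent.helper132_h
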